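import Pool.Agent.Lib.MP_c23e5f_co.G.PCone

section

set_option autoImplicit false

namespace Pool.Agent.Lib.MP_c23e5f_co.G

open Pool.Agent.Lib.MP_c23e5f_co

/-- (1.5) -/
theorem sum_nf_le {β t m : ℝ} {H : ℕ} (hZ : Z β H t m = 1) (R : ℕ) (s : Finset Wd)
    (hs : ∀ x ∈ s, Br x ∧ x ≠ [] ∧ nf x ≤ R ∧ x.length ≤ H) :
    ∑ x ∈ s, E β t m x ≤ R := by
  classical
  have hmaps : ∀ x ∈ s, nf x ∈ Finset.Icc 1 R := fun x hx =>
    Finset.mem_Icc.2 ⟨nf_pos (hs x hx).1 (hs x hx).2.1, (hs x hx).2.2.1⟩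
  rw [← Finset.sum_fiberwise_of_maps_to hmaps]
  have key : ∀ r ∈ Finset.Icc 1 R, ∑ x ∈ s.filter (fun x => nf x = r), E β t m x ≤ 1 := by
    intro r _
    have h1 : ∑ x ∈ s.filter (fun x => nf x = r), E β t m x =
        ∑ L ∈ (s.filter (fun x => nf x = r)).image fac, (L.map (E β t m)).prod := by
      rw [Finset.sum_image]
      · refine Finset.sum_congr rfl fun x hx => ?_
        rw [← E_flatten, flatten_fac (hs x (Finset.mem_filter.1 hx).1).1]
      · intro x hx y hy h
        have h2 := congrArg List.flatten h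
        rwa [flatten_fac (hs x (Finset.mem_filter.1 (Finset.mem_coe.1 hx)).1).1,
          flatten_fac (hs y (Finset.mem_filter.1 (Finset.mem_coe.1 hy)).1).1] at h2
    rw [h1]
    have hnn : ∀ L : List Wd, 0 ≤ (L.map (E β t m)).prod := by
      intro L
      rw [← E_flatten]
      exact (E_pos _ _ _ _).le
    calc ∑ L ∈ (s.filter (fun x => nf x = r)).image fac, (L.map (E β t m)).prod
        ≤ ∑ L ∈ lsts (irrs H) r, (L.map (E β t m)).prod := by
          refine Finset.sum_le_sum_of_subset_of_nonneg ?_ fun L _ _ => hnn L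
          intro L hL
          obtain ⟨x, hx, rfl⟩ := Finset.mem_image.1 hL
          obtain ⟨hxs, hxr⟩ := Finset.mem_filter.1 hx
          refine mem_lsts.2 ⟨hxr, fun a ha => mem_irrs.2 ⟨fac_irr x a ha, ?_⟩⟩
          exact (length_le_of_mem_fac (hs x hxs).1 ha).trans (hs x hxs).2.2.2
      _ = 1 := by
          rw [sum_lsts_prod]
          change Z β H t m ^ r = 1
          rw [hZ, one_pow]
  refine (Finset.sum_le_sum key).trans ?_
  simp

end Pool.Agent.Lib.MP_c23e5f_co.G
end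

section

set_option autoImplicit false

namespace Pool.Agent.Lib.MP_c23e5f_co.G

open Pool.Agent.Lib.MP_c23e5f_co

private theorem gm2_bounds {H : ℕ} {w : Wd} (hw : w ∈ irrs H) :
    (1 : ℝ) ≤ hR w ∧ hR w ≤ (w.length : ℝ) := by
  rw [mem_irrs] at hw
  have h1 := hw.1.br.ht_pos hw.1.ne
  have h2 := (abs_sum_le hw.1.br.saw.step).1
  have h3 : w.sum.1 ≤ (w.length : ℤ) := (le_abs_self _).trans h2
  unfold hR
  constructor
  · exact_mod_cast h1
  · exact_mod_cast h3

/-- (1.2) -/
theorem exists_mass {β t : ℝ} (hβ : CR β) (ht : 0 ≤ t) {H : ℕ} (hH : 1 ≤ H) :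
    ∃ m, Mass β H t m := by
  have hcont : Continuous (fun m => Z β H t m) := by
    unfold Z E
    fun_prop
  have h1 : Z β H t t ≤ 1 := by
    refine le_trans ?_ (Z_zero_le hβ H)
    unfold Z
    refine Finset.sum_le_sum fun w hw => ?_
    unfold E
    refine Real.exp_le_exp.2 ?_
    have h2 := (gm2_bounds hw).2
    unfold hR at h2
    nlinarith
  have h2 : 1 ≤ Z β H t (β + t) := by
    have hmem : [((1 : ℤ), (0 : ℤ))] ∈ irrs H := mem_irrs.2 ⟨irr_singleton, by simpa using hH⟩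
    have h3 : E β t (β + t) [((1 : ℤ), (0 : ℤ))] = 1 := by
      unfold E
      simp
    unfold Z
    rw [← h3]
    exact Finset.single_le_sum (f := fun w => E β t (β + t) w)
      (fun w _ => (E_pos β t (β + t) w).le) hmem
  have h3 : t ≤ β + t := by linarith [hβ.nonneg]
  obtain ⟨m, hm, hZ⟩ := intermediate_value_Icc h3 hcont.continuousOn ⟨h1, h2⟩
  exact ⟨m, ht, hm.1, hZ⟩

theorem one_le_g {β t m : ℝ} {H : ℕ} (h : Mass β H t m) : 1 ≤ Ex β H t m hR := by
  rw [← h.z]
  unfold Z Ex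
  refine Finset.sum_le_sum fun w hw => ?_
  exact le_mul_of_one_le_right (E_pos β t m w).le (gm2_bounds hw).1

theorem g_le_len {β t m : ℝ} {H : ℕ} :
    Ex β H t m hR ≤ Ex β H t m (fun w => (w.length : ℝ)) := by
  unfold Ex
  refine Finset.sum_le_sum fun w hw => ?_
  exact mul_le_mul_of_nonneg_left (gm2_bounds hw).2 (E_pos β t m w).le

/-- (1.3) -/
theorem mass_ineq {β t m t' m' : ℝ} {H : ℕ} (h : Mass β H t m) (h' : Mass β H t' m') :
    (m' - m) * Ex β H t m hR ≤ (t' - t) * Ex β H t m (fun w => (w.length : ℝ)) := by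
  have h1 : Z β H t' m' ≥ ∑ w ∈ irrs H,
      (E β t m w + (m' - m) * (E β t m w * hR w) - (t' - t) * (E β t m w * (w.length : ℝ))) := by
    unfold Z
    refine Finset.sum_le_sum fun w _ => ?_
    have h2 : E β t' m' w = E β t m w *
        Real.exp (-(t' - t) * w.length + (m' - m) * hR w) := by
      unfold E hR
      rw [← Real.exp_add]
      congr 1
      ring
    rw [h2]
    have h3 := Real.add_one_le_exp (-(t' - t) * (w.length : ℝ) + (m' - m) * hR w)
    have h4 := mul_le_mul_of_nonneg_left h3 (E_pos β t m w).le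
    linarith
  rw [Finset.sum_sub_distrib, Finset.sum_add_distrib, ← Finset.mul_sum, ← Finset.mul_sum] at h1
  have h5 : ∑ w ∈ irrs H, E β t m w = 1 := h.z
  rw [h'.z, h5] at h1
  unfold Ex
  linarith

/-- (1.4) -/
theorem kappa_le {β t m : ℝ} {H : ℕ} (hβ : CR β) (hH : 1 ≤ H) (h : Mass β H t m) :
    t * Ex β H t m (fun w => (w.length : ℝ)) ≤ m * Ex β H t m hR := by
  obtain ⟨m0, h0⟩ := exists_mass hβ le_rfl hH
  have h1 := mass_ineq h h0
  have h2 := one_le_g h
  have h3 : 0 ≤ m0 := h0.tm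
  nlinarith

theorem phi_anti {β t m t' m' : ℝ} {H : ℕ} (hβ : CR β) (hH : 1 ≤ H) (ht : 0 < t) (htt : t ≤ t')
    (h : Mass β H t m) (h' : Mass β H t' m') : m' * t ≤ m * t' := by
  have h1 := mass_ineq h h'
  have h2 := kappa_le hβ hH h
  have h3 := one_le_g h
  have h4 : t * ((m' - m) * Ex β H t m hR) ≤ (t' - t) * (m * Ex β H t m hR) := by
    calc t * ((m' - m) * Ex β H t m hR)
        ≤ t * ((t' - t) * Ex β H t m (fun w => (w.length : ℝ))) :=
          mul_le_mul_of_nonneg_left h1 ht.le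
      _ = (t' - t) * (t * Ex β H t m (fun w => (w.length : ℝ))) := by ring
      _ ≤ (t' - t) * (m * Ex β H t m hR) :=
          mul_le_mul_of_nonneg_left h2 (by linarith)
  have h5 : (m' * t - m * t') * Ex β H t m hR ≤ 0 := by linarith
  by_contra hcon
  push Not at hcon
  have h6 : 0 < (m' * t - m * t') * Ex β H t m hR := mul_pos (by linarith) (by linarith)
  linarith

end Pool.Agent.Lib.MP_c23e5f_co.G
end
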