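import Mathlib

/-!
# finite sums over lists
-/

set_option autoImplicit false

namespace Pool.Agent.Lib.MP_c23e5f_co.G

variable {ι : Type*}

open Classical in
/-- lists of length `N` with entries in `s` -/
noncomputable def lsts (s : Finset ι) : ℕ → Finset (List ι)
  | 0 => {[]}
  | N + 1 => (s ×ˢ lsts s N).image (fun p => p.1 :: p.2)

theorem mem_lsts {s : Finset ι} {N : ℕ} {L : List ι} :
    L ∈ lsts s N ↔ L.length = N ∧ ∀ a ∈ L, a ∈ s := by
  classical
  induction N generalizing L with
  | zero =>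
    rw [lsts, Finset.mem_singleton, List.length_eq_zero_iff]
    constructor
    · rintro rfl
      exact ⟨rfl, fun a ha => absurd ha List.not_mem_nil⟩
    · exact fun h => h.1
  | succ N ih =>
    rw [lsts, Finset.mem_image]
    constructor
    · rintro ⟨⟨a, L'⟩, hp, rfl⟩
      rw [Finset.mem_product] at hp
      obtain ⟨h1, h2⟩ := ih.1 hp.2
      refine ⟨by simp [h1], fun b hb => ?_⟩
      rcases List.mem_cons.1 hb with rfl | hb
      · exact hp.1
      · exact h2 b hb
    · rintro ⟨h1, h2⟩
      cases L with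
      | nil => simp at h1
      | cons a L' =>
        refine ⟨(a, L'), ?_, rfl⟩
        rw [Finset.mem_product]
        refine ⟨h2 a List.mem_cons_self, ih.2 ⟨by simpa using h1, fun b hb => ?_⟩⟩
        exact h2 b (List.mem_cons_of_mem _ hb)

theorem sum_lsts_succ {M : Type*} [AddCommMonoid M] (s : Finset ι) (N : ℕ) (F : List ι → M) :
    ∑ L ∈ lsts s (N + 1), F L = ∑ a ∈ s, ∑ L ∈ lsts s N, F (a :: L) := by
  classical
  rw [lsts, Finset.sum_image, Finset.sum_product]
  rintro ⟨a, L⟩ _ ⟨b, L'⟩ _ h
  simp only [List.cons.injEq] at h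
  exact Prod.ext h.1 h.2

theorem sum_lsts_add {M : Type*} [AddCommMonoid M] (s : Finset ι) (N N' : ℕ) (F : List ι → M) :
    ∑ L ∈ lsts s (N + N'), F L = ∑ A ∈ lsts s N, ∑ B ∈ lsts s N', F (A ++ B) := by
  induction N generalizing F with
  | zero =>
    rw [Nat.zero_add]
    have h : lsts s 0 = {[]} := rfl
    rw [h, Finset.sum_singleton]
    simp only [List.nil_append]
  | succ N ih =>
    rw [show N + 1 + N' = (N + N') + 1 by ring, sum_lsts_succ, sum_lsts_succ]
    refine Finset.sum_congr rfl fun a _ => ?_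
    rw [ih (fun L => F (a :: L))]
    rfl

theorem sum_lsts_prod (s : Finset ι) (w : ι → ℝ) (N : ℕ) :
    ∑ L ∈ lsts s N, (L.map w).prod = (∑ a ∈ s, w a) ^ N := by
  induction N with
  | zero =>
    have h : lsts s 0 = {[]} := rfl
    rw [h, Finset.sum_singleton]
    simp
  | succ N ih =>
    rw [sum_lsts_succ, pow_succ', ← ih, Finset.sum_mul]
    refine Finset.sum_congr rfl fun a _ => ?_
    rw [Finset.mul_sum]
    refine Finset.sum_congr rfl fun L _ => ?_
    rw [List.map_cons, List.prod_cons]

end Pool.Agent.Lib.MP_c23e5f_co.G
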