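import Pool.Agent.Lib.MP_c23e5f_co.G.PInv
import Pool.Agent.Lib.MP_c23e5f_co.G.GLists

section

set_option autoImplicit false

namespace Pool.Agent.Lib.MP_c23e5f_co.G

open Pool.Agent.Lib.MP_c23e5f_co

theorem exists_fac {w : Wd} (h : Br w) : ∃ L : List Wd, (∀ a ∈ L, Irr a) ∧ L.flatten = w := by
  induction hn : w.length using Nat.strong_induction_on generalizing w with
  | _ n ih =>
    by_cases hw : w = []
    · exact ⟨[], by simp, by simp [hw]⟩
    by_cases hirr : Irr w
    · exact ⟨[w], by simpa using hirr, by simp⟩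
    · have : ∃ u v, Br u ∧ Br v ∧ u ++ v = w ∧ u ≠ [] ∧ v ≠ [] := by
        by_contra hcon
        apply hirr
        refine ⟨h, hw, fun u v hu hv huv => ?_⟩
        by_contra h2
        push Not at h2
        exact hcon ⟨u, v, hu, hv, huv, h2.1, h2.2⟩
      obtain ⟨u, v, hu, hv, huv, hune, hvne⟩ := this
      have hlen : u.length + v.length = n := by rw [← hn, ← huv, List.length_append]
      have h1 := List.length_pos_of_ne_nil hune
      have h2 := List.length_pos_of_ne_nil hvne
      obtain ⟨L1, hL1, e1⟩ := ih u.length (by omega) hu rfl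
      obtain ⟨L2, hL2, e2⟩ := ih v.length (by omega) hv rfl
      exact ⟨L1 ++ L2, fun a ha => (List.mem_append.1 ha).elim (hL1 a) (hL2 a), by
        rw [List.flatten_append, e1, e2, huv]⟩

private theorem fac_first {a a' v v' : Wd} (ha : Irr a) (ha' : Irr a') (hv : Br v) (hv' : Br v')
    (h : a ++ v = a' ++ v') (hl : a.length ≤ a'.length) : a = a' := by
  obtain ⟨m, hm, h1, h2⟩ := br_refine ha.br hv ha'.br hv' h hl
  rcases ha'.irr a m ha.br hm h1.symm with h3 | h3
  · exact absurd h3 ha.ne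
  · rw [h1, h3, List.append_nil]

theorem fac_unique {L L' : List Wd} (h : ∀ a ∈ L, Irr a) (h' : ∀ a ∈ L', Irr a)
    (e : L.flatten = L'.flatten) : L = L' := by
  induction L generalizing L' with
  | nil =>
    cases L' with
    | nil => rfl
    | cons a M =>
      exfalso
      rw [List.flatten_nil, List.flatten_cons] at e
      have := (List.append_eq_nil_iff.1 e.symm).1
      exact (h' a (by simp)).ne this
  | cons a M ih =>
    cases L' with
    | nil =>
      exfalso
      rw [List.flatten_nil, List.flatten_cons] at e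
      have := (List.append_eq_nil_iff.1 e).1
      exact (h a (by simp)).ne this
    | cons a' M' =>
      rw [List.flatten_cons, List.flatten_cons] at e
      have hM : Br M.flatten := Br.flatten fun b hb => (h b (by simp [hb])).br
      have hM' : Br M'.flatten := Br.flatten fun b hb => (h' b (by simp [hb])).br
      have haa : a = a' := by
        rcases le_total a.length a'.length with hl | hl
        · exact fac_first (h a (by simp)) (h' a' (by simp)) hM hM' e hl
        · exact (fac_first (h' a' (by simp)) (h a (by simp)) hM' hM e.symm hl).symm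
      subst haa
      have e2 := List.append_cancel_left e
      rw [ih (fun b hb => h b (by simp [hb])) (fun b hb => h' b (by simp [hb])) e2]

theorem fac_irr (w : Wd) : ∀ a ∈ fac w, Irr a := by
  unfold fac
  split_ifs with h
  · exact h.choose_spec.1
  · simp

theorem flatten_fac {w : Wd} (h : Br w) : (fac w).flatten = w := by
  have h1 := exists_fac h
  unfold fac
  rw [dif_pos h1]
  exact h1.choose_spec.2

theorem fac_flatten {L : List Wd} (h : ∀ a ∈ L, Irr a) : fac L.flatten = L :=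
  fac_unique (fac_irr _) h (flatten_fac (Br.flatten fun a ha => (h a ha).br))

theorem nf_pos {w : Wd} (h : Br w) (hne : w ≠ []) : 1 ≤ nf w := by
  rw [nf, Nat.one_le_iff_ne_zero]
  intro h0
  have h1 : fac w = [] := List.length_eq_zero_iff.1 h0
  have h2 := flatten_fac h
  rw [h1, List.flatten_nil] at h2
  exact hne h2.symm

private theorem length_le_sum (L : List Wd) (h : ∀ a ∈ L, Irr a) :
    (L.length : ℤ) ≤ L.flatten.sum.1 := by
  induction L with
  | nil => simp
  | cons a M ih =>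
    rw [List.flatten_cons, List.sum_append, Prod.fst_add, List.length_cons]
    have h1 := ih fun b hb => h b (by simp [hb])
    have h2 := (h a (by simp)).br.ht_pos (h a (by simp)).ne
    push_cast
    linarith

theorem nf_le_ht {w : Wd} (h : Br w) : (nf w : ℤ) ≤ w.sum.1 := by
  have h1 := length_le_sum (fac w) (fac_irr w)
  rw [flatten_fac h] at h1
  exact h1

theorem nf_le_length {w : Wd} (h : Br w) : nf w ≤ w.length := by
  have h1 := nf_le_ht h
  have h2 := (abs_sum_le h.saw.step).1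
  have h3 := le_abs_self w.sum.1
  omega

theorem length_le_of_mem_fac {w : Wd} (h : Br w) {a : Wd} (ha : a ∈ fac w) :
    a.length ≤ w.length := by
  conv_rhs => rw [← flatten_fac h]
  exact (List.sublist_flatten_of_mem ha).length_le

/-- (0.4) -/
theorem nf_le_of_cuts {w : Wd} (h : Br w) (hne : w ≠ []) (S : Finset ℤ)
    (hS : ∀ u v, Br u → Br v → u ≠ [] → v ≠ [] → u ++ v = w → u.sum.1 ∈ S) :
    nf w ≤ S.card + 1 := by
  set L := fac w with hL
  have hI := fac_irr w
  rw [← hL] at hI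
  have hfl := flatten_fac h
  rw [← hL] at hfl
  have hu : ∀ j, Br (L.take j).flatten := fun j =>
    Br.flatten fun a ha => (hI a (List.mem_of_mem_take ha)).br
  have hv : ∀ j, Br (L.drop j).flatten := fun j =>
    Br.flatten fun a ha => (hI a (List.mem_of_mem_drop ha)).br
  have hune : ∀ j, 1 ≤ j → j < L.length → (L.take j).flatten ≠ [] := by
    intro j hj hjl h0
    have h1 := length_le_sum (L.take j) fun a ha => hI a (List.mem_of_mem_take ha)
    rw [h0, List.length_take, List.sum_nil, Prod.fst_zero] at h1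
    omega
  have hvne : ∀ j, 1 ≤ j → j < L.length → (L.drop j).flatten ≠ [] := by
    intro j hj hjl h0
    have h1 := length_le_sum (L.drop j) fun a ha => hI a (List.mem_of_mem_drop ha)
    rw [h0, List.length_drop, List.sum_nil, Prod.fst_zero] at h1
    omega
  have hstep : ∀ j, j < L.length → (L.take j).flatten.sum.1 < (L.take (j + 1)).flatten.sum.1 := by
    intro j hj
    rw [List.take_succ_eq_append_getElem hj, List.flatten_append, List.sum_append, Prod.fst_add]
    have h1 := (hI _ (List.getElem_mem hj)).br.ht_pos (hI _ (List.getElem_mem hj)).ne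
    simp only [List.flatten_cons, List.flatten_nil, List.append_nil]
    omega
  have hmono : ∀ i j, i < j → j ≤ L.length →
      (L.take i).flatten.sum.1 < (L.take j).flatten.sum.1 := by
    intro i j hij hj
    induction j with
    | zero => omega
    | succ j ih =>
      rcases Nat.lt_succ_iff_lt_or_eq.1 hij with h1 | h1
      · exact (ih h1 (by omega)).trans (hstep j (by omega))
      · subst h1
        exact hstep i (by omega)
  have hcard : (Finset.Ico 1 L.length).card ≤ S.card := by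
    refine Finset.card_le_card_of_injOn (fun j => (L.take j).flatten.sum.1) ?_ ?_
    · intro j hj
      have hj' := Finset.mem_Ico.1 (Finset.mem_coe.1 hj)
      refine Finset.mem_coe.2 (hS _ _ (hu j) (hv j) (hune j hj'.1 hj'.2) (hvne j hj'.1 hj'.2) ?_)
      rw [← List.flatten_append, List.take_append_drop, hfl]
    · intro i hi j hj hij
      have hi' := Finset.mem_Ico.1 (Finset.mem_coe.1 hi)
      have hj' := Finset.mem_Ico.1 (Finset.mem_coe.1 hj)
      rcases lt_trichotomy i j with h1 | h1 | h1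
      · exact absurd hij (hmono i j h1 hj'.2.le).ne
      · exact h1
      · exact absurd hij (hmono j i h1 hi'.2.le).ne'
  rw [Nat.card_Ico] at hcard
  show L.length ≤ S.card + 1
  omega

end Pool.Agent.Lib.MP_c23e5f_co.G
end

section

set_option autoImplicit false

namespace Pool.Agent.Lib.MP_c23e5f_co.G

open Pool.Agent.Lib.MP_c23e5f_co

theorem length_sb {w : Wd} {i j : ℕ} (hj : j ≤ w.length) : (sb w i j).length = j - i := by
  rw [sb, List.length_drop, List.length_take, min_eq_left hj]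

theorem sum_sb (w : Wd) {i j : ℕ} (hij : i ≤ j) : (sb w i j).sum = pos w j - pos w i := by
  rw [sb, sum_drop, pos_take hij]
  rfl

theorem pos_sb (w : Wd) {i j k : ℕ} (hk : i + k ≤ j) : pos (sb w i j) k = pos w (i + k) - pos w i := by
  rw [sb, pos_drop, pos_take hk, pos_take (by omega)]

/-- a subword with the properties of a bridge -/
theorem br_sb {w : Wd} (hw : IsSaw w) {i j : ℕ} (hij : i ≤ j) (hj : j ≤ w.length)
    (h1 : ∀ k, i < k → k ≤ j → (pos w i).1 < (pos w k).1)
    (h2 : ∀ k, i ≤ k → k ≤ j → (pos w k).1 ≤ (pos w j).1) : Br (sb w i j) := by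
  refine ⟨(hw.take j).drop i, fun k hk hk2 => ?_, fun k hk2 => ?_⟩
  · rw [length_sb hj] at hk2
    rw [pos_sb w (by omega), Prod.fst_sub]
    have := h1 (i + k) (by omega) (by omega)
    omega
  · rw [length_sb hj] at hk2
    rw [pos_sb w (by omega), sum_sb w hij, Prod.fst_sub, Prod.fst_sub]
    have := h2 (i + k) (by omega) (by omega)
    omega

/-- a reflected subword with the properties of a bridge -/
theorem br_sb_fl {w : Wd} (hw : IsSaw w) {i j : ℕ} (hij : i ≤ j) (hj : j ≤ w.length)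
    (h1 : ∀ k, i < k → k ≤ j → (pos w k).1 < (pos w i).1)
    (h2 : ∀ k, i ≤ k → k ≤ j → (pos w j).1 ≤ (pos w k).1) : Br ((sb w i j).map fl) := by
  have hinj : Function.Injective fl := by
    intro a b hab
    simp only [fl_apply, Prod.mk.injEq, neg_inj] at hab
    exact Prod.ext hab.1 hab.2
  have hstep : ∀ v, IsStep v → IsStep (fl v) := by
    intro v hv
    simp only [IsStep, fl_apply, Int.natAbs_neg] at *
    exact hv
  refine ⟨((hw.take j).drop i).map fl hinj hstep, fun k hk hk2 => ?_, fun k hk2 => ?_⟩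
  · rw [List.length_map, length_sb hj] at hk2
    rw [pos_map, pos_sb w (by omega), fl_apply, Prod.fst_sub]
    have := h1 (i + k) (by omega) (by omega)
    show 0 < -((pos w (i + k)).1 - (pos w i).1)
    omega
  · rw [List.length_map, length_sb hj] at hk2
    have hs : ((sb w i j).map fl).sum = fl (sb w i j).sum := (map_list_sum fl _).symm
    rw [pos_map, pos_sb w (by omega), hs, sum_sb w hij, fl_apply, fl_apply, Prod.fst_sub,
      Prod.fst_sub]
    have := h2 (i + k) (by omega) (by omega)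
    show -((pos w (i + k)).1 - (pos w i).1) ≤ -((pos w j).1 - (pos w i).1)
    omega

theorem SS.pos_i {w : Wd} (hw : Br w) {i j : ℕ} (h : SS w i j) : 1 ≤ i := by
  by_contra hc
  have hi : i = 0 := by omega
  have h1 := h.b j h.ij le_rfl
  rw [hi, pos_zero] at h1
  have h2 := hw.pos_nonneg j
  simp only [Prod.fst_zero] at h1
  omega

theorem SS.j_lt {w : Wd} (hw : Br w) {i j : ℕ} (h : SS w i j) : j < w.length := by
  rcases lt_or_eq_of_le h.jn with h1 | h1
  · exact h1
  · exfalso
    have h2 := h.b j h.ij le_rfl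
    have h3 : pos w j = w.sum := pos_of_length_le (by omega)
    rw [h3] at h2
    have h4 := hw.pos_le i
    omega

theorem SS.scal_pos {w : Wd} {i j : ℕ} (h : SS w i j) : 1 ≤ scal w i j := by
  have := h.b j h.ij le_rfl
  unfold scal
  omega

theorem SS.low {w : Wd} (hw : Br w) {i j : ℕ} (h : SS w i j) : 1 ≤ (pos w j).1 := by
  have h1 := h.ij
  have := hw.gt j (by omega) h.jn
  omega

/-- (2.2) -/
theorem SS.br_take {w : Wd} (hw : Br w) {i j : ℕ} (h : SS w i j) : Br (w.take i) := by
  have h1 := h.ij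
  have h2 := h.jn
  exact hw.take (by omega) (fun k hk => h.a k (by omega))

theorem SS.br_mid {w : Wd} (hw : Br w) {i j : ℕ} (h : SS w i j) : Br ((sb w i j).map fl) := by
  have h2 := h.jn
  exact br_sb_fl hw.saw h.ij.le h.jn h.b (fun k hk hk2 => h.c k hk (by omega))

theorem SS.br_drop {w : Wd} (hw : Br w) {i j : ℕ} (h : SS w i j) : Br (w.drop j) :=
  hw.drop h.jn h.d

end Pool.Agent.Lib.MP_c23e5f_co.G
end

section

set_option autoImplicit false

namespace Pool.Agent.Lib.MP_c23e5f_co.G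

open Pool.Agent.Lib.MP_c23e5f_co

theorem E_pos (β t m : ℝ) (w : Wd) : 0 < E β t m w := Real.exp_pos _

theorem E_append (β t m : ℝ) (u v : Wd) : E β t m (u ++ v) = E β t m u * E β t m v := by
  rw [E, E, E, ← Real.exp_add, List.length_append, List.sum_append]
  congr 1
  simp only [Prod.fst_add]
  push_cast
  ring

theorem E_flatten (β t m : ℝ) (L : List Wd) : E β t m L.flatten = (L.map (E β t m)).prod := by
  induction L with
  | nil => simp [E]
  | cons a L ih => rw [List.flatten_cons, E_append, ih, List.map_cons, List.prod_cons]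

private lemma length_flatten_le {H : ℕ} {L : List Wd} (h : ∀ a ∈ L, a.length ≤ H) :
    L.flatten.length ≤ L.length * H := by
  induction L with
  | nil => simp
  | cons a L ih =>
    rw [List.flatten_cons, List.length_append, List.length_cons]
    have h1 := h a (List.mem_cons_self)
    have h2 := ih (fun b hb => h b (List.mem_cons_of_mem _ hb))
    nlinarith

private lemma Z_pow_le {β : ℝ} (hβ : CR β) (H N : ℕ) : Z β H 0 0 ^ N ≤ (N * H + 1 : ℕ) := by
  classical
  have e1 : Z β H 0 0 ^ N = ∑ L ∈ lsts (irrs H) N, E β 0 0 L.flatten := by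
    rw [Z, ← sum_lsts_prod]
    exact Finset.sum_congr rfl fun L _ => (E_flatten β 0 0 L).symm
  have hinj : Set.InjOn (fun L : List Wd => L.flatten) (lsts (irrs H) N : Set (List Wd)) := by
    intro L hL L' hL' e
    have h1 := (mem_lsts.1 (Finset.mem_coe.1 hL)).2
    have h2 := (mem_lsts.1 (Finset.mem_coe.1 hL')).2
    exact fac_unique (fun a ha => (mem_irrs.1 (h1 a ha)).1) (fun a ha => (mem_irrs.1 (h2 a ha)).1) e
  set X : Finset Wd := (lsts (irrs H) N).image (fun L : List Wd => L.flatten) with hX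
  have e2 : ∑ L ∈ lsts (irrs H) N, E β 0 0 L.flatten = ∑ x ∈ X, E β 0 0 x := by
    rw [hX, Finset.sum_image hinj]
  have hXb : ∀ x ∈ X, Br x ∧ x.length ≤ N * H := by
    intro x hx
    rw [hX, Finset.mem_image] at hx
    obtain ⟨L, hL, rfl⟩ := hx
    obtain ⟨h1, h2⟩ := mem_lsts.1 hL
    refine ⟨Br.flatten fun a ha => (mem_irrs.1 (h2 a ha)).1.br, ?_⟩
    rw [← h1]
    exact length_flatten_le fun a ha => (mem_irrs.1 (h2 a ha)).2
  have hmaps : ∀ x ∈ X, x.sum.1.toNat ∈ Finset.range (N * H + 1) := by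
    intro x hx
    obtain ⟨h1, h2⟩ := hXb x hx
    have h3 := abs_sum_le h1.saw.step
    have h4 := h1.ht_nonneg
    rw [Finset.mem_range]
    have h5 : x.sum.1 ≤ x.length := by
      have := le_abs_self x.sum.1
      omega
    omega
  rw [e1, e2, ← Finset.sum_fiberwise_of_maps_to hmaps]
  have h6 : ∀ T ∈ Finset.range (N * H + 1),
      ∑ x ∈ X with x.sum.1.toNat = T, E β 0 0 x ≤ 1 := by
    intro T _
    have h7 := hβ.sum_le (T : ℤ) (X.filter fun x => x.sum.1.toNat = T) (by
      intro w hw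
      rw [Finset.mem_filter] at hw
      refine ⟨(hXb w hw.1).1, ?_⟩
      have := (hXb w hw.1).1.ht_nonneg
      omega)
    refine le_trans (le_of_eq ?_) h7
    refine Finset.sum_congr rfl fun x _ => ?_
    rw [E]
    congr 1
    ring
  calc ∑ T ∈ Finset.range (N * H + 1), ∑ x ∈ X with x.sum.1.toNat = T, E β 0 0 x
      ≤ ∑ T ∈ Finset.range (N * H + 1), (1 : ℝ) := Finset.sum_le_sum h6
    _ = ((N * H + 1 : ℕ) : ℝ) := by simp

/-- (1.1) -/
theorem Z_zero_le {β : ℝ} (hβ : CR β) (H : ℕ) : Z β H 0 0 ≤ 1 := by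
  by_contra hcon
  push Not at hcon
  set z := Z β H 0 0 with hz
  -- `N / z^N → 0` and `1 / z^N → 0`
  have h1 := tendsto_pow_const_div_const_pow_of_one_lt 1 hcon
  have h0 := tendsto_pow_const_div_const_pow_of_one_lt 0 hcon
  have h2 : Filter.Tendsto (fun N : ℕ => ((N : ℝ) ^ 1 / z ^ N) * H + (N : ℝ) ^ 0 / z ^ N)
      Filter.atTop (nhds (0 * H + 0)) := (h1.mul_const _).add h0
  rw [zero_mul, add_zero] at h2
  obtain ⟨N, hN⟩ := ((h2.eventually (gt_mem_nhds (show (0 : ℝ) < 1 by norm_num))).exists)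
  have h3 := Z_pow_le hβ H N
  rw [← hz] at h3
  have h4 : 0 < z ^ N := by positivity
  have h5 : ((N : ℝ) ^ 1 / z ^ N) * H + (N : ℝ) ^ 0 / z ^ N = (N * H + 1) / z ^ N := by
    field_simp
    try ring
  rw [h5, div_lt_one h4] at hN
  push_cast at h3
  linarith

end Pool.Agent.Lib.MP_c23e5f_co.G
end

section

section

set_option autoImplicit false

namespace Pool.Agent.Lib.MP_c23e5f_co.G

variable {ι : Type*} {s : Finset ι} {w h l ξ : ι → ℝ} {σ : ι → ι} {g K D L : ℝ}

private theorem PD.pdet_facts (pd : PD s w h l ξ σ g K D L) :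
    0 ≤ g ∧ g ≤ L ∧ 0 < L ∧ 0 < 1 / (2 ^ 17 * K) ∧ 1 / (2 ^ 17 * K) ≤ 1 / 2 ^ 17 := by
  have hK := pd.K1
  have hD := pd.D1
  have hL := pd.hL
  have hg := pd.g_le
  have hg1 := pd.one_le_g
  have h0 : 1 ≤ K ^ 2 := one_le_pow₀ hK
  have h1 : D ≤ K ^ 2 * D := le_mul_of_one_le_left (by linarith) h0
  have h2 : (2 : ℝ) ^ 25 * D ≤ L := by nlinarith
  have h3 : (2 : ℝ) ≤ 2 ^ 25 := by norm_num
  have h4 : 2 * D ≤ L := by nlinarith
  refine ⟨by linarith, by linarith, by linarith, by positivity, ?_⟩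
  apply one_div_le_one_div_of_le (by positivity)
  nlinarith

theorem PD.fc_of_sc (pd : PD s w h l ξ σ g K D L) {x : List ι} (hx : ∀ a ∈ x, a ∈ s)
    (h1 : SC h l ξ g (1 / (2 ^ 17 * K)) L x) : FC h l ξ L x := by
  obtain ⟨hg0, hgL, hL0, he0, he1⟩ := pd.pdet_facts
  intro A a B hAB
  obtain ⟨h2, h3⟩ := h1.1 A (a :: B) hAB
  have h4 := h1.2 A a B hAB
  have h5 : 0 ≤ (A.length : ℝ) * g := mul_nonneg (Nat.cast_nonneg _) hg0
  have h6 : 1 / (2 ^ 17 * K) * (A.length * g + L) ≤ 1 / 2 ^ 17 * (A.length * g + L) :=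
    mul_le_mul_of_nonneg_right he1 (by linarith)
  norm_num at h6 h4
  linarith

theorem PD.fc_append (pd : PD s w h l ξ σ g K D L) {A B : List ι} (hA : ∀ a ∈ A, a ∈ s)
    (hB : ∀ a ∈ B, a ∈ s) (h1 : SC h l ξ g (1 / (2 ^ 17 * K)) L A)
    (h2 : SC h l ξ g (1 / (2 ^ 17 * K)) L B.reverse) (h3 : B.length ≤ A.length + 1) :
    FC h l ξ L (A ++ B) := by
  obtain ⟨hg0, hgL, hL0, he0, he1⟩ := pd.pdet_facts
  intro X a Y hXY
  -- the case of a split in the second list
  have main : ∀ X' : List ι, X = A ++ X' → B = X' ++ a :: Y →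
      |(X.map ξ).sum| + l a ≤ (X.map h).sum / 8 + L := by
    rintro X' rfl rfl
    obtain ⟨k1, k2⟩ := h1.1 A [] (by simp)
    obtain ⟨k3, -⟩ := h2.1 (X' ++ a :: Y).reverse [] (by simp)
    obtain ⟨k4, -⟩ := h2.1 (a :: Y).reverse X'.reverse (by simp)
    have k5 := h2.2 Y.reverse a X'.reverse (by simp)
    rw [List.map_reverse, List.sum_reverse] at k3 k4
    rw [List.length_reverse] at k3 k4 k5
    simp only [List.map_append, List.sum_append, List.map_cons, List.sum_cons,
      List.length_append, List.length_cons] at k3 k4 h3 ⊢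
    have k6 : 0 ≤ (X'.map h).sum := by
      apply List.sum_nonneg
      intro z hz
      obtain ⟨b, hb, rfl⟩ := List.mem_map.1 hz
      have := pd.h1 b (hB b (by simp [hb]))
      linarith
    have n1 : 0 ≤ (A.length : ℝ) * g := mul_nonneg (Nat.cast_nonneg _) hg0
    have h3' : ((X'.length : ℝ) + (Y.length + 1)) ≤ A.length + 1 := by exact_mod_cast h3
    have hX' : (0 : ℝ) ≤ X'.length := Nat.cast_nonneg _
    have n2 : ((X'.length : ℝ) + (Y.length + 1)) * g ≤ A.length * g + g := by
      have := mul_le_mul_of_nonneg_right h3' hg0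
      linarith
    have n3 : ((Y.length : ℝ) + 1) * g ≤ A.length * g + g := by
      have h7 : ((Y.length : ℝ) + 1) ≤ A.length + 1 := by linarith
      have := mul_le_mul_of_nonneg_right h7 hg0
      linarith
    have n4 : (Y.length : ℝ) * g ≤ A.length * g + g := by linarith
    have n5 : 0 ≤ (Y.length : ℝ) * g := mul_nonneg (Nat.cast_nonneg _) hg0
    have h6 : 1 / (2 ^ 17 * K) * (Y.length * g + L) ≤ 1 / 2 ^ 17 * (A.length * g + g + L) :=
      mul_le_mul he1 (by linarith) (by linarith) (by positivity)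
    push_cast at k3 k4
    have m1 := abs_le.1 k1
    have m3 := abs_le.1 k3
    have m4 := abs_le.1 k4
    have m5 : |(A.map ξ).sum + (X'.map ξ).sum| ≤ (A.length * g + L) / 64 +
        (A.length * g + g + L) / 64 + (A.length * g + g + L) / 64 := by
      rw [abs_le]
      constructor
      · linarith [m1.1, m3.1, m4.2]
      · linarith [m1.2, m3.2, m4.1]
    norm_num at h6 k5
    linarith
  rcases List.append_eq_append_iff.1 hXY with ⟨X', hX, hB'⟩ | ⟨c', hA', hc'⟩
  · exact main X' hX hB'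
  · cases c' with
    | nil =>
      simp only [List.append_nil, List.nil_append] at hA' hc'
      exact main [] (by rw [hA', List.append_nil]) (by rw [List.nil_append, hc'])
    | cons b Y1 =>
      rw [List.cons_append, List.cons.injEq] at hc'
      obtain ⟨rfl, -⟩ := hc'
      exact pd.fc_of_sc hA h1 X a Y1 hA'

end Pool.Agent.Lib.MP_c23e5f_co.G
end

section

set_option autoImplicit false

namespace Pool.Agent.Lib.MP_c23e5f_co.G

variable {ι : Type*} {s : Finset ι} {w h l ξ : ι → ℝ} {σ : ι → ι} {g K D L : ℝ}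

private theorem exp_neg_two_le {p : ℝ} (h1 : 1 / 2 ≤ p) (h2 : p ≤ 1) :
    Real.exp (-(2 * (1 - p))) ≤ p := by
  set y := 1 - p with hy
  have hy0 : 0 ≤ y := by linarith
  have hy1 : y ≤ 1 / 2 := by linarith
  have hp : p = 1 - y := by linarith
  rw [hp, Real.exp_neg]
  have h3 := Real.quadratic_le_exp_of_nonneg (x := 2 * y) (by linarith)
  rw [inv_le_comm₀ (Real.exp_pos _) (by linarith)]
  refine le_trans ?_ h3
  rw [inv_le_iff_one_le_mul₀ (by linarith)]
  nlinarith [mul_nonneg hy0 (by linarith : (0:ℝ) ≤ 1 / 2 - y), mul_nonneg (mul_nonneg hy0 hy0)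
    (by linarith : (0:ℝ) ≤ 1 / 2 - y)]

/-- the price of the conditioning -/
theorem PD.prod_pr (pd : PD s w h l ξ σ g K D L) (N : ℕ) :
    Real.exp (-(2 ^ 18 * K ^ 2)) ≤
      ∏ j ∈ Finset.range N, pr s w l (1 / (2 ^ 17 * K) * (j * g + L)) := by
  classical
  have hK := pd.K1
  have hD := pd.D1
  have hg := pd.one_le_g
  have hgD := pd.g_le
  have hL := pd.hL
  have hK0 : (0 : ℝ) < K := by linarith
  have hD0 : (0 : ℝ) < D := by linarith
  have hg0 : (0 : ℝ) < g := by linarith
  have hKD : D ≤ K ^ 2 * D := by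
    have h1 : (1 : ℝ) ≤ K ^ 2 := by nlinarith
    nlinarith
  have hLg : g ≤ L := by nlinarith
  set ε : ℝ := 1 / (2 ^ 17 * K) with hε
  have hε0 : 0 < ε := by positivity
  have hεK : ε * (2 ^ 17 * K) = 1 := by
    rw [hε]; field_simp
  set τ : ℕ → ℝ := fun j => ε * (j * g + L) with hτdef
  have hτ : ∀ j, 8 * D * K ≤ τ j := by
    intro j
    have h1 : ε * (2 ^ 25 * K ^ 2 * D) ≤ ε * (j * g + L) := by
      apply mul_le_mul_of_nonneg_left _ hε0.le
      have : (0 : ℝ) ≤ j * g := by positivity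
      linarith
    have h2 : ε * (2 ^ 25 * K ^ 2 * D) = 2 ^ 8 * (K * D) := by
      calc ε * (2 ^ 25 * K ^ 2 * D) = (ε * (2 ^ 17 * K)) * (2 ^ 8 * (K * D)) := by ring
        _ = 2 ^ 8 * (K * D) := by rw [hεK, one_mul]
    have h3 : 0 < K * D := by positivity
    have h4 : τ j = ε * (j * g + L) := rfl
    rw [h4]
    nlinarith
  have hp1 : ∀ j, 1 / 2 ≤ pr s w l (τ j) := fun j => pd.half_le_pr (hτ j)
  have hp2 : ∀ j, pr s w l (τ j) ≤ 1 := fun j => pd.pr_le _
  have hprod : ∏ j ∈ Finset.range N, Real.exp (-(2 * (1 - pr s w l (τ j)))) ≤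
      ∏ j ∈ Finset.range N, pr s w l (τ j) :=
    Finset.prod_le_prod (fun j _ => (Real.exp_pos _).le) fun j _ => exp_neg_two_le (hp1 j) (hp2 j)
  refine le_trans ?_ hprod
  rw [← Real.exp_sum]
  apply Real.exp_le_exp.2
  -- the sum of the defects
  have hdef : ∀ j, 1 - pr s w l (τ j) = ∑ a ∈ s, w a * (if l a ≤ τ j then 0 else 1) := by
    intro j
    have e : 1 - pr s w l (τ j) = (∑ a ∈ s, w a) - pr s w l (τ j) := by rw [pd.w1]
    rw [e]
    unfold pr
    rw [← Finset.sum_sub_distrib]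
    refine Finset.sum_congr rfl fun a _ => ?_
    split_ifs <;> ring
  have hcount : ∀ a ∈ s, ∑ j ∈ Finset.range N, (if l a ≤ τ j then (0 : ℝ) else 1) ≤
      l a / (ε * g) := by
    intro a ha
    have hla : 0 < l a := by
      have h1 := pd.h1 a ha
      have h2 := pd.hl a ha
      linarith
    have hx : 0 ≤ l a / (ε * g) := by positivity
    have h1 : ∑ j ∈ Finset.range N, (if l a ≤ τ j then (0 : ℝ) else 1) =
        (((Finset.range N).filter (fun j => ¬ l a ≤ τ j)).card : ℝ) := by
      rw [Finset.card_filter]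
      push_cast
      refine Finset.sum_congr rfl fun j _ => ?_
      split_ifs <;> simp_all
    rw [h1]
    have h2 : (Finset.range N).filter (fun j => ¬ l a ≤ τ j) ⊆
        Finset.range ⌊l a / (ε * g)⌋₊ := by
      intro j hj
      rw [Finset.mem_filter] at hj
      rw [Finset.mem_range]
      have hj2 := hj.2
      push Not at hj2
      have h3 : ((j + 1 : ℕ) : ℝ) ≤ l a / (ε * g) := by
        rw [le_div_iff₀ (by positivity)]
        have h4 : τ j = ε * (j * g + L) := rfl
        rw [h4] at hj2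
        push_cast
        have h5 : ε * (j * g + g) ≤ ε * (j * g + L) :=
          mul_le_mul_of_nonneg_left (by linarith) hε0.le
        nlinarith
      have := Nat.le_floor h3
      omega
    calc (((Finset.range N).filter (fun j => ¬ l a ≤ τ j)).card : ℝ)
        ≤ ((Finset.range ⌊l a / (ε * g)⌋₊).card : ℝ) := by
          exact_mod_cast Finset.card_le_card h2
      _ = (⌊l a / (ε * g)⌋₊ : ℝ) := by rw [Finset.card_range]
      _ ≤ l a / (ε * g) := Nat.floor_le hx
  have hsum : ∑ j ∈ Finset.range N, (1 - pr s w l (τ j)) ≤ 2 ^ 17 * K ^ 2 := by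
    calc ∑ j ∈ Finset.range N, (1 - pr s w l (τ j))
        = ∑ j ∈ Finset.range N, ∑ a ∈ s, w a * (if l a ≤ τ j then 0 else 1) :=
          Finset.sum_congr rfl fun j _ => hdef j
      _ = ∑ a ∈ s, w a * ∑ j ∈ Finset.range N, (if l a ≤ τ j then (0 : ℝ) else 1) := by
          rw [Finset.sum_comm]
          exact Finset.sum_congr rfl fun a _ => by rw [Finset.mul_sum]
      _ ≤ ∑ a ∈ s, w a * (l a / (ε * g)) :=
          Finset.sum_le_sum fun a ha => mul_le_mul_of_nonneg_left (hcount a ha) (pd.w0 a ha)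
      _ = (∑ a ∈ s, w a * l a) / (ε * g) := by
          rw [Finset.sum_div]
          exact Finset.sum_congr rfl fun a _ => by ring
      _ ≤ K * g / (ε * g) := div_le_div_of_nonneg_right pd.lK (by positivity)
      _ = 2 ^ 17 * K ^ 2 := by
          rw [hε]; field_simp
  rw [Finset.sum_neg_distrib, ← Finset.mul_sum]
  linarith

end Pool.Agent.Lib.MP_c23e5f_co.G
end

section

set_option autoImplicit false

namespace Pool.Agent.Lib.MP_c23e5f_co.G

variable {ι : Type*} {s : Finset ι} {w h l ξ : ι → ℝ} {σ : ι → ι} {g K D L : ℝ}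

private lemma pht_tau {g K D L : ℝ} (hK : 1 ≤ K) (hD : 1 ≤ D) (hL : 2 ^ 25 * K ^ 2 * D ≤ L)
    (hg : 1 ≤ g) (j : ℕ) : 8 * D * K ≤ 1 / (2 ^ 17 * K) * (j * g + L) := by
  have hK0 : 0 < K := by linarith
  have hjg : 0 ≤ (j : ℝ) * g := by positivity
  rw [div_mul_eq_mul_div, one_mul, le_div_iff₀ (by positivity)]
  have h0 : 0 ≤ K ^ 2 * D := by positivity
  nlinarith

private lemma pht_tele {g L : ℝ} (hg : 0 < g) (hL : 0 < L) (N : ℕ) :
    ∑ i ∈ Finset.range N, g / (((i + 1 : ℕ) : ℝ) * g + L) ^ 2 ≤ 1 / L - 1 / (N * g + L) := by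
  induction N with
  | zero => simp
  | succ N ih =>
    rw [Finset.sum_range_succ]
    have h1 : 0 < (N : ℝ) * g + L := by positivity
    have h2 : 0 < ((N + 1 : ℕ) : ℝ) * g + L := by positivity
    have h3 : g / (((N + 1 : ℕ) : ℝ) * g + L) ^ 2 ≤
        1 / (N * g + L) - 1 / (((N + 1 : ℕ) : ℝ) * g + L) := by
      rw [div_sub_div _ _ h1.ne' h2.ne', div_le_div_iff₀ (by positivity) (by positivity)]
      have e : (1 * (((N + 1 : ℕ) : ℝ) * g + L) - (N * g + L) * 1) = g := by push_cast; ring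
      rw [e]
      have h4 : (N : ℝ) * g + L ≤ ((N + 1 : ℕ) : ℝ) * g + L := by push_cast; nlinarith
      have h5 : (N * g + L) * (((N + 1 : ℕ) : ℝ) * g + L) ≤ (((N + 1 : ℕ) : ℝ) * g + L) ^ 2 := by
        rw [sq]
        exact mul_le_mul_of_nonneg_right h4 h2.le
      exact mul_le_mul_of_nonneg_left h5 hg.le
    linarith

/-- (4.2), the heights -/
theorem PD.cond_h (pd : PD s w h l ξ σ g K D L) (N : ℕ) :
    ES s (fun j => cw s w l (1 / (2 ^ 17 * K) * (j * g + L))) N
      (fun x => ind (¬ ∀ A B, x = A ++ B → A.length * g / 2 - L / 8 ≤ (A.map h).sum)) ≤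
      1 / 16 := by
  classical
  have hg : 1 ≤ g := pd.one_le_g
  have hK := pd.K1
  have hD := pd.D1
  have hL := pd.hL
  have hg0 : 0 < g := by linarith
  have hK2 : 1 ≤ K ^ 2 := one_le_pow₀ hK
  have hDL : 2 ^ 25 * D ≤ L := by
    refine le_trans ?_ hL
    have : 1 * D ≤ K ^ 2 * D := mul_le_mul_of_nonneg_right hK2 (by linarith)
    nlinarith
  have hL0 : 0 < L := by nlinarith
  have hτ : ∀ j : ℕ, 8 * D * K ≤ 1 / (2 ^ 17 * K) * (j * g + L) := fun j =>
    pht_tau hK hD hL hg j
  set W : ℕ → ι → ℝ := fun j => cw s w l (1 / (2 ^ 17 * K) * (j * g + L)) with hW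
  have W0 : ∀ j, ∀ a ∈ s, 0 ≤ W j a := fun j => pd.cw_nonneg (hτ j)
  have W1 : ∀ j, ∑ a ∈ s, W j a = 1 := fun j => pd.cw_sum (hτ j)
  set μ : ℕ → ℝ := fun j => ∑ a ∈ s, W j a * min (h a) D with hμ
  set X : ℕ → ι → ℝ := fun j a => min (h a) D - μ j with hX
  have hμg : ∀ j, 13 / 24 * g ≤ μ j := fun j => pd.cw_h (hτ j)
  have hX0 : ∀ j, ∑ a ∈ s, W j a * X j a = 0 := by
    intro j
    simp only [hX, mul_sub]
    rw [Finset.sum_sub_distrib, ← Finset.sum_mul, W1 j]
    simp only [hμ]
    ring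
  have hvar : ∀ j, ∑ a ∈ s, W j a * X j a ^ 2 ≤ 2 * D * g := fun j => pd.cw_h_var (hτ j)
  set c : ℕ → ℝ := fun j => 24 / (j * g + L) with hc
  have hden : ∀ j : ℕ, 0 < (j : ℝ) * g + L := fun j => by positivity
  have hc0 : ∀ j, 0 ≤ c j := fun j => div_nonneg (by norm_num) (hden j).le
  have hcanti : Antitone c := by
    intro i j hij
    apply div_le_div_of_nonneg_left (by norm_num) (hden i)
    have : (i : ℝ) ≤ j := by exact_mod_cast hij
    nlinarith
  have H := hajek s W W0 W1 X hX0 c hcanti hc0 N 0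
  have step1 : ES s W N
      (fun x => ind (¬ ∀ A B, x = A ++ B → A.length * g / 2 - L / 8 ≤ (A.map h).sum)) ≤
      ES s W N (fun L => ind (∃ A B, L = A ++ B ∧ 1 ≤ c A.length * |0 + sX X A|)) := by
    refine ES_mono s W W0 N _ _ fun x _ hxs => ?_
    by_cases hP : ∀ A B, x = A ++ B → A.length * g / 2 - L / 8 ≤ (A.map h).sum
    · rw [ind, if_neg (not_not.2 hP), ind]
      split_ifs <;> norm_num
    · have hE : ∃ A B, x = A ++ B ∧ 1 ≤ c A.length * |0 + sX X A| := by
        push Not at hP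
        obtain ⟨A, B, hAB, hlt⟩ := hP
        refine ⟨A, B, hAB, ?_⟩
        have h1 : sX X A = (A.map fun a => min (h a) D).sum - ∑ j ∈ Finset.range A.length, μ j :=
          sX_sub (fun a => min (h a) D) μ A
        have h2 : (A.map fun a => min (h a) D).sum ≤ (A.map h).sum :=
          List.sum_le_sum fun a _ => min_le_left _ _
        have h3 : (A.length : ℝ) * (13 / 24 * g) ≤ ∑ j ∈ Finset.range A.length, μ j := by
          have := Finset.card_nsmul_le_sum (Finset.range A.length) μ (13 / 24 * g)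
            (fun j _ => hμg j)
          rwa [Finset.card_range, nsmul_eq_mul] at this
        have h4 : sX X A ≤ -((A.length * g + L) / 24) := by
          rw [h1]
          linarith
        rw [zero_add, abs_of_nonpos (by have := hden A.length; linarith)]
        simp only [hc]
        rw [div_mul_eq_mul_div, le_div_iff₀ (hden A.length)]
        linarith
      rw [ind, if_pos hP, ind, if_pos hE]
  refine step1.trans (H.trans ?_)
  have step2 : ∑ i ∈ Finset.range N, c (i + 1) ^ 2 * ∑ a ∈ s, W i a * X i a ^ 2 ≤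
      ∑ i ∈ Finset.range N, (1152 * D) * (g / (((i + 1 : ℕ) : ℝ) * g + L) ^ 2) := by
    refine Finset.sum_le_sum fun i _ => ?_
    have h1 : c (i + 1) ^ 2 * ∑ a ∈ s, W i a * X i a ^ 2 ≤ c (i + 1) ^ 2 * (2 * D * g) :=
      mul_le_mul_of_nonneg_left (hvar i) (sq_nonneg _)
    refine h1.trans (le_of_eq ?_)
    simp only [hc]
    have := (hden (i + 1)).ne'
    field_simp
    ring
  have step3 : ∑ i ∈ Finset.range N, (1152 * D) * (g / (((i + 1 : ℕ) : ℝ) * g + L) ^ 2) ≤
      (1152 * D) * (1 / L) := by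
    rw [← Finset.mul_sum]
    apply mul_le_mul_of_nonneg_left _ (by linarith)
    have h1 := pht_tele hg0 hL0 N
    have h2 : 0 < 1 / ((N : ℝ) * g + L) := by
      have := hden N
      positivity
    linarith
  have step4 : (1152 * D) * (1 / L) ≤ 1 / 16 := by
    rw [mul_one_div, div_le_div_iff₀ hL0 (by norm_num)]
    linarith
  have e0 : c 0 ^ 2 * (0 : ℝ) ^ 2 = 0 := by ring
  rw [e0, zero_add]
  linarith

end Pool.Agent.Lib.MP_c23e5f_co.G
end

section

set_option autoImplicit false

namespace Pool.Agent.Lib.MP_c23e5f_co.G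

variable {ι : Type*} {s : Finset ι} {w h l ξ : ι → ℝ} {σ : ι → ι} {g K D L : ℝ}

private lemma pxi_tel (g L b : ℝ) (hg : 0 < g) (hb : 0 < b) (hL : 0 < L) (N : ℕ) :
    ∑ i ∈ Finset.range N, (if b ≤ (i : ℝ) * g + L then 1 / (((i + 1 : ℕ) : ℝ) * g + L) ^ 2 else 0)
      ≤ if b ≤ (N : ℝ) * g + L then 1 / g * (1 / b - 1 / ((N : ℝ) * g + L)) else 0 := by
  induction N with
  | zero =>
    simp only [Finset.range_zero, Finset.sum_empty]
    split_ifs with h
    · have h1 : 1 / ((0 : ℕ) * g + L) ≤ 1 / b := one_div_le_one_div_of_le hb (by exact_mod_cast h)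
      have h2 : 0 ≤ 1 / b - 1 / (((0 : ℕ) : ℝ) * g + L) := by
        have := h1
        push_cast at *
        linarith
      positivity
    · exact le_rfl
  | succ n ih =>
    rw [Finset.sum_range_succ]
    have hn : (0 : ℝ) ≤ (n : ℝ) * g := by positivity
    have hA : 0 < (n : ℝ) * g + L := by linarith
    have hB : 0 < ((n + 1 : ℕ) : ℝ) * g + L := by positivity
    have hBA : ((n + 1 : ℕ) : ℝ) * g + L = (n : ℝ) * g + L + g := by push_cast; ring
    by_cases hb1 : b ≤ (n : ℝ) * g + L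
    · have hb2 : b ≤ ((n + 1 : ℕ) : ℝ) * g + L := by rw [hBA]; linarith
      rw [if_pos hb1] at ih ⊢
      rw [if_pos hb2]
      have key : 1 / (((n + 1 : ℕ) : ℝ) * g + L) ^ 2 ≤
          1 / g * (1 / ((n : ℝ) * g + L) - 1 / (((n + 1 : ℕ) : ℝ) * g + L)) := by
        rw [hBA]
        have e : 1 / g * (1 / ((n : ℝ) * g + L) - 1 / ((n : ℝ) * g + L + g)) =
            1 / (((n : ℝ) * g + L) * ((n : ℝ) * g + L + g)) := by
          have h3 : (n : ℝ) * g + L + g ≠ 0 := by linarith
          field_simp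
          ring
        rw [e]
        apply one_div_le_one_div_of_le
        · have : 0 < (n : ℝ) * g + L + g := by linarith
          positivity
        · nlinarith
      have : 1 / g * (1 / b - 1 / (((n + 1 : ℕ) : ℝ) * g + L)) =
        1 / g * (1 / b - 1 / ((n : ℝ) * g + L)) +
          1 / g * (1 / ((n : ℝ) * g + L) - 1 / (((n + 1 : ℕ) : ℝ) * g + L)) := by ring
      rw [this]
      linarith
    · rw [if_neg hb1] at ih ⊢
      rw [add_zero]
      refine ih.trans ?_
      split_ifs with h2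
      · have h3 : 1 / (((n + 1 : ℕ) : ℝ) * g + L) ≤ 1 / b := one_div_le_one_div_of_le hb h2
        have : 0 ≤ 1 / b - 1 / (((n + 1 : ℕ) : ℝ) * g + L) := by linarith
        positivity
      · exact le_rfl

private lemma pxi_tel' (g L b : ℝ) (hg : 0 < g) (hb : 0 < b) (hL : 0 < L) (N : ℕ) :
    ∑ i ∈ Finset.range N, (if b ≤ (i : ℝ) * g + L then 1 / (((i + 1 : ℕ) : ℝ) * g + L) ^ 2 else 0)
      ≤ 1 / (g * b) := by
  refine (pxi_tel g L b hg hb hL N).trans ?_
  split_ifs with h
  · have h1 : 0 < 1 / ((N : ℝ) * g + L) := by positivity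
    have : 1 / (g * b) = 1 / g * (1 / b) := by rw [one_div_mul_one_div]
    rw [this]
    apply mul_le_mul_of_nonneg_left _ (by positivity)
    linarith
  · positivity

/-- (4.2), the transversal direction -/
theorem PD.cond_xi (pd : PD s w h l ξ σ g K D L) (N : ℕ) :
    ES s (fun j => cw s w l (1 / (2 ^ 17 * K) * (j * g + L))) N
      (fun x => ind (¬ ∀ A B, x = A ++ B → |(A.map ξ).sum| ≤ (A.length * g + L) / 64)) ≤ 1 / 16 := by
  have hg1 : 1 ≤ g := pd.one_le_g
  have hg0 : 0 < g := by linarith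
  have hK1 := pd.K1
  have hK0 : 0 < K := by linarith
  have hD1 := pd.D1
  have hLL := pd.hL
  have hL0 : 0 < L := by
    have : 0 < 2 ^ 25 * K ^ 2 * D := by positivity
    linarith
  have hτ : ∀ j : ℕ, 8 * D * K ≤ 1 / (2 ^ 17 * K) * ((j : ℝ) * g + L) := by
    intro j
    have h1 : 8 * D * K = 1 / (2 ^ 17 * K) * (2 ^ 20 * K ^ 2 * D) := by
      field_simp
      norm_num
    rw [h1]
    apply mul_le_mul_of_nonneg_left _ (by positivity)
    have h2 : (0 : ℝ) ≤ (j : ℝ) * g := by positivity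
    have h3 : 2 ^ 20 * K ^ 2 * D ≤ 2 ^ 25 * K ^ 2 * D := by
      have : 0 ≤ K ^ 2 * D := by positivity
      nlinarith
    linarith
  have hw : ∀ j : ℕ, ∀ a ∈ s, 0 ≤ cw s w l (1 / (2 ^ 17 * K) * ((j : ℝ) * g + L)) a :=
    fun j => pd.cw_nonneg (hτ j)
  have hc0 : ∀ j : ℕ, 0 ≤ 64 / ((j : ℝ) * g + L) := fun j => by positivity
  have hc : Antitone (fun j : ℕ => 64 / ((j : ℝ) * g + L)) := by
    intro i j hij
    have hij' : (i : ℝ) ≤ j := by exact_mod_cast hij
    show 64 / ((j : ℝ) * g + L) ≤ 64 / ((i : ℝ) * g + L)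
    apply div_le_div_of_nonneg_left (by norm_num) (by positivity)
    nlinarith
  have H := hajek s (fun j : ℕ => cw s w l (1 / (2 ^ 17 * K) * ((j : ℝ) * g + L))) hw
    (fun j => pd.cw_sum (hτ j)) (fun _ => ξ) (fun j => pd.cw_xi _)
    (fun j : ℕ => 64 / ((j : ℝ) * g + L)) hc hc0 N 0
  have H1 : ES s (fun j : ℕ => cw s w l (1 / (2 ^ 17 * K) * ((j : ℝ) * g + L))) N
      (fun x => ind (¬ ∀ A B, x = A ++ B → |(A.map ξ).sum| ≤ (A.length * g + L) / 64)) ≤
      ES s (fun j : ℕ => cw s w l (1 / (2 ^ 17 * K) * ((j : ℝ) * g + L))) N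
      (fun L_1 => ind (∃ A B, L_1 = A ++ B ∧
        1 ≤ 64 / ((A.length : ℝ) * g + L) * |0 + sX (fun _ => ξ) A|)) := by
    apply ES_mono _ _ hw
    intro x _ _
    unfold ind
    by_cases hx : ∀ A B, x = A ++ B → |(A.map ξ).sum| ≤ (A.length * g + L) / 64
    · rw [if_neg (not_not.mpr hx)]
      split_ifs <;> norm_num
    · rw [if_pos hx, if_pos]
      push Not at hx
      obtain ⟨A, B, hAB, hlt⟩ := hx
      refine ⟨A, B, hAB, ?_⟩
      rw [sX_const, zero_add]
      have hpos : 0 < (A.length : ℝ) * g + L := by positivity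
      rw [div_mul_eq_mul_div, le_div_iff₀ hpos]
      linarith
  refine H1.trans (H.trans ?_)
  have h2 : ∀ i ∈ Finset.range N,
      (64 / (((i + 1 : ℕ) : ℝ) * g + L)) ^ 2 *
        ∑ a ∈ s, cw s w l (1 / (2 ^ 17 * K) * ((i : ℝ) * g + L)) a * ξ a ^ 2 ≤
      ∑ a ∈ s, 8192 * (w a * l a ^ 2) *
        (if l a * (2 ^ 17 * K) ≤ (i : ℝ) * g + L then 1 / (((i + 1 : ℕ) : ℝ) * g + L) ^ 2 else 0) := by
    intro i _
    refine (mul_le_mul_of_nonneg_left (pd.cw_xi_sq (hτ i)) (by positivity)).trans (le_of_eq ?_)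
    rw [Finset.mul_sum, Finset.mul_sum]
    apply Finset.sum_congr rfl
    intro a _
    have hiff : l a ≤ 1 / (2 ^ 17 * K) * ((i : ℝ) * g + L) ↔
        l a * (2 ^ 17 * K) ≤ (i : ℝ) * g + L := by
      rw [one_div, inv_mul_eq_div, le_div_iff₀ (by positivity)]
    by_cases h3 : l a * (2 ^ 17 * K) ≤ (i : ℝ) * g + L
    · rw [if_pos (hiff.mpr h3), if_pos h3, div_pow]
      ring
    · rw [if_neg (fun h4 => h3 (hiff.mp h4)), if_neg h3]
      ring
  have h3 := Finset.sum_le_sum h2
  rw [Finset.sum_comm] at h3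
  have h4 : ∑ a ∈ s, ∑ i ∈ Finset.range N, 8192 * (w a * l a ^ 2) *
        (if l a * (2 ^ 17 * K) ≤ (i : ℝ) * g + L then 1 / (((i + 1 : ℕ) : ℝ) * g + L) ^ 2 else 0) ≤
      ∑ a ∈ s, 1 / (16 * K * g) * (w a * l a) := by
    apply Finset.sum_le_sum
    intro a ha
    have hla : 1 ≤ l a := (pd.h1 a ha).trans (pd.hl a ha)
    have hwa := pd.w0 a ha
    rw [← Finset.mul_sum]
    have h5 := pxi_tel' g L (l a * (2 ^ 17 * K)) hg0 (by positivity) hL0 N
    refine (mul_le_mul_of_nonneg_left h5 (by positivity)).trans (le_of_eq ?_)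
    have hla0 : l a ≠ 0 := by linarith
    field_simp
    ring
  rw [← Finset.mul_sum] at h4
  have h6 : 1 / (16 * K * g) * ∑ a ∈ s, w a * l a ≤ 1 / (16 * K * g) * (K * g) :=
    mul_le_mul_of_nonneg_left pd.lK (by positivity)
  have h7 : 1 / (16 * K * g) * (K * g) = 1 / 16 := by
    field_simp
  have h8 : (64 / (((0 : ℕ) : ℝ) * g + L)) ^ 2 * (0 : ℝ) ^ 2 = 0 := by ring
  rw [h8, zero_add]
  linarith

end Pool.Agent.Lib.MP_c23e5f_co.G
end

section

set_option autoImplicit false

namespace Pool.Agent.Lib.MP_c23e5f_co.G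

variable {ι : Type*} {s : Finset ι} {w h l ξ : ι → ℝ} {σ : ι → ι} {g K D L : ℝ}

private lemma pstrong_ind_nonneg (p : Prop) : 0 ≤ ind p := by
  unfold ind; split_ifs <;> norm_num

private lemma pstrong_ind_pos {p : Prop} (h : p) : ind p = 1 := if_pos h

private lemma pstrong_ind_neg {p : Prop} (h : ¬ p) : ind p = 0 := if_neg h

open Classical in
private lemma pstrong_restrict (s : Finset ι) (N : ℕ) : ∀ (w : ℕ → ι → ℝ) (q : ℕ → ι → Prop)
    (_ : ∀ j, ∀ a ∈ s, ¬ q j a → w j a = 0) (F : List ι → ℝ),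
    ES s w N F = ES s w N (fun L => if (∀ A a B, L = A ++ a :: B → q A.length a) then F L else 0) := by
  induction N with
  | zero =>
    intro w q _ F
    show F [] = if (∀ A a B, ([] : List ι) = A ++ a :: B → q A.length a) then F [] else 0
    rw [if_pos]
    intro A a B h
    exact absurd h (by simp)
  | succ N ih =>
    intro w q hq F
    rw [ES, ES]
    refine Finset.sum_congr rfl fun a ha => ?_
    by_cases h0 : q 0 a
    · rw [ih (fun j => w (j + 1)) (fun j => q (j + 1)) (fun j => hq (j + 1)) (fun L => F (a :: L))]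
      congr 2
      funext L
      have e : (∀ A b B, L = A ++ b :: B → q (A.length + 1) b) ↔
          (∀ A b B, a :: L = A ++ b :: B → q A.length b) := by
        constructor
        · intro H A b B hL
          cases A with
          | nil =>
            rw [List.nil_append, List.cons.injEq] at hL
            rw [← hL.1]; exact h0
          | cons c A =>
            rw [List.cons_append, List.cons.injEq] at hL
            exact H A b B hL.2
        · intro H A b B hL
          exact H (a :: A) b B (by rw [hL, List.cons_append])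
      by_cases he : (∀ A b B, L = A ++ b :: B → q (A.length + 1) b)
      · rw [if_pos he, if_pos (e.1 he)]
      · rw [if_neg he, if_neg (fun h => he (e.2 h))]
    · rw [hq 0 a ha h0, zero_mul, zero_mul]

theorem PD.strong_cone (pd : PD s w h l ξ σ g K D L) (N : ℕ) :
    Real.exp (-(2 ^ 18 * K ^ 2)) / 2 ≤
      ES s (fun _ => w) N
        (fun x => ind (SC h l ξ g (1 / (2 ^ 17 * K)) L x ∧ (x.map l).sum ≤ 8 * K * g * N)) := by
  have hK := pd.K1
  have hD := pd.D1
  have hg := pd.one_le_g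
  have hL := pd.hL
  have hKK : (1 : ℝ) ≤ K ^ 2 := one_le_pow₀ hK
  have hL0 : 0 < L := by nlinarith
  rcases Nat.eq_zero_or_pos N with rfl | hN
  · have e1 : SC h l ξ g (1 / (2 ^ 17 * K)) L [] ∧
        (([] : List ι).map l).sum ≤ 8 * K * g * (0 : ℕ) := by
      refine ⟨⟨fun A B hAB => ?_, fun A a B hAB => absurd hAB (by simp)⟩, by simp⟩
      obtain ⟨rfl, rfl⟩ := List.append_eq_nil_iff.1 hAB.symm
      simp only [List.map_nil, List.sum_nil, abs_zero, List.length_nil, Nat.cast_zero, zero_mul,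
        zero_add, zero_div, zero_sub]
      constructor
      · positivity
      · linarith
    show _ ≤ ind _
    rw [pstrong_ind_pos e1]
    have : Real.exp (-(2 ^ 18 * K ^ 2)) ≤ 1 := by
      rw [← Real.exp_zero]
      apply Real.exp_le_exp.2
      nlinarith
    exact (div_le_self (Real.exp_pos _).le (by norm_num)).trans this
  set ε : ℝ := 1 / (2 ^ 17 * K) with hε
  have hε0 : 0 < ε := by positivity
  have hτ : ∀ j : ℕ, 8 * D * K ≤ ε * (j * g + L) := by
    intro j
    have e1 : ε * (2 ^ 25 * K ^ 2 * D) = 2 ^ 8 * K * D := by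
      rw [hε]; field_simp
    have e2 : (0 : ℝ) ≤ j * g := by positivity
    calc 8 * D * K ≤ 2 ^ 8 * K * D := by nlinarith [mul_nonneg (by linarith : (0:ℝ) ≤ D) (by linarith : (0:ℝ) ≤ K)]
      _ = ε * (2 ^ 25 * K ^ 2 * D) := e1.symm
      _ ≤ ε * (j * g + L) := by
        apply mul_le_mul_of_nonneg_left _ hε0.le
        linarith
  set w' : ℕ → ι → ℝ := fun j => cw s w l (ε * (j * g + L)) with hw'
  have hw'0 : ∀ j, ∀ a ∈ s, 0 ≤ w' j a := fun j => pd.cw_nonneg (hτ j)
  have hw'1 : ∀ j, ∑ a ∈ s, w' j a = 1 := fun j => pd.cw_sum (hτ j)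
  have hx := pd.cond_xi N
  have hh := pd.cond_h N
  rw [← hε] at hx hh
  change ES s w' N _ ≤ _ at hx
  change ES s w' N _ ≤ _ at hh
  set P1 : List ι → Prop := fun x => ∀ A B, x = A ++ B → |(A.map ξ).sum| ≤ (A.length * g + L) / 64
    with hP1
  set P2 : List ι → Prop := fun x => ∀ A B, x = A ++ B →
    A.length * g / 2 - L / 8 ≤ (A.map h).sum with hP2
  have h12 : ES s w' N (fun x => ind (¬ (P1 x ∧ P2 x))) ≤ 1 / 8 := by
    calc ES s w' N (fun x => ind (¬ (P1 x ∧ P2 x)))
        ≤ ES s w' N (fun x => ind (¬ P1 x) + ind (¬ P2 x)) := by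
          apply ES_mono s w' hw'0
          intro x _ _
          by_cases h1 : P1 x
          · by_cases h2 : P2 x
            · rw [pstrong_ind_neg (not_not.2 ⟨h1, h2⟩)]
              exact add_nonneg (pstrong_ind_nonneg _) (pstrong_ind_nonneg _)
            · rw [pstrong_ind_pos (p := ¬ (P1 x ∧ P2 x)) (fun h => h2 h.2),
                pstrong_ind_pos (p := ¬ P2 x) h2]
              have := pstrong_ind_nonneg (¬ P1 x)
              linarith
          · rw [pstrong_ind_pos (p := ¬ (P1 x ∧ P2 x)) (fun h => h1 h.1),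
              pstrong_ind_pos (p := ¬ P1 x) h1]
            have := pstrong_ind_nonneg (¬ P2 x)
            linarith
      _ = ES s w' N (fun x => ind (¬ P1 x)) + ES s w' N (fun x => ind (¬ P2 x)) := ES_add _ _ _ _ _
      _ ≤ 1 / 16 + 1 / 16 := add_le_add hx hh
      _ = 1 / 8 := by norm_num
  have hNp : (0 : ℝ) < N := by exact_mod_cast hN
  have hc0 : 0 < 8 * K * g * N := by positivity
  have h4 : ES s w' N (fun x => ind (¬ (x.map l).sum ≤ 8 * K * g * N)) ≤ 1 / 4 := by
    have hl0 : ∀ a ∈ s, 0 ≤ l a := fun a ha => by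
      have := pd.h1 a ha
      have := pd.hl a ha
      linarith
    have e1 := ES_markov s w' hw'0 N (fun x => (x.map l).sum) (fun x _ hx => by
      apply List.sum_nonneg
      intro y hy
      obtain ⟨a, ha, rfl⟩ := List.mem_map.1 hy
      exact hl0 a (hx a ha)) hc0
    refine e1.trans ?_
    rw [ES_sum s w' hw'1, div_le_iff₀ hc0]
    calc ∑ j ∈ Finset.range N, ∑ a ∈ s, w' j a * l a
        ≤ ∑ _j ∈ Finset.range N, 2 * K * g := Finset.sum_le_sum fun j _ => pd.cw_l (hτ j)
      _ = N * (2 * K * g) := by rw [Finset.sum_const, Finset.card_range, nsmul_eq_mul]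
      _ = 1 / 4 * (8 * K * g * N) := by ring
  have h124 := ES_inter s w' hw'0 hw'1 N (fun x => P1 x ∧ P2 x)
    (fun x => (x.map l).sum ≤ 8 * K * g * N)
  have hres := pstrong_restrict s N w' (fun j a => l a ≤ ε * (j * g + L)) (fun j a _ hja => by
    show cw s w l (ε * (j * g + L)) a = 0
    exact if_neg hja) (fun x => ind ((P1 x ∧ P2 x) ∧ (x.map l).sum ≤ 8 * K * g * N))
  set F : List ι → ℝ := fun x => ind (SC h l ξ g ε L x ∧ (x.map l).sum ≤ 8 * K * g * N) with hF
  have hmono : ES s w' N (fun x => ind ((P1 x ∧ P2 x) ∧ (x.map l).sum ≤ 8 * K * g * N)) ≤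
      ES s w' N F := by
    rw [hres]
    apply ES_mono s w' hw'0
    intro x _ _
    split_ifs with hq
    · by_cases hp : (P1 x ∧ P2 x) ∧ (x.map l).sum ≤ 8 * K * g * N
      · rw [pstrong_ind_pos hp, hF]
        show 1 ≤ ind _
        rw [pstrong_ind_pos]
        exact ⟨⟨fun A B hAB => ⟨hp.1.1 A B hAB, hp.1.2 A B hAB⟩, hq⟩, hp.2⟩
      · rw [pstrong_ind_neg hp]
        exact pstrong_ind_nonneg _
    · exact pstrong_ind_nonneg _
  have hhalf : 1 / 2 ≤ ES s w' N F := by linarith
  have hchange := ES_change s (fun _ => w) w' (fun j => pr s w l (ε * (j * g + L)))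
    (fun j => le_trans (by norm_num) (pd.half_le_pr (hτ j))) hw'0
    (fun j => pd.pr_mul_cw (hτ j)) N F (fun x => pstrong_ind_nonneg _)
  have hprod := pd.prod_pr N
  rw [← hε] at hprod
  refine le_trans ?_ hchange
  calc Real.exp (-(2 ^ 18 * K ^ 2)) / 2 = Real.exp (-(2 ^ 18 * K ^ 2)) * (1 / 2) := by ring
    _ ≤ (∏ j ∈ Finset.range N, pr s w l (ε * (j * g + L))) * ES s w' N F :=
        mul_le_mul hprod hhalf (by norm_num) (le_trans (Real.exp_pos _).le hprod)

end Pool.Agent.Lib.MP_c23e5f_co.G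
end

section

set_option autoImplicit false

namespace Pool.Agent.Lib.MP_c23e5f_co.G

variable {ι : Type*} {s : Finset ι} {w h l ξ : ι → ℝ} {σ : ι → ι} {g K D L : ℝ}

private lemma pcone_ind_le {p q : Prop} (hpq : p → q) : ind p ≤ ind q := by
  unfold ind
  by_cases hp : p
  · rw [if_pos hp, if_pos (hpq hp)]
  · rw [if_neg hp]
    split_ifs
    · exact zero_le_one
    · exact le_rfl

private lemma pcone_ind_mul {p q r : Prop} (hpq : p → q → r) : ind p * ind q ≤ ind r := by
  unfold ind
  by_cases hp : p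
  · by_cases hq : q
    · rw [if_pos hp, if_pos hq, if_pos (hpq hp hq), mul_one]
    · rw [if_neg hq, mul_zero]
      split_ifs
      · exact zero_le_one
      · exact le_rfl
  · rw [if_neg hp, zero_mul]
    split_ifs
    · exact zero_le_one
    · exact le_rfl

private lemma pcone_exp_le {x : ℝ} (hx : 3 ≤ x) : Real.exp (-x) ≤ 1 / 4 := by
  rw [Real.exp_neg, one_div]
  exact inv_anti₀ (by norm_num) (by linarith [Real.add_one_le_exp x])

private lemma PD.pcone_L0 (pd : PD s w h l ξ σ g K D L) : 0 ≤ L := by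
  have h1 := pd.hL
  have h2 := pd.K1
  have h3 := pd.D1
  have h4 : 0 ≤ 2 ^ 25 * K ^ 2 * D := by positivity
  linarith

private lemma PD.pcone_K (pd : PD s w h l ξ σ g K D L) (N : ℕ) : 0 ≤ K * g * N := by
  have h2 := pd.K1
  have h3 := pd.one_le_g
  positivity

/-- (4.3) cone lemma -/
theorem PD.cone (pd : PD s w h l ξ σ g K D L) (N : ℕ) :
    Real.exp (-(2 ^ 19 * K ^ 2)) ≤
      ES s (fun _ => w) N
        (fun x => ind (FC h l ξ L x ∧ x.length * g / 2 - L ≤ (x.map h).sum ∧
          (x.map l).sum ≤ 16 * K * g * N)) := by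
  have hK := pd.K1
  have hK2 : 1 ≤ K ^ 2 := one_le_pow₀ hK
  have h0 : Real.exp (-(2 ^ 19 * K ^ 2)) ≤ Real.exp (-(2 ^ 18 * K ^ 2)) / 2 := by
    have e1 : Real.exp (-(2 ^ 19 * K ^ 2)) =
        Real.exp (-(2 ^ 18 * K ^ 2)) * Real.exp (-(2 ^ 18 * K ^ 2)) := by
      rw [← Real.exp_add]; congr 1; ring
    have e2 : Real.exp (-(2 ^ 18 * K ^ 2)) ≤ 1 / 4 := pcone_exp_le (by linarith)
    have e3 := Real.exp_pos (-(2 ^ 18 * K ^ 2))
    rw [e1]
    generalize Real.exp (-(2 ^ 18 * K ^ 2)) = e at e2 e3 ⊢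
    calc e * e ≤ e * (1 / 4) := mul_le_mul_of_nonneg_left e2 e3.le
      _ ≤ e / 2 := by linarith
  refine h0.trans ((pd.strong_cone N).trans ?_)
  refine ES_mono s _ (fun _ => pd.w0) N _ _ fun x _ hx => pcone_ind_le ?_
  rintro ⟨h1, h2⟩
  refine ⟨pd.fc_of_sc hx h1, ?_, ?_⟩
  · have h3 := (h1.1 x [] (List.append_nil x).symm).2
    have h4 := pd.pcone_L0
    linarith
  · have h3 := pd.pcone_K N
    have h4 : 8 * K * g * (N : ℝ) = 8 * (K * g * N) := by ring
    have h5 : 16 * K * g * (N : ℝ) = 16 * (K * g * N) := by ring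
    rw [h4] at h2
    rw [h5]
    linarith

/-- (4.4) two-sided cone lemma -/
theorem PD.two_cone (pd : PD s w h l ξ σ g K D L) (N : ℕ) :
    Real.exp (-(2 ^ 20 * K ^ 2)) ≤
      ES s (fun _ => w) N
        (fun x => ind (FC h l ξ L x ∧ FC h l ξ L x.reverse ∧ (x.map l).sum ≤ 16 * K * g * N)) := by
  have hK := pd.K1
  have hK2 : 1 ≤ K ^ 2 := one_le_pow₀ hK
  obtain ⟨N1, N2, hN, hN12, hN21⟩ : ∃ N1 N2 : ℕ, N = N1 + N2 ∧ N2 ≤ N1 + 1 ∧ N1 ≤ N2 :=
    ⟨N / 2, N - N / 2, by omega, by omega, by omega⟩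
  subst hN
  set e : ℝ := Real.exp (-(2 ^ 18 * K ^ 2)) with he
  have he0 : 0 < e := Real.exp_pos _
  have he4 : Real.exp (-(2 ^ 20 * K ^ 2)) ≤ (e / 2) * (e / 2) := by
    have e1 : Real.exp (-(2 ^ 20 * K ^ 2)) = e * e * (e * e) := by
      rw [he, ← Real.exp_add, ← Real.exp_add]; congr 1; ring
    have e2 : e ≤ 1 / 4 := pcone_exp_le (by linarith)
    have e3 : e * e ≤ 1 / 4 := by
      calc e * e ≤ 1 / 4 * 1 := mul_le_mul e2 (by linarith) he0.le (by norm_num)
        _ = 1 / 4 := mul_one _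
    have e4 := mul_le_mul_of_nonneg_left e3 (mul_pos he0 he0).le
    rw [e1]
    calc e * e * (e * e) ≤ e * e * (1 / 4) := e4
      _ = e / 2 * (e / 2) := by ring
  set G : ℕ → List ι → ℝ := fun M x =>
    ind (SC h l ξ g (1 / (2 ^ 17 * K)) L x ∧ (x.map l).sum ≤ 8 * K * g * M) with hG
  have hG1 : e / 2 ≤ ES s (fun _ => w) N1 (G N1) := pd.strong_cone N1
  have hG2 : e / 2 ≤ ES s (fun _ => w) N2 (fun x => G N2 x.reverse) := by
    rw [ES_reverse]
    exact pd.strong_cone N2
  rw [ES_append]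
  refine he4.trans ?_
  calc e / 2 * (e / 2)
      ≤ ES s (fun _ => w) N2 (fun x => G N2 x.reverse) * ES s (fun _ => w) N1 (G N1) :=
        mul_le_mul hG2 hG1 (by positivity) (le_trans (by positivity) hG2)
    _ = ES s (fun _ => w) N1
          (fun A => ES s (fun _ => w) N2 (fun x => G N2 x.reverse) * G N1 A) := by
        rw [ES_smul]
    _ = ES s (fun _ => w) N1 (fun A => ES s (fun _ => w) N2 (fun B => G N1 A * G N2 B.reverse)) := by
        congr 1
        funext A
        rw [ES_smul, mul_comm]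
    _ ≤ _ := by
        refine ES_mono s _ (fun _ => pd.w0) N1 _ _ fun A hAl hA => ?_
        refine ES_mono s _ (fun _ => pd.w0) N2 _ _ fun B hBl hB => ?_
        refine pcone_ind_mul ?_
        rintro ⟨a1, a2⟩ ⟨b1, b2⟩
        have hBr : ∀ a ∈ B.reverse, a ∈ s := fun a ha => hB a (List.mem_reverse.1 ha)
        have hAr : ∀ a ∈ A.reverse, a ∈ s := fun a ha => hA a (List.mem_reverse.1 ha)
        refine ⟨pd.fc_append hA hB a1 b1 (by omega), ?_, ?_⟩
        · rw [List.reverse_append]
          refine pd.fc_append hBr hAr b1 (by rw [List.reverse_reverse]; exact a1) ?_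
          rw [List.length_reverse, List.length_reverse]
          omega
        · rw [List.map_reverse, List.sum_reverse] at b2
          rw [List.map_append, List.sum_append]
          push_cast
          have h1 := pd.pcone_K N1
          have h2 := pd.pcone_K N2
          have h3 : 16 * K * g * ((N1 : ℝ) + N2) = 16 * (K * g * N1) + 16 * (K * g * N2) := by ring
          have h4 : 8 * K * g * (N1 : ℝ) = 8 * (K * g * N1) := by ring
          have h5 : 8 * K * g * (N2 : ℝ) = 8 * (K * g * N2) := by ring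
          rw [h4] at a2
          rw [h5] at b2
          rw [h3]
          linarith

end Pool.Agent.Lib.MP_c23e5f_co.G
end
end
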