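import Pool.Agent.Lib.MP_c23e5f_co.G.GDefs

section

set_option autoImplicit false

namespace Pool.Agent.Lib.MP_c23e5f_co.G

open Pool.Agent.Lib.MP_c23e5f_co

theorem br_nil : Br [] :=
  ⟨isSaw_nil, fun i h1 h2 => by simp at h2; omega, fun i hi => by simp [pos]⟩

theorem Br.append {u v : Wd} (hu : Br u) (hv : Br v) : Br (u ++ v) := by
  have h0v : 0 ≤ v.sum.1 := by
    have := hv.le 0 (Nat.zero_le _)
    simpa using this
  refine ⟨IsSaw.append hu.saw hv.saw ?_, ?_, ?_⟩
  · intro i j hi hj1 hj h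
    have h1 := hu.le i hi
    have h2 := hv.gt j hj1 hj
    have h3 := congrArg Prod.fst h
    rw [Prod.fst_add] at h3
    omega
  · intro i hi1 hi
    rw [List.length_append] at hi
    rcases le_or_gt i u.length with h | h
    · rw [pos_append_left h]
      exact hu.gt i hi1 h
    · rw [pos_append_right' h.le, Prod.fst_add]
      have h1 := hv.gt (i - u.length) (by omega) (by omega)
      have h2 : 0 ≤ u.sum.1 := by
        have := hu.le 0 (Nat.zero_le _)
        simpa using this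
      omega
  · intro i hi
    rw [List.length_append] at hi
    rw [List.sum_append, Prod.fst_add]
    rcases le_or_gt i u.length with h | h
    · rw [pos_append_left h]
      have := hu.le i h
      omega
    · rw [pos_append_right' h.le, Prod.fst_add]
      have := hv.le (i - u.length) (by omega)
      omega

theorem Br.flatten {L : List Wd} (h : ∀ a ∈ L, Br a) : Br L.flatten := by
  induction L with
  | nil => exact br_nil
  | cons a L ih =>
    rw [List.flatten_cons]
    exact Br.append (h a (by simp)) (ih fun b hb => h b (by simp [hb]))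

theorem abs_pos_le {w : Wd} (h : ∀ v ∈ w, IsStep v) (i : ℕ) :
    |(pos w i).1| ≤ (i : ℤ) ∧ |(pos w i).2| ≤ (i : ℤ) := by
  induction i with
  | zero => simp
  | succ i ih =>
    rcases lt_or_ge i w.length with hi | hi
    · rw [pos_succ hi, Prod.fst_add, Prod.snd_add]
      have hs := h _ (List.getElem_mem hi)
      simp only [IsStep] at hs
      generalize w[i] = s at *
      obtain ⟨ih1, ih2⟩ := ih
      rw [abs_le] at ih1 ih2
      push_cast
      constructor <;> rw [abs_le] <;> omega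
    · rw [pos_of_length_le (by omega)]
      rw [pos_of_length_le hi] at ih
      push_cast
      exact ⟨by linarith [ih.1], by linarith [ih.2]⟩

theorem abs_sum_le {w : Wd} (h : ∀ v ∈ w, IsStep v) :
    |w.sum.1| ≤ (w.length : ℤ) ∧ |w.sum.2| ≤ (w.length : ℤ) := by
  have := abs_pos_le h w.length
  rwa [pos_length] at this

theorem Br.ht_nonneg {w : Wd} (h : Br w) : 0 ≤ w.sum.1 := by
  have := h.le 0 (Nat.zero_le _)
  simpa using this

theorem Br.ht_pos {w : Wd} (h : Br w) (hne : w ≠ []) : 1 ≤ w.sum.1 := by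
  have h1 : 1 ≤ w.length := List.length_pos_of_ne_nil hne
  have h2 := h.gt w.length h1 le_rfl
  rw [pos_length] at h2
  omega

theorem Br.pos_nonneg {w : Wd} (h : Br w) (i : ℕ) : 0 ≤ (pos w i).1 := by
  rcases Nat.eq_zero_or_pos i with rfl | hi
  · simp
  rcases le_or_gt i w.length with h1 | h1
  · exact (h.gt i hi h1).le
  · rw [pos_of_length_le h1.le]
    exact h.ht_nonneg

theorem Br.pos_le {w : Wd} (h : Br w) (i : ℕ) : (pos w i).1 ≤ w.sum.1 := by
  rcases le_or_gt i w.length with h1 | h1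
  · exact h.le i h1
  · rw [pos_of_length_le h1.le]

/-- the beginning of a bridge up to a maximum of the past is a bridge -/
theorem Br.take {w : Wd} (h : Br w) {i : ℕ} (hi : i ≤ w.length)
    (hm : ∀ k, k ≤ i → (pos w k).1 ≤ (pos w i).1) : Br (w.take i) := by
  have hl : (w.take i).length = i := by simp [hi]
  refine ⟨h.saw.take i, fun k hk1 hk => ?_, fun k hk => ?_⟩
  · rw [hl] at hk
    rw [pos_take hk]
    exact h.gt k hk1 (by omega)
  · rw [hl] at hk
    rw [pos_take hk]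
    exact hm k hk

/-- the end of a bridge after a strict minimum of the future is a bridge -/
theorem Br.drop {w : Wd} (h : Br w) {i : ℕ} (hi : i ≤ w.length)
    (hm : ∀ k, i < k → k ≤ w.length → (pos w i).1 < (pos w k).1) : Br (w.drop i) := by
  have hl : (w.drop i).length = w.length - i := by simp
  refine ⟨h.saw.drop i, fun k hk1 hk => ?_, fun k hk => ?_⟩
  · rw [hl] at hk
    rw [pos_drop, Prod.fst_sub]
    have := hm (i + k) (by omega) (by omega)
    omega
  · rw [pos_drop, sum_drop, Prod.fst_sub, Prod.fst_sub]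
    have := h.pos_le (i + k)
    omega

/-- two cuts of a bridge -/
theorem br_refine {u v u' v' : Wd} (hu : Br u) (hv : Br v) (hu' : Br u') (hv' : Br v')
    (h : u ++ v = u' ++ v') (hl : u.length ≤ u'.length) :
    ∃ m, Br m ∧ u' = u ++ m ∧ v = m ++ v' := by
  obtain ⟨m, hm1, hm2⟩ : ∃ m, u' = u ++ m ∧ v = m ++ v' := by
    rcases List.append_eq_append_iff.1 h with ⟨m, h1, h2⟩ | ⟨m, h1, h2⟩
    · exact ⟨m, h1, h2⟩
    · have h3 : m = [] := by
        have := congrArg List.length h1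
        rw [List.length_append] at this
        apply List.length_eq_zero_iff.1
        omega
      subst h3
      exact ⟨[], by simpa using h1.symm, by simpa using h2.symm⟩
  refine ⟨m, ?_, hm1, hm2⟩
  have hsaw : IsSaw m := by
    have := hv.saw
    rw [hm2] at this
    exact this.of_append_left
  refine ⟨hsaw, fun k hk1 hk => ?_, fun k hk => ?_⟩
  · have h1 := hv.gt k hk1 (by rw [hm2, List.length_append]; omega)
    rw [hm2, pos_append_left hk] at h1
    exact h1
  · have h1 := hu'.le (u.length + k) (by rw [hm1, List.length_append]; omega)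
    rw [hm1, pos_append_right, List.sum_append, Prod.fst_add, Prod.fst_add] at h1
    omega

private theorem refl2_inj : Function.Injective refl2 := by
  intro a b h
  rw [refl2_apply, refl2_apply, Prod.mk.injEq] at h
  exact Prod.ext h.1 (neg_injective h.2)

private theorem refl2_step {v : ℤ × ℤ} (hv : IsStep v) : IsStep (refl2 v) := by
  simp only [IsStep, refl2_apply] at *
  omega

private theorem refl2_refl2 (v : ℤ × ℤ) : refl2 (refl2 v) = v := by
  simp

private theorem map_refl2_map_refl2 (w : Wd) : (w.map refl2).map refl2 = w := by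
  rw [List.map_map]
  conv_rhs => rw [← List.map_id w]
  apply List.map_congr_left
  intro v _
  exact refl2_refl2 v

theorem Br.map_refl2 {w : Wd} (h : Br w) : Br (w.map refl2) := by
  refine ⟨h.saw.map refl2 refl2_inj (fun v hv => refl2_step hv), fun i hi1 hi => ?_,
    fun i hi => ?_⟩
  · rw [List.length_map] at hi
    rw [pos_map]
    exact h.gt i hi1 hi
  · rw [List.length_map] at hi
    rw [pos_map, ← map_list_sum]
    exact h.le i hi

theorem Irr.map_refl2 {w : Wd} (h : Irr w) : Irr (w.map refl2) := by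
  refine ⟨h.br.map_refl2, ?_, ?_⟩
  · intro h1
    exact h.ne (List.map_eq_nil_iff.1 h1)
  · intro u v hu hv huv
    have h1 : u.map refl2 ++ v.map refl2 = w := by
      rw [← List.map_append, huv, map_refl2_map_refl2]
    rcases h.irr _ _ hu.map_refl2 hv.map_refl2 h1 with h2 | h2
    · left
      exact List.map_eq_nil_iff.1 h2
    · right
      exact List.map_eq_nil_iff.1 h2

/-- the word with one step up is an irreducible bridge -/
theorem irr_singleton : Irr [((1 : ℤ), (0 : ℤ))] := by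
  refine ⟨⟨⟨?_, ?_⟩, ?_, ?_⟩, by simp, ?_⟩
  · intro v hv
    rw [List.mem_singleton] at hv
    subst hv
    simp [IsStep]
  · intro i j hij hj
    simp only [List.length_singleton] at hj
    obtain rfl : i = 0 := by omega
    obtain rfl : j = 1 := by omega
    intro h
    have h1 := congrArg Prod.fst h
    simp [pos] at h1
  · intro i hi1 hi
    simp only [List.length_singleton] at hi
    obtain rfl : i = 1 := by omega
    simp [pos]
  · intro i hi
    simp only [List.length_singleton] at hi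
    rcases (by omega : i = 0 ∨ i = 1) with rfl | rfl
    · simp [pos]
    · simp [pos]
  · intro u v _ _ huv
    have h1 := congrArg List.length huv
    rw [List.length_append, List.length_singleton] at h1
    rcases Nat.eq_zero_or_pos u.length with h2 | h2
    · left
      exact List.length_eq_zero_iff.1 h2
    · right
      apply List.length_eq_zero_iff.1
      omega

theorem isBridge_iff {T : ℕ} {w : Wd} : IsBridge Z1 T w ↔ Br w ∧ w.sum.1 = T := by
  constructor
  · intro h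
    have h1 : w.sum.1 = (T : ℤ) := h.ht
    refine ⟨⟨h.saw, fun i hi1 hi => h.gt i hi1 hi, fun i hi => ?_⟩, h1⟩
    rw [h1]
    exact h.le i hi
  · rintro ⟨h, h1⟩
    refine ⟨h.saw, fun i hi1 hi => h.gt i hi1 hi, fun i hi => ?_, h1⟩
    rw [← h1]
    exact h.le i hi

end Pool.Agent.Lib.MP_c23e5f_co.G
end

section

set_option autoImplicit false

namespace Pool.Agent.Lib.MP_c23e5f_co.G

open Pool.Agent.Lib.MP_c23e5f_co

/-- the inserted word: `Γ[0,s]`, the exchanged bridge `ρ`, a step in the second direction, the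
reflected rest of `Γ` -/
def ins (Γ ρ : Wd) (s : ℕ) : Wd :=
  Γ.take s ++ ρ.map swap12 ++ [((0 : ℤ), (1 : ℤ))] ++ (Γ.drop s).map refl2

/-- position of `Γ` relative to the index `o`: first coordinate (height) -/
def ry (Γ : Wd) (o i : ℕ) : ℤ := (pos Γ i).1 - (pos Γ o).1

/-- position of `Γ` relative to the index `o`: second coordinate (transversal) -/
def rx (Γ : Wd) (o i : ℕ) : ℤ := (pos Γ i).2 - (pos Γ o).2

/-- hypotheses of the insertion lemma -/
structure InsHyp (Γ ρ : Wd) (L o s : ℕ) : Prop where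
  brΓ : Br Γ
  brρ : Br ρ
  L1 : 1 ≤ L
  ho : o ≤ Γ.length
  hs : s ≤ Γ.length
  cone : ∀ i, i ≤ Γ.length → 8 * |rx Γ o i| ≤ |ry Γ o i| + 12 * L
  win : ∀ i, i ≤ Γ.length → |ry Γ o i| < 50 * L → rx Γ o i ≤ rx Γ o s
  below : ∀ i, i ≤ s → 100 * ry Γ o i ≤ L
  above : ∀ i, s ≤ i → i ≤ Γ.length → -(L : ℤ) ≤ 100 * ry Γ o i
  xs0 : 0 ≤ rx Γ o s
  xs1 : 2 * rx Γ o s ≤ L
  ys : 100 * |ry Γ o s| ≤ L
  rf : ∀ j, j ≤ ρ.length → 8 * |(pos ρ j).2| ≤ (pos ρ j).1 + 8 * L
  rb : ∀ j, j ≤ ρ.length → 8 * |(pos ρ j).2 - ρ.sum.2| ≤ ρ.sum.1 - (pos ρ j).1 + 8 * L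
  big : 10 * (L : ℤ) ≤ ρ.sum.1
  h1 : ρ.sum.1 + 20 * L ≤ (pos Γ o).1
  h2 : ρ.sum.1 + 20 * L ≤ Γ.sum.1 - (pos Γ o).1

/-- admissible pairs of indices -/
structure Adm (V : Wd) (L s s2 : ℕ) : Prop where
  le : s ≤ s2
  len : s2 ≤ V.length
  a : ∀ i, i ≤ s → 8 * |rx V s i| ≤ |ry V s i| + 24 * L
  b : ∀ i, s ≤ i → i ≤ s2 → 0 ≤ rx V s i ∧ 8 * |ry V s i| ≤ rx V s i + 8 * L
  c : ∀ i, s ≤ i → i ≤ s2 → rx V s2 i ≤ 0 ∧ 8 * |ry V s2 i| ≤ -rx V s2 i + 8 * L
  d : ∀ i, s2 < i → i ≤ V.length → 8 * |rx V s2 i| ≤ |ry V s2 i| + 32 * L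

end Pool.Agent.Lib.MP_c23e5f_co.G
end

section

set_option autoImplicit false

namespace Pool.Agent.Lib.MP_c23e5f_co.G

open Pool.Agent.Lib.MP_c23e5f_co

/-- the maximal second coordinate along a word -/
def mx (a : Wd) : ℤ :=
  (Finset.range (a.length + 1)).sup' ⟨0, by simp⟩ (fun i => (pos a i).2)

/-- hypotheses (on lists of factors) of the glueing lemma -/
structure GlHyp (A Wm Wp B R : List Wd) (L : ℕ) : Prop where
  L1 : 1 ≤ L
  brA : ∀ a ∈ A, Br a
  brWm : ∀ a ∈ Wm, Br a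
  brWp : ∀ a ∈ Wp, Br a
  brB : ∀ a ∈ B, Br a
  brR : ∀ a ∈ R, Br a
  fcA : ∀ X a Y, A = X ++ a :: Y →
    8 * |Y.flatten.sum.2| + 8 * (a.length : ℤ) ≤ Y.flatten.sum.1 + 8 * L
  fcB : ∀ X a Y, B = X ++ a :: Y →
    8 * |X.flatten.sum.2| + 8 * (a.length : ℤ) ≤ X.flatten.sum.1 + 8 * L
  ml : ∀ a ∈ Wm, 100 * a.length ≤ L
  mx : ∀ X Y, Wm = X ++ Y → 8 * |X.flatten.sum.2| ≤ (L : ℤ)
  mh : 50 * (L : ℤ) ≤ Wm.flatten.sum.1
  mm : ∃ X0 a0, Wm = X0 ++ [a0] ∧ ∀ X a Y, Wm = X ++ a :: Y →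
    X.flatten.sum.2 + G.mx a ≤ X0.flatten.sum.2 + G.mx a0
  pl : ∀ a ∈ Wp, 100 * a.length ≤ L
  px : ∀ X Y, Wp = X ++ Y → 8 * |X.flatten.sum.2| ≤ (L : ℤ)
  ph : 50 * (L : ℤ) ≤ Wp.flatten.sum.1
  pm : ∃ a0 X0, Wp = a0 :: X0 ∧ ∀ X a Y, Wp = X ++ a :: Y →
    X.flatten.sum.2 + G.mx a ≤ G.mx a0
  r1 : ∀ X a Y, R = X ++ a :: Y →
    8 * |X.flatten.sum.2| + 8 * (a.length : ℤ) ≤ X.flatten.sum.1 + 8 * L
  r2 : ∀ X a Y, R = X ++ a :: Y →
    8 * |Y.flatten.sum.2| + 8 * (a.length : ℤ) ≤ Y.flatten.sum.1 + 8 * L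
  big : 10 * (L : ℤ) ≤ R.flatten.sum.1
  hA : R.flatten.sum.1 + 20 * L ≤ A.flatten.sum.1 + Wm.flatten.sum.1
  hB : R.flatten.sum.1 + 20 * L ≤ Wp.flatten.sum.1 + B.flatten.sum.1

end Pool.Agent.Lib.MP_c23e5f_co.G
end

section

section

set_option autoImplicit false

namespace Pool.Agent.Lib.MP_c23e5f_co.G

variable {ι : Type*}

theorem ES_eq_sum (s : Finset ι) (w : ι → ℝ) (N : ℕ) (F : List ι → ℝ) :
    ES s (fun _ => w) N F = ∑ L ∈ lsts s N, (L.map w).prod * F L := by
  induction N generalizing F with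
  | zero => simp [ES, lsts]
  | succ N ih =>
    rw [sum_lsts_succ]
    change ∑ a ∈ s, w a * ES s (fun _ => w) N (fun L => F (a :: L)) = _
    refine Finset.sum_congr rfl fun a _ => ?_
    rw [ih, Finset.mul_sum]
    refine Finset.sum_congr rfl fun L _ => ?_
    rw [List.map_cons, List.prod_cons]
    ring

/-- monotonicity -/
theorem ES_mono (s : Finset ι) (w : ℕ → ι → ℝ) (hw : ∀ j, ∀ a ∈ s, 0 ≤ w j a) (N : ℕ)
    (F G : List ι → ℝ) (h : ∀ L, L.length = N → (∀ a ∈ L, a ∈ s) → F L ≤ G L) :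
    ES s w N F ≤ ES s w N G := by
  induction N generalizing w F G with
  | zero => exact h [] rfl (by simp)
  | succ N ih =>
    unfold ES
    refine Finset.sum_le_sum fun a ha => ?_
    apply mul_le_mul_of_nonneg_left _ (hw 0 a ha)
    apply ih (fun j => w (j + 1)) (fun j => hw (j + 1))
    intro L hL hLs
    apply h
    · rw [List.length_cons, hL]
    · intro b hb
      rcases List.mem_cons.1 hb with rfl | hb
      · exact ha
      · exact hLs b hb

theorem ES_add (s : Finset ι) (w : ℕ → ι → ℝ) (N : ℕ) (F G : List ι → ℝ) :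
    ES s w N (fun L => F L + G L) = ES s w N F + ES s w N G := by
  induction N generalizing w F G with
  | zero => rfl
  | succ N ih =>
    unfold ES
    rw [← Finset.sum_add_distrib]
    refine Finset.sum_congr rfl fun a _ => ?_
    rw [← mul_add]
    congr 1
    exact ih (fun j => w (j + 1)) (fun L => F (a :: L)) (fun L => G (a :: L))

theorem ES_smul (s : Finset ι) (w : ℕ → ι → ℝ) (N : ℕ) (c : ℝ) (F : List ι → ℝ) :
    ES s w N (fun L => c * F L) = c * ES s w N F := by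
  induction N generalizing w F with
  | zero => rfl
  | succ N ih =>
    unfold ES
    rw [Finset.mul_sum]
    refine Finset.sum_congr rfl fun a _ => ?_
    have h1 := ih (fun j => w (j + 1)) (fun L => F (a :: L))
    rw [h1]
    ring

theorem ES_one (s : Finset ι) (w : ℕ → ι → ℝ) (hw1 : ∀ j, ∑ a ∈ s, w j a = 1) (N : ℕ) :
    ES s w N (fun _ => 1) = 1 := by
  induction N generalizing w with
  | zero => rfl
  | succ N ih =>
    unfold ES
    have h1 := ih (fun j => w (j + 1)) (fun j => hw1 (j + 1))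
    change ∑ a ∈ s, w 0 a * ES s (fun j => w (j + 1)) N (fun _ => 1) = 1
    rw [h1]
    simp only [mul_one]
    exact hw1 0

/-- union bound in the form: the union of two bad events -/
theorem ES_inter (s : Finset ι) (w : ℕ → ι → ℝ) (hw : ∀ j, ∀ a ∈ s, 0 ≤ w j a)
    (hw1 : ∀ j, ∑ a ∈ s, w j a = 1) (N : ℕ) (p q : List ι → Prop) :
    1 - ES s w N (fun L => ind (¬ p L)) - ES s w N (fun L => ind (¬ q L)) ≤
      ES s w N (fun L => ind (p L ∧ q L)) := by
  classical
  have h1 : ES s w N (fun _ => 1) ≤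
      ES s w N (fun L => ind (¬ p L) + (ind (¬ q L) + ind (p L ∧ q L))) := by
    apply ES_mono s w hw
    intro L _ _
    unfold ind
    by_cases hp : p L
    · by_cases hq : q L
      · simp [hp, hq]
      · simp [hp, hq]
    · by_cases hq : q L
      · simp [hp, hq]
      · simp [hp, hq]
  rw [ES_one s w hw1, ES_add, ES_add] at h1
  linarith

/-- expectation of a sum -/
theorem ES_sum (s : Finset ι) (w : ℕ → ι → ℝ) (hw1 : ∀ j, ∑ a ∈ s, w j a = 1) (l : ι → ℝ) (N : ℕ) :
    ES s w N (fun L => (L.map l).sum) = ∑ j ∈ Finset.range N, ∑ a ∈ s, w j a * l a := by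
  induction N generalizing w with
  | zero => simp [ES]
  | succ N ih =>
    rw [Finset.sum_range_succ']
    unfold ES
    have h1 : ∀ a ∈ s, w 0 a * ES s (fun j => w (j + 1)) N (fun L => ((a :: L).map l).sum) =
        w 0 a * l a + w 0 a * ∑ j ∈ Finset.range N, ∑ a ∈ s, w (j + 1) a * l a := by
      intro a _
      have h2 : ES s (fun j => w (j + 1)) N (fun L => ((a :: L).map l).sum) =
          l a + ∑ j ∈ Finset.range N, ∑ a ∈ s, w (j + 1) a * l a := by
        simp only [List.map_cons, List.sum_cons]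
        rw [ES_add s (fun j => w (j + 1)) N (fun _ => l a) (fun L => (L.map l).sum),
          ih (fun j => w (j + 1)) (fun j => hw1 (j + 1))]
        congr 1
        have h3 := ES_smul s (fun j => w (j + 1)) N (l a) (fun _ => 1)
        rw [ES_one s (fun j => w (j + 1)) (fun j => hw1 (j + 1)), mul_one] at h3
        simpa using h3
      rw [h2]
      ring
    rw [Finset.sum_congr rfl h1, Finset.sum_add_distrib, ← Finset.sum_mul, hw1 0, one_mul]
    ring

/-- Markov inequality -/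
theorem ES_markov (s : Finset ι) (w : ℕ → ι → ℝ) (hw : ∀ j, ∀ a ∈ s, 0 ≤ w j a) (N : ℕ)
    (F : List ι → ℝ) (hF : ∀ L, L.length = N → (∀ a ∈ L, a ∈ s) → 0 ≤ F L) {c : ℝ} (hc : 0 < c) :
    ES s w N (fun L => ind (¬ F L ≤ c)) ≤ ES s w N F / c := by
  classical
  have h1 : ES s w N (fun L => ind (¬ F L ≤ c)) ≤ ES s w N (fun L => c⁻¹ * F L) := by
    apply ES_mono s w hw
    intro L hL hLs
    unfold ind
    by_cases h : F L ≤ c
    · rw [if_neg (not_not.2 h)]
      exact mul_nonneg (inv_nonneg.2 hc.le) (hF L hL hLs)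
    · rw [if_pos h, inv_mul_eq_div, le_div_iff₀ hc]
      push Not at h
      linarith
  rw [ES_smul] at h1
  rwa [div_eq_inv_mul]

private theorem pb_ES_nonneg (s : Finset ι) (w : ℕ → ι → ℝ) (hw : ∀ j, ∀ a ∈ s, 0 ≤ w j a) (N : ℕ)
    (F : List ι → ℝ) (hF : ∀ L, 0 ≤ F L) : 0 ≤ ES s w N F := by
  have h1 := ES_mono s w hw N (fun _ => 0) F (fun L _ _ => hF L)
  have h2 := ES_smul s w N 0 (fun _ => 0)
  simp only [zero_mul] at h2
  rwa [h2] at h1

/-- change of law -/
theorem ES_change (s : Finset ι) (w w' : ℕ → ι → ℝ) (p : ℕ → ℝ) (hp : ∀ j, 0 ≤ p j)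
    (hw' : ∀ j, ∀ a ∈ s, 0 ≤ w' j a) (h : ∀ j, ∀ a ∈ s, p j * w' j a ≤ w j a) (N : ℕ)
    (F : List ι → ℝ) (hF : ∀ L, 0 ≤ F L) :
    (∏ j ∈ Finset.range N, p j) * ES s w' N F ≤ ES s w N F := by
  induction N generalizing w w' p F with
  | zero => simp [ES]
  | succ N ih =>
    rw [Finset.prod_range_succ']
    unfold ES
    rw [Finset.mul_sum]
    refine Finset.sum_le_sum fun a ha => ?_
    have h1 := ih (fun j => w (j + 1)) (fun j => w' (j + 1)) (fun j => p (j + 1))
      (fun j => hp (j + 1)) (fun j => hw' (j + 1)) (fun j => h (j + 1)) (fun L => F (a :: L))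
      (fun L => hF _)
    have h2 : 0 ≤ p 0 * w' 0 a := mul_nonneg (hp 0) (hw' 0 a ha)
    have h3 : 0 ≤ ES s (fun j => w (j + 1)) N (fun L => F (a :: L)) := by
      apply pb_ES_nonneg s (fun j => w (j + 1)) _ N _ (fun L => hF _)
      intro j b hb
      exact (mul_nonneg (hp (j + 1)) (hw' (j + 1) b hb)).trans (h (j + 1) b hb)
    calc (∏ j ∈ Finset.range N, p (j + 1)) * p 0 *
          (w' 0 a * ES s (fun j => w' (j + 1)) N (fun L => F (a :: L)))
        = (p 0 * w' 0 a) * ((∏ j ∈ Finset.range N, p (j + 1)) *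
          ES s (fun j => w' (j + 1)) N (fun L => F (a :: L))) := by ring
      _ ≤ (p 0 * w' 0 a) * ES s (fun j => w (j + 1)) N (fun L => F (a :: L)) :=
          mul_le_mul_of_nonneg_left h1 h2
      _ ≤ w 0 a * ES s (fun j => w (j + 1)) N (fun L => F (a :: L)) :=
          mul_le_mul_of_nonneg_right (h 0 a ha) h3

end Pool.Agent.Lib.MP_c23e5f_co.G
end

section

set_option autoImplicit false

namespace Pool.Agent.Lib.MP_c23e5f_co.G

variable {ι : Type*}

variable {s : Finset ι} {w h l ξ : ι → ℝ} {σ : ι → ι} {g K D L : ℝ}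

theorem PD.g_le (pd : PD s w h l ξ σ g K D L) : g ≤ 3 / 2 * D := by
  have h1 : ∑ a ∈ s, w a * h a ≤ ∑ a ∈ s, (w a * D + w a * (if D ≤ h a then h a else 0)) := by
    refine Finset.sum_le_sum fun a ha => ?_
    rw [← mul_add]
    refine mul_le_mul_of_nonneg_left ?_ (pd.w0 a ha)
    split_ifs with hD
    · linarith [pd.D1]
    · linarith [not_le.mp hD]
  rw [Finset.sum_add_distrib, ← Finset.sum_mul, pd.w1, pd.gE] at h1
  linarith [pd.hD]

theorem PD.one_le_g (pd : PD s w h l ξ σ g K D L) : 1 ≤ g := by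
  rw [← pd.gE, ← pd.w1]
  refine Finset.sum_le_sum fun a ha => ?_
  nlinarith [pd.w0 a ha, pd.h1 a ha]

theorem PD.one_sub_pr (pd : PD s w h l ξ σ g K D L) {τ : ℝ} (hτ : 0 < τ) :
    1 - pr s w l τ ≤ K * g / τ := by
  rw [pr, ← pd.w1, ← Finset.sum_sub_distrib, le_div_iff₀ hτ, Finset.sum_mul]
  refine le_trans (Finset.sum_le_sum fun a ha => ?_) pd.lK
  have hl0 : 0 ≤ l a := le_trans (by linarith [pd.h1 a ha]) (pd.hl a ha)
  split_ifs with hc
  · simpa using mul_nonneg (pd.w0 a ha) hl0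
  · rw [sub_zero]
    exact mul_le_mul_of_nonneg_left (not_le.mp hc).le (pd.w0 a ha)

theorem PD.pr_le (pd : PD s w h l ξ σ g K D L) (τ : ℝ) : pr s w l τ ≤ 1 := by
  rw [pr, ← pd.w1]
  refine Finset.sum_le_sum fun a ha => ?_
  split_ifs with hc
  · exact le_rfl
  · exact pd.w0 a ha

theorem PD.half_le_pr (pd : PD s w h l ξ σ g K D L) {τ : ℝ} (hτ : 8 * D * K ≤ τ) :
    1 / 2 ≤ pr s w l τ := by
  have hD := pd.D1
  have hK := pd.K1
  have hDK : 1 ≤ D * K := by nlinarith
  have hτ0 : 0 < τ := by nlinarith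
  have h1 := pd.one_sub_pr hτ0
  have h2 : K * g / τ ≤ 1 / 2 := by
    rw [div_le_iff₀ hτ0]
    have := mul_le_mul_of_nonneg_left pd.g_le (le_trans zero_le_one hK)
    nlinarith
  linarith

theorem PD.cw_nonneg (pd : PD s w h l ξ σ g K D L) {τ : ℝ} (hτ : 8 * D * K ≤ τ) :
    ∀ a ∈ s, 0 ≤ cw s w l τ a := by
  intro a ha
  rw [cw]
  split_ifs with hc
  · exact div_nonneg (pd.w0 a ha) (by linarith [pd.half_le_pr hτ])
  · exact le_rfl

theorem PD.cw_sum (pd : PD s w h l ξ σ g K D L) {τ : ℝ} (hτ : 8 * D * K ≤ τ) :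
    ∑ a ∈ s, cw s w l τ a = 1 := by
  have hp : (0 : ℝ) < pr s w l τ := by linarith [pd.half_le_pr hτ]
  have h1 : ∀ a ∈ s, cw s w l τ a = (if l a ≤ τ then w a else 0) / pr s w l τ := by
    intro a _
    rw [cw]
    split_ifs
    · rfl
    · simp
  rw [Finset.sum_congr rfl h1, ← Finset.sum_div]
  have h2 : (∑ a ∈ s, if l a ≤ τ then w a else 0) = pr s w l τ := by
    rw [pr]
  rw [h2]
  exact div_self hp.ne'

theorem PD.pr_mul_cw (pd : PD s w h l ξ σ g K D L) {τ : ℝ} (hτ : 8 * D * K ≤ τ) :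
    ∀ a ∈ s, pr s w l τ * cw s w l τ a ≤ w a := by
  intro a ha
  have hp : (0 : ℝ) < pr s w l τ := by linarith [pd.half_le_pr hτ]
  rw [cw]
  split_ifs with hc
  · rw [mul_div_cancel₀ _ hp.ne']
  · simpa using pd.w0 a ha

private theorem cw_sigma (pd : PD s w h l ξ σ g K D L) (τ : ℝ) (a : ι) (ha : a ∈ s) :
    cw s w l τ (σ a) = cw s w l τ a := by
  rw [cw, cw, pd.σl a ha, pd.σw a ha]

theorem PD.cw_xi (pd : PD s w h l ξ σ g K D L) (τ : ℝ) :
    ∑ a ∈ s, cw s w l τ a * ξ a = 0 := by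
  have h1 : ∑ a ∈ s, cw s w l τ a * ξ a = ∑ a ∈ s, -(cw s w l τ a * ξ a) := by
    refine Finset.sum_nbij' σ σ pd.σs pd.σs pd.σσ pd.σσ fun a ha => ?_
    rw [cw_sigma pd τ a ha, pd.σx a ha]
    ring
  rw [Finset.sum_neg_distrib] at h1
  linarith

private theorem cw_le (pd : PD s w h l ξ σ g K D L) {τ : ℝ} (hτ : 8 * D * K ≤ τ) (a : ι)
    (ha : a ∈ s) : cw s w l τ a ≤ 2 * w a := by
  have hp := pd.half_le_pr hτ
  rw [cw]
  split_ifs with hc
  · rw [div_le_iff₀ (by linarith)]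
    nlinarith [pd.w0 a ha]
  · linarith [pd.w0 a ha]

private theorem l_nonneg (pd : PD s w h l ξ σ g K D L) (a : ι) (ha : a ∈ s) : 0 ≤ l a :=
  le_trans (by linarith [pd.h1 a ha]) (pd.hl a ha)

theorem PD.cw_xi_sq (pd : PD s w h l ξ σ g K D L) {τ : ℝ} (hτ : 8 * D * K ≤ τ) :
    ∑ a ∈ s, cw s w l τ a * ξ a ^ 2 ≤ 2 * ∑ a ∈ s, w a * (if l a ≤ τ then l a ^ 2 else 0) := by
  rw [Finset.mul_sum]
  refine Finset.sum_le_sum fun a ha => ?_
  have hx : ξ a ^ 2 ≤ l a ^ 2 := by
    rw [← sq_abs (ξ a)]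
    exact pow_le_pow_left₀ (abs_nonneg _) (pd.xl a ha) 2
  by_cases hc : l a ≤ τ
  · rw [if_pos hc]
    have h1 := cw_le pd hτ a ha
    have h2 := pd.cw_nonneg hτ a ha
    calc cw s w l τ a * ξ a ^ 2 ≤ (2 * w a) * l a ^ 2 :=
          mul_le_mul h1 hx (sq_nonneg _) (by linarith [pd.w0 a ha])
      _ = 2 * (w a * l a ^ 2) := by ring
  · rw [if_neg hc, cw, if_neg hc]
    simp

theorem PD.cw_l (pd : PD s w h l ξ σ g K D L) {τ : ℝ} (hτ : 8 * D * K ≤ τ) :
    ∑ a ∈ s, cw s w l τ a * l a ≤ 2 * K * g := by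
  have h1 : ∑ a ∈ s, cw s w l τ a * l a ≤ ∑ a ∈ s, 2 * (w a * l a) := by
    refine Finset.sum_le_sum fun a ha => ?_
    calc cw s w l τ a * l a ≤ (2 * w a) * l a :=
          mul_le_mul_of_nonneg_right (cw_le pd hτ a ha) (l_nonneg pd a ha)
      _ = 2 * (w a * l a) := by ring
  rw [← Finset.mul_sum] at h1
  linarith [pd.lK]

theorem PD.cw_h (pd : PD s w h l ξ σ g K D L) {τ : ℝ} (hτ : 8 * D * K ≤ τ) :
    13 / 24 * g ≤ ∑ a ∈ s, cw s w l τ a * min (h a) D := by
  have hD := pd.D1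
  have hK := pd.K1
  have hg := pd.one_le_g
  have hDK : 1 ≤ D * K := by nlinarith
  have hτ0 : 0 < τ := by nlinarith
  have hp := pd.half_le_pr hτ
  have hp1 := pd.pr_le τ
  -- pointwise
  have h1 : ∑ a ∈ s, (w a * h a - w a * (if D ≤ h a then h a else 0) -
      D * (w a - (if l a ≤ τ then w a else 0))) ≤ ∑ a ∈ s, cw s w l τ a * min (h a) D := by
    refine Finset.sum_le_sum fun a ha => ?_
    have hw := pd.w0 a ha
    have hh := pd.h1 a ha
    have hm0 : 0 ≤ min (h a) D := le_min (by linarith) (by linarith)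
    have hm : h a - (if D ≤ h a then h a else 0) ≤ min (h a) D := by
      split_ifs with hc
      · simpa using hm0
      · rw [min_eq_left (not_le.mp hc).le]
        linarith
    have hmD : min (h a) D ≤ D := min_le_right _ _
    have e1 : w a * h a - w a * (if D ≤ h a then h a else 0) =
        w a * (h a - (if D ≤ h a then h a else 0)) := by ring
    rw [e1]
    have h3 : w a * (h a - (if D ≤ h a then h a else 0)) ≤ w a * min (h a) D :=
      mul_le_mul_of_nonneg_left hm hw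
    by_cases hc : l a ≤ τ
    · rw [if_pos hc, cw, if_pos hc, sub_self, mul_zero, sub_zero]
      refine le_trans h3 (mul_le_mul_of_nonneg_right ?_ hm0)
      rw [le_div_iff₀ (by linarith)]
      nlinarith
    · rw [if_neg hc, cw, if_neg hc, sub_zero, zero_mul]
      have : w a * min (h a) D ≤ D * w a := by
        rw [mul_comm D]
        exact mul_le_mul_of_nonneg_left hmD hw
      linarith
  rw [Finset.sum_sub_distrib, Finset.sum_sub_distrib, ← Finset.mul_sum, Finset.sum_sub_distrib,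
    pd.gE, pd.w1] at h1
  have h2 : (∑ a ∈ s, if l a ≤ τ then w a else 0) = pr s w l τ := by
    rw [pr]
  rw [h2] at h1
  have h4 := pd.one_sub_pr hτ0
  have h5 : D * (1 - pr s w l τ) ≤ g / 8 := by
    calc D * (1 - pr s w l τ) ≤ D * (K * g / τ) :=
          mul_le_mul_of_nonneg_left h4 (by linarith)
      _ = D * K * g / τ := by ring
      _ ≤ g / 8 := by
          rw [div_le_iff₀ hτ0]
          nlinarith
  have h6 := pd.hD
  linarith

theorem PD.cw_h_var (pd : PD s w h l ξ σ g K D L) {τ : ℝ} (hτ : 8 * D * K ≤ τ) :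
    ∑ a ∈ s, cw s w l τ a * (min (h a) D - ∑ b ∈ s, cw s w l τ b * min (h b) D) ^ 2 ≤
      2 * D * g := by
  set μ := ∑ b ∈ s, cw s w l τ b * min (h b) D with hμ
  have hD := pd.D1
  have e1 : ∑ a ∈ s, cw s w l τ a * (min (h a) D - μ) ^ 2 =
      ∑ a ∈ s, cw s w l τ a * (min (h a) D) ^ 2 - μ ^ 2 := by
    have : ∀ a ∈ s, cw s w l τ a * (min (h a) D - μ) ^ 2 =
        cw s w l τ a * (min (h a) D) ^ 2 - 2 * μ * (cw s w l τ a * min (h a) D) +
          μ ^ 2 * cw s w l τ a := by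
      intro a _
      ring
    rw [Finset.sum_congr rfl this, Finset.sum_add_distrib, Finset.sum_sub_distrib,
      ← Finset.mul_sum, ← Finset.mul_sum, pd.cw_sum hτ, ← hμ]
    ring
  rw [e1]
  have h2 : ∑ a ∈ s, cw s w l τ a * (min (h a) D) ^ 2 ≤ ∑ a ∈ s, 2 * D * (w a * h a) := by
    refine Finset.sum_le_sum fun a ha => ?_
    have hw := pd.w0 a ha
    have hh := pd.h1 a ha
    have hm0 : 0 ≤ min (h a) D := le_min (by linarith) (by linarith)
    have hsq : (min (h a) D) ^ 2 ≤ D * h a := by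
      rw [sq]
      exact mul_le_mul (min_le_right _ _) (min_le_left _ _) hm0 (by linarith)
    calc cw s w l τ a * (min (h a) D) ^ 2 ≤ (2 * w a) * (D * h a) :=
          mul_le_mul (cw_le pd hτ a ha) hsq (sq_nonneg _) (by linarith)
      _ = 2 * D * (w a * h a) := by ring
  rw [← Finset.mul_sum, pd.gE] at h2
  linarith [sq_nonneg μ]

end Pool.Agent.Lib.MP_c23e5f_co.G
end

section

set_option autoImplicit false

namespace Pool.Agent.Lib.MP_c23e5f_co.G

variable {ι : Type*}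

private theorem ph_ind_le_one (p : Prop) : ind p ≤ 1 := by
  classical
  unfold ind
  split_ifs <;> norm_num

private theorem ph_event (X : ℕ → ι → ℝ) (c : ℕ → ℝ) (x : ℝ) (h : ¬ 1 ≤ c 0 * |x|) (a : ι)
    (L : List ι) :
    (∃ A B, a :: L = A ++ B ∧ 1 ≤ c A.length * |x + sX X A|) ↔
      (∃ A B, L = A ++ B ∧ 1 ≤ c (A.length + 1) * |(x + X 0 a) + sX (fun j => X (j + 1)) A|) := by
  constructor
  · rintro ⟨A, B, h1, h2⟩
    rcases A with _ | ⟨b, A'⟩
    · exfalso
      apply h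
      simpa [sX] using h2
    · rw [List.cons_append, List.cons.injEq] at h1
      obtain ⟨rfl, h3⟩ := h1
      refine ⟨A', B, h3, ?_⟩
      rw [sX, List.length_cons, ← add_assoc] at h2
      exact h2
  · rintro ⟨A, B, h1, h2⟩
    refine ⟨a :: A, B, by rw [h1]; rfl, ?_⟩
    rw [sX, List.length_cons, ← add_assoc]
    exact h2

/-- (4.1) Hajek-Renyi inequality -/
theorem hajek (s : Finset ι) (w : ℕ → ι → ℝ) (hw : ∀ j, ∀ a ∈ s, 0 ≤ w j a)
    (hw1 : ∀ j, ∑ a ∈ s, w j a = 1) (X : ℕ → ι → ℝ) (hX : ∀ j, ∑ a ∈ s, w j a * X j a = 0)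
    (c : ℕ → ℝ) (hc : Antitone c) (hc0 : ∀ j, 0 ≤ c j) (N : ℕ) (x : ℝ) :
    ES s w N (fun L => ind (∃ A B, L = A ++ B ∧ 1 ≤ c A.length * |x + sX X A|)) ≤
      c 0 ^ 2 * x ^ 2 + ∑ i ∈ Finset.range N, c (i + 1) ^ 2 * ∑ a ∈ s, w i a * X i a ^ 2 := by
  classical
  have hv : ∀ (w : ℕ → ι → ℝ) (X : ℕ → ι → ℝ), (∀ j, ∀ a ∈ s, 0 ≤ w j a) → ∀ i,
      0 ≤ ∑ a ∈ s, w i a * X i a ^ 2 :=
    fun w X hw i => Finset.sum_nonneg fun a ha => mul_nonneg (hw i a ha) (sq_nonneg _)
  -- the trivial case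
  have triv : ∀ (w : ℕ → ι → ℝ) (X : ℕ → ι → ℝ) (c : ℕ → ℝ) (x : ℝ) (N : ℕ),
      (∀ j, ∀ a ∈ s, 0 ≤ w j a) → (∀ j, ∑ a ∈ s, w j a = 1) → 1 ≤ c 0 * |x| →
      ES s w N (fun L => ind (∃ A B, L = A ++ B ∧ 1 ≤ c A.length * |x + sX X A|)) ≤
        c 0 ^ 2 * x ^ 2 + ∑ i ∈ Finset.range N, c (i + 1) ^ 2 * ∑ a ∈ s, w i a * X i a ^ 2 := by
    intro w X c x N hw hw1 h1
    have a1 : ES s w N (fun L => ind (∃ A B, L = A ++ B ∧ 1 ≤ c A.length * |x + sX X A|)) ≤ 1 := by
      rw [← ES_one s w hw1 N]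
      exact ES_mono s w hw N _ _ fun L _ _ => ph_ind_le_one _
    have a2 : (1 : ℝ) ≤ c 0 ^ 2 * x ^ 2 := by
      rw [← sq_abs x, ← mul_pow]
      exact one_le_pow₀ h1
    have a3 : 0 ≤ ∑ i ∈ Finset.range N, c (i + 1) ^ 2 * ∑ a ∈ s, w i a * X i a ^ 2 :=
      Finset.sum_nonneg fun i _ => mul_nonneg (sq_nonneg _) (hv w X hw i)
    linarith
  induction N generalizing w X c x with
  | zero =>
    by_cases h : 1 ≤ c 0 * |x|
    · exact triv w X c x 0 hw hw1 h
    · have e : ¬ (∃ A B : List ι, [] = A ++ B ∧ 1 ≤ c A.length * |x + sX X A|) := by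
        rintro ⟨A, B, h1, h2⟩
        have hA : A = [] := by
          rcases A with _ | ⟨b, A'⟩
          · rfl
          · simp at h1
        subst hA
        apply h
        simpa [sX] using h2
      rw [ES, ind, if_neg e]
      simp only [Finset.range_zero, Finset.sum_empty, add_zero]
      positivity
  | succ N ih =>
    by_cases h : 1 ≤ c 0 * |x|
    · exact triv w X c x (N + 1) hw hw1 h
    rw [ES]
    have e1 : ∀ a ∈ s, w 0 a * ES s (fun j => w (j + 1)) N (fun L =>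
        ind (∃ A B, a :: L = A ++ B ∧ 1 ≤ c A.length * |x + sX X A|)) ≤
        w 0 a * (c 1 ^ 2 * (x + X 0 a) ^ 2 +
          ∑ i ∈ Finset.range N, c (i + 2) ^ 2 * ∑ a ∈ s, w (i + 1) a * X (i + 1) a ^ 2) := by
      intro a ha
      apply mul_le_mul_of_nonneg_left _ (hw 0 a ha)
      have := ih (fun j => w (j + 1)) (fun j => hw (j + 1)) (fun j => hw1 (j + 1))
        (fun j => X (j + 1)) (fun j => hX (j + 1)) (fun j => c (j + 1))
        (fun i j hij => hc (by omega)) (fun j => hc0 (j + 1)) (x + X 0 a)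
      have e2 : (fun L : List ι => ind (∃ A B, a :: L = A ++ B ∧
          1 ≤ c A.length * |x + sX X A|)) = fun L => ind (∃ A B, L = A ++ B ∧
          1 ≤ c (A.length + 1) * |(x + X 0 a) + sX (fun j => X (j + 1)) A|) := by
        funext L
        exact congrArg ind (propext (ph_event X c x h a L))
      rw [e2]
      exact this
    refine (Finset.sum_le_sum e1).trans ?_
    set S := ∑ i ∈ Finset.range N, c (i + 2) ^ 2 * ∑ a ∈ s, w (i + 1) a * X (i + 1) a ^ 2 with hS
    have e3 : ∑ a ∈ s, w 0 a * (c 1 ^ 2 * (x + X 0 a) ^ 2 + S) =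
        c 1 ^ 2 * x ^ 2 + c 1 ^ 2 * ∑ a ∈ s, w 0 a * X 0 a ^ 2 + S := by
      have e4 : ∀ a ∈ s, w 0 a * (c 1 ^ 2 * (x + X 0 a) ^ 2 + S) =
          (c 1 ^ 2 * x ^ 2 + S) * w 0 a + (2 * c 1 ^ 2 * x) * (w 0 a * X 0 a) +
            c 1 ^ 2 * (w 0 a * X 0 a ^ 2) := by
        intro a _; ring
      rw [Finset.sum_congr rfl e4, Finset.sum_add_distrib, Finset.sum_add_distrib,
        ← Finset.mul_sum, ← Finset.mul_sum, ← Finset.mul_sum, hw1, hX]
      ring
    rw [e3, Finset.sum_range_succ']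
    have e5 : c 1 ^ 2 * x ^ 2 ≤ c 0 ^ 2 * x ^ 2 := by
      apply mul_le_mul_of_nonneg_right _ (sq_nonneg _)
      exact pow_le_pow_left₀ (hc0 1) (hc (by norm_num)) 2
    have e6 : ∑ k ∈ Finset.range N, c (k + 1 + 1) ^ 2 * ∑ a ∈ s, w (k + 1) a * X (k + 1) a ^ 2 =
        S := rfl
    rw [e6]
    have e7 : c (0 + 1) ^ 2 * ∑ a ∈ s, w 0 a * X 0 a ^ 2 =
        c 1 ^ 2 * ∑ a ∈ s, w 0 a * X 0 a ^ 2 := by norm_num
    rw [e7]
    linarith

theorem sX_const (ξ : ι → ℝ) (A : List ι) : sX (fun _ => ξ) A = (A.map ξ).sum := by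
  induction A with
  | nil => rfl
  | cons a A ih => rw [sX, List.map_cons, List.sum_cons, ih]

theorem sX_sub (h : ι → ℝ) (μ : ℕ → ℝ) (A : List ι) :
    sX (fun j a => h a - μ j) A = (A.map h).sum - ∑ j ∈ Finset.range A.length, μ j := by
  induction A generalizing μ with
  | nil => simp [sX]
  | cons a A ih =>
    rw [sX, List.map_cons, List.sum_cons, ih (fun j => μ (j + 1)), List.length_cons,
      Finset.sum_range_succ']
    ring

end Pool.Agent.Lib.MP_c23e5f_co.G
end

section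

set_option autoImplicit false

namespace Pool.Agent.Lib.MP_c23e5f_co.G

variable {ι : Type*}

/-- concatenation of independent blocks -/
theorem ES_append (s : Finset ι) (w : ι → ℝ) (N N' : ℕ) (F : List ι → ℝ) :
    ES s (fun _ => w) (N + N') F =
      ES s (fun _ => w) N (fun A => ES s (fun _ => w) N' (fun B => F (A ++ B))) := by
  induction N generalizing F with
  | zero =>
    rw [Nat.zero_add]
    rfl
  | succ N ih =>
    rw [show N + 1 + N' = (N + N') + 1 by omega]
    show ∑ a ∈ s, w a * ES s (fun _ => w) (N + N') (fun L => F (a :: L)) =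
      ∑ a ∈ s, w a * ES s (fun _ => w) N
        (fun L => ES s (fun _ => w) N' (fun B => F ((a :: L) ++ B)))
    refine Finset.sum_congr rfl fun a _ => ?_
    rw [ih]
    rfl

theorem ES_reverse (s : Finset ι) (w : ι → ℝ) (N : ℕ) (F : List ι → ℝ) :
    ES s (fun _ => w) N (fun L => F L.reverse) = ES s (fun _ => w) N F := by
  rw [ES_eq_sum, ES_eq_sum]
  have hmem : ∀ L ∈ lsts s N, L.reverse ∈ lsts s N := by
    intro L hL
    rw [mem_lsts] at hL ⊢
    exact ⟨by rw [List.length_reverse, hL.1], fun a ha => hL.2 a (List.mem_reverse.1 ha)⟩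
  refine Finset.sum_nbij' List.reverse List.reverse hmem hmem
    (fun L _ => List.reverse_reverse L) (fun L _ => List.reverse_reverse L) (fun L _ => ?_)
  rw [((List.reverse_perm L).map w).prod_eq]

theorem ES_rotate (s : Finset ι) (w : ι → ℝ) (N k : ℕ) (F : List ι → ℝ) :
    ES s (fun _ => w) N (fun L => F (L.rotate k)) = ES s (fun _ => w) N F := by
  rcases Nat.eq_zero_or_pos N with rfl | hN
  · show F (([] : List ι).rotate k) = F []
    rw [List.rotate_nil]
  rw [ES_eq_sum, ES_eq_sum]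
  have hmem : ∀ (j : ℕ), ∀ L ∈ lsts s N, L.rotate j ∈ lsts s N := by
    intro j L hL
    rw [mem_lsts] at hL ⊢
    exact ⟨by rw [List.length_rotate, hL.1], fun a ha => hL.2 a (List.mem_rotate.1 ha)⟩
  have hk : k + (N - k % N) = N * (k / N + 1) := by
    have h1 := Nat.mod_add_div k N
    have h2 := Nat.mod_lt k hN
    rw [Nat.mul_add, Nat.mul_one]
    omega
  have hz : ∀ L ∈ lsts s N, L.rotate (N * (k / N + 1)) = L := by
    intro L hL
    rw [mem_lsts] at hL
    rw [← List.rotate_mod, hL.1, Nat.mul_mod_right, List.rotate_zero]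
  refine Finset.sum_nbij' (fun L => L.rotate k) (fun L => L.rotate (N - k % N)) (hmem k)
    (hmem _) (fun L hL => ?_) (fun L hL => ?_) (fun L _ => ?_)
  · show (L.rotate k).rotate (N - k % N) = L
    rw [List.rotate_rotate, hk, hz L hL]
  · show (L.rotate (N - k % N)).rotate k = L
    rw [List.rotate_rotate, Nat.add_comm, hk, hz L hL]
  · show (L.map w).prod * F (L.rotate k) = ((L.rotate k).map w).prod * F (L.rotate k)
    rw [((List.rotate_perm L k).map w).prod_eq]

theorem ES_map (s : Finset ι) (w : ι → ℝ) (σ : ι → ι) (hs : ∀ a ∈ s, σ a ∈ s)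
    (hσ : ∀ a ∈ s, σ (σ a) = a) (hw : ∀ a ∈ s, w (σ a) = w a) (N : ℕ) (F : List ι → ℝ) :
    ES s (fun _ => w) N (fun L => F (L.map σ)) = ES s (fun _ => w) N F := by
  rw [ES_eq_sum, ES_eq_sum]
  have hmem : ∀ L ∈ lsts s N, L.map σ ∈ lsts s N := by
    intro L hL
    rw [mem_lsts] at hL ⊢
    refine ⟨by rw [List.length_map, hL.1], fun a ha => ?_⟩
    obtain ⟨b, hb, rfl⟩ := List.mem_map.1 ha
    exact hs b (hL.2 b hb)
  have hinv : ∀ L ∈ lsts s N, (L.map σ).map σ = L := by
    intro L hL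
    rw [mem_lsts] at hL
    rw [List.map_map]
    conv_rhs => rw [← List.map_id L]
    exact List.map_congr_left fun a ha => hσ a (hL.2 a ha)
  refine Finset.sum_nbij' (fun L => L.map σ) (fun L => L.map σ) hmem hmem hinv hinv
    (fun L hL => ?_)
  show (L.map w).prod * F (L.map σ) = ((L.map σ).map w).prod * F (L.map σ)
  have h : (L.map σ).map w = L.map w := by
    rw [mem_lsts] at hL
    rw [List.map_map]
    exact List.map_congr_left fun a ha => hw a (hL.2 a ha)
  rw [h]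

end Pool.Agent.Lib.MP_c23e5f_co.G
end
end
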