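import Pool.Agent.Lib.MP_c23e5f_co.G.GDefs
import Pool.Agent.Lib.MP_c23e5f_co.G.PInv
import Pool.Agent.Lib.MP_c23e5f_co.G.GMass2
import Pool.Agent.Lib.MP_c23e5f_co.G.PCone
import Pool.Agent.Lib.MP_c23e5f_co.LoopLower

section

section

set_option autoImplicit false

namespace Pool.Agent.Lib.MP_c23e5f_co.G

open Pool.Agent.Lib.MP_c23e5f_co

/-- the loops of the problem -/
def Loops (n : ℕ) : Set (ℕ → ℤ × ℤ) :=
  {f : ℕ → ℤ × ℤ | f 0 = (0, 0) ∧ (∀ i, f (i + 2 * n) = f i) ∧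
    (∀ i j, i < 2 * n → j < 2 * n → f i = f j → i = j) ∧
    (∀ i, ((f i).1 - (f (i + 1)).1).natAbs + ((f i).2 - (f (i + 1)).2).natAbs = 1)}

/-- the width of the problem -/
def width (n : ℕ) (f : ℕ → ℤ × ℤ) : ℕ :=
  ((Finset.range (2 * n)) ×ˢ (Finset.range (2 * n))).sup
    (fun p : ℕ × ℕ => ((f p.1).1 - (f p.2).1).natAbs)

end Pool.Agent.Lib.MP_c23e5f_co.G
end

section

set_option autoImplicit false

namespace Pool.Agent.Lib.MP_c23e5f_co.G

open Pool.Agent.Lib.MP_c23e5f_co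

private lemma posa (Γ ρ : Wd) {s i : ℕ} (hs : s ≤ Γ.length) (hi : i ≤ s) :
    pos (ins Γ ρ s) i = pos Γ i := by
  unfold ins
  rw [List.append_assoc, List.append_assoc, pos_append_left (by simpa using And.intro hi (hi.trans hs)),
    pos_take hi]

private lemma posb (Γ ρ : Wd) {s j : ℕ} (hs : s ≤ Γ.length) (hj : j ≤ ρ.length) :
    pos (ins Γ ρ s) (s + j) = pos Γ s + swap12 (pos ρ j) := by
  have h1 : (Γ.take s).length = s := by simpa using hs
  have h2 : (Γ.take s).sum = pos Γ s := rfl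
  unfold ins
  rw [List.append_assoc, List.append_assoc]
  have h3 := pos_append_right (Γ.take s) (ρ.map swap12 ++ ([((0 : ℤ), (1 : ℤ))] ++
    (Γ.drop s).map refl2)) j
  rw [h1, h2] at h3
  rw [h3, pos_append_left (by simpa using hj), pos_map]

private lemma posc (Γ ρ : Wd) {s : ℕ} (hs : s ≤ Γ.length) (k : ℕ) :
    pos (ins Γ ρ s) (s + ρ.length + 1 + k) =
      pos Γ s + swap12 ρ.sum + ((0 : ℤ), (1 : ℤ)) + refl2 (pos Γ (s + k) - pos Γ s) := by
  have h1 : (Γ.take s ++ ρ.map swap12 ++ [((0 : ℤ), (1 : ℤ))]).length = s + ρ.length + 1 := by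
    simp [Nat.min_eq_left hs]
    omega
  have h2 : (Γ.take s ++ ρ.map swap12 ++ [((0 : ℤ), (1 : ℤ))]).sum =
      pos Γ s + swap12 ρ.sum + ((0 : ℤ), (1 : ℤ)) := by
    rw [List.sum_append, List.sum_append, ← map_list_sum]
    simp [pos]
  have h3 := pos_append_right (Γ.take s ++ ρ.map swap12 ++ [((0 : ℤ), (1 : ℤ))])
    ((Γ.drop s).map refl2) k
  rw [h1, h2] at h3
  unfold ins
  rw [h3, pos_map, pos_drop]

theorem length_ins (Γ ρ : Wd) {s : ℕ} (hs : s ≤ Γ.length) :
    (ins Γ ρ s).length = Γ.length + ρ.length + 1 := by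
  simp only [ins, List.length_append, List.length_take, List.length_map, List.length_singleton,
    List.length_drop]
  omega

/-- (5.2), the pair of the insertion is admissible -/
theorem adm_ins {Γ ρ : Wd} {L o s : ℕ} (h : InsHyp Γ ρ L o s) :
    Adm (ins Γ ρ s) L s (s + ρ.length) := by
  have hs := h.hs
  have hL1 : (1 : ℤ) ≤ L := by exact_mod_cast h.L1
  have hlen := length_ins Γ ρ hs
  have pa : ∀ i, i ≤ s → pos (ins Γ ρ s) i = pos Γ i := fun i hi => posa Γ ρ hs hi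
  have pb : ∀ j, j ≤ ρ.length → pos (ins Γ ρ s) (s + j) = pos Γ s + swap12 (pos ρ j) :=
    fun j hj => posb Γ ρ hs hj
  have ps : pos (ins Γ ρ s) s = pos Γ s := pa s le_rfl
  have ps2 : pos (ins Γ ρ s) (s + ρ.length) = pos Γ s + swap12 ρ.sum := by
    rw [pb _ le_rfl, pos_length]
  have xs0 := h.xs0
  have xs1 := h.xs1
  have ys := h.ys
  refine ⟨by omega, by omega, ?_, ?_, ?_, ?_⟩
  · intro i hi
    have hc := h.cone i (hi.trans hs)
    simp only [rx, ry] at *
    rw [pa i hi, ps]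
    generalize (pos Γ i).1 = a at *
    generalize (pos Γ i).2 = b at *
    generalize (pos Γ s).1 = c at *
    generalize (pos Γ s).2 = d at *
    generalize (pos Γ o).1 = e at *
    generalize (pos Γ o).2 = f at *
    rcases abs_cases (a - e) with h1 | h1 <;> rcases abs_cases (b - f) with h2 | h2 <;>
    rcases abs_cases (c - e) with h3 | h3 <;> rcases abs_cases (b - d) with h4 | h4 <;>
    rcases abs_cases (a - c) with h5 | h5 <;> omega
  · intro i hi1 hi2
    obtain ⟨j, rfl⟩ := Nat.exists_eq_add_of_le hi1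
    have hj : j ≤ ρ.length := by omega
    have h1 := h.brρ.pos_nonneg j
    have h2 := h.rf j hj
    simp only [rx, ry]
    rw [pb j hj, ps]
    simp only [swap12_apply, Prod.fst_add, Prod.snd_add, add_sub_cancel_left]
    exact ⟨h1, h2⟩
  · intro i hi1 hi2
    obtain ⟨j, rfl⟩ := Nat.exists_eq_add_of_le hi1
    have hj : j ≤ ρ.length := by omega
    have h1 := h.brρ.pos_le j
    have h2 := h.rb j hj
    simp only [rx, ry]
    rw [pb j hj, ps2]
    simp only [swap12_apply, Prod.fst_add, Prod.snd_add, add_sub_add_left_eq_sub]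
    refine ⟨by omega, ?_⟩
    rw [neg_sub]
    exact h2
  · intro i hi1 hi2
    obtain ⟨k, rfl⟩ : ∃ k, i = s + ρ.length + 1 + k := ⟨i - (s + ρ.length + 1), by omega⟩
    have hk : s + k ≤ Γ.length := by omega
    have hc := h.cone (s + k) hk
    simp only [rx, ry] at *
    rw [posc Γ ρ hs k, ps2]
    simp only [swap12_apply, refl2_apply, Prod.fst_add, Prod.snd_add, Prod.fst_sub, Prod.snd_sub]
    generalize (pos Γ (s + k)).1 = a at *
    generalize (pos Γ (s + k)).2 = b at *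
    generalize (pos Γ s).1 = c at *
    generalize (pos Γ s).2 = d at *
    generalize (pos Γ o).1 = e at *
    generalize (pos Γ o).2 = f at *
    rw [show d + ρ.sum.1 + 1 + -(b - d) - (d + ρ.sum.1) = 1 - (b - d) by ring,
      show c + ρ.sum.2 + 0 + (a - c) - (c + ρ.sum.2) = a - c by ring]
    rcases abs_cases (a - e) with h1 | h1 <;> rcases abs_cases (b - f) with h2 | h2 <;>
    rcases abs_cases (c - e) with h3 | h3 <;> rcases abs_cases (1 - (b - d)) with h4 | h4 <;>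
    rcases abs_cases (a - c) with h5 | h5 <;> omega

theorem sum_ins_fst (Γ ρ : Wd) (s : ℕ) :
    (ins Γ ρ s).sum.1 = Γ.sum.1 + ρ.sum.2 := by
  have h : Γ.sum.1 = (Γ.take s).sum.1 + (Γ.drop s).sum.1 := by
    rw [← Prod.fst_add, ← List.sum_append, List.take_append_drop]
  unfold ins
  rw [List.sum_append, List.sum_append, List.sum_append, ← map_list_sum, ← map_list_sum, h]
  simp only [Prod.fst_add, swap12_apply, refl2_apply, List.sum_cons, List.sum_nil, add_zero]
  ring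

/-- the insertion can be undone -/
theorem ins_inj {Γ ρ Γ' ρ' : Wd} {s : ℕ} (hs : s ≤ Γ.length) (hs' : s ≤ Γ'.length)
    (hl : ρ.length = ρ'.length) (h : ins Γ ρ s = ins Γ' ρ' s) : Γ = Γ' ∧ ρ = ρ' := by
  unfold ins at h
  have hsw : Function.Injective (swap12 : ℤ × ℤ → ℤ × ℤ) := by
    intro a b hab
    simp only [swap12_apply, Prod.mk.injEq] at hab
    exact Prod.ext hab.2 hab.1
  have hre : Function.Injective (refl2 : ℤ × ℤ → ℤ × ℤ) := by
    intro a b hab
    simp only [refl2_apply, Prod.mk.injEq] at hab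
    exact Prod.ext hab.1 (by omega)
  obtain ⟨h1, h2⟩ := List.append_inj h (by simp [hl, Nat.min_eq_left hs, Nat.min_eq_left hs'])
  obtain ⟨h3, -⟩ := List.append_inj h1 (by simp [hl, Nat.min_eq_left hs, Nat.min_eq_left hs'])
  obtain ⟨h4, h5⟩ := List.append_inj h3 (by simp [Nat.min_eq_left hs, Nat.min_eq_left hs'])
  have h6 : Γ.drop s = Γ'.drop s := List.map_injective_iff.2 hre h2
  refine ⟨?_, List.map_injective_iff.2 hsw h5⟩
  rw [← List.take_append_drop s Γ, ← List.take_append_drop s Γ', h4, h6]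

end Pool.Agent.Lib.MP_c23e5f_co.G
end

section

set_option autoImplicit false

namespace Pool.Agent.Lib.MP_c23e5f_co.G

open Pool.Agent.Lib.MP_c23e5f_co

theorem mem_loops_iff {n : ℕ} (f : ℕ → ℤ × ℤ) : f ∈ Loops n ↔ IsLoop (2 * n) f ∧ f 0 = 0 := by
  constructor
  · rintro ⟨h0, hp, hi, hs⟩
    refine ⟨⟨fun i => ?_, hp, hi⟩, h0⟩
    have := hs i
    simp only [IsStep, Prod.fst_sub, Prod.snd_sub]
    omega
  · rintro ⟨⟨hs, hp, hi⟩, h0⟩
    refine ⟨h0, hp, hi, fun i => ?_⟩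
    have := hs i
    simp only [IsStep, Prod.fst_sub, Prod.snd_sub] at this
    omega

private theorem uarc_mod {N : ℕ} {f : ℕ → ℤ × ℤ} (hf : IsLoop N f) (i : ℕ) : f (i % N) = f i :=
  (show Function.Periodic f N from hf.per).map_mod_nat i

private theorem uarc_ne {N : ℕ} {f : ℕ → ℤ × ℤ} (hf : IsLoop N f) {i j : ℕ} (h1 : i < j)
    (h2 : j < i + N) : f i ≠ f j := by
  intro h
  have hN : 0 < N := by omega
  rw [← uarc_mod hf i, ← uarc_mod hf j] at h
  have h3 := hf.inj _ _ (Nat.mod_lt _ hN) (Nat.mod_lt _ hN) h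
  have h4 : (j - i) % N = 0 := Nat.sub_mod_eq_zero_of_mod_eq h3.symm
  rw [Nat.mod_eq_of_lt (by omega)] at h4
  omega

theorem exists_width {n : ℕ} (hn : 1 ≤ n) (f : ℕ → ℤ × ℤ) (hf : IsLoop (2 * n) f) :
    ∃ a m, a < 2 * n ∧ 1 ≤ m ∧ m < 2 * n ∧ (∀ i, (f a).1 ≤ (f i).1) ∧
      (∀ i, (f i).1 ≤ (f (a + m)).1) ∧ (width n f : ℤ) = (f (a + m)).1 - (f a).1 := by
  have hne : (Finset.range (2 * n)).Nonempty := ⟨0, Finset.mem_range.2 (by omega)⟩
  obtain ⟨a, ha, hamin⟩ := Finset.exists_min_image (Finset.range (2 * n)) (fun i => (f i).1) hne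
  obtain ⟨b, hb, hbmax⟩ := Finset.exists_max_image (Finset.range (2 * n)) (fun i => (f i).1) hne
  rw [Finset.mem_range] at ha hb
  have hmin : ∀ i, (f a).1 ≤ (f i).1 := by
    intro i
    rw [← uarc_mod hf i]
    exact hamin _ (Finset.mem_range.2 (Nat.mod_lt _ (by omega)))
  have hmax : ∀ i, (f i).1 ≤ (f b).1 := by
    intro i
    rw [← uarc_mod hf i]
    exact hbmax _ (Finset.mem_range.2 (Nat.mod_lt _ (by omega)))
  have hw : (width n f : ℤ) = (f b).1 - (f a).1 := by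
    have h1 : width n f = ((f b).1 - (f a).1).natAbs := by
      apply le_antisymm
      · apply Finset.sup_le
        intro p _
        have k1 := hmin p.1
        have k2 := hmin p.2
        have k3 := hmax p.1
        have k4 := hmax p.2
        omega
      · exact Finset.le_sup (f := fun p : ℕ × ℕ => ((f p.1).1 - (f p.2).1).natAbs)
          (b := (b, a)) (Finset.mem_product.2 ⟨Finset.mem_range.2 hb, Finset.mem_range.2 ha⟩)
    rw [h1]
    have := hmin b
    omega
  obtain ⟨m, hm1, hm2, hm⟩ : ∃ m, 1 ≤ m ∧ m < 2 * n ∧ (f (a + m)).1 = (f b).1 := by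
    rcases lt_trichotomy a b with h | h | h
    · refine ⟨b - a, by omega, by omega, ?_⟩
      rw [show a + (b - a) = b by omega]
    · refine ⟨1, le_rfl, by omega, ?_⟩
      have k1 := hmin (a + 1)
      have k2 := hmax (a + 1)
      rw [h] at k1 k2 ⊢
      omega
    · refine ⟨b + 2 * n - a, by omega, by omega, ?_⟩
      rw [show a + (b + 2 * n - a) = b + 2 * n by omega, hf.per]
  refine ⟨a, m, ha, hm1, hm2, hmin, ?_, ?_⟩
  · intro i
    rw [hm]
    exact hmax i
  · rw [hm]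
    exact hw

private theorem uarc_br {W : Wd} (hs : ∀ v ∈ W, IsStep v) (g : ℕ → ℤ × ℤ)
    (hp : ∀ k, k ≤ W.length → pos W k = g k - g 0)
    (hinj : ∀ i j, i < j → j ≤ W.length → g i ≠ g j)
    (hlo : ∀ k, k ≤ W.length → (g 0).1 ≤ (g k).1)
    (hhi : ∀ k, k ≤ W.length → (g k).1 ≤ (g W.length).1) :
    Br (((1 : ℤ), (0 : ℤ)) :: W) := by
  have hpos : ∀ k, pos (((1 : ℤ), (0 : ℤ)) :: W) (k + 1) = ((1 : ℤ), (0 : ℤ)) + pos W k := by
    intro k
    simp only [pos, List.take_succ_cons, List.sum_cons]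
  have hsum : (((1 : ℤ), (0 : ℤ)) :: W).sum = ((1 : ℤ), (0 : ℤ)) + (g W.length - g 0) := by
    rw [List.sum_cons, ← hp W.length le_rfl, pos_length]
  refine ⟨⟨?_, ?_⟩, ?_, ?_⟩
  · intro v hv
    rcases List.mem_cons.1 hv with rfl | hv
    · simp [IsStep]
    · exact hs v hv
  · intro i j hij hj
    rw [List.length_cons] at hj
    obtain ⟨j, rfl⟩ : ∃ j', j = j' + 1 := ⟨j - 1, by omega⟩
    rw [hpos, hp j (by omega)]
    cases i with
    | zero =>
      rw [pos_zero]
      intro h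
      have h1 := congrArg Prod.fst h
      simp only [Prod.fst_add, Prod.fst_sub, Prod.fst_zero] at h1
      have := hlo j (by omega)
      omega
    | succ i =>
      rw [hpos, hp i (by omega)]
      intro h
      have h1 := add_left_cancel h
      exact hinj i j (by omega) (by omega) (sub_left_injective h1)
  · intro i h1 hi
    rw [List.length_cons] at hi
    obtain ⟨i, rfl⟩ : ∃ j', i = j' + 1 := ⟨i - 1, by omega⟩
    rw [hpos, hp i (by omega)]
    simp only [Prod.fst_add, Prod.fst_sub]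
    have := hlo i (by omega)
    omega
  · intro i hi
    rw [List.length_cons] at hi
    rw [hsum]
    have h0 := hlo W.length le_rfl
    cases i with
    | zero =>
      rw [pos_zero]
      simp only [Prod.fst_add, Prod.fst_sub, Prod.fst_zero]
      omega
    | succ i =>
      rw [hpos, hp i (by omega)]
      simp only [Prod.fst_add, Prod.fst_sub]
      have := hhi i (by omega)
      omega

/-- the two arcs between a leftmost and a rightmost vertex -/
theorem br_arc {N : ℕ} {f : ℕ → ℤ × ℤ} (hf : IsLoop N f) {a m : ℕ} (h1 : 1 ≤ m) (h2 : m < N)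
    (hmin : ∀ i, (f a).1 ≤ (f i).1) (hmax : ∀ i, (f i).1 ≤ (f (a + m)).1) :
    Br (((1 : ℤ), (0 : ℤ)) :: seg f a m) ∧
    Br (((1 : ℤ), (0 : ℤ)) :: rev (seg f (a + m) (N - m))) := by
  have hstep : ∀ t n, ∀ v ∈ seg f t n, IsStep v := by
    intro t n v hv
    simp only [seg, List.mem_map, List.mem_range] at hv
    obtain ⟨i, -, rfl⟩ := hv
    exact hf.step (t + i)
  constructor
  · refine uarc_br (hstep a m) (fun k => f (a + k)) ?_ ?_ ?_ ?_
    · intro k hk
      rw [length_seg] at hk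
      rw [pos_seg hk]
      rfl
    · intro i j hij hj
      rw [length_seg] at hj
      exact uarc_ne hf (by omega) (by omega)
    · intro k _
      exact hmin _
    · intro k _
      rw [length_seg]
      exact hmax _
  · have hl : (rev (seg f (a + m) (N - m))).length = N - m := by
      rw [length_rev, length_seg]
    refine uarc_br ?_ (fun k => f (a + m + (N - m - k))) ?_ ?_ ?_ ?_
    · intro v hv
      simp only [rev, List.mem_reverse, List.mem_map] at hv
      obtain ⟨v', hv', rfl⟩ := hv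
      exact isStep_neg (hstep _ _ v' hv')
    · intro k hk
      rw [hl] at hk
      rw [pos_rev (by rw [length_seg]; exact hk), length_seg, pos_seg (by omega), sum_seg]
      simp only [Nat.sub_zero]
      abel
    · intro i j hij hj
      rw [hl] at hj
      exact (uarc_ne hf (by omega) (by omega)).symm
    · intro k _
      have h3 : f (a + m + (N - m - 0)) = f a := by
        rw [show a + m + (N - m - 0) = a + N by omega, hf.per]
      rw [h3]
      exact hmin _
    · intro k _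
      rw [hl, Nat.sub_self, Nat.add_zero]
      exact hmax _

end Pool.Agent.Lib.MP_c23e5f_co.G
end

section

set_option autoImplicit false

namespace Pool.Agent.Lib.MP_c23e5f_co.G

open Pool.Agent.Lib.MP_c23e5f_co

/-- length as a real number -/
def lR (w : Wd) : ℝ := (w.length : ℝ)

/-- transversal displacement as a real number -/
def xR (w : Wd) : ℝ := (w.sum.2 : ℝ)

/-- the maximal second coordinate as a real number -/
def mR (w : Wd) : ℝ := (mx w : ℝ)

/-- the event for the last factors -/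
def evB (g C : ℝ) (L : ℕ) (x : List Wd) : Prop :=
  FC hR lR xR L x ∧ x.length * g / 2 - L ≤ (x.map hR).sum ∧ (x.map lR).sum ≤ C

/-- the event for the first factors -/
def evA (g C : ℝ) (L : ℕ) (x : List Wd) : Prop := evB g C L x.reverse

/-- the event for the window before the origin -/
def evM (C : ℝ) (L : ℕ) (x : List Wd) : Prop := W1 hR lR xR L C x ∧ ML xR mR x

/-- the event for the window after the origin -/
def evP (C : ℝ) (L : ℕ) (x : List Wd) : Prop := W1 hR lR xR L C x ∧ MF xR mR x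

/-- the event for the inserted factors -/
def evR (C : ℝ) (L : ℕ) (x : List Wd) : Prop :=
  FC hR lR xR L x ∧ FC hR lR xR L x.reverse ∧ (x.map lR).sum ≤ C

end Pool.Agent.Lib.MP_c23e5f_co.G
end
end

section

section

set_option autoImplicit false

namespace Pool.Agent.Lib.MP_c23e5f_co.G

open Pool.Agent.Lib.MP_c23e5f_co

private lemma knum_exp {k : ℝ} (hk : 1 ≤ k) :
    (2 : ℝ) ^ 310 * k ^ 15 < Real.exp ((2 ^ 35 - 2 ^ 33 - 2 ^ 21) * k ^ 2) := by
  have h2 : (2 : ℝ) ≤ Real.exp 1 := by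
    have := Real.add_one_le_exp (1 : ℝ); linarith
  have h3 : (2 : ℝ) ^ 310 ≤ Real.exp 310 := by
    calc (2 : ℝ) ^ 310 ≤ (Real.exp 1) ^ 310 := by gcongr
      _ = Real.exp 310 := by rw [← Real.exp_nat_mul]; norm_num
  have hk2 : k ≤ k ^ 2 := by nlinarith
  have h4 : k ≤ Real.exp (k ^ 2) := by
    have := Real.add_one_le_exp (k ^ 2); linarith
  have h5 : k ^ 15 ≤ Real.exp (15 * k ^ 2) := by
    calc k ^ 15 ≤ (Real.exp (k ^ 2)) ^ 15 := by gcongr
      _ = Real.exp (15 * k ^ 2) := by rw [← Real.exp_nat_mul]; norm_num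
  have hk3 : 1 ≤ k ^ 2 := by nlinarith
  calc (2 : ℝ) ^ 310 * k ^ 15 ≤ Real.exp 310 * Real.exp (15 * k ^ 2) := by gcongr
    _ = Real.exp (310 + 15 * k ^ 2) := by rw [Real.exp_add]
    _ < Real.exp ((2 ^ 35 - 2 ^ 33 - 2 ^ 21) * k ^ 2) := by
      apply Real.exp_lt_exp.mpr
      nlinarith

private lemma knum_aux {k a M J g : ℝ} (hk : 1 ≤ k) (ha : 1 ≤ a) (hg1 : 1 ≤ g)
    (hM : a ^ 42 * Real.exp (2 ^ 35 * k ^ 2) ≤ M) (hJ1 : 1 ≤ J)
    (hJ : J * g ≤ 201 * (2 ^ 41 * k ^ 2 * a ^ 7)) :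
    90 * ((20000 * k ^ 2 * g + 1) * (100 * (2 ^ 41 * k ^ 2 * a ^ 7) ^ 2) ^ 2 *
      (20000 * k ^ 2 * g * M)) <
    128 * k * M * M * (Real.exp (-(2 ^ 19 * k ^ 2)) *
      (Real.exp (-(2 ^ 32 * k ^ 2)) / (2 * J)) *
      (Real.exp (-(2 ^ 32 * k ^ 2)) / (2 * J)) *
      Real.exp (-(2 ^ 19 * k ^ 2)) * Real.exp (-(2 ^ 20 * k ^ 2))) := by
  have hM0 : 0 < M := lt_of_lt_of_le (by positivity) hM
  have hJ0 : 0 < J := by linarith
  have hk0 : 0 < k := by linarith
  have ha0 : 0 < a := by linarith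
  have hg0 : 0 < g := by linarith
  set L : ℝ := 2 ^ 41 * k ^ 2 * a ^ 7 with hL
  have hL0 : 0 < L := by positivity
  have hk2 : 1 ≤ k ^ 2 := by nlinarith
  have e : Real.exp (-(2 ^ 19 * k ^ 2)) *
      (Real.exp (-(2 ^ 32 * k ^ 2)) / (2 * J)) *
      (Real.exp (-(2 ^ 32 * k ^ 2)) / (2 * J)) *
      Real.exp (-(2 ^ 19 * k ^ 2)) * Real.exp (-(2 ^ 20 * k ^ 2)) =
      Real.exp (-((2 ^ 33 + 2 ^ 21) * k ^ 2)) / (4 * J ^ 2) := by
    have : Real.exp (-((2 ^ 33 + 2 ^ 21) * k ^ 2)) = Real.exp (-(2 ^ 19 * k ^ 2)) *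
      Real.exp (-(2 ^ 32 * k ^ 2)) * Real.exp (-(2 ^ 32 * k ^ 2)) *
      Real.exp (-(2 ^ 19 * k ^ 2)) * Real.exp (-(2 ^ 20 * k ^ 2)) := by
      rw [← Real.exp_add, ← Real.exp_add, ← Real.exp_add, ← Real.exp_add]
      congr 1; ring
    rw [this]; field_simp; ring
  rw [e]
  set X : ℝ := Real.exp (-((2 ^ 33 + 2 ^ 21) * k ^ 2)) with hX
  have hX0 : 0 < X := Real.exp_pos _
  -- M X is large
  have hMX : a ^ 42 * Real.exp ((2 ^ 35 - 2 ^ 33 - 2 ^ 21) * k ^ 2) ≤ M * X := by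
    calc a ^ 42 * Real.exp ((2 ^ 35 - 2 ^ 33 - 2 ^ 21) * k ^ 2)
        = a ^ 42 * Real.exp (2 ^ 35 * k ^ 2) * X := by
          rw [hX, mul_assoc, ← Real.exp_add]; congr 2; ring
      _ ≤ M * X := by gcongr
  have hMX2 : a ^ 42 * ((2 : ℝ) ^ 310 * k ^ 15) < M * X :=
    lt_of_lt_of_le (mul_lt_mul_of_pos_left (knum_exp hk) (by positivity)) hMX
  have hJg : (J * g) ^ 2 ≤ (201 * L) ^ 2 := by gcongr
  -- left-hand side
  have h1 : 20000 * k ^ 2 * g + 1 ≤ 20001 * k ^ 2 * g := by nlinarith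
  have h2 : 90 * ((20000 * k ^ 2 * g + 1) * (100 * L ^ 2) ^ 2 * (20000 * k ^ 2 * g * M)) ≤
      90 * (20001 * k ^ 2 * g * (100 * L ^ 2) ^ 2 * (20000 * k ^ 2 * g * M)) := by gcongr
  refine lt_of_le_of_lt h2 ?_
  have h3 : 128 * k * M * M * (X / (4 * J ^ 2)) = 32 * k * M * (M * X) / J ^ 2 := by
    field_simp; ring
  rw [h3, lt_div_iff₀ (by positivity)]
  have h4 : 90 * (20001 * k ^ 2 * g * (100 * L ^ 2) ^ 2 * (20000 * k ^ 2 * g * M)) * J ^ 2 =
      (90 * 20001 * 20000 * 10000) * k ^ 4 * L ^ 4 * (J * g) ^ 2 * M := by ring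
  rw [h4]
  calc (90 * 20001 * 20000 * 10000) * k ^ 4 * L ^ 4 * (J * g) ^ 2 * M
      ≤ (90 * 20001 * 20000 * 10000) * k ^ 4 * L ^ 4 * (201 * L) ^ 2 * M := by gcongr
    _ = (90 * 20001 * 20000 * 10000 * 201 ^ 2) * (2 ^ 246) * k ^ 16 * a ^ 42 * M := by
        rw [hL]; ring
    _ ≤ (32 * 2 ^ 64) * (2 ^ 246) * k ^ 16 * a ^ 42 * M := by
        gcongr ?_ * _ * _ * _ * _
        norm_num
    _ = 32 * k * M * (a ^ 42 * ((2 : ℝ) ^ 310 * k ^ 15)) := by
        rw [show (2 : ℝ) ^ 310 = 2 ^ 64 * 2 ^ 246 by rw [← pow_add]]; ring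
    _ < 32 * k * M * (M * X) := mul_lt_mul_of_pos_left hMX2 (by positivity)

/-- the final inequality of Section 6 -/
theorem key_num {K a M J : ℕ} {g : ℝ} (hK : 1 ≤ K) (ha : 1 ≤ a) (hg1 : 1 ≤ g)
    (hg : g ≤ 4 * (a : ℝ) ^ 4)
    (hM : (a : ℝ) ^ 42 * Real.exp (2 ^ 35 * (K : ℝ) ^ 2) ≤ M) (hJ1 : 1 ≤ J)
    (hJ : J * g ≤ 201 * (2 ^ 41 * (K : ℝ) ^ 2 * (a : ℝ) ^ 7)) :
    90 * ((20000 * (K : ℝ) ^ 2 * g + 1) * (100 * (2 ^ 41 * (K : ℝ) ^ 2 * (a : ℝ) ^ 7) ^ 2) ^ 2 *
      (20000 * (K : ℝ) ^ 2 * g * M)) <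
    128 * K * M * M * (Real.exp (-(2 ^ 19 * (K : ℝ) ^ 2)) *
      (Real.exp (-(2 ^ 32 * (K : ℝ) ^ 2)) / (2 * J)) *
      (Real.exp (-(2 ^ 32 * (K : ℝ) ^ 2)) / (2 * J)) *
      Real.exp (-(2 ^ 19 * (K : ℝ) ^ 2)) * Real.exp (-(2 ^ 20 * (K : ℝ) ^ 2))) := by
  have hK' : (1 : ℝ) ≤ K := by exact_mod_cast hK
  have ha' : (1 : ℝ) ≤ a := by exact_mod_cast ha
  have hJ' : (1 : ℝ) ≤ J := by exact_mod_cast hJ1
  exact knum_aux hK' ha' hg1 hM hJ' hJ

end Pool.Agent.Lib.MP_c23e5f_co.G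
end

section

set_option autoImplicit false

namespace Pool.Agent.Lib.MP_c23e5f_co.G

open Pool.Agent.Lib.MP_c23e5f_co

private lemma mult_rx_neg (V : Wd) (s i : ℕ) : rx V i s = - rx V s i := by
  unfold rx
  ring

private lemma mult_ry_neg (V : Wd) (s i : ℕ) : ry V i s = - ry V s i := by
  unfold ry
  ring

private lemma mult_one {V : Wd} {L s s2 s' s2' : ℕ} (h : Adm V L s s2) (h' : Adm V L s' s2')
    (h1 : s ≤ s') (h2 : s' ≤ s2) :
    0 ≤ rx V s s' ∧ rx V s s' ≤ 4 * L ∧ -(2 * (L : ℤ)) ≤ ry V s s' ∧ ry V s s' ≤ 2 * L := by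
  obtain ⟨h3, h4⟩ := h.b s' h1 h2
  have h5 := h'.a s h1
  rw [mult_rx_neg, mult_ry_neg, abs_neg, abs_neg, abs_of_nonneg h3] at h5
  have h6 := abs_nonneg (ry V s s')
  have h7 : |ry V s s'| ≤ 2 * L := by omega
  have h8 := abs_le.1 h7
  refine ⟨h3, by omega, h8.1, h8.2⟩

private lemma mult_two {V : Wd} {L s s2 s' s2' : ℕ} (h : Adm V L s s2) (h' : Adm V L s' s2')
    (h1 : s' ≤ s2) (h2 : s2 ≤ s2') :
    0 ≤ rx V s2 s2' ∧ rx V s2 s2' ≤ 5 * L ∧ -(2 * (L : ℤ)) ≤ ry V s2 s2' ∧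
      ry V s2 s2' ≤ 2 * L := by
  rcases Nat.eq_or_lt_of_le h2 with h3 | h3
  · rw [h3]
    simp [rx, ry]
  · obtain ⟨h4, h5⟩ := h'.c s2 h1 h2
    have h6 := h.d s2' h3 h'.len
    rw [mult_rx_neg] at h4 h5
    rw [mult_ry_neg, abs_neg] at h5
    have h4' : 0 ≤ rx V s2 s2' := by omega
    rw [abs_of_nonneg h4'] at h6
    have h7 := abs_nonneg (ry V s2 s2')
    have h8 : |ry V s2 s2'| ≤ 2 * L := by omega
    have h9 := abs_le.1 h8
    refine ⟨h4', by omega, h9.1, h9.2⟩

/-- the number of indices whose positions are in a box -/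
private lemma mult_box {V : Wd} (hV : IsSaw V) {L : ℕ} (hL : 1 ≤ L) (A : Finset ℕ) (o : ℕ)
    (hA : ∀ s ∈ A, s ≤ V.length) (c : ℤ)
    (hb : ∀ s ∈ A, c ≤ rx V o s ∧ rx V o s ≤ c + 5 * L ∧ -(2 * (L : ℤ)) ≤ ry V o s ∧
      ry V o s ≤ 2 * L) : A.card ≤ 100 * L ^ 2 := by
  have h1 : A.card ≤ ((Finset.Icc c (c + 5 * L)) ×ˢ
      (Finset.Icc (-(2 * (L : ℤ))) (2 * L))).card := by
    refine Finset.card_le_card_of_injOn (fun s => (rx V o s, ry V o s)) (fun s hs => ?_) ?_
    · obtain ⟨h1, h2, h3, h4⟩ := hb s hs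
      simp only [Finset.coe_product, Set.mem_prod, Finset.mem_coe, Finset.mem_Icc]
      exact ⟨⟨h1, h2⟩, h3, h4⟩
    · have key : ∀ s ∈ A, ∀ t ∈ A, s < t → (rx V o s, ry V o s) ≠ (rx V o t, ry V o t) := by
        intro s hs t ht hst he
        rw [Prod.mk.injEq] at he
        obtain ⟨e1, e2⟩ := he
        unfold rx at e1
        unfold ry at e2
        refine hV.inj s t hst (hA t ht) ?_
        refine Prod.ext ?_ ?_
        · omega
        · omega
      intro s hs t ht he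
      rcases lt_trichotomy s t with h | h | h
      · exact absurd he (key s hs t ht h)
      · exact h
      · exact absurd he.symm (key t ht s hs h)
  refine h1.trans ?_
  rw [Finset.card_product, Int.card_Icc, Int.card_Icc]
  have e1 : (c + 5 * (L : ℤ) + 1 - c).toNat = 5 * L + 1 := by omega
  have e2 : (2 * (L : ℤ) + 1 - -(2 * (L : ℤ))).toNat = 4 * L + 1 := by omega
  rw [e1, e2]
  nlinarith

open Classical in
/-- (5.2), the number of admissible pairs at distance at least `M` -/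
theorem card_adm_le {V : Wd} (hV : IsSaw V) {L M : ℕ} (hL : 1 ≤ L) (hM : 1 ≤ M) :
    ((((Finset.range (V.length + 1)) ×ˢ (Finset.range (V.length + 1))).filter
      (fun p : ℕ × ℕ => Adm V L p.1 p.2 ∧ p.1 + M ≤ p.2)).card) ≤
      (V.length / M + 1) * (100 * L ^ 2) ^ 2 := by
  set S := ((Finset.range (V.length + 1)) ×ˢ (Finset.range (V.length + 1))).filter
      (fun p : ℕ × ℕ => Adm V L p.1 p.2 ∧ p.1 + M ≤ p.2) with hS
  have hSm : ∀ p ∈ S, Adm V L p.1 p.2 ∧ p.1 + M ≤ p.2 := fun p hp =>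
    (Finset.mem_filter.1 hp).2
  have hmain : S.card ≤ (100 * L ^ 2) ^ 2 * (Finset.range (V.length / M + 1)).card := by
    refine Finset.card_le_mul_card_image_of_maps_to (f := fun p : ℕ × ℕ => p.1 / M)
      (fun p hp => ?_) _ fun b _ => ?_
    · obtain ⟨h1, h2⟩ := hSm p hp
      have h3 := h1.len
      have h4 : p.1 / M ≤ V.length / M := Nat.div_le_div_right (by omega)
      exact Finset.mem_range.2 (by omega)
    · set Sb := S.filter (fun p => p.1 / M = b) with hSb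
      have hSbm : ∀ p ∈ Sb, (Adm V L p.1 p.2 ∧ p.1 + M ≤ p.2) ∧ p.1 / M = b := fun p hp =>
        ⟨hSm p (Finset.mem_filter.1 hp).1, (Finset.mem_filter.1 hp).2⟩
      rcases Sb.eq_empty_or_nonempty with hE | hE
      · rw [hE, Finset.card_empty]
        exact Nat.zero_le _
      obtain ⟨p0, hp0, hp0'⟩ := Finset.exists_min_image Sb Prod.fst hE
      obtain ⟨p1, hp1, hp1'⟩ := Finset.exists_min_image Sb Prod.snd hE
      have hblock : ∀ p ∈ Sb, ∀ p' ∈ Sb, p.1 < p'.1 + M := by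
        intro p hp p' hp'
        have e1 := (hSbm p hp).2
        have e2 := (hSbm p' hp').2
        have e3 := Nat.div_add_mod p.1 M
        have e4 := Nat.div_add_mod p'.1 M
        have e5 := Nat.mod_lt p.1 (show 0 < M by omega)
        rw [e1] at e3
        rw [e2] at e4
        omega
      have hA : (Sb.image Prod.fst).card ≤ 100 * L ^ 2 := by
        refine mult_box hV hL _ p0.1 (fun s hs => ?_) 0 fun s hs => ?_
        · obtain ⟨p, hp, rfl⟩ := Finset.mem_image.1 hs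
          obtain ⟨⟨h1, h2⟩, -⟩ := hSbm p hp
          have := h1.len
          omega
        · obtain ⟨p, hp, rfl⟩ := Finset.mem_image.1 hs
          obtain ⟨⟨h1, h2⟩, -⟩ := hSbm p hp
          obtain ⟨⟨h3, h4⟩, -⟩ := hSbm p0 hp0
          have h5 := hblock p hp p0 hp0
          have h6 := hp0' p hp
          obtain ⟨r1, r2, r3, r4⟩ := mult_one h3 h1 h6 (by omega)
          exact ⟨r1, by omega, r3, r4⟩
      have hB : (Sb.image Prod.snd).card ≤ 100 * L ^ 2 := by
        refine mult_box hV hL _ p1.2 (fun s hs => ?_) 0 fun s hs => ?_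
        · obtain ⟨p, hp, rfl⟩ := Finset.mem_image.1 hs
          obtain ⟨⟨h1, h2⟩, -⟩ := hSbm p hp
          exact h1.len
        · obtain ⟨p, hp, rfl⟩ := Finset.mem_image.1 hs
          obtain ⟨⟨h1, h2⟩, -⟩ := hSbm p hp
          obtain ⟨⟨h3, h4⟩, -⟩ := hSbm p1 hp1
          have h5 := hblock p hp p1 hp1
          have h6 := hp1' p hp
          obtain ⟨r1, r2, r3, r4⟩ := mult_two h3 h1 (by omega) h6
          exact ⟨r1, by omega, r3, r4⟩
      have hsub : Sb ⊆ (Sb.image Prod.fst) ×ˢ (Sb.image Prod.snd) := fun p hp =>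
        Finset.mem_product.2 ⟨Finset.mem_image_of_mem _ hp, Finset.mem_image_of_mem _ hp⟩
      calc Sb.card ≤ ((Sb.image Prod.fst) ×ˢ (Sb.image Prod.snd)).card :=
            Finset.card_le_card hsub
        _ = (Sb.image Prod.fst).card * (Sb.image Prod.snd).card := Finset.card_product _ _
        _ ≤ (100 * L ^ 2) * (100 * L ^ 2) := Nat.mul_le_mul hA hB
        _ = (100 * L ^ 2) ^ 2 := by ring
  rw [Finset.card_range] at hmain
  rw [mul_comm]
  exact hmain

end Pool.Agent.Lib.MP_c23e5f_co.G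
end

section

set_option autoImplicit false

namespace Pool.Agent.Lib.MP_c23e5f_co.G

open Pool.Agent.Lib.MP_c23e5f_co

private lemma ii_abs (z : ℤ) : z ≤ |z| ∧ -z ≤ |z| ∧ (|z| = z ∨ |z| = -z) :=
  ⟨le_abs_self z, neg_le_abs z, abs_choice z⟩

/-- the heights of a nonempty initial part of a bridge are positive -/
private lemma ii_X {Γ ρ : Wd} {L o s : ℕ} (h : InsHyp Γ ρ L o s) {j : ℕ} (hj : j ≤ ρ.length) :
    0 ≤ (pos ρ j).1 ∧ (1 ≤ j → 1 ≤ (pos ρ j).1) ∧ (pos ρ j).1 ≤ ρ.sum.1 := by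
  refine ⟨?_, fun h1 => ?_, h.brρ.le j hj⟩
  · rcases Nat.eq_zero_or_pos j with rfl | h1
    · simp
    · exact (h.brρ.gt j h1 hj).le
  · exact h.brρ.gt j h1 hj

private lemma ii_AB {Γ ρ : Wd} {L o s : ℕ} (h : InsHyp Γ ρ L o s) {i j : ℕ} (hi : i ≤ s)
    (hj1 : 1 ≤ j) (hj : j ≤ ρ.length) :
    ¬ ((pos Γ i).1 = (pos Γ s).1 + (pos ρ j).2 ∧ (pos Γ i).2 = (pos Γ s).2 + (pos ρ j).1) := by
  rintro ⟨e1, e2⟩
  have hiΓ : i ≤ Γ.length := hi.trans h.hs
  obtain ⟨hX0, hX1, hX2⟩ := ii_X h hj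
  have hX1 := hX1 hj1
  have c := h.cone i hiΓ
  have w := h.win i hiΓ
  have x0 := h.xs0
  have ys := h.ys
  have rf := h.rf j hj
  have L1 := h.L1
  unfold rx ry at *
  obtain ⟨a1, a2, a3⟩ := ii_abs ((pos Γ i).1 - (pos Γ o).1)
  obtain ⟨b1, b2, b3⟩ := ii_abs ((pos Γ i).2 - (pos Γ o).2)
  obtain ⟨c1, c2, c3⟩ := ii_abs ((pos Γ s).1 - (pos Γ o).1)
  obtain ⟨d1, d2, d3⟩ := ii_abs (pos ρ j).2
  have hw : ¬ |(pos Γ i).1 - (pos Γ o).1| < 50 * L := by
    intro hlt
    have := w hlt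
    omega
  generalize |(pos Γ i).1 - (pos Γ o).1| = A at *
  generalize |(pos Γ i).2 - (pos Γ o).2| = B at *
  generalize |(pos Γ s).1 - (pos Γ o).1| = C at *
  generalize |(pos ρ j).2| = D at *
  omega

private lemma ii_AC {Γ ρ : Wd} {L o s : ℕ} (h : InsHyp Γ ρ L o s) {i i' : ℕ} (hi : i ≤ s)
    (hi' : s ≤ i') (hi'' : i' ≤ Γ.length) :
    ¬ ((pos Γ i).1 = (pos Γ i').1 + ρ.sum.2 ∧
      (pos Γ i).2 = 2 * (pos Γ s).2 - (pos Γ i').2 + ρ.sum.1 + 1) := by
  rintro ⟨e1, e2⟩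
  have hiΓ : i ≤ Γ.length := hi.trans h.hs
  have c := h.cone i hiΓ
  have c' := h.cone i' hi''
  have bl := h.below i hi
  have ab := h.above i' hi' hi''
  have x0 := h.xs0
  have big := h.big
  have rf := h.rf ρ.length le_rfl
  rw [pos_length] at rf
  have L1 := h.L1
  unfold rx ry at *
  obtain ⟨a1, a2, a3⟩ := ii_abs ((pos Γ i).1 - (pos Γ o).1)
  obtain ⟨b1, b2, b3⟩ := ii_abs ((pos Γ i).2 - (pos Γ o).2)
  obtain ⟨c1, c2, c3⟩ := ii_abs ((pos Γ i').1 - (pos Γ o).1)
  obtain ⟨f1, f2, f3⟩ := ii_abs ((pos Γ i').2 - (pos Γ o).2)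
  obtain ⟨d1, d2, d3⟩ := ii_abs ρ.sum.2
  generalize |(pos Γ i).1 - (pos Γ o).1| = A at *
  generalize |(pos Γ i).2 - (pos Γ o).2| = B at *
  generalize |(pos Γ i').1 - (pos Γ o).1| = C at *
  generalize |(pos Γ i').2 - (pos Γ o).2| = F at *
  generalize |ρ.sum.2| = D at *
  omega

private lemma ii_BC {Γ ρ : Wd} {L o s : ℕ} (h : InsHyp Γ ρ L o s) {j i' : ℕ}
    (hj : j ≤ ρ.length) (_hi' : s ≤ i') (hi'' : i' ≤ Γ.length) :
    ¬ ((pos Γ s).1 + (pos ρ j).2 = (pos Γ i').1 + ρ.sum.2 ∧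
      (pos Γ s).2 + (pos ρ j).1 = 2 * (pos Γ s).2 - (pos Γ i').2 + ρ.sum.1 + 1) := by
  rintro ⟨e1, e2⟩
  obtain ⟨hX0, -, hX2⟩ := ii_X h hj
  have c' := h.cone i' hi''
  have w := h.win i' hi''
  have x0 := h.xs0
  have x1 := h.xs1
  have ys := h.ys
  have big := h.big
  have rb := h.rb j hj
  have L1 := h.L1
  unfold rx ry at *
  obtain ⟨c1, c2, c3⟩ := ii_abs ((pos Γ i').1 - (pos Γ o).1)
  obtain ⟨f1, f2, f3⟩ := ii_abs ((pos Γ i').2 - (pos Γ o).2)
  obtain ⟨g1, g2, g3⟩ := ii_abs ((pos Γ s).1 - (pos Γ o).1)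
  obtain ⟨d1, d2, d3⟩ := ii_abs ((pos ρ j).2 - ρ.sum.2)
  have hw : ¬ |(pos Γ i').1 - (pos Γ o).1| < 50 * L := by
    intro hlt
    have := w hlt
    omega
  generalize |(pos Γ s).1 - (pos Γ o).1| = A at *
  generalize |(pos Γ i').1 - (pos Γ o).1| = C at *
  generalize |(pos Γ i').2 - (pos Γ o).2| = F at *
  generalize |(pos ρ j).2 - ρ.sum.2| = D at *
  omega

private lemma ii_posQ (Γ : Wd) (s k : ℕ) :
    pos (((0 : ℤ), (1 : ℤ)) :: (Γ.drop s).map refl2) (k + 1) =
      ((pos Γ (s + k)).1 - (pos Γ s).1, 1 - ((pos Γ (s + k)).2 - (pos Γ s).2)) := by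
  have : pos (((0 : ℤ), (1 : ℤ)) :: (Γ.drop s).map refl2) (k + 1) =
      ((0 : ℤ), (1 : ℤ)) + pos ((Γ.drop s).map refl2) k := by
    simp [pos]
  rw [this, pos_map, pos_drop]
  ext <;> simp
  ring

private lemma ii_swap_step {v : ℤ × ℤ} (h : IsStep v) : IsStep (swap12 v) := by
  simp only [IsStep, swap12_apply] at *
  omega

private lemma ii_refl_step {v : ℤ × ℤ} (h : IsStep v) : IsStep (refl2 v) := by
  simp only [IsStep, refl2_apply] at *
  omega

private lemma ii_sawQ {Γ ρ : Wd} {L o s : ℕ} (h : InsHyp Γ ρ L o s) :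
    IsSaw (((0 : ℤ), (1 : ℤ)) :: (Γ.drop s).map refl2) := by
  have h1 : IsSaw [((0 : ℤ), (1 : ℤ))] := by
    refine ⟨by simp [IsStep], fun i j hij hj => ?_⟩
    simp only [List.length_cons, List.length_nil] at hj
    obtain rfl : i = 0 := by omega
    obtain rfl : j = 1 := by omega
    simp [pos, Prod.ext_iff]
  have h2 : IsSaw ((Γ.drop s).map refl2) := by
    refine (h.brΓ.saw.drop s).map refl2 ?_ (fun v hv => ii_refl_step hv)
    intro a b hab
    simp only [refl2_apply, Prod.mk.injEq, neg_inj] at hab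
    exact Prod.ext hab.1 hab.2
  have := h1.append h2 (fun i j hi hj1 hj => ?_)
  · simpa using this
  simp only [List.length_cons, List.length_nil] at hi
  simp only [List.length_map, List.length_drop] at hj
  have hw := h.win (s + j) (by omega)
  have ys := h.ys
  have L1 := h.L1
  have hinj := h.brΓ.saw.inj s (s + j) (by omega) (by omega)
  rw [pos_map, pos_drop]
  intro e
  have e1 := congrArg Prod.fst e
  have e2 := congrArg Prod.snd e
  simp only [refl2_apply, List.sum_cons, List.sum_nil, Prod.fst_sub,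
    Prod.snd_sub, add_zero, Prod.mk_add_mk] at e1 e2
  rcases Nat.eq_zero_or_pos i with rfl | hi0
  · simp only [pos_zero, Prod.fst_zero, Prod.snd_zero] at e1 e2
    unfold rx ry at *
    have hy : (pos Γ (s + j)).1 - (pos Γ o).1 = (pos Γ s).1 - (pos Γ o).1 := by omega
    rw [hy] at hw
    have := hw (by
      have := abs_nonneg ((pos Γ s).1 - (pos Γ o).1)
      omega)
    omega
  · obtain rfl : i = 1 := by omega
    have hp : pos [((0 : ℤ), (1 : ℤ))] 1 = (0, 1) := by simp [pos]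
    rw [hp] at e1 e2
    simp only at e1 e2
    exact hinj (Prod.ext (by omega) (by omega))

private lemma ii_sawP {Γ ρ : Wd} {L o s : ℕ} (h : InsHyp Γ ρ L o s) :
    IsSaw (Γ.take s ++ ρ.map swap12) := by
  have h2 : IsSaw (ρ.map swap12) := by
    refine h.brρ.saw.map swap12 ?_ (fun v hv => ii_swap_step hv)
    intro a b hab
    simp only [swap12_apply, Prod.mk.injEq] at hab
    exact Prod.ext hab.2 hab.1
  refine (h.brΓ.saw.take s).append h2 (fun i j hi hj1 hj => ?_)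
  simp only [List.length_take] at hi
  simp only [List.length_map] at hj
  have hi' : i ≤ s := by omega
  have e0 : (Γ.take s).sum = pos Γ s := rfl
  rw [e0, pos_take hi', pos_map]
  intro e
  refine ii_AB h hi' hj1 hj ⟨?_, ?_⟩
  · have := congrArg Prod.fst e
    simpa using this
  · have := congrArg Prod.snd e
    simpa using this

private lemma ii_eq (Γ ρ : Wd) (s : ℕ) :
    ins Γ ρ s = (Γ.take s ++ ρ.map swap12) ++ (((0 : ℤ), (1 : ℤ)) :: (Γ.drop s).map refl2) := by
  simp [ins]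

private lemma ii_sumP {Γ ρ : Wd} (s : ℕ) :
    (Γ.take s ++ ρ.map swap12).sum = ((pos Γ s).1 + ρ.sum.2, (pos Γ s).2 + ρ.sum.1) := by
  have e0 : (Γ.take s).sum = pos Γ s := rfl
  rw [List.sum_append, e0, ← pos_length (ρ.map swap12), pos_map, List.length_map, pos_length]
  ext <;> simp

/-- (5.1) -/
theorem br_ins {Γ ρ : Wd} {L o s : ℕ} (h : InsHyp Γ ρ L o s) : Br (ins Γ ρ s) := by
  have hsl : (Γ.take s).length = s := by simp [h.hs]
  have hPl : (Γ.take s ++ ρ.map swap12).length = s + ρ.length := by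
    rw [List.length_append, hsl, List.length_map]
  have hQl : (((0 : ℤ), (1 : ℤ)) :: (Γ.drop s).map refl2).length = Γ.length - s + 1 := by simp
  -- positions of the second part of `P`
  have posB : ∀ j, pos (Γ.take s ++ ρ.map swap12) (s + j) =
      ((pos Γ s).1 + (pos ρ j).2, (pos Γ s).2 + (pos ρ j).1) := by
    intro j
    have := pos_append_right (Γ.take s) (ρ.map swap12) j
    rw [hsl] at this
    rw [this, pos_map]
    have e0 : (Γ.take s).sum = pos Γ s := rfl
    rw [e0]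
    ext <;> simp
  have posA : ∀ i, i ≤ s → pos (Γ.take s ++ ρ.map swap12) i = pos Γ i := by
    intro i hi
    rw [pos_append_left (by omega), pos_take hi]
  have hsaw : IsSaw (ins Γ ρ s) := by
    rw [ii_eq]
    refine (ii_sawP h).append (ii_sawQ h) (fun i j hi hj1 hj => ?_)
    rw [hPl] at hi
    rw [hQl] at hj
    obtain ⟨k, rfl⟩ : ∃ k, j = k + 1 := ⟨j - 1, by omega⟩
    rw [ii_posQ, ii_sumP]
    have hk : s + k ≤ Γ.length := by have := h.hs; omega
    intro e
    rcases le_or_gt i s with his | his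
    · rw [posA i his] at e
      refine ii_AC h his (Nat.le_add_right s k) hk ⟨?_, ?_⟩
      · rw [e]; simp only [Prod.fst_add]; ring
      · rw [e]; simp only [Prod.snd_add]; ring
    · obtain ⟨j, rfl⟩ : ∃ j, i = s + j := ⟨i - s, by omega⟩
      rw [posB j] at e
      have e1 := congrArg Prod.fst e
      have e2 := congrArg Prod.snd e
      simp only [Prod.fst_add, Prod.snd_add] at e1 e2
      exact ii_BC (j := j) h (by omega) (Nat.le_add_right s k) hk
        ⟨by rw [e1]; ring, by rw [e2]; ring⟩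
  -- total height
  have hsum : (ins Γ ρ s).sum.1 = Γ.sum.1 + ρ.sum.2 := by
    rw [ii_eq, List.sum_append, ii_sumP, ← pos_length (_ :: _), hQl, ii_posQ]
    have : s + (Γ.length - s) = Γ.length := by have := h.hs; omega
    rw [this, pos_length]
    simp only [Prod.mk_add_mk]
    ring
  have hlen : (ins Γ ρ s).length = s + ρ.length + (Γ.length - s + 1) := by
    rw [ii_eq, List.length_append, hPl, hQl]
  -- the three kinds of positions
  have hpos : ∀ i, i ≤ (ins Γ ρ s).length →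
      (i ≤ s ∧ (pos (ins Γ ρ s) i).1 = (pos Γ i).1) ∨
      (∃ j, 1 ≤ j ∧ j ≤ ρ.length ∧ (pos (ins Γ ρ s) i).1 = (pos Γ s).1 + (pos ρ j).2) ∨
      (∃ k, s + k ≤ Γ.length ∧ (pos (ins Γ ρ s) i).1 = (pos Γ (s + k)).1 + ρ.sum.2) := by
    intro i hi
    rw [hlen] at hi
    rw [ii_eq]
    rcases le_or_gt i (s + ρ.length) with h1 | h1
    · rw [pos_append_left (by omega)]
      rcases le_or_gt i s with h2 | h2
      · left
        exact ⟨h2, by rw [posA i h2]⟩
      · right; left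
        refine ⟨i - s, by omega, by omega, ?_⟩
        have := posB (i - s)
        rw [show s + (i - s) = i by omega] at this
        rw [this]
    · right; right
      have hs' := h.hs
      refine ⟨i - (s + ρ.length) - 1, by omega, ?_⟩
      have := pos_append_right (Γ.take s ++ ρ.map swap12)
        (((0 : ℤ), (1 : ℤ)) :: (Γ.drop s).map refl2) ((i - (s + ρ.length) - 1) + 1)
      rw [hPl, ii_posQ, ii_sumP] at this
      rw [show s + ρ.length + (i - (s + ρ.length) - 1 + 1) = i by omega] at this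
      rw [this]
      simp only [Prod.mk_add_mk]
      ring
  have L1 := h.L1
  have rfR := h.rf ρ.length le_rfl
  rw [pos_length] at rfR
  have h1 := h.h1
  have h2 := h.h2
  have hb := h.big
  have ys := h.ys
  refine ⟨hsaw, fun i hi1 hi => ?_, fun i hi => ?_⟩
  · rcases hpos i hi with ⟨hs', e⟩ | ⟨j, hj1, hj, e⟩ | ⟨k, hk, e⟩
    · rw [e]
      exact h.brΓ.gt i hi1 (hs'.trans h.hs)
    · rw [e]
      have rf := h.rf j hj
      obtain ⟨hX0, -, hX2⟩ := ii_X h hj
      unfold ry at ys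
      obtain ⟨a1, a2, -⟩ := ii_abs ((pos Γ s).1 - (pos Γ o).1)
      obtain ⟨b1, b2, -⟩ := ii_abs (pos ρ j).2
      generalize |(pos Γ s).1 - (pos Γ o).1| = A at *
      generalize |(pos ρ j).2| = B at *
      omega
    · rw [e]
      have ab := h.above (s + k) (Nat.le_add_right _ _) hk
      unfold ry at ab
      obtain ⟨b1, b2, -⟩ := ii_abs ρ.sum.2
      generalize |ρ.sum.2| = B at *
      omega
  · rw [hsum]
    rcases hpos i hi with ⟨hs', e⟩ | ⟨j, hj1, hj, e⟩ | ⟨k, hk, e⟩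
    · rw [e]
      have bl := h.below i hs'
      unfold ry at bl
      obtain ⟨b1, b2, -⟩ := ii_abs ρ.sum.2
      generalize |ρ.sum.2| = B at *
      omega
    · rw [e]
      have rf := h.rf j hj
      obtain ⟨hX0, -, hX2⟩ := ii_X h hj
      unfold ry at ys
      obtain ⟨a1, a2, -⟩ := ii_abs ((pos Γ s).1 - (pos Γ o).1)
      obtain ⟨b1, b2, -⟩ := ii_abs (pos ρ j).2
      obtain ⟨c1, c2, -⟩ := ii_abs ρ.sum.2
      generalize |(pos Γ s).1 - (pos Γ o).1| = A at *
      generalize |(pos ρ j).2| = B at *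
      generalize |ρ.sum.2| = C at *
      omega
    · rw [e]
      have := h.brΓ.le (s + k) hk
      omega

end Pool.Agent.Lib.MP_c23e5f_co.G
end

section

set_option autoImplicit false

namespace Pool.Agent.Lib.MP_c23e5f_co.G

open Pool.Agent.Lib.MP_c23e5f_co

private lemma flen_mono (F : List Wd) {j k : ℕ} (h : j ≤ k) :
    (F.take j).flatten.length ≤ (F.take k).flatten.length := by
  obtain ⟨d, rfl⟩ := Nat.exists_eq_add_of_le h
  rw [List.take_add, List.flatten_append, List.length_append]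
  exact Nat.le_add_right _ _

private lemma flen_strict {F : List Wd} (hF : ∀ a ∈ F, a ≠ []) {j : ℕ} (h : j < F.length) :
    (F.take j).flatten.length < (F.take (j + 1)).flatten.length := by
  rw [List.take_add_one, List.getElem?_eq_getElem h]
  simp only [Option.toList_some, List.flatten_append, List.length_append, List.flatten_cons,
    List.flatten_nil, List.append_nil]
  have : 0 < (F[j]).length := List.length_pos_iff.2 (hF _ (List.getElem_mem h))
  omega

private lemma cut_left {A Wm Wp B : List Wd} {J : ℕ} (hm : Wm.length = J) :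
    A ++ Wm.dropLast = (A ++ Wm ++ Wp ++ B).take (A.length + (J - 1)) := by
  rw [List.append_assoc, List.append_assoc, List.take_length_add_append,
    List.take_append_of_le_length (by omega), List.dropLast_eq_take, hm]

private lemma cut_right {A Wm Wp B : List Wd} {J : ℕ} (hJ : 1 ≤ J) (hm : Wm.length = J)
    (hp : Wp.length = J) :
    A ++ Wm ++ Wp.take 1 = (A ++ Wm ++ Wp ++ B).take (A.length + (J + 1)) := by
  rw [List.append_assoc A, List.append_assoc A, List.append_assoc A,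
    List.take_length_add_append, List.append_assoc Wm, ← hm, List.take_length_add_append,
    List.take_append_of_le_length (by omega)]

private lemma len_eq_aux {A Wm Wp B A' Wm' Wp' B' : List Wd} {J s : ℕ} (hJ : 1 ≤ J)
    (hne : ∀ a ∈ A ++ Wm ++ Wp ++ B, a ≠ [])
    (hm : Wm.length = J) (hm' : Wm'.length = J) (hp : Wp.length = J) (hp' : Wp'.length = J)
    (h2 : s ≤ (A ++ Wm ++ Wp.take 1).flatten.length)
    (h1' : (A' ++ Wm'.dropLast).flatten.length ≤ s)
    (hmod : A.length % 3 = A'.length % 3)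
    (e : A ++ Wm ++ Wp ++ B = A' ++ Wm' ++ Wp' ++ B') : ¬ A.length < A'.length := by
  intro hlt
  have h3 : A.length + 3 ≤ A'.length := by omega
  rw [cut_right (B := B) hJ hm hp] at h2
  rw [cut_left (Wp := Wp') (B := B') hm', ← e] at h1'
  have hlen : (A ++ Wm ++ Wp ++ B).length = A'.length + J + J + B'.length := by
    rw [e]; simp only [List.length_append]; omega
  have hs := flen_strict hne (j := A.length + (J + 1)) (by omega)
  have hmn := flen_mono (A ++ Wm ++ Wp ++ B) (j := A.length + (J + 1) + 1)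
    (k := A'.length + (J - 1)) (by omega)
  omega

/-- the data are determined by the word, the two indices and the residue class -/
theorem data_inj {A Wm Wp B R A' Wm' Wp' B' R' : List Wd} {J s s2 : ℕ} (hJ : 1 ≤ J)
    (hi : ∀ a ∈ A ++ Wm ++ Wp ++ B, Irr a) (hi' : ∀ a ∈ A' ++ Wm' ++ Wp' ++ B', Irr a)
    (hR : ∀ a ∈ R, Irr a) (hR' : ∀ a ∈ R', Irr a)
    (hm : Wm.length = J) (hm' : Wm'.length = J) (hp : Wp.length = J) (hp' : Wp'.length = J)
    (h1 : (A ++ Wm.dropLast).flatten.length ≤ s) (h2 : s ≤ (A ++ Wm ++ Wp.take 1).flatten.length)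
    (h1' : (A' ++ Wm'.dropLast).flatten.length ≤ s)
    (h2' : s ≤ (A' ++ Wm' ++ Wp'.take 1).flatten.length)
    (hs : s + R.flatten.length = s2) (hs' : s + R'.flatten.length = s2)
    (hmod : A.length % 3 = A'.length % 3)
    (hV : ins (A ++ Wm ++ Wp ++ B).flatten R.flatten s =
      ins (A' ++ Wm' ++ Wp' ++ B').flatten R'.flatten s) :
    A = A' ∧ Wm = Wm' ∧ Wp = Wp' ∧ B = B' ∧ R = R' := by
  have hle : s ≤ (A ++ Wm ++ Wp ++ B).flatten.length := by
    refine h2.trans ?_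
    rw [cut_right (B := B) hJ hm hp]
    refine (flen_mono _ (Nat.le_max_left _ (A ++ Wm ++ Wp ++ B).length)).trans ?_
    rw [List.take_of_length_le (Nat.le_max_right _ _)]
  have hle' : s ≤ (A' ++ Wm' ++ Wp' ++ B').flatten.length := by
    refine h2'.trans ?_
    rw [cut_right (B := B') hJ hm' hp']
    refine (flen_mono _ (Nat.le_max_left _ (A' ++ Wm' ++ Wp' ++ B').length)).trans ?_
    rw [List.take_of_length_le (Nat.le_max_right _ _)]
  obtain ⟨e1, e2⟩ := ins_inj hle hle' (by omega) hV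
  have eR : R = R' := fac_unique hR hR' e2
  have e : A ++ Wm ++ Wp ++ B = A' ++ Wm' ++ Wp' ++ B' := fac_unique hi hi' e1
  have hne : ∀ a ∈ A ++ Wm ++ Wp ++ B, a ≠ [] := fun a ha => (hi a ha).ne
  have hne' : ∀ a ∈ A' ++ Wm' ++ Wp' ++ B', a ≠ [] := fun a ha => (hi' a ha).ne
  have l1 := len_eq_aux hJ hne hm hm' hp hp' h2 h1' hmod e
  have l2 := len_eq_aux hJ hne' hm' hm hp' hp h2' h1 hmod.symm e.symm
  have hA : A.length = A'.length := by omega
  rw [List.append_assoc, List.append_assoc, List.append_assoc, List.append_assoc] at e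
  obtain ⟨eA, e3⟩ := List.append_inj e hA
  obtain ⟨eM, e4⟩ := List.append_inj e3 (by omega)
  obtain ⟨eP, eB⟩ := List.append_inj e4 (by omega)
  exact ⟨eA, eM, eP, eB, eR⟩

end Pool.Agent.Lib.MP_c23e5f_co.G
end

section

set_option autoImplicit false

namespace Pool.Agent.Lib.MP_c23e5f_co.G

open Pool.Agent.Lib.MP_c23e5f_co

/-- the data of a wide loop -/
private def UR (n : ℕ) (f : ℕ → ℤ × ℤ) (p : ℕ × Wd × Wd) : Prop :=
  ∃ m, m < 2 * n ∧ p.1 < 2 * n ∧ p.2.1 = ((1 : ℤ), (0 : ℤ)) :: seg f p.1 m ∧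
    p.2.2 = ((1 : ℤ), (0 : ℤ)) :: rev (seg f (p.1 + m) (2 * n - m))

private theorem UR_inj {n : ℕ} (hn : 1 ≤ n) {f g : ℕ → ℤ × ℤ} (hf : IsLoop (2 * n) f)
    (hg : IsLoop (2 * n) g) (hf0 : f 0 = 0) (hg0 : g 0 = 0) {p : ℕ × Wd × Wd}
    (h : UR n f p) (h' : UR n g p) : f = g := by
  obtain ⟨m, hm, ha, h1, h2⟩ := h
  obtain ⟨m', hm', _, h1', h2'⟩ := h'
  set a := p.1 with hadef
  have hmm : m = m' := by
    have e := congrArg List.length (h1.symm.trans h1')
    simpa using e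
  subst hmm
  have e1 : seg f a m = seg g a m := (List.cons_injective (h1.symm.trans h1'))
  have e2 : seg f (a + m) (2 * n - m) = seg g (a + m) (2 * n - m) :=
    rev_injective (List.cons_injective (h2.symm.trans h2'))
  have e3 : seg f a (2 * n) = seg g a (2 * n) := by
    have h3 := seg_append f a m (2 * n - m)
    have h4 := seg_append g a m (2 * n - m)
    rw [Nat.add_sub_cancel' hm.le] at h3 h4
    rw [← h3, ← h4, e1, e2]
  have e4 : ∀ i ≤ 2 * n, f (a + i) - f a = g (a + i) - g a := by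
    intro i hi
    rw [← pos_seg (f := f) (t := a) hi, ← pos_seg (f := g) (t := a) hi, e3]
  have hf2 : f (2 * n) = 0 := by
    have := hf.per 0
    rw [Nat.zero_add] at this
    rw [this, hf0]
  have hg2 : g (2 * n) = 0 := by
    have := hg.per 0
    rw [Nat.zero_add] at this
    rw [this, hg0]
  have e5 : f a = g a := by
    have := e4 (2 * n - a) (by omega)
    rw [Nat.add_sub_cancel' ha.le, hf2, hg2, zero_sub, zero_sub] at this
    exact neg_injective this
  have e6 : ∀ i ≤ 2 * n, f (a + i) = g (a + i) := by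
    intro i hi
    have := e4 i hi
    rw [e5] at this
    exact sub_left_injective this
  have hmodf : ∀ t, f (t % (2 * n)) = f t := fun t =>
    Function.Periodic.map_mod_nat (f := f) (a := 2 * n) hf.per t
  have hmodg : ∀ t, g (t % (2 * n)) = g t := fun t =>
    Function.Periodic.map_mod_nat (f := g) (a := 2 * n) hg.per t
  funext t
  rw [← hmodf t, ← hmodg t]
  have hlt : t % (2 * n) < 2 * n := Nat.mod_lt _ (by omega)
  set r := t % (2 * n) with hr
  rcases le_or_gt a r with har | har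
  · have := e6 (r - a) (by omega)
    rwa [Nat.add_sub_cancel' har] at this
  · have := e6 (r + 2 * n - a) (by omega)
    rw [Nat.add_sub_cancel' (by omega : a ≤ r + 2 * n), hf.per, hg.per] at this
    exact this

/-- (8.1) -/
theorem wide_count {β t m : ℝ} {H n : ℕ} (hn : 1 ≤ n) (h : Mass β H t m) (hH : 2 * n + 2 ≤ H)
    (ω : ℝ) :
    ((({f ∈ Loops n | ω ≤ (width n f : ℝ)}).ncard : ℕ) : ℝ) ≤
      2 * n * (2 * n + 2) ^ 2 * Real.exp ((β + t) * (2 * n + 2) - 2 * m * ω) := by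
  classical
  have hm0 : 0 ≤ m := h.t0.trans h.tm
  have hfin : {x : Wd | Br x ∧ x ≠ [] ∧ x.length ≤ 2 * n + 2 ∧ ω ≤ (x.sum.1 : ℝ)}.Finite :=
    (finite_words_le (2 * n + 2)).subset fun x hx => ⟨hx.1.saw.step, hx.2.2.1⟩
  set X : Finset Wd := hfin.toFinset with hX
  have hmX : ∀ x, x ∈ X ↔ Br x ∧ x ≠ [] ∧ x.length ≤ 2 * n + 2 ∧ ω ≤ (x.sum.1 : ℝ) := by
    intro x
    rw [hX, Set.Finite.mem_toFinset]
    rfl
  set P : Finset (Wd × Wd) := (X ×ˢ X).filter
    (fun p => p.1.length + p.2.length = 2 * n + 2) with hP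
  set T : Finset (ℕ × Wd × Wd) := Finset.range (2 * n) ×ˢ P with hT
  set A : Set (ℕ → ℤ × ℤ) := {f ∈ Loops n | ω ≤ (width n f : ℝ)} with hA
  have key : ∀ f ∈ A, ∃ p : ℕ × Wd × Wd, p ∈ T ∧ UR n f p := by
    intro f hf
    obtain ⟨hfL, hfw⟩ := hf
    obtain ⟨hloop, hf0⟩ := (mem_loops_iff f).1 hfL
    obtain ⟨a, k, ha, hk1, hk2, hmin, hmax, hwd⟩ := exists_width hn f hloop
    obtain ⟨hb1, hb2⟩ := br_arc hloop hk1 hk2 hmin hmax
    have hwd' : (width n f : ℝ) = ((f (a + k)).1 : ℝ) - ((f a).1 : ℝ) := by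
      exact_mod_cast hwd
    have hs1 : ((((1 : ℤ), (0 : ℤ)) :: seg f a k).sum.1 : ℤ) = 1 + ((f (a + k)).1 - (f a).1) := by
      rw [List.sum_cons, sum_seg]
      simp
    have hs2 : ((((1 : ℤ), (0 : ℤ)) :: rev (seg f (a + k) (2 * n - k))).sum.1 : ℤ) =
        1 + ((f (a + k)).1 - (f a).1) := by
      rw [List.sum_cons, sum_rev, sum_seg]
      have e : a + k + (2 * n - k) = a + 2 * n := by omega
      rw [e, hloop.per]
      simp
    refine ⟨(a, ((1 : ℤ), (0 : ℤ)) :: seg f a k,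
      ((1 : ℤ), (0 : ℤ)) :: rev (seg f (a + k) (2 * n - k))), ?_, k, hk2, ha, rfl, rfl⟩
    rw [hT, Finset.mem_product, hP, Finset.mem_filter, Finset.mem_product, hmX, hmX]
    refine ⟨Finset.mem_range.2 ha, ⟨⟨hb1, by simp, ?_, ?_⟩, ⟨hb2, by simp, ?_, ?_⟩⟩, ?_⟩
    · simp only [List.length_cons, length_seg]
      omega
    · show ω ≤ (((((1 : ℤ), (0 : ℤ)) :: seg f a k).sum.1 : ℤ) : ℝ)
      rw [hs1]
      push_cast
      linarith
    · simp only [List.length_cons, length_rev, length_seg]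
      omega
    · show ω ≤ (((((1 : ℤ), (0 : ℤ)) :: rev (seg f (a + k) (2 * n - k))).sum.1 : ℤ) : ℝ)
      rw [hs2]
      push_cast
      linarith
    · simp only [List.length_cons, length_rev, length_seg]
      omega
  choose! Φ hΦ using key
  have hcard : A.ncard ≤ T.card := by
    rw [← Set.ncard_coe_finset]
    refine Set.ncard_le_ncard_of_injOn Φ (fun f hf => Finset.mem_coe.2 (hΦ f hf).1) ?_
      (Finset.finite_toSet T)
    intro f hf g hg hfg
    obtain ⟨hl, hl0⟩ := (mem_loops_iff f).1 hf.1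
    obtain ⟨hl', hl0'⟩ := (mem_loops_iff g).1 hg.1
    exact UR_inj hn hl hl' hl0 hl0' (hΦ f hf).2 (by rw [hfg]; exact (hΦ g hg).2)
  have hTcard : T.card = 2 * n * P.card := by
    rw [hT, Finset.card_product, Finset.card_range]
  -- the sum over X
  have hsumX : ∑ x ∈ X, E β t m x ≤ 2 * n + 2 := by
    have h1 := sum_nf_le (m := m) h.z (2 * n + 2) X (fun x hx => by
      obtain ⟨h1, h2, h3, _⟩ := (hmX x).1 hx
      exact ⟨h1, h2, (nf_le_length h1).trans h3, h3.trans hH⟩)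
    push_cast at h1
    exact h1
  have hX0 : 0 ≤ ∑ x ∈ X, E β t m x := Finset.sum_nonneg fun x _ => (E_pos _ _ _ _).le
  set e0 : ℝ := Real.exp ((β + t) * (2 * n + 2) - 2 * m * ω) with he0
  have he0p : 0 < e0 := Real.exp_pos _
  have hPcard : (P.card : ℝ) ≤ (2 * n + 2) ^ 2 * e0 := by
    have h1 : ∀ p ∈ P, (1 : ℝ) ≤ E β t m p.1 * E β t m p.2 * e0 := by
      intro p hp
      rw [hP, Finset.mem_filter, Finset.mem_product, hmX, hmX] at hp
      obtain ⟨⟨⟨_, _, _, h3⟩, ⟨_, _, _, h4⟩⟩, h5⟩ := hp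
      rw [E, E, he0, ← Real.exp_add, ← Real.exp_add]
      apply Real.one_le_exp
      have h6 : (p.1.length : ℝ) + p.2.length = 2 * n + 2 := by exact_mod_cast h5
      have h7 : 0 ≤ m * ((p.1.sum.1 : ℝ) - ω) := mul_nonneg hm0 (by linarith)
      have h8 : 0 ≤ m * ((p.2.sum.1 : ℝ) - ω) := mul_nonneg hm0 (by linarith)
      have h9 : -(β + t) * (p.1.length : ℝ) + m * (p.1.sum.1 : ℝ) +
          (-(β + t) * (p.2.length : ℝ) + m * (p.2.sum.1 : ℝ)) +
          ((β + t) * (2 * n + 2) - 2 * m * ω) =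
          m * ((p.1.sum.1 : ℝ) - ω) + m * ((p.2.sum.1 : ℝ) - ω) := by
        rw [← h6]; ring
      rw [h9]
      linarith
    calc (P.card : ℝ) = ∑ p ∈ P, (1 : ℝ) := by simp
      _ ≤ ∑ p ∈ P, E β t m p.1 * E β t m p.2 * e0 := Finset.sum_le_sum h1
      _ ≤ ∑ p ∈ X ×ˢ X, E β t m p.1 * E β t m p.2 * e0 :=
          Finset.sum_le_sum_of_subset_of_nonneg (Finset.filter_subset _ _) fun p _ _ =>
            (mul_pos (mul_pos (E_pos _ _ _ _) (E_pos _ _ _ _)) he0p).le
      _ = (∑ x ∈ X, E β t m x) ^ 2 * e0 := by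
          rw [← Finset.sum_mul, Finset.sum_product, sq, Finset.sum_mul_sum]
      _ ≤ (2 * n + 2) ^ 2 * e0 := by
          apply mul_le_mul_of_nonneg_right _ he0p.le
          exact pow_le_pow_left₀ hX0 hsumX 2
  calc ((A.ncard : ℕ) : ℝ) ≤ (T.card : ℝ) := by exact_mod_cast hcard
    _ = 2 * n * (P.card : ℝ) := by rw [hTcard]; push_cast; ring
    _ ≤ 2 * n * ((2 * n + 2) ^ 2 * e0) := mul_le_mul_of_nonneg_left hPcard (by positivity)
    _ = 2 * n * (2 * n + 2) ^ 2 * e0 := by ring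

end Pool.Agent.Lib.MP_c23e5f_co.G
end

section

set_option autoImplicit false

namespace Pool.Agent.Lib.MP_c23e5f_co.G

open Pool.Agent.Lib.MP_c23e5f_co

theorem sum_map_hR (x : List Wd) : (x.map hR).sum = (x.flatten.sum.1 : ℝ) := by
  induction x with
  | nil => simp
  | cons a x ih =>
    rw [List.map_cons, List.sum_cons, ih, List.flatten_cons, List.sum_append, Prod.fst_add]
    push_cast
    rfl

theorem sum_map_xR (x : List Wd) : (x.map xR).sum = (x.flatten.sum.2 : ℝ) := by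
  induction x with
  | nil => simp
  | cons a x ih =>
    rw [List.map_cons, List.sum_cons, ih, List.flatten_cons, List.sum_append, Prod.snd_add]
    push_cast
    rfl

theorem sum_map_lR (x : List Wd) : (x.map lR).sum = (x.flatten.length : ℝ) := by
  induction x with
  | nil => simp
  | cons a x ih =>
    rw [List.map_cons, List.sum_cons, ih, List.flatten_cons, List.length_append]
    push_cast
    rfl

private theorem ktrans_sum_rev (Y : List Wd) : Y.reverse.flatten.sum = Y.flatten.sum := by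
  rw [List.sum_flatten, List.sum_flatten, List.map_reverse, List.sum_reverse]

private theorem ktrans_len_rev (Y : List Wd) : (Y.reverse.map lR).sum = (Y.map lR).sum := by
  rw [List.map_reverse, List.sum_reverse]

private theorem ktrans_fc {x : List Wd} {L : ℕ} (h : FC hR lR xR L x) :
    ∀ X a Y, x = X ++ a :: Y →
      8 * |X.flatten.sum.2| + 8 * (a.length : ℤ) ≤ X.flatten.sum.1 + 8 * L := by
  intro X a Y hx
  have h1 := h X a Y hx
  rw [sum_map_xR, sum_map_hR] at h1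
  have h2 : (8 * |(X.flatten.sum.2 : ℝ)| + 8 * (a.length : ℝ)) ≤ (X.flatten.sum.1 : ℝ) + 8 * L := by
    have h3 : lR a = (a.length : ℝ) := rfl
    rw [h3] at h1
    linarith
  exact_mod_cast h2

private theorem ktrans_fc_rev {x : List Wd} {L : ℕ} (h : FC hR lR xR L x.reverse) :
    ∀ X a Y, x = X ++ a :: Y →
      8 * |Y.flatten.sum.2| + 8 * (a.length : ℤ) ≤ Y.flatten.sum.1 + 8 * L := by
  intro X a Y hx
  have h1 : x.reverse = Y.reverse ++ a :: X.reverse := by
    rw [hx]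
    simp
  have h2 := ktrans_fc h _ _ _ h1
  rwa [ktrans_sum_rev] at h2

private theorem ktrans_big {x : List Wd} (h : ∀ a ∈ x, Irr a) :
    (x.length : ℤ) ≤ x.flatten.sum.1 := by
  induction x with
  | nil => simp
  | cons a x ih =>
    rw [List.flatten_cons, List.sum_append, Prod.fst_add, List.length_cons]
    have h1 := ih fun b hb => h b (List.mem_cons_of_mem _ hb)
    have h2 := h a List.mem_cons_self
    have h3 := h2.br.ht_pos h2.ne
    push_cast
    linarith

private theorem ktrans_w1 {x : List Wd} {L : ℕ} {C : ℝ} (h : W1 hR lR xR L C x) :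
    (∀ a ∈ x, 100 * a.length ≤ L) ∧ (∀ X Y, x = X ++ Y → 8 * |X.flatten.sum.2| ≤ (L : ℤ)) ∧
      50 * (L : ℤ) ≤ x.flatten.sum.1 := by
  obtain ⟨h1, h2, h3, _⟩ := h
  refine ⟨fun a ha => ?_, fun X Y hx => ?_, ?_⟩
  · have h4 : (a.length : ℝ) ≤ L / 100 := h1 a ha
    have h5 : 100 * (a.length : ℝ) ≤ L := by linarith
    exact_mod_cast h5
  · have h4 := h2 X Y hx
    rw [sum_map_xR] at h4
    have h5 : 8 * |(X.flatten.sum.2 : ℝ)| ≤ (L : ℝ) := by linarith
    exact_mod_cast h5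
  · rw [sum_map_hR] at h3
    exact_mod_cast h3

private theorem ktrans_h {A Wm R : List Wd} {g C C' : ℝ} {L K M : ℕ}
    (hg : 1 ≤ g) (iR : ∀ a ∈ R, Irr a)
    (hA : A.length * g / 2 - L ≤ (A.flatten.sum.1 : ℝ)) (hW : 50 * (L : ℤ) ≤ Wm.flatten.sum.1)
    (eR : evR C' L R) (hC' : C' ≤ 32 * K * g * M) (lA : 128 * K * M ≤ A.length) :
    R.flatten.sum.1 + 20 * L ≤ A.flatten.sum.1 + Wm.flatten.sum.1 := by
  have h1 := eR.2.2
  rw [sum_map_lR] at h1
  have h2 : Br R.flatten := Br.flatten fun a ha => (iR a ha).br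
  have h3 : |R.flatten.sum.1| ≤ (R.flatten.length : ℤ) := (abs_sum_le h2.saw.step).1
  have h4 : R.flatten.sum.1 ≤ (R.flatten.length : ℤ) := (le_abs_self _).trans h3
  have h5 : (R.flatten.sum.1 : ℝ) ≤ (R.flatten.length : ℝ) := by exact_mod_cast h4
  have h6 : (50 * L : ℝ) ≤ (Wm.flatten.sum.1 : ℝ) := by exact_mod_cast hW
  have h7 : (128 * K * M : ℝ) ≤ (A.length : ℝ) := by exact_mod_cast lA
  have h8 : (128 * K * M : ℝ) * g ≤ (A.length : ℝ) * g :=
    mul_le_mul_of_nonneg_right h7 (by linarith)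
  have h9 : (0 : ℝ) ≤ 32 * K * g * M := by positivity
  have hL0 : (0 : ℝ) ≤ L := Nat.cast_nonneg _
  have h10 : (R.flatten.sum.1 : ℝ) + 20 * L ≤ (A.flatten.sum.1 : ℝ) + (Wm.flatten.sum.1 : ℝ) := by
    nlinarith
  exact_mod_cast h10

/-- from the events to the hypotheses of the glueing lemma -/
theorem glHyp_of_ev {A Wm Wp B R : List Wd} {g C C' : ℝ} {L K M : ℕ} (hL : 1 ≤ L) (hK : 1 ≤ K)
    (hg : 1 ≤ g) (hML : 10 * L ≤ M)
    (iA : ∀ a ∈ A, Irr a) (iM : ∀ a ∈ Wm, Irr a) (iP : ∀ a ∈ Wp, Irr a) (iB : ∀ a ∈ B, Irr a)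
    (iR : ∀ a ∈ R, Irr a)
    (eA : evA g C L A) (eM : evM C L Wm) (eP : evP C L Wp) (eB : evB g C L B)
    (eR : evR C' L R) (hC' : C' ≤ 32 * K * g * M) (lA : 128 * K * M ≤ A.length)
    (lB : 128 * K * M ≤ B.length) (lR' : M ≤ R.length) :
    GlHyp A Wm Wp B R L := by
  obtain ⟨m1, m2, m3⟩ := ktrans_w1 eM.1
  obtain ⟨p1, p2, p3⟩ := ktrans_w1 eP.1
  have hAs : A.length * g / 2 - L ≤ (A.flatten.sum.1 : ℝ) := by
    have h1 := eA.2.1
    rwa [sum_map_hR, ktrans_sum_rev, List.length_reverse] at h1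
  have hBs : B.length * g / 2 - L ≤ (B.flatten.sum.1 : ℝ) := by
    have h1 := eB.2.1
    rwa [sum_map_hR] at h1
  refine ⟨hL, fun a ha => (iA a ha).br, fun a ha => (iM a ha).br, fun a ha => (iP a ha).br,
    fun a ha => (iB a ha).br, fun a ha => (iR a ha).br, ktrans_fc_rev eA.1, ktrans_fc eB.1,
    m1, m2, m3, ?_, p1, p2, p3, ?_, ktrans_fc eR.1, ktrans_fc_rev eR.2.1, ?_, ?_, ?_⟩
  · obtain ⟨x', a0, hx, h⟩ := eM.2
    refine ⟨x', a0, hx, fun X a Y hXY => ?_⟩
    have h1 := h X a Y hXY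
    rw [sum_map_xR, sum_map_xR] at h1
    simp only [mR] at h1
    exact_mod_cast h1
  · obtain ⟨a0, x', hx, h⟩ := eP.2
    refine ⟨a0, x', hx, fun X a Y hXY => ?_⟩
    have h1 := h X a Y hXY
    rw [sum_map_xR] at h1
    simp only [mR] at h1
    exact_mod_cast h1
  · have h1 := ktrans_big iR
    have h2 : (10 * L : ℤ) ≤ M := by exact_mod_cast hML
    have h3 : (M : ℤ) ≤ R.length := by exact_mod_cast lR'
    linarith
  · exact ktrans_h (C := C) hg iR hAs m3 eR hC' lA
  · rw [add_comm (Wp.flatten.sum.1)]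
    exact ktrans_h (C := C) hg iR hBs p3 eR hC' lB

end Pool.Agent.Lib.MP_c23e5f_co.G
end

section

set_option autoImplicit false

namespace Pool.Agent.Lib.MP_c23e5f_co.G

open Pool.Agent.Lib.MP_c23e5f_co

open scoped ENNReal

theorem exists_cr : ∃ x : ℝ≥0∞, IsCrit x ∧ CR (-Real.log x.toReal) := by
  obtain ⟨x, hx⟩ := exists_crit
  have hxt : x ≠ ⊤ := ne_top_of_le_ne_top ENNReal.one_ne_top hx.le_one
  have h4 : (4 : ℝ)⁻¹ ≤ x.toReal := by
    have h := ENNReal.toReal_mono hxt hx.quarter_le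
    rwa [ENNReal.toReal_inv, ENNReal.toReal_ofNat] at h
  have h1 : x.toReal ≤ 1 := by
    have h := ENNReal.toReal_mono ENNReal.one_ne_top hx.le_one
    rwa [ENNReal.toReal_one] at h
  have hpos : 0 < x.toReal := lt_of_lt_of_le (by norm_num) h4
  refine ⟨x, hx, ?_, ?_, ?_⟩
  · have := Real.log_nonpos hpos.le h1
    linarith
  · have h := Real.log_le_log (by norm_num) h4
    rw [Real.log_inv] at h
    linarith
  · intro T s hs
    rcases s.eq_empty_or_nonempty with rfl | ⟨w0, hw0⟩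
    · simp
    have hT0 : 0 ≤ T := by
      obtain ⟨h2, h3⟩ := hs w0 hw0
      have h5 := h2.le 0 (Nat.zero_le _)
      rw [pos_zero] at h5
      rw [← h3]
      exact h5
    obtain ⟨n, rfl⟩ := Int.eq_ofNat_of_zero_le hT0
    have hexp : ∀ w : Wd, Real.exp (-(-Real.log x.toReal) * (w.length : ℝ)) =
        (x ^ w.length).toReal := by
      intro w
      rw [neg_neg, mul_comm, Real.exp_nat_mul, Real.exp_log hpos, ENNReal.toReal_pow]
    have hsum : ∑ w ∈ s, Real.exp (-(-Real.log x.toReal) * (w.length : ℝ)) =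
        (∑ w ∈ s, x ^ w.length).toReal := by
      rw [ENNReal.toReal_sum (fun w _ => ENNReal.pow_ne_top hxt)]
      exact Finset.sum_congr rfl fun w _ => hexp w
    have hle : ∑ w ∈ s, x ^ w.length ≤ 1 := by
      refine le_trans ?_ (wt_bridge_le_one hx Z1 n)
      have hmem : ∀ w ∈ s, w ∈ {w : Wd | IsBridge Z1 n w} := by
        intro w hw
        exact isBridge_iff.2 (hs w hw)
      rw [wt_eq_indicator]
      calc ∑ w ∈ s, x ^ w.length
          = ∑ w ∈ s, {w : Wd | IsBridge Z1 n w}.indicator (fun w => x ^ w.length) w := by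
            refine Finset.sum_congr rfl fun w hw => ?_
            rw [Set.indicator_of_mem (hmem w hw)]
        _ ≤ _ := ENNReal.sum_le_tsum s
    rw [hsum]
    have h := ENNReal.toReal_mono ENNReal.one_ne_top hle
    rwa [ENNReal.toReal_one] at h

end Pool.Agent.Lib.MP_c23e5f_co.G
end
end
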