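import Pool.Agent.Lib.MP_c23e5f_co.G.PInv
import Pool.Agent.Lib.MP_c23e5f_co.G.PCone
import Pool.Agent.Lib.MP_c23e5f_co.G.GMass2

section

set_option autoImplicit false

namespace Pool.Agent.Lib.MP_c23e5f_co.G

open Pool.Agent.Lib.MP_c23e5f_co

private lemma cover_last_max (f : ℕ → ℤ) (a b : ℕ) (h : a ≤ b) :
    ∃ i, a ≤ i ∧ i ≤ b ∧ (∀ k, a ≤ k → k ≤ b → f k ≤ f i) ∧ (∀ k, i < k → k ≤ b → f k < f i) := by
  induction b, h using Nat.le_induction with
  | base =>
    refine ⟨a, le_rfl, le_rfl, fun k h1 h2 => ?_, fun k h1 h2 => by omega⟩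
    have : k = a := by omega
    rw [this]
  | succ b hb ih =>
    obtain ⟨i, h1, h2, h3, h4⟩ := ih
    by_cases hc : f i ≤ f (b + 1)
    · refine ⟨b + 1, by omega, le_rfl, fun k hk1 hk2 => ?_, fun k hk1 hk2 => by omega⟩
      rcases Nat.lt_or_ge k (b + 1) with hk | hk
      · exact (h3 k hk1 (by omega)).trans hc
      · have : k = b + 1 := by omega
        rw [this]
    · push Not at hc
      refine ⟨i, h1, by omega, fun k hk1 hk2 => ?_, fun k hk1 hk2 => ?_⟩
      · rcases Nat.lt_or_ge k (b + 1) with hk | hk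
        · exact h3 k hk1 (by omega)
        · have : k = b + 1 := by omega
          rw [this]
          exact hc.le
      · rcases Nat.lt_or_ge k (b + 1) with hk | hk
        · exact h4 k hk1 (by omega)
        · have : k = b + 1 := by omega
          rw [this]
          exact hc

private lemma cover_last_min (f : ℕ → ℤ) (a b : ℕ) (h : a ≤ b) :
    ∃ i, a ≤ i ∧ i ≤ b ∧ (∀ k, a ≤ k → k ≤ b → f i ≤ f k) ∧ (∀ k, i < k → k ≤ b → f i < f k) := by
  obtain ⟨i, h1, h2, h3, h4⟩ := cover_last_max (fun k => - f k) a b h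
  exact ⟨i, h1, h2, fun k hk1 hk2 => neg_le_neg_iff.1 (h3 k hk1 hk2),
    fun k hk1 hk2 => neg_lt_neg_iff.1 (h4 k hk1 hk2)⟩

private lemma cover_step {w : Wd} (hw : ∀ v ∈ w, IsStep v) (i : ℕ) (h : i < w.length) :
    |(pos w (i + 1)).1 - (pos w i).1| ≤ 1 := by
  have h1 : (pos w (i + 1)).1 - (pos w i).1 = (w[i]).1 := by
    rw [pos_succ h, Prod.fst_add]
    ring
  rw [h1]
  have h2 := hw _ (List.getElem_mem h)
  rw [isStep_iff] at h2
  simp only [Finset.mem_insert, Finset.mem_singleton] at h2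
  rcases h2 with h2 | h2 | h2 | h2 <;> rw [h2] <;> simp

/-- (2.1) every inner level of an irreducible bridge is covered by an S-shape -/
theorem exists_ss {w : Wd} (hw : Irr w) {r : ℤ} (h1 : 1 ≤ r) (h2 : r < w.sum.1) :
    ∃ i j, SS w i j ∧ Cov w i j r := by
  set n := w.length with hn
  set y : ℕ → ℤ := fun k => (pos w k).1 with hy
  have hy0 : y 0 = 0 := by simp [hy]
  have hyn : y n = w.sum.1 := by simp [hy, hn]
  -- the last time at height `≤ r`
  obtain ⟨τ, hτn, hτ1, hτ2⟩ : ∃ τ, τ ≤ n ∧ y τ ≤ r ∧ ∀ k, τ < k → k ≤ n → r < y k := by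
    refine ⟨Nat.findGreatest (fun k => y k ≤ r) n, Nat.findGreatest_le n, ?_, fun k hk1 hk2 => ?_⟩
    · exact Nat.findGreatest_spec (P := fun k => y k ≤ r) (Nat.zero_le n) (by
        show y 0 ≤ r
        omega)
    · exact not_le.1 (Nat.findGreatest_is_greatest (P := fun k => y k ≤ r) hk1 hk2)
  have hτlt : τ < n := by
    rcases Nat.lt_or_ge τ n with h | h
    · exact h
    · exfalso
      have : τ = n := by omega
      rw [this, hyn] at hτ1
      omega
  have hyτ : y τ = r := by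
    have h3 := hτ2 (τ + 1) (by omega) (by omega)
    have h4 := cover_step hw.br.saw.step τ hτlt
    have h5 := abs_le.1 h4
    have h6 : (pos w (τ + 1)).1 - (pos w τ).1 = y (τ + 1) - y τ := rfl
    rw [h6] at h5
    omega
  have hτ0 : 1 ≤ τ := by
    rcases Nat.eq_zero_or_pos τ with h | h
    · exfalso
      rw [h, hy0] at hyτ
      omega
    · exact h
  -- some earlier height is larger
  obtain ⟨k₀, hk₀, hk₀'⟩ : ∃ k, k ≤ τ ∧ r < y k := by
    by_contra hc
    push Not at hc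
    have hb1 : Br (w.take τ) := hw.br.take hτn fun k hk => by
      have := hc k hk
      show y k ≤ y τ
      omega
    have hb2 : Br (w.drop τ) := hw.br.drop hτn fun k hk1 hk2 => by
      have := hτ2 k hk1 hk2
      show y τ < y k
      omega
    rcases hw.irr _ _ hb1 hb2 (List.take_append_drop τ w) with h | h
    · have h3 := congrArg List.length h
      rw [List.length_take, List.length_nil] at h3
      omega
    · have h3 := congrArg List.length h
      rw [List.length_drop, List.length_nil] at h3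
      omega
  obtain ⟨i, -, hi2, hi3, hi4⟩ := cover_last_max y 0 τ (Nat.zero_le _)
  have hri : r < y i := lt_of_lt_of_le hk₀' (hi3 k₀ (Nat.zero_le _) hk₀)
  obtain ⟨j, hj1, hj2, hj3, hj4⟩ := cover_last_min y i n (by omega)
  have hjr : y j ≤ r := by
    have := hj3 τ hi2 hτn
    omega
  have hjτ : j ≤ τ := by
    by_contra hc
    push Not at hc
    have := hτ2 j hc hj2
    omega
  have hij : i < j := by
    rcases Nat.lt_or_ge i j with h | h
    · exact h
    · exfalso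
      have : j = i := by omega
      rw [this] at hjr
      omega
  refine ⟨i, j, ⟨hij, hj2, fun k hk => hi3 k (Nat.zero_le _) (hk.trans hjτ),
    fun k hk1 hk2 => hi4 k hk1 (hk2.trans hjτ), fun k hk1 hk2 => hj3 k hk1 hk2,
    fun k hk1 hk2 => hj4 k hk1 hk2⟩, hjr, hri⟩

end Pool.Agent.Lib.MP_c23e5f_co.G
end

section

set_option autoImplicit false

namespace Pool.Agent.Lib.MP_c23e5f_co.G

open Pool.Agent.Lib.MP_c23e5f_co

/-- (2.6) -/
theorem ht_le_cov {w : Wd} (hw : Irr w) (a : ℕ) : w.sum.1 ≤ 1 + Cs a w + Cb a w := by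
  classical
  have h1 : 1 ≤ w.sum.1 := hw.br.ht_pos hw.ne
  have hc : (Finset.Ico (1 : ℤ) w.sum.1).card = (w.sum.1 - 1).toNat := Int.card_Ico _ _
  have hsub : Finset.Ico (1 : ℤ) w.sum.1 ⊆
      ((Finset.Ico (1 : ℤ) w.sum.1).filter
        (fun r => ∃ i j, SS w i j ∧ scal w i j ≤ a ∧ Cov w i j r)) ∪
      ((Finset.Ico (1 : ℤ) w.sum.1).filter
        (fun r => ∃ i j, SS w i j ∧ (a : ℤ) < scal w i j ∧ Cov w i j r)) := by
    intro r hr
    obtain ⟨h2, h3⟩ := Finset.mem_Ico.1 hr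
    obtain ⟨i, j, hs, hcov⟩ := exists_ss hw h2 h3
    rw [Finset.mem_union, Finset.mem_filter, Finset.mem_filter]
    rcases le_or_gt (scal w i j) (a : ℤ) with h | h
    · exact Or.inl ⟨hr, i, j, hs, h, hcov⟩
    · exact Or.inr ⟨hr, i, j, hs, h, hcov⟩
  have h2 := (Finset.card_le_card hsub).trans (Finset.card_union_le _ _)
  have h3 : (Finset.Ico (1 : ℤ) w.sum.1).card ≤ Cs a w + Cb a w := by
    rw [Cs, Cb]
    convert h2 using 3
  rw [hc] at h3
  omega

private lemma scal_pos {w : Wd} {i j : ℕ} (h : SS w i j) : 1 ≤ scal w i j := by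
  have := h.b j h.ij le_rfl
  rw [scal]
  omega

open Classical in
private noncomputable def Qs (a : ℕ) (w : Wd) : Finset (ℕ × ℕ) :=
  ((Finset.range (w.length + 1)) ×ˢ (Finset.range (w.length + 1))).filter
    (fun p : ℕ × ℕ => SS w p.1 p.2 ∧ scal w p.1 p.2 ≤ a)

open Classical in
private noncomputable def Ps (a : ℕ) (w : Wd) : Finset ((ℕ × ℕ) × (ℕ × ℕ)) :=
  (((Finset.range (w.length + 1)) ×ˢ (Finset.range (w.length + 1))) ×ˢ
    ((Finset.range (w.length + 1)) ×ˢ (Finset.range (w.length + 1)))).filter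
    (fun p : (ℕ × ℕ) × (ℕ × ℕ) => SS w p.1.1 p.1.2 ∧ scal w p.1.1 p.1.2 ≤ a ∧
      SS w p.2.1 p.2.2 ∧ scal w p.2.1 p.2.2 ≤ a ∧
      (pos w p.1.1).1 ≤ (pos w p.2.2).1)

open Classical in
private noncomputable def Cset (a : ℕ) (w : Wd) : Finset ℤ :=
  (Finset.Ico (1 : ℤ) w.sum.1).filter
    (fun r => ∃ i j, SS w i j ∧ scal w i j ≤ a ∧ Cov w i j r)

private lemma mem_range_of_ss {w : Wd} {i j : ℕ} (h : SS w i j) :
    (i, j) ∈ (Finset.range (w.length + 1)) ×ˢ (Finset.range (w.length + 1)) := by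
  rw [Finset.mem_product, Finset.mem_range, Finset.mem_range]
  have h1 := h.ij
  have h2 := h.jn
  dsimp only
  omega

private noncomputable def lv (w : Wd) (p : ℕ × ℕ) : Finset ℤ :=
  Finset.Ico (pos w p.2).1 (pos w p.1).1

private lemma card_lv {w : Wd} {p : ℕ × ℕ} {a : ℕ} (h : scal w p.1 p.2 ≤ a) :
    (lv w p).card ≤ a := by
  rw [lv, Int.card_Ico]
  rw [scal] at h
  omega

theorem Cs_le (w : Wd) (a : ℕ) : Cs a w ≤ a * Q a w := by
  classical
  have hsub : Cset a w ⊆ (Qs a w).biUnion (lv w) := by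
    intro r hr
    rw [Cset, Finset.mem_filter] at hr
    obtain ⟨-, i, j, hs, hsc, hcov⟩ := hr
    rw [Finset.mem_biUnion]
    refine ⟨(i, j), ?_, ?_⟩
    · rw [Qs, Finset.mem_filter]
      exact ⟨mem_range_of_ss hs, hs, hsc⟩
    · rw [lv, Finset.mem_Ico]
      exact hcov
  have h1 := (Finset.card_le_card hsub).trans (Finset.card_biUnion_le_card_mul _ _ a (by
    intro p hp
    rw [Qs, Finset.mem_filter] at hp
    exact card_lv hp.2.2))
  rw [mul_comm]
  exact h1

private lemma sg_exists {a : ℕ} {w : Wd} {r : ℤ} (hr : r ∈ Cset a w) :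
    ∃ p : ℕ × ℕ, SS w p.1 p.2 ∧ scal w p.1 p.2 ≤ a ∧ Cov w p.1 p.2 r := by
  classical
  rw [Cset, Finset.mem_filter] at hr
  obtain ⟨-, i, j, hs, hsc, hcov⟩ := hr
  exact ⟨(i, j), hs, hsc, hcov⟩

theorem Cs_sq_le (w : Wd) (a : ℕ) : (Cs a w) ^ 2 ≤ 4 * a * Cs a w + 2 * a ^ 2 * P a w := by
  classical
  set C := Cset a w with hC
  set A : Finset (ℤ × ℤ) := C.biUnion
    (fun r => (Finset.Ioo (r - 2 * a) (r + 2 * a)).image (fun r' => (r, r'))) with hA
  set B : Finset (ℤ × ℤ) := (Ps a w).biUnion (fun p => lv w p.1 ×ˢ lv w p.2) with hB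
  set B' : Finset (ℤ × ℤ) := (Ps a w).biUnion (fun p => lv w p.2 ×ˢ lv w p.1) with hB'
  -- two levels which are far apart
  have key : ∀ r ∈ C, ∀ r' ∈ C, r + 2 * a ≤ r' → ∃ p ∈ Ps a w, r ∈ lv w p.1 ∧ r' ∈ lv w p.2 := by
    intro r hr r' hr' hrr
    obtain ⟨p, hs, hsc, hcov⟩ := sg_exists hr
    obtain ⟨p', hs', hsc', hcov'⟩ := sg_exists hr'
    refine ⟨(p, p'), ?_, ?_, ?_⟩
    · rw [Ps, Finset.mem_filter, Finset.mem_product]
      refine ⟨⟨mem_range_of_ss hs, mem_range_of_ss hs'⟩, hs, hsc, hs', hsc', ?_⟩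
      have e1 := hcov.1
      have e2 := hcov.2
      have e3 := hcov'.1
      have e4 := hcov'.2
      rw [scal] at hsc hsc'
      dsimp only
      omega
    · rw [lv, Finset.mem_Ico]
      exact hcov
    · rw [lv, Finset.mem_Ico]
      exact hcov'
  have hsub : C ×ˢ C ⊆ A ∪ (B ∪ B') := by
    rintro ⟨r, r'⟩ hrr
    obtain ⟨hr, hr'⟩ := Finset.mem_product.1 hrr
    dsimp only at hr hr'
    rw [Finset.mem_union, Finset.mem_union]
    rcases le_or_gt (r + 2 * a) r' with h | h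
    · right; left
      obtain ⟨p, hp, h1, h2⟩ := key r hr r' hr' h
      rw [hB, Finset.mem_biUnion]
      exact ⟨p, hp, Finset.mem_product.2 ⟨h1, h2⟩⟩
    rcases le_or_gt (r' + 2 * a) r with h' | h'
    · right; right
      obtain ⟨p, hp, h1, h2⟩ := key r' hr' r hr h'
      rw [hB', Finset.mem_biUnion]
      exact ⟨p, hp, Finset.mem_product.2 ⟨h2, h1⟩⟩
    · left
      rw [hA, Finset.mem_biUnion]
      refine ⟨r, hr, Finset.mem_image.2 ⟨r', Finset.mem_Ioo.2 ⟨by omega, by omega⟩, rfl⟩⟩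
  have cA : A.card ≤ C.card * (4 * a) := by
    refine Finset.card_biUnion_le_card_mul _ _ _ fun r _ => ?_
    refine Finset.card_image_le.trans ?_
    rw [Int.card_Ioo]
    omega
  have hP : ∀ p ∈ Ps a w, (lv w p.1).card ≤ a ∧ (lv w p.2).card ≤ a := by
    intro p hp
    rw [Ps, Finset.mem_filter] at hp
    exact ⟨card_lv hp.2.2.1, card_lv hp.2.2.2.2.1⟩
  have cB : B.card ≤ (Ps a w).card * (a * a) := by
    refine Finset.card_biUnion_le_card_mul _ _ _ fun p hp => ?_
    rw [Finset.card_product]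
    exact Nat.mul_le_mul (hP p hp).1 (hP p hp).2
  have cB' : B'.card ≤ (Ps a w).card * (a * a) := by
    refine Finset.card_biUnion_le_card_mul _ _ _ fun p hp => ?_
    rw [Finset.card_product]
    exact Nat.mul_le_mul (hP p hp).2 (hP p hp).1
  have h1 := Finset.card_le_card hsub
  have h2 := Finset.card_union_le A (B ∪ B')
  have h3 := Finset.card_union_le B B'
  rw [Finset.card_product] at h1
  have eC : Cs a w = C.card := rfl
  have eP : P a w = (Ps a w).card := rfl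
  rw [eC, eP]
  nlinarith

end Pool.Agent.Lib.MP_c23e5f_co.G
end

section

set_option autoImplicit false

namespace Pool.Agent.Lib.MP_c23e5f_co.G

open Pool.Agent.Lib.MP_c23e5f_co

/-- (2.3) -/
theorem few_take {w : Wd} (hw : Irr w) {i j a : ℕ} (h : SS w i j) (ha : scal w i j ≤ a) :
    nf (w.take i) ≤ a + 1 := by
  have hij := h.ij
  have hjn := h.jn
  have hi1 := h.pos_i hw.br
  have hne : w.take i ≠ [] := by
    intro e
    have := congrArg List.length e
    simp at this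
    rcases this with h0 | h0
    · omega
    · rw [h0] at hjn; simp at hjn; omega
  refine (nf_le_of_cuts (h.br_take hw.br) hne (Finset.Ico (pos w j).1 (pos w i).1) ?_).trans ?_
  · intro x1 x2 hx1 hx2 hne1 hne2 e
    have hlen : x1.length + x2.length = i := by
      have := congrArg List.length e
      rw [List.length_append, List.length_take] at this
      omega
    have hl1 : 1 ≤ x1.length := List.length_pos_iff.2 hne1
    have hl2 : 1 ≤ x2.length := List.length_pos_iff.2 hne2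
    have hsum : x1.sum.1 + x2.sum.1 = (pos w i).1 := by
      have := congrArg (fun l : Wd => l.sum.1) e
      simp only [List.sum_append, Prod.fst_add] at this
      exact this
    have h2 := hx2.ht_pos hne2
    rw [Finset.mem_Ico]
    refine ⟨?_, by omega⟩
    by_contra hc
    push Not at hc
    have hew : x1 ++ (x2 ++ w.drop i) = w := by
      rw [← List.append_assoc, e, List.take_append_drop]
    have htake : w.take x1.length = x1 := by
      conv_lhs => rw [← hew]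
      exact List.take_left
    have hdrop : w.drop x1.length = x2 ++ w.drop i := by
      conv_lhs => rw [← hew]
      exact List.drop_left
    have hpn : pos w x1.length = x1.sum := by
      rw [pos, htake]
    have hbr : Br (w.drop x1.length) := by
      refine Br.drop hw.br (by omega) ?_
      intro k hk hkn
      rw [hpn]
      rcases le_or_gt k i with hki | hki
      · have e1 : pos w k = x1.sum + pos x2 (k - x1.length) := by
          rw [← pos_take hki, ← e, pos_append_right' hk.le]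
        rw [e1, Prod.fst_add]
        have := hx2.gt (k - x1.length) (by omega) (by omega)
        omega
      · have := h.c k hki.le hkn
        omega
    rcases hw.irr x1 (w.drop x1.length) hx1 hbr (by rw [hdrop, hew]) with h3 | h3
    · exact hne1 h3
    · rw [hdrop] at h3
      have := List.append_eq_nil_iff.1 h3
      exact hne2 this.1
  · rw [Int.card_Ico]
    unfold scal at ha
    omega

theorem few_mid {w : Wd} (hw : Irr w) {i j a : ℕ} (h : SS w i j) (ha : scal w i j ≤ a) :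
    nf ((sb w i j).map fl) ≤ a := by
  have h1 := nf_le_ht (h.br_mid hw.br)
  have h2 : (((sb w i j).map fl).sum).1 = scal w i j := by
    rw [← map_list_sum, sum_sb w h.ij.le, fl_apply]
    unfold scal
    simp
  rw [h2] at h1
  omega

theorem few_drop {w : Wd} (hw : Irr w) {i j a : ℕ} (h : SS w i j) (ha : scal w i j ≤ a) :
    nf (w.drop j) ≤ a := by
  have hij := h.ij
  have hjn := h.j_lt hw.br
  have hsc := h.scal_pos
  have hne : w.drop j ≠ [] := by
    intro e
    have := congrArg List.length e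
    simp at this
    omega
  refine (nf_le_of_cuts (h.br_drop hw.br) hne (Finset.Ioo 0 (scal w i j)) ?_).trans ?_
  · intro x1 x2 hx1 hx2 hne1 hne2 e
    have hlen : x1.length + x2.length = w.length - j := by
      have := congrArg List.length e
      rw [List.length_append, List.length_drop] at this
      omega
    have hl1 : 1 ≤ x1.length := List.length_pos_iff.2 hne1
    have hl2 : 1 ≤ x2.length := List.length_pos_iff.2 hne2
    have h1 := hx1.ht_pos hne1
    rw [Finset.mem_Ioo]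
    refine ⟨by omega, ?_⟩
    by_contra hc
    push Not at hc
    unfold scal at hc
    have hpk : ∀ k, j ≤ k → k ≤ j + x1.length → pos w k = pos w j + pos x1 (k - j) := by
      intro k hk hk2
      have e1 : pos (w.drop j) (k - j) = pos x1 (k - j) := by
        rw [← e, pos_append_left (by omega)]
      have e2 := pos_drop w j (k - j)
      rw [e1, Nat.add_sub_cancel' hk] at e2
      rw [e2]; abel
    have hpn : pos w (j + x1.length) = pos w j + x1.sum := by
      rw [hpk _ (by omega) le_rfl, Nat.add_sub_cancel_left, pos_length]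
    have hbr : Br (w.take (j + x1.length)) := by
      refine Br.take hw.br (by omega) ?_
      intro k hk
      rw [hpn, Prod.fst_add]
      rcases le_or_gt k j with hkj | hkj
      · have := h.a k hkj
        omega
      · rw [hpk k hkj.le hk, Prod.fst_add]
        have := hx1.pos_le (k - j)
        omega
    have hd : w.drop (j + x1.length) = x2 := by
      rw [← List.drop_drop, ← e]
      exact List.drop_left
    rcases hw.irr (w.take (j + x1.length)) x2 hbr hx2
      (by rw [← hd, List.take_append_drop]) with h3 | h3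
    · have := congrArg List.length h3
      simp at this
      rcases this with h4 | h4
      · omega
      · rw [h4] at hjn; simp at hjn
    · exact hne2 h3
  · rw [Int.card_Ioo]
    omega

end Pool.Agent.Lib.MP_c23e5f_co.G
end

section

set_option autoImplicit false

namespace Pool.Agent.Lib.MP_c23e5f_co.G

open Pool.Agent.Lib.MP_c23e5f_co

/-- (2.4) -/
theorem pair_lt {w : Wd} {i j i' j' : ℕ} (h : SS w i j) (h' : SS w i' j')
    (hv : (pos w i).1 ≤ (pos w j').1) : j < i' := by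
  by_contra hle
  push Not at hle
  have h1 := h'.c j hle h.jn
  have h2 := h.b j h.ij le_rfl
  omega

theorem pair_br {w : Wd} (hw : Br w) {i j i' j' : ℕ} (h : SS w i j) (h' : SS w i' j')
    (hlt : j < i') : Br (sb w j i') := by
  have h1 := h'.ij
  have h2 := h'.jn
  refine br_sb hw.saw hlt.le (by omega) ?_ ?_
  · intro k hk hk2
    exact h.d k hk (by omega)
  · intro k _ hk2
    exact h'.a k (by omega)

theorem few_between {w : Wd} (hw : Irr w) {i j i' j' a : ℕ} (h : SS w i j) (h' : SS w i' j')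
    (ha : scal w i j ≤ a) (ha' : scal w i' j' ≤ a) (hv : (pos w i).1 ≤ (pos w j').1) :
    nf (sb w j i') ≤ 2 * a := by
  have hlt := pair_lt h h' hv
  have hbr := pair_br hw.br h h' hlt
  have hij := h'.ij
  have hjn := h'.jn
  have hlen : (sb w j i').length = i' - j := length_sb (by omega)
  have hne : sb w j i' ≠ [] := by
    intro h0
    rw [h0] at hlen
    simp at hlen
    omega
  have hsum : (sb w j i').sum.1 = (pos w i').1 - (pos w j).1 := by
    rw [sum_sb w hlt.le]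
    rfl
  have hs1 := h.scal_pos
  have hs2 := h'.scal_pos
  unfold scal at ha ha' hs1 hs2
  set S : Finset ℤ := Finset.Ioo 0 ((pos w i).1 - (pos w j).1) ∪
    Finset.Ico ((pos w j').1 - (pos w j).1) ((pos w i').1 - (pos w j).1) with hS
  have hcard : S.card + 1 ≤ 2 * a := by
    have h1 := Finset.card_union_le (Finset.Ioo (0 : ℤ) ((pos w i).1 - (pos w j).1))
      (Finset.Ico ((pos w j').1 - (pos w j).1) ((pos w i').1 - (pos w j).1))
    rw [Int.card_Ioo, Int.card_Ico, ← hS] at h1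
    omega
  refine le_trans (nf_le_of_cuts hbr hne S ?_) hcard
  intro x₁ x₂ hx₁ hx₂ hne₁ hne₂ hx
  have hp1 := hx₁.ht_pos hne₁
  have hp2 := hx₂.ht_pos hne₂
  have hl1 : 1 ≤ x₁.length := by
    rcases x₁ with _ | ⟨b, x₁⟩
    · exact absurd rfl hne₁
    · simp
  have hl2 : 1 ≤ x₂.length := by
    rcases x₂ with _ | ⟨b, x₂⟩
    · exact absurd rfl hne₂
    · simp
  have hl : x₁.length + x₂.length = i' - j := by
    rw [← hlen, ← hx, List.length_append]
  have hsum2 : x₁.sum.1 + x₂.sum.1 = (pos w i').1 - (pos w j).1 := by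
    rw [← hsum, ← hx, List.sum_append]
    rfl
  -- positions in the first part
  have hy1 : ∀ k, k ≤ x₁.length → (pos w (j + k)).1 = (pos w j).1 + (pos x₁ k).1 := by
    intro k hk
    have h1 : pos (sb w j i') k = pos w (j + k) - pos w j := pos_sb w (by omega)
    rw [← hx, pos_append_left hk] at h1
    have h2 := congrArg Prod.fst h1
    rw [Prod.fst_sub] at h2
    omega
  have hy2 : ∀ k, k ≤ x₂.length →
      (pos w (j + x₁.length + k)).1 = (pos w j).1 + x₁.sum.1 + (pos x₂ k).1 := by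
    intro k hk
    have h1 : pos (sb w j i') (x₁.length + k) = pos w (j + (x₁.length + k)) - pos w j :=
      pos_sb w (by omega)
    rw [← hx, pos_append_right] at h1
    have h2 := congrArg Prod.fst h1
    rw [Prod.fst_sub, Prod.fst_add, ← add_assoc] at h2
    omega
  have hk0 : (pos w (j + x₁.length)).1 = (pos w j).1 + x₁.sum.1 := by
    have := hy1 x₁.length le_rfl
    rwa [pos_length] at this
  -- the claim
  have hclaim : (pos w j).1 + x₁.sum.1 < (pos w i).1 ∨
      (pos w j').1 ≤ (pos w j).1 + x₁.sum.1 := by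
    by_contra hno
    push Not at hno
    obtain ⟨hn1, hn2⟩ := hno
    have ht : Br (w.take (j + x₁.length)) := by
      refine hw.br.take (by omega) ?_
      intro k hk
      rcases le_or_gt k j with h1 | h1
      · have h2 := h.a k h1
        rw [hk0]
        omega
      · have h2 := hy1 (k - j) (by omega)
        rw [show j + (k - j) = k by omega] at h2
        have h3 := hx₁.pos_le (k - j)
        rw [hk0, h2]
        omega
    have hd : Br (w.drop (j + x₁.length)) := by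
      refine hw.br.drop (by omega) ?_
      intro k hk hk2
      rcases le_or_gt k i' with h1 | h1
      · have h2 := hy2 (k - (j + x₁.length)) (by omega)
        rw [show j + x₁.length + (k - (j + x₁.length)) = k by omega] at h2
        have h3 := hx₂.gt (k - (j + x₁.length)) (by omega) (by omega)
        rw [hk0, h2]
        omega
      · have h2 := h'.c k h1.le hk2
        rw [hk0]
        omega
    rcases hw.irr _ _ ht hd (List.take_append_drop _ _) with h1 | h1
    · have h2 := congrArg List.length h1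
      rw [List.length_take] at h2
      simp only [List.length_nil] at h2
      omega
    · have h2 := congrArg List.length h1
      rw [List.length_drop] at h2
      simp only [List.length_nil] at h2
      omega
  rw [hS, Finset.mem_union, Finset.mem_Ioo, Finset.mem_Ico]
  rcases hclaim with h1 | h1
  · left
    constructor <;> omega
  · right
    constructor <;> omega

end Pool.Agent.Lib.MP_c23e5f_co.G
end

section

set_option autoImplicit false

namespace Pool.Agent.Lib.MP_c23e5f_co.G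

open Pool.Agent.Lib.MP_c23e5f_co

private lemma q_pos (β t m : ℝ) (w : Wd) : 0 < E β t m w := Real.exp_pos _

/-- a finite sum over an injective family of tuples of pieces -/
private lemma q_prod {β t m : ℝ} {τ : Type} (T : Finset τ) (N : ℕ) (f : Fin N → τ → Wd)
    (e : τ → ℝ) (R : Fin N → ℝ)
    (hinj : ∀ a ∈ T, ∀ b ∈ T, (∀ k, f k a = f k b) → a = b)
    (he : ∀ a ∈ T, e a ≤ ∏ k, E β t m (f k a))
    (hR : ∀ k, ∑ x ∈ T.image (f k), E β t m x ≤ R k) :
    ∑ a ∈ T, e a ≤ ∏ k, R k := by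
  classical
  calc ∑ a ∈ T, e a ≤ ∑ a ∈ T, ∏ k, E β t m (f k a) := Finset.sum_le_sum he
    _ = ∑ g ∈ T.image (fun a k => f k a), ∏ k, E β t m (g k) := by
        rw [Finset.sum_image]
        intro a ha b hb hab
        exact hinj a ha b hb fun k => congrFun hab k
    _ ≤ ∑ g ∈ Fintype.piFinset (fun k => T.image (f k)), ∏ k, E β t m (g k) := by
        refine Finset.sum_le_sum_of_subset_of_nonneg ?_ ?_
        · intro g hg
          obtain ⟨a, ha, rfl⟩ := Finset.mem_image.1 hg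
          rw [Fintype.mem_piFinset]
          exact fun k => Finset.mem_image_of_mem _ ha
        · intro g _ _
          exact Finset.prod_nonneg fun k _ => (q_pos β t m _).le
    _ = ∏ k, ∑ x ∈ T.image (f k), E β t m x := (Finset.prod_univ_sum _ _).symm
    _ ≤ ∏ k, R k := Finset.prod_le_prod
        (fun k _ => Finset.sum_nonneg fun x _ => (q_pos β t m _).le) (fun k _ => hR k)

private lemma q_take_drop (w : Wd) {i j : ℕ} (hij : i ≤ j) :
    w.take i ++ sb w i j ++ w.drop j = w := by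
  have h1 : w.take i ++ sb w i j = w.take j := by
    have h2 : (w.take j).take i = w.take i := by rw [List.take_take, min_eq_left hij]
    rw [← h2, sb, List.take_append_drop]
  rw [h1, List.take_append_drop]

private lemma q_fl_fl (w : Wd) : (w.map fl).map fl = w := by
  rw [List.map_map]
  conv_rhs => rw [← List.map_id w]
  refine List.map_congr_left fun v _ => ?_
  ext <;> simp

private lemma q_sum_fl (w : Wd) : (w.map fl).sum = fl w.sum := (map_list_sum fl w).symm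

/-- (2.5) -/
theorem EQ_le {β t m : ℝ} {H : ℕ} (hZ : Z β H t m = 1) (hm : 0 ≤ m) (a : ℕ) :
    Ex β H t m (fun w => (Q a w : ℝ)) ≤ (a : ℝ) ^ 2 * (a + 1) := by
  classical
  let T : Finset (Σ _ : Wd, ℕ × ℕ) := (irrs H).sigma fun w =>
    ((Finset.range (w.length + 1)) ×ˢ (Finset.range (w.length + 1))).filter
      (fun p : ℕ × ℕ => SS w p.1 p.2 ∧ scal w p.1 p.2 ≤ a)
  have hT : Ex β H t m (fun w => (Q a w : ℝ)) = ∑ p ∈ T, E β t m p.1 := by
    rw [Finset.sum_sigma]
    refine Finset.sum_congr rfl fun w _ => ?_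
    simp only
    rw [Finset.sum_const, nsmul_eq_mul, mul_comm, Q]
  have hmem : ∀ p ∈ T, Irr p.1 ∧ p.1.length ≤ H ∧ SS p.1 p.2.1 p.2.2 ∧
      scal p.1 p.2.1 p.2.2 ≤ a := by
    intro p hp
    obtain ⟨h1, h2⟩ := Finset.mem_sigma.1 hp
    obtain ⟨-, h3, h4⟩ := Finset.mem_filter.1 h2
    exact ⟨(mem_irrs.1 h1).1, (mem_irrs.1 h1).2, h3, h4⟩
  let f : Fin 3 → (Σ _ : Wd, ℕ × ℕ) → Wd := fun k p =>
    ![p.1.take p.2.1, (sb p.1 p.2.1 p.2.2).map fl, p.1.drop p.2.2] k
  let R : Fin 3 → ℝ := ![((a + 1 : ℕ) : ℝ), (a : ℝ), (a : ℝ)]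
  have hlen : ∀ p ∈ T, (f 0 p).length = p.2.1 ∧ (f 1 p).length = p.2.2 - p.2.1 ∧
      (f 2 p).length = p.1.length - p.2.2 := by
    intro p hp
    obtain ⟨-, -, h3, -⟩ := hmem p hp
    have h5 := h3.ij
    have h6 := h3.jn
    refine ⟨?_, ?_, ?_⟩
    · show (p.1.take p.2.1).length = _
      rw [List.length_take]
      omega
    · show ((sb p.1 p.2.1 p.2.2).map fl).length = _
      rw [List.length_map, length_sb h6]
    · show (p.1.drop p.2.2).length = _
      rw [List.length_drop]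
  have hjoin : ∀ p ∈ T, p.1 = f 0 p ++ (f 1 p).map fl ++ f 2 p := by
    intro p hp
    obtain ⟨-, -, h3, -⟩ := hmem p hp
    show p.1 = p.1.take p.2.1 ++ ((sb p.1 p.2.1 p.2.2).map fl).map fl ++ p.1.drop p.2.2
    rw [q_fl_fl, q_take_drop _ h3.ij.le]
  have key := q_prod (β := β) (t := t) (m := m) T 3 f (fun p => E β t m p.1) R ?_ ?_ ?_
  · rw [hT]
    refine key.trans (le_of_eq ?_)
    simp only [R, Fin.prod_univ_three, Matrix.cons_val_zero, Matrix.cons_val_one,
      Matrix.cons_val]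
    push_cast
    ring
  · -- injectivity
    intro p hp p' hp' hk
    have h0 := hk 0
    have h1 := hk 1
    have h2 := hk 2
    obtain ⟨l1, l2, -⟩ := hlen p hp
    obtain ⟨l1', l2', -⟩ := hlen p' hp'
    have hw : p.1 = p'.1 := by rw [hjoin p hp, hjoin p' hp', h0, h1, h2]
    have hi : p.2.1 = p'.2.1 := by rw [← l1, ← l1', h0]
    have hj : p.2.2 = p'.2.2 := by
      have h5 := (hmem p hp).2.2.1.ij
      have h5' := (hmem p' hp').2.2.1.ij
      have : p.2.2 - p.2.1 = p'.2.2 - p'.2.1 := by rw [← l2, ← l2', h1]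
      omega
    obtain ⟨w, i, j⟩ := p
    obtain ⟨w', i', j'⟩ := p'
    simp only at hw hi hj
    subst hw hi hj
    rfl
  · -- weights
    intro p hp
    obtain ⟨-, -, h3, -⟩ := hmem p hp
    obtain ⟨l0, l1, l2⟩ := hlen p hp
    have h5 := h3.ij
    have h6 := h3.jn
    rw [Fin.prod_univ_three]
    unfold E
    rw [← Real.exp_add, ← Real.exp_add]
    apply Real.exp_le_exp.2
    have e0 : (f 0 p).sum = pos p.1 p.2.1 := rfl
    have e1 : (f 1 p).sum = fl (pos p.1 p.2.2 - pos p.1 p.2.1) := by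
      show ((sb p.1 p.2.1 p.2.2).map fl).sum = _
      rw [q_sum_fl, sum_sb _ h5.le]
    have e2 : (f 2 p).sum = p.1.sum - pos p.1 p.2.2 := sum_drop _ _
    have hs : 1 ≤ scal p.1 p.2.1 p.2.2 := h3.scal_pos
    have hsum : ((f 0 p).sum.1 : ℝ) + ((f 1 p).sum.1 : ℝ) + ((f 2 p).sum.1 : ℝ) =
        (p.1.sum.1 : ℝ) + 2 * ((scal p.1 p.2.1 p.2.2 : ℤ) : ℝ) := by
      rw [e0, e1, e2]
      simp only [fl_apply, Prod.fst_sub, scal]
      push_cast
      ring
    have hl : ((f 0 p).length : ℝ) + ((f 1 p).length : ℝ) + ((f 2 p).length : ℝ) =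
        (p.1.length : ℝ) := by
      rw [l0, l1, l2]
      have : p.2.1 + (p.2.2 - p.2.1) + (p.1.length - p.2.2) = p.1.length := by omega
      exact_mod_cast this
    have hs' : (1 : ℝ) ≤ ((scal p.1 p.2.1 p.2.2 : ℤ) : ℝ) := by exact_mod_cast hs
    have h7 : -(β + t) * ((f 0 p).length : ℝ) + m * ((f 0 p).sum.1 : ℝ) +
        (-(β + t) * ((f 1 p).length : ℝ) + m * ((f 1 p).sum.1 : ℝ)) +
        (-(β + t) * ((f 2 p).length : ℝ) + m * ((f 2 p).sum.1 : ℝ)) =
        -(β + t) * (((f 0 p).length : ℝ) + ((f 1 p).length : ℝ) + ((f 2 p).length : ℝ)) +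
        m * (((f 0 p).sum.1 : ℝ) + ((f 1 p).sum.1 : ℝ) + ((f 2 p).sum.1 : ℝ)) := by ring
    rw [h7, hsum, hl]
    nlinarith [mul_nonneg hm (by linarith : (0 : ℝ) ≤ ((scal p.1 p.2.1 p.2.2 : ℤ) : ℝ))]
  · -- bounds
    intro k
    fin_cases k
    · refine sum_nf_le hZ (a + 1) _ ?_
      intro x hx
      obtain ⟨p, hp, rfl⟩ := Finset.mem_image.1 hx
      obtain ⟨h1, h2, h3, h4⟩ := hmem p hp
      obtain ⟨l0, l1, l2⟩ := hlen p hp
      have h5 := h3.ij
      have h6 := h3.jn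
      refine ⟨h3.br_take h1.br, ?_, few_take h1 h3 h4, ?_⟩
      · intro hnil
        have h7 := h3.pos_i h1.br
        have : (f 0 p).length = 0 := by
          have h8 : f 0 p = [] := hnil
          rw [h8, List.length_nil]
        omega
      · have : (f 0 p).length ≤ H := by omega
        exact this
    · refine sum_nf_le hZ a _ ?_
      intro x hx
      obtain ⟨p, hp, rfl⟩ := Finset.mem_image.1 hx
      obtain ⟨h1, h2, h3, h4⟩ := hmem p hp
      obtain ⟨l0, l1, l2⟩ := hlen p hp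
      have h5 := h3.ij
      have h6 := h3.jn
      refine ⟨h3.br_mid h1.br, ?_, few_mid h1 h3 h4, ?_⟩
      · intro hnil
        have : (f 1 p).length = 0 := by
          have h8 : f 1 p = [] := hnil
          rw [h8, List.length_nil]
        omega
      · have : (f 1 p).length ≤ H := by omega
        exact this
    · refine sum_nf_le hZ a _ ?_
      intro x hx
      obtain ⟨p, hp, rfl⟩ := Finset.mem_image.1 hx
      obtain ⟨h1, h2, h3, h4⟩ := hmem p hp
      obtain ⟨l0, l1, l2⟩ := hlen p hp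
      have h5 := h3.ij
      have h6 := h3.j_lt h1.br
      refine ⟨h3.br_drop h1.br, ?_, few_drop h1 h3 h4, ?_⟩
      · intro hnil
        have : (f 2 p).length = 0 := by
          have h8 : f 2 p = [] := hnil
          rw [h8, List.length_nil]
        omega
      · have : (f 2 p).length ≤ H := by omega
        exact this

end Pool.Agent.Lib.MP_c23e5f_co.G
end

section

set_option autoImplicit false

namespace Pool.Agent.Lib.MP_c23e5f_co.G

open Pool.Agent.Lib.MP_c23e5f_co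

private lemma p_pos (β t m : ℝ) (w : Wd) : 0 < E β t m w := Real.exp_pos _

/-- a finite sum over an injective family of tuples of pieces -/
private lemma p_prod {β t m : ℝ} {τ : Type} (T : Finset τ) (N : ℕ) (f : Fin N → τ → Wd)
    (e : τ → ℝ) (R : Fin N → ℝ)
    (hinj : ∀ a ∈ T, ∀ b ∈ T, (∀ k, f k a = f k b) → a = b)
    (he : ∀ a ∈ T, e a ≤ ∏ k, E β t m (f k a))
    (hR : ∀ k, ∑ x ∈ T.image (f k), E β t m x ≤ R k) :
    ∑ a ∈ T, e a ≤ ∏ k, R k := by
  classical
  calc ∑ a ∈ T, e a ≤ ∑ a ∈ T, ∏ k, E β t m (f k a) := Finset.sum_le_sum he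
    _ = ∑ g ∈ T.image (fun a k => f k a), ∏ k, E β t m (g k) := by
        rw [Finset.sum_image]
        intro a ha b hb hab
        exact hinj a ha b hb fun k => congrFun hab k
    _ ≤ ∑ g ∈ Fintype.piFinset (fun k => T.image (f k)), ∏ k, E β t m (g k) := by
        refine Finset.sum_le_sum_of_subset_of_nonneg ?_ ?_
        · intro g hg
          obtain ⟨a, ha, rfl⟩ := Finset.mem_image.1 hg
          rw [Fintype.mem_piFinset]
          exact fun k => Finset.mem_image_of_mem _ ha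
        · intro g _ _
          exact Finset.prod_nonneg fun k _ => (p_pos β t m _).le
    _ = ∏ k, ∑ x ∈ T.image (f k), E β t m x := (Finset.prod_univ_sum _ _).symm
    _ ≤ ∏ k, R k := Finset.prod_le_prod
        (fun k _ => Finset.sum_nonneg fun x _ => (p_pos β t m _).le) (fun k _ => hR k)

private lemma p_take_sb (w : Wd) {i j : ℕ} (hij : i ≤ j) : w.take i ++ sb w i j = w.take j := by
  have h2 : (w.take j).take i = w.take i := by rw [List.take_take, min_eq_left hij]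
  rw [← h2, sb, List.take_append_drop]

private lemma p_fl_fl (w : Wd) : (w.map fl).map fl = w := by
  rw [List.map_map]
  conv_rhs => rw [← List.map_id w]
  refine List.map_congr_left fun v _ => ?_
  ext <;> simp

private lemma p_sum_fl (w : Wd) : (w.map fl).sum = fl w.sum := (map_list_sum fl w).symm

/-- (2.5), pairs -/
theorem EP_le {β t m : ℝ} {H : ℕ} (hZ : Z β H t m = 1) (hm : 0 ≤ m) (a : ℕ) :
    Ex β H t m (fun w => (P a w : ℝ)) ≤ 2 * (a : ℝ) ^ 4 * (a + 1) := by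
  classical
  let T : Finset (Σ _ : Wd, (ℕ × ℕ) × (ℕ × ℕ)) := (irrs H).sigma fun w =>
    (((Finset.range (w.length + 1)) ×ˢ (Finset.range (w.length + 1))) ×ˢ
    ((Finset.range (w.length + 1)) ×ˢ (Finset.range (w.length + 1)))).filter
    (fun p : (ℕ × ℕ) × (ℕ × ℕ) => SS w p.1.1 p.1.2 ∧ scal w p.1.1 p.1.2 ≤ a ∧
      SS w p.2.1 p.2.2 ∧ scal w p.2.1 p.2.2 ≤ a ∧
      (pos w p.1.1).1 ≤ (pos w p.2.2).1)
  have hT : Ex β H t m (fun w => (P a w : ℝ)) = ∑ p ∈ T, E β t m p.1 := by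
    rw [Finset.sum_sigma]
    refine Finset.sum_congr rfl fun w _ => ?_
    simp only
    rw [Finset.sum_const, nsmul_eq_mul, mul_comm, P]
  have hmem : ∀ p ∈ T, Irr p.1 ∧ p.1.length ≤ H ∧ SS p.1 p.2.1.1 p.2.1.2 ∧
      scal p.1 p.2.1.1 p.2.1.2 ≤ a ∧ SS p.1 p.2.2.1 p.2.2.2 ∧
      scal p.1 p.2.2.1 p.2.2.2 ≤ a ∧ (pos p.1 p.2.1.1).1 ≤ (pos p.1 p.2.2.2).1 := by
    intro p hp
    obtain ⟨h1, h2⟩ := Finset.mem_sigma.1 hp
    obtain ⟨-, h3⟩ := Finset.mem_filter.1 h2
    exact ⟨(mem_irrs.1 h1).1, (mem_irrs.1 h1).2, h3⟩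
  have hlt : ∀ p ∈ T, p.2.1.1 < p.2.1.2 ∧ p.2.1.2 < p.2.2.1 ∧ p.2.2.1 < p.2.2.2 ∧
      p.2.2.2 < p.1.length ∧ 1 ≤ p.2.1.1 := by
    intro p hp
    obtain ⟨h1, h2, h3, h4, h5, h6, h7⟩ := hmem p hp
    exact ⟨h3.ij, pair_lt h3 h5 h7, h5.ij, h5.j_lt h1.br, h3.pos_i h1.br⟩
  let f : Fin 5 → (Σ _ : Wd, (ℕ × ℕ) × (ℕ × ℕ)) → Wd := fun k p =>
    ![p.1.take p.2.1.1, (sb p.1 p.2.1.1 p.2.1.2).map fl, sb p.1 p.2.1.2 p.2.2.1,
      (sb p.1 p.2.2.1 p.2.2.2).map fl, p.1.drop p.2.2.2] k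
  let R : Fin 5 → ℝ := ![((a + 1 : ℕ) : ℝ), (a : ℝ), ((2 * a : ℕ) : ℝ), (a : ℝ), (a : ℝ)]
  have hlen : ∀ p ∈ T, (f 0 p).length = p.2.1.1 ∧ (f 1 p).length = p.2.1.2 - p.2.1.1 ∧
      (f 2 p).length = p.2.2.1 - p.2.1.2 ∧ (f 3 p).length = p.2.2.2 - p.2.2.1 ∧
      (f 4 p).length = p.1.length - p.2.2.2 := by
    intro p hp
    obtain ⟨h1, h2, h3, h4, h5⟩ := hlt p hp
    refine ⟨?_, ?_, ?_, ?_, ?_⟩
    · show (p.1.take p.2.1.1).length = _
      rw [List.length_take]
      omega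
    · show ((sb p.1 p.2.1.1 p.2.1.2).map fl).length = _
      rw [List.length_map, length_sb (by omega)]
    · show (sb p.1 p.2.1.2 p.2.2.1).length = _
      rw [length_sb (by omega)]
    · show ((sb p.1 p.2.2.1 p.2.2.2).map fl).length = _
      rw [List.length_map, length_sb (by omega)]
    · show (p.1.drop p.2.2.2).length = _
      rw [List.length_drop]
  have hjoin : ∀ p ∈ T, p.1 = f 0 p ++ (f 1 p).map fl ++ f 2 p ++ (f 3 p).map fl ++ f 4 p := by
    intro p hp
    obtain ⟨h1, h2, h3, h4, h5⟩ := hlt p hp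
    show p.1 = p.1.take p.2.1.1 ++ ((sb p.1 p.2.1.1 p.2.1.2).map fl).map fl ++
      sb p.1 p.2.1.2 p.2.2.1 ++ ((sb p.1 p.2.2.1 p.2.2.2).map fl).map fl ++ p.1.drop p.2.2.2
    rw [p_fl_fl, p_fl_fl, p_take_sb _ h1.le, p_take_sb _ h2.le, p_take_sb _ h3.le,
      List.take_append_drop]
  have key := p_prod (β := β) (t := t) (m := m) T 5 f (fun p => E β t m p.1) R ?_ ?_ ?_
  · rw [hT]
    refine key.trans (le_of_eq ?_)
    simp only [R, Fin.prod_univ_five, Matrix.cons_val_zero, Matrix.cons_val_one,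
      Matrix.cons_val]
    push_cast
    ring
  · -- injectivity
    intro p hp p' hp' hk
    have h0 := hk 0
    have h1 := hk 1
    have h2 := hk 2
    have h3 := hk 3
    have h4 := hk 4
    obtain ⟨l0, l1, l2, l3, -⟩ := hlen p hp
    obtain ⟨l0', l1', l2', l3', -⟩ := hlen p' hp'
    obtain ⟨g1, g2, g3, g4, g5⟩ := hlt p hp
    obtain ⟨g1', g2', g3', g4', g5'⟩ := hlt p' hp'
    have hw : p.1 = p'.1 := by rw [hjoin p hp, hjoin p' hp', h0, h1, h2, h3, h4]
    have e0 : p.2.1.1 = p'.2.1.1 := by rw [← l0, ← l0', h0]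
    have e1 : p.2.1.2 - p.2.1.1 = p'.2.1.2 - p'.2.1.1 := by rw [← l1, ← l1', h1]
    have e2 : p.2.2.1 - p.2.1.2 = p'.2.2.1 - p'.2.1.2 := by rw [← l2, ← l2', h2]
    have e3 : p.2.2.2 - p.2.2.1 = p'.2.2.2 - p'.2.2.1 := by rw [← l3, ← l3', h3]
    have e1' : p.2.1.2 = p'.2.1.2 := by omega
    have e2' : p.2.2.1 = p'.2.2.1 := by omega
    have e3' : p.2.2.2 = p'.2.2.2 := by omega
    obtain ⟨w, ⟨i, j⟩, ⟨i2, j2⟩⟩ := p
    obtain ⟨w', ⟨i', j'⟩, ⟨i2', j2'⟩⟩ := p'
    simp only at hw e0 e1' e2' e3'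
    subst hw e0 e1' e2' e3'
    rfl
  · -- weights
    intro p hp
    obtain ⟨-, -, s1, -, s2, -, -⟩ := hmem p hp
    obtain ⟨l0, l1, l2, l3, l4⟩ := hlen p hp
    obtain ⟨g1, g2, g3, g4, g5⟩ := hlt p hp
    rw [Fin.prod_univ_five]
    unfold E
    rw [← Real.exp_add, ← Real.exp_add, ← Real.exp_add, ← Real.exp_add]
    apply Real.exp_le_exp.2
    have e0 : (f 0 p).sum = pos p.1 p.2.1.1 := rfl
    have e1 : (f 1 p).sum = fl (pos p.1 p.2.1.2 - pos p.1 p.2.1.1) := by
      show ((sb p.1 p.2.1.1 p.2.1.2).map fl).sum = _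
      rw [p_sum_fl, sum_sb _ g1.le]
    have e2 : (f 2 p).sum = pos p.1 p.2.2.1 - pos p.1 p.2.1.2 := by
      show (sb p.1 p.2.1.2 p.2.2.1).sum = _
      rw [sum_sb _ g2.le]
    have e3 : (f 3 p).sum = fl (pos p.1 p.2.2.2 - pos p.1 p.2.2.1) := by
      show ((sb p.1 p.2.2.1 p.2.2.2).map fl).sum = _
      rw [p_sum_fl, sum_sb _ g3.le]
    have e4 : (f 4 p).sum = p.1.sum - pos p.1 p.2.2.2 := sum_drop _ _
    have hs : 1 ≤ scal p.1 p.2.1.1 p.2.1.2 := s1.scal_pos
    have ht : 1 ≤ scal p.1 p.2.2.1 p.2.2.2 := s2.scal_pos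
    have hsum : ((f 0 p).sum.1 : ℝ) + ((f 1 p).sum.1 : ℝ) + ((f 2 p).sum.1 : ℝ) +
        ((f 3 p).sum.1 : ℝ) + ((f 4 p).sum.1 : ℝ) =
        (p.1.sum.1 : ℝ) + 2 * ((scal p.1 p.2.1.1 p.2.1.2 : ℤ) : ℝ) +
          2 * ((scal p.1 p.2.2.1 p.2.2.2 : ℤ) : ℝ) := by
      rw [e0, e1, e2, e3, e4]
      simp only [fl_apply, Prod.fst_sub, scal]
      push_cast
      ring
    have hl : ((f 0 p).length : ℝ) + ((f 1 p).length : ℝ) + ((f 2 p).length : ℝ) +
        ((f 3 p).length : ℝ) + ((f 4 p).length : ℝ) = (p.1.length : ℝ) := by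
      rw [l0, l1, l2, l3, l4]
      have : p.2.1.1 + (p.2.1.2 - p.2.1.1) + (p.2.2.1 - p.2.1.2) + (p.2.2.2 - p.2.2.1) +
        (p.1.length - p.2.2.2) = p.1.length := by omega
      exact_mod_cast this
    have hs' : (1 : ℝ) ≤ ((scal p.1 p.2.1.1 p.2.1.2 : ℤ) : ℝ) := by exact_mod_cast hs
    have ht' : (1 : ℝ) ≤ ((scal p.1 p.2.2.1 p.2.2.2 : ℤ) : ℝ) := by exact_mod_cast ht
    have h7 : -(β + t) * ((f 0 p).length : ℝ) + m * ((f 0 p).sum.1 : ℝ) +
        (-(β + t) * ((f 1 p).length : ℝ) + m * ((f 1 p).sum.1 : ℝ)) +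
        (-(β + t) * ((f 2 p).length : ℝ) + m * ((f 2 p).sum.1 : ℝ)) +
        (-(β + t) * ((f 3 p).length : ℝ) + m * ((f 3 p).sum.1 : ℝ)) +
        (-(β + t) * ((f 4 p).length : ℝ) + m * ((f 4 p).sum.1 : ℝ)) =
        -(β + t) * (((f 0 p).length : ℝ) + ((f 1 p).length : ℝ) + ((f 2 p).length : ℝ) +
          ((f 3 p).length : ℝ) + ((f 4 p).length : ℝ)) +
        m * (((f 0 p).sum.1 : ℝ) + ((f 1 p).sum.1 : ℝ) + ((f 2 p).sum.1 : ℝ) +
          ((f 3 p).sum.1 : ℝ) + ((f 4 p).sum.1 : ℝ)) := by ring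
    rw [h7, hsum, hl]
    nlinarith [mul_nonneg hm (by linarith : (0 : ℝ) ≤ ((scal p.1 p.2.1.1 p.2.1.2 : ℤ) : ℝ)),
      mul_nonneg hm (by linarith : (0 : ℝ) ≤ ((scal p.1 p.2.2.1 p.2.2.2 : ℤ) : ℝ))]
  · -- bounds
    have hnn : ∀ (k : Fin 5), ∀ p ∈ T, 1 ≤ (f k p).length ∧ (f k p).length ≤ H := by
      intro k p hp
      obtain ⟨l0, l1, l2, l3, l4⟩ := hlen p hp
      obtain ⟨g1, g2, g3, g4, g5⟩ := hlt p hp
      have hH := (hmem p hp).2.1
      have hcases : k = 0 ∨ k = 1 ∨ k = 2 ∨ k = 3 ∨ k = 4 := by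
        fin_cases k <;> simp
      rcases hcases with rfl | rfl | rfl | rfl | rfl <;> omega
    have hne : ∀ (k : Fin 5), ∀ p ∈ T, f k p ≠ [] := by
      intro k p hp hnil
      have := (hnn k p hp).1
      rw [hnil, List.length_nil] at this
      omega
    have hgen : ∀ (k : Fin 5) (r : ℕ), (∀ p ∈ T, Br (f k p) ∧ nf (f k p) ≤ r) →
        ∑ x ∈ T.image (f k), E β t m x ≤ r := by
      intro k r h
      refine sum_nf_le hZ r _ ?_
      intro x hx
      obtain ⟨p, hp, rfl⟩ := Finset.mem_image.1 hx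
      exact ⟨(h p hp).1, hne k p hp, (h p hp).2, (hnn k p hp).2⟩
    intro k
    fin_cases k
    · refine hgen 0 (a + 1) fun p hp => ?_
      obtain ⟨h1, h2, h3, h4, h5, h6, h7⟩ := hmem p hp
      exact ⟨h3.br_take h1.br, few_take h1 h3 h4⟩
    · refine hgen 1 a fun p hp => ?_
      obtain ⟨h1, h2, h3, h4, h5, h6, h7⟩ := hmem p hp
      exact ⟨h3.br_mid h1.br, few_mid h1 h3 h4⟩
    · refine hgen 2 (2 * a) fun p hp => ?_
      obtain ⟨h1, h2, h3, h4, h5, h6, h7⟩ := hmem p hp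
      exact ⟨pair_br h1.br h3 h5 (hlt p hp).2.1, few_between h1 h3 h5 h4 h6 h7⟩
    · refine hgen 3 a fun p hp => ?_
      obtain ⟨h1, h2, h3, h4, h5, h6, h7⟩ := hmem p hp
      exact ⟨h5.br_mid h1.br, few_mid h1 h5 h6⟩
    · refine hgen 4 a fun p hp => ?_
      obtain ⟨h1, h2, h3, h4, h5, h6, h7⟩ := hmem p hp
      exact ⟨h5.br_drop h1.br, few_drop h1 h5 h6⟩

end Pool.Agent.Lib.MP_c23e5f_co.G
end

section

set_option autoImplicit false

namespace Pool.Agent.Lib.MP_c23e5f_co.G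

open Pool.Agent.Lib.MP_c23e5f_co

private theorem Ex_mono' {β t m : ℝ} {H : ℕ} {F G : Wd → ℝ} (h : ∀ w, Irr w → F w ≤ G w) :
    Ex β H t m F ≤ Ex β H t m G := by
  unfold Ex
  refine Finset.sum_le_sum fun w hw => ?_
  exact mul_le_mul_of_nonneg_left (h w (mem_irrs.mp hw).1) (E_pos β t m w).le

private theorem Ex_add' {β t m : ℝ} {H : ℕ} (F G : Wd → ℝ) :
    Ex β H t m (fun w => F w + G w) = Ex β H t m F + Ex β H t m G := by
  unfold Ex
  rw [← Finset.sum_add_distrib]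
  exact Finset.sum_congr rfl fun w _ => by ring

private theorem Ex_mul' {β t m : ℝ} {H : ℕ} (c : ℝ) (F : Wd → ℝ) :
    Ex β H t m (fun w => c * F w) = c * Ex β H t m F := by
  unfold Ex
  rw [Finset.mul_sum]
  exact Finset.sum_congr rfl fun w _ => by ring

private theorem Ex_const' {β t m : ℝ} {H : ℕ} (hZ : Z β H t m = 1) (c : ℝ) :
    Ex β H t m (fun _ => c) = c := by
  unfold Ex
  rw [← Finset.sum_mul]
  unfold Z at hZ
  rw [hZ, one_mul]

private theorem hR_le {w : Wd} (hw : Irr w) (a : ℕ) :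
    hR w ≤ 1 + (Cs a w : ℝ) + (Cb a w : ℝ) := by
  have h := ht_le_cov hw a
  have h2 : ((w.sum.1 : ℤ) : ℝ) ≤ ((1 + (Cs a w : ℤ) + (Cb a w : ℤ) : ℤ) : ℝ) := by
    exact_mod_cast h
  unfold hR
  push_cast at h2
  exact h2

private theorem Cs_le' (w : Wd) (a : ℕ) : (Cs a w : ℝ) ≤ a * Q a w := by
  exact_mod_cast Cs_le w a

private theorem Cs_sq_le' (w : Wd) (a : ℕ) :
    (Cs a w : ℝ) ^ 2 ≤ 4 * a * Cs a w + 2 * a ^ 2 * P a w := by
  exact_mod_cast Cs_sq_le w a

/-- (2.7) -/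
theorem small_g {β t m : ℝ} {H : ℕ} (h : Mass β H t m) {a : ℕ} (ha : 1 ≤ a)
    (hb : Ex β H t m (fun w => (Cb a w : ℝ)) ≤ Ex β H t m hR / 4) :
    Ex β H t m hR ≤ 4 * (a : ℝ) ^ 4 := by
  have hm : 0 ≤ m := h.t0.trans h.tm
  have hQ := EQ_le h.z hm a
  have h1 : Ex β H t m hR ≤ Ex β H t m (fun w => 1 + ((a : ℝ) * (Q a w : ℝ) + (Cb a w : ℝ))) := by
    refine Ex_mono' fun w hw => ?_
    have := hR_le hw a
    have := Cs_le' w a
    linarith
  rw [Ex_add' (fun _ => (1 : ℝ)) (fun w => (a : ℝ) * (Q a w : ℝ) + (Cb a w : ℝ)),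
    Ex_add' (fun w => (a : ℝ) * (Q a w : ℝ)) (fun w => (Cb a w : ℝ)),
    Ex_mul' (a : ℝ) (fun w => (Q a w : ℝ)), Ex_const' h.z] at h1
  have ha1 : (1 : ℝ) ≤ a := by exact_mod_cast ha
  have h2 : (a : ℝ) * Ex β H t m (fun w => (Q a w : ℝ)) ≤ a * ((a : ℝ) ^ 2 * (a + 1)) :=
    mul_le_mul_of_nonneg_left hQ (by linarith)
  have h3 : (1 : ℝ) ≤ (a : ℝ) ^ 3 := one_le_pow₀ ha1
  have h4 : (a : ℝ) ^ 3 ≤ (a : ℝ) ^ 4 := pow_le_pow_right₀ ha1 (by norm_num)
  nlinarith

private theorem pt_tail {D Y b c : ℝ} (hD : 0 < D) (hY : Y ≤ 1 + c + b) (hb : 0 ≤ b) (hc : 0 ≤ c) :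
    (if D ≤ Y then Y else 0) ≤ 8 / 7 * b + 64 / D * (1 + c) ^ 2 := by
  split_ifs with hDY
  · rcases le_total (1 + c) (Y / 8) with h1 | h1
    · have : 0 ≤ 64 / D * (1 + c) ^ 2 := by positivity
      linarith
    · have h2 : 0 ≤ 8 / 7 * b := by positivity
      have h3 : Y ≤ 64 / D * (1 + c) ^ 2 := by
        rw [div_mul_eq_mul_div, le_div_iff₀ hD]
        have hY0 : 0 < Y := lt_of_lt_of_le hD hDY
        nlinarith [mul_le_mul hDY h1 (by linarith) hY0.le]
      linarith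
  · positivity

theorem small_tail {β t m : ℝ} {H : ℕ} (h : Mass β H t m) {a : ℕ} (ha : 1 ≤ a)
    (hb : Ex β H t m (fun w => (Cb a w : ℝ)) ≤ Ex β H t m hR / 4) :
    Ex β H t m (fun w => if 2 ^ 16 * (a : ℝ) ^ 7 ≤ hR w then hR w else 0) ≤
      Ex β H t m hR / 3 := by
  have hm : 0 ≤ m := h.t0.trans h.tm
  have hQ := EQ_le h.z hm a
  have hP := EP_le h.z hm a
  have hg := one_le_g h
  have ha1 : (1 : ℝ) ≤ a := by exact_mod_cast ha
  have ha0 : (0 : ℝ) < a := by linarith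
  set D : ℝ := 2 ^ 16 * (a : ℝ) ^ 7 with hDdef
  have hD : 0 < D := by positivity
  set g := Ex β H t m hR with hgdef
  have h1 : Ex β H t m (fun w => if D ≤ hR w then hR w else 0) ≤
      Ex β H t m (fun w => 8 / 7 * (Cb a w : ℝ) + (128 / D +
        (64 / D * (8 * (a : ℝ) ^ 2) * (Q a w : ℝ) + 64 / D * (4 * (a : ℝ) ^ 2) * (P a w : ℝ)))) := by
    refine Ex_mono' fun w hw => ?_
    have e1 := hR_le hw a
    have e2 := Cs_le' w a
    have e3 := Cs_sq_le' w a
    have e4 := pt_tail (Y := hR w) hD e1 (Nat.cast_nonneg _) (Nat.cast_nonneg _)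
    have e5 : (1 + (Cs a w : ℝ)) ^ 2 ≤ 2 + 8 * (a : ℝ) ^ 2 * (Q a w : ℝ) +
        4 * (a : ℝ) ^ 2 * (P a w : ℝ) := by
      have e6 : 4 * (a : ℝ) * Cs a w ≤ 4 * a * (a * Q a w) :=
        mul_le_mul_of_nonneg_left e2 (by positivity)
      nlinarith [sq_nonneg ((Cs a w : ℝ) - 1)]
    have e7 : 64 / D * (1 + (Cs a w : ℝ)) ^ 2 ≤ 64 / D * (2 + 8 * (a : ℝ) ^ 2 * (Q a w : ℝ) +
        4 * (a : ℝ) ^ 2 * (P a w : ℝ)) := mul_le_mul_of_nonneg_left e5 (by positivity)
    refine e4.trans ?_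
    have e8 : 64 / D * (2 + 8 * (a : ℝ) ^ 2 * (Q a w : ℝ) + 4 * (a : ℝ) ^ 2 * (P a w : ℝ)) =
      (128 / D + (64 / D * (8 * (a : ℝ) ^ 2) * (Q a w : ℝ) +
        64 / D * (4 * (a : ℝ) ^ 2) * (P a w : ℝ))) := by ring
    linarith
  rw [Ex_add' (fun w => 8 / 7 * (Cb a w : ℝ)) (fun w => (128 / D +
        (64 / D * (8 * (a : ℝ) ^ 2) * (Q a w : ℝ) + 64 / D * (4 * (a : ℝ) ^ 2) * (P a w : ℝ)))),
    Ex_add' (fun _ => 128 / D) (fun w =>
        (64 / D * (8 * (a : ℝ) ^ 2) * (Q a w : ℝ) + 64 / D * (4 * (a : ℝ) ^ 2) * (P a w : ℝ))),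
    Ex_add' (fun w => 64 / D * (8 * (a : ℝ) ^ 2) * (Q a w : ℝ))
      (fun w => 64 / D * (4 * (a : ℝ) ^ 2) * (P a w : ℝ)),
    Ex_mul' (8 / 7) (fun w => (Cb a w : ℝ)), Ex_const' h.z,
    Ex_mul' (64 / D * (8 * (a : ℝ) ^ 2)) (fun w => (Q a w : ℝ)),
    Ex_mul' (64 / D * (4 * (a : ℝ) ^ 2)) (fun w => (P a w : ℝ))] at h1
  have h2 : 64 / D * (8 * (a : ℝ) ^ 2) * Ex β H t m (fun w => (Q a w : ℝ)) ≤
      64 / D * (8 * (a : ℝ) ^ 2) * ((a : ℝ) ^ 2 * (a + 1)) :=
    mul_le_mul_of_nonneg_left hQ (by positivity)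
  have h3 : 64 / D * (4 * (a : ℝ) ^ 2) * Ex β H t m (fun w => (P a w : ℝ)) ≤
      64 / D * (4 * (a : ℝ) ^ 2) * (2 * (a : ℝ) ^ 4 * (a + 1)) :=
    mul_le_mul_of_nonneg_left hP (by positivity)
  have h4 : 128 / D + (64 / D * (8 * (a : ℝ) ^ 2) * ((a : ℝ) ^ 2 * (a + 1)) +
      64 / D * (4 * (a : ℝ) ^ 2) * (2 * (a : ℝ) ^ 4 * (a + 1))) ≤ 1 / 21 := by
    have e1 : 128 / D + (64 / D * (8 * (a : ℝ) ^ 2) * ((a : ℝ) ^ 2 * (a + 1)) +
      64 / D * (4 * (a : ℝ) ^ 2) * (2 * (a : ℝ) ^ 4 * (a + 1))) =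
      (128 + 512 * (a : ℝ) ^ 4 + 512 * (a : ℝ) ^ 5 + 512 * (a : ℝ) ^ 6 + 512 * (a : ℝ) ^ 7) / D := by
      ring
    rw [e1, div_le_iff₀ hD, hDdef]
    have p0 : (1 : ℝ) ≤ (a : ℝ) ^ 7 := one_le_pow₀ ha1
    have p4 : (a : ℝ) ^ 4 ≤ (a : ℝ) ^ 7 := pow_le_pow_right₀ ha1 (by norm_num)
    have p5 : (a : ℝ) ^ 5 ≤ (a : ℝ) ^ 7 := pow_le_pow_right₀ ha1 (by norm_num)
    have p6 : (a : ℝ) ^ 6 ≤ (a : ℝ) ^ 7 := pow_le_pow_right₀ ha1 (by norm_num)
    linarith
  linarith

end Pool.Agent.Lib.MP_c23e5f_co.G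
end
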