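import Pool.Agent.Lib.MP_c23e5f_co.G.PCone
import Pool.Agent.Lib.MP_c23e5f_co.G.PInv
import Pool.Agent.Lib.MP_c23e5f_co.G.GMass2

section

set_option autoImplicit false

namespace Pool.Agent.Lib.MP_c23e5f_co.G

open Pool.Agent.Lib.MP_c23e5f_co

section abstract_chain

variable {α : Type*} (u v : α → ℤ)

/-- every interval starts above the end of the last but one interval -/
private def gcGood : List α → Prop
  | [] => True
  | [_] => True
  | [_, _] => True
  | p :: p' :: p'' :: rest => v p ≤ u p'' ∧ gcGood (p' :: p'' :: rest)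

private theorem gc_sum (Y : ℤ) : ∀ ch : List α, (∀ p ∈ ch, v p ≤ Y) → gcGood u v ch →
    (∀ p rest, ch = p :: rest → rest = [] → (ch.map (fun p => v p - u p)).sum ≤ Y - u p) ∧
    (∀ p p' rest, ch = p :: p' :: rest →
      (ch.map (fun p => v p - u p)).sum ≤ 2 * Y - u p - u p')
  | [], _, _ => ⟨fun p rest h => by simp at h, fun p p' rest h => by simp at h⟩
  | [p], hv, _ => by
    refine ⟨fun p0 rest h _ => ?_, fun p0 p' rest h => by simp at h⟩
    have hp := hv p (by simp)
    simp only [List.cons.injEq] at h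
    obtain ⟨rfl, -⟩ := h
    simp only [List.map_cons, List.map_nil, List.sum_cons, List.sum_nil]
    linarith
  | [p, p'], hv, _ => by
    refine ⟨fun p0 rest h h2 => ?_, fun p0 p1 rest h => ?_⟩
    · subst h2
      simp at h
    · have hp := hv p (by simp)
      have hp' := hv p' (by simp)
      simp only [List.cons.injEq] at h
      obtain ⟨rfl, rfl, -⟩ := h
      simp only [List.map_cons, List.map_nil, List.sum_cons, List.sum_nil]
      linarith
  | p :: p' :: p'' :: rest, hv, hg => by
    refine ⟨fun p0 rest h h2 => ?_, fun p0 p1 rest1 h => ?_⟩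
    · subst h2
      simp at h
    · have ih := (gc_sum Y (p' :: p'' :: rest) (fun x hx => hv x (List.mem_cons_of_mem _ hx))
        hg.2).2 p' p'' rest rfl
      have h3 := hg.1
      simp only [List.cons.injEq] at h
      obtain ⟨rfl, rfl, -⟩ := h
      rw [List.map_cons, List.sum_cons]
      linarith

private theorem gc_card : ∀ (ch : List α) (S : Finset ℤ),
    (∀ p ∈ ch, u p ≤ v p) → (∀ r ∈ S, ∃ p ∈ ch, u p ≤ r ∧ r < v p) →
    (S.card : ℤ) ≤ (ch.map (fun p => v p - u p)).sum
  | [], S, _, h => by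
    have hS : S = ∅ := by
      apply Finset.eq_empty_of_forall_notMem
      intro r hr
      obtain ⟨p, hp, -⟩ := h r hr
      simp at hp
    rw [hS]
    simp
  | p :: ch, S, h0, h => by
    have ih := gc_card ch (S.filter (fun r => ¬ (u p ≤ r ∧ r < v p)))
      (fun x hx => h0 x (List.mem_cons_of_mem _ hx)) (by
        intro r hr
        rw [Finset.mem_filter] at hr
        obtain ⟨x, hx, hxr⟩ := h r hr.1
        rcases List.mem_cons.1 hx with rfl | hx
        · exact absurd hxr hr.2
        · exact ⟨x, hx, hxr⟩)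
    have h1 : (S.filter (fun r => u p ≤ r ∧ r < v p)).card ≤ (Finset.Ico (u p) (v p)).card := by
      apply Finset.card_le_card
      intro r hr
      rw [Finset.mem_filter] at hr
      exact Finset.mem_Ico.2 hr.2
    have h2 := Finset.card_filter_add_card_filter_not (s := S) (fun r => u p ≤ r ∧ r < v p)
    rw [Int.card_Ico] at h1
    have h3 := h0 p (by simp)
    rw [List.map_cons, List.sum_cons]
    have h4 : ((v p - u p).toNat : ℤ) = v p - u p := Int.toNat_of_nonneg (by linarith)
    omega

private theorem gc_len (a : ℤ) : ∀ ch : List α, (∀ p ∈ ch, a < v p - u p) →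
    (ch.length : ℤ) * (a + 1) ≤ (ch.map (fun p => v p - u p)).sum
  | [], _ => by simp
  | p :: ch, h => by
    have ih := gc_len a ch (fun x hx => h x (List.mem_cons_of_mem _ hx))
    have hp := h p (by simp)
    rw [List.map_cons, List.sum_cons, List.length_cons]
    push_cast
    linarith

/-- greedy chain of intervals -/
private theorem gc_greedy (Big : α → Prop) (hfin : {p | Big p}.Finite) (Y : ℤ)
    (R : α → α → Prop) (hR : ∀ p p' p'', Big p' → R p p' → R p' p'' → R p p'')
    (hR2 : ∀ p p', Big p → Big p' → u p < u p' → R p p')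
    (hv : ∀ p, Big p → v p ≤ Y) :
    ∀ (n : ℕ) (T : ℤ), (Y - T).toNat ≤ n → ∃ ch : List α, (∀ p ∈ ch, Big p) ∧ ch.Pairwise R ∧
      (∀ r, T ≤ r → (∃ p, Big p ∧ u p ≤ r ∧ r < v p) → ∃ p ∈ ch, u p ≤ r ∧ r < v p) ∧
      gcGood u v ch ∧ (∀ p1 rest, ch = p1 :: rest → T < v p1) ∧
      (∀ p1 p2 rest, ch = p1 :: p2 :: rest → T ≤ u p2) := by
  intro n
  induction n with
  | zero =>
    intro T hT
    refine ⟨[], by simp, by simp, ?_, trivial, by simp, by simp⟩
    rintro r hr ⟨p, hp, -, hrv⟩
    have := hv p hp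
    omega
  | succ n ih =>
    intro T hT
    by_cases hex : ∃ r, T ≤ r ∧ ∃ p, Big p ∧ u p ≤ r ∧ r < v p
    · obtain ⟨r0, ⟨hTr0, hc0⟩, hmin⟩ := Int.exists_least_of_bdd
        (P := fun r => T ≤ r ∧ ∃ p, Big p ∧ u p ≤ r ∧ r < v p) ⟨T, fun z hz => hz.1⟩ hex
      have hfin0 : {p | Big p ∧ u p ≤ r0 ∧ r0 < v p}.Finite :=
        hfin.subset fun p hp => hp.1
      obtain ⟨p0, hp0, hmax⟩ := Set.exists_max_image _ v hfin0 hc0
      obtain ⟨hB0, hu0, hv0⟩ := hp0
      have hY0 := hv p0 hB0
      obtain ⟨ch, hB, hpw, hcov, hg, hh1, hh2⟩ := ih (v p0) (by omega)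
      -- the head of the rest
      have hhead : ∀ p1 rest, ch = p1 :: rest → r0 < u p1 := by
        intro p1 rest he
        by_contra hcon
        have hB1 : Big p1 := hB p1 (by rw [he]; simp)
        have h1 := hh1 p1 rest he
        have h2 := hmax p1 ⟨hB1, by omega, by omega⟩
        omega
      have hhR : ∀ p1 rest, ch = p1 :: rest → R p0 p1 := by
        intro p1 rest he
        have hB1 : Big p1 := hB p1 (by rw [he]; simp)
        have h1 := hhead p1 rest he
        exact hR2 p0 p1 hB0 hB1 (by omega)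
      refine ⟨p0 :: ch, ?_, ?_, ?_, ?_, ?_, ?_⟩
      · intro p hp
        rcases List.mem_cons.1 hp with rfl | hp
        · exact hB0
        · exact hB p hp
      · refine List.pairwise_cons.2 ⟨?_, hpw⟩
        intro p hp
        cases ch with
        | nil => simp at hp
        | cons p1 rest =>
          have h1 := hhR p1 rest rfl
          rcases List.mem_cons.1 hp with rfl | hp
          · exact h1
          · exact hR p0 p1 p (hB p1 (by simp)) h1 ((List.pairwise_cons.1 hpw).1 p hp)
      · intro r hr hrc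
        have h1 := hmin r ⟨hr, hrc⟩
        rcases lt_or_ge r (v p0) with h2 | h2
        · exact ⟨p0, by simp, by omega, h2⟩
        · obtain ⟨p, hp, hpr⟩ := hcov r h2 hrc
          exact ⟨p, List.mem_cons_of_mem _ hp, hpr⟩
      · match ch, hg, hh2 with
        | [], _, _ => trivial
        | [_], _, _ => trivial
        | p1 :: p2 :: rest, hg, hh2 => exact ⟨hh2 p1 p2 rest rfl, hg⟩
      · intro p1 rest he
        simp only [List.cons.injEq] at he
        obtain ⟨rfl, -⟩ := he
        omega
      · intro p1 p2 rest he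
        simp only [List.cons.injEq] at he
        obtain ⟨-, he⟩ := he
        have := hhead p2 rest he
        omega
    · refine ⟨[], by simp, by simp, ?_, trivial, by simp, by simp⟩
      intro r hr hrc
      exact absurd ⟨r, hr, hrc⟩ hex

end abstract_chain

/-- (3.1), greedy choice of large S-shapes -/
theorem exists_chain {w : Wd} (hw : Br w) (a : ℕ) :
    ∃ ch : List (ℕ × ℕ), (∀ p ∈ ch, SS w p.1 p.2 ∧ (a : ℤ) < scal w p.1 p.2) ∧
      ch.Pairwise (fun p p' => p.2 < p'.1) ∧
      (Cb a w : ℤ) ≤ (ch.map (fun p => scal w p.1 p.2)).sum ∧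
      (ch.length : ℤ) * (a + 1) ≤ 2 * w.sum.1 := by
  classical
  have hfin : {p : ℕ × ℕ | SS w p.1 p.2 ∧ (a : ℤ) < scal w p.1 p.2}.Finite := by
    refine ((Finset.range (w.length + 1)) ×ˢ (Finset.range (w.length + 1))).finite_toSet.subset ?_
    rintro p ⟨hp, -⟩
    have h1 := hp.ij
    have h2 := hp.jn
    simp only [Finset.coe_product, Set.mem_prod, Finset.mem_coe, Finset.mem_range]
    omega
  obtain ⟨ch, hB, hpw, hcov, hg, -, -⟩ := gc_greedy (fun p : ℕ × ℕ => (pos w p.2).1)
    (fun p : ℕ × ℕ => (pos w p.1).1) (fun p => SS w p.1 p.2 ∧ (a : ℤ) < scal w p.1 p.2) hfin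
    w.sum.1 (fun p p' => p.2 < p'.1)
    (by
      intro p p' p'' hp' h1 h2
      have := hp'.1.ij
      omega)
    (by
      intro p p' hp hp' h
      by_contra hcon
      have h1 := hp'.1.c p.2 (by omega) hp.1.jn
      omega)
    (by
      intro p hp
      exact hw.le p.1 (by have := hp.1.ij; have := hp.1.jn; omega))
    _ 1 le_rfl
  refine ⟨ch, hB, hpw, ?_, ?_⟩
  · refine gc_card (fun p : ℕ × ℕ => (pos w p.2).1) (fun p : ℕ × ℕ => (pos w p.1).1) ch _ ?_ ?_
    · intro p hp
      have := (hB p hp).1.scal_pos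
      simp only [scal] at this
      omega
    · intro r hr
      rw [Finset.mem_filter, Finset.mem_Ico] at hr
      obtain ⟨⟨hr1, -⟩, i, j, hs, ha, hc⟩ := hr
      exact hcov r hr1 ⟨(i, j), ⟨hs, ha⟩, hc⟩
  · have h1 := gc_len (fun p : ℕ × ℕ => (pos w p.2).1) (fun p : ℕ × ℕ => (pos w p.1).1) a ch
      (fun p hp => (hB p hp).2)
    refine h1.trans ?_
    have h2 := gc_sum (fun p : ℕ × ℕ => (pos w p.2).1) (fun p : ℕ × ℕ => (pos w p.1).1)
      w.sum.1 ch (fun p hp => hw.le p.1 (by
        have := (hB p hp).1.ij; have := (hB p hp).1.jn; omega)) hg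
    have h0 : 0 ≤ w.sum.1 := by
      have := hw.le 0 (Nat.zero_le _)
      simpa using this
    match ch, hB, h2 with
    | [], _, _ =>
      simp only [List.map_nil, List.sum_nil]
      linarith
    | [p], hB, h2 =>
      have h3 := h2.1 p [] rfl rfl
      have h4 := (hB p (by simp)).1.low hw
      linarith
    | p :: p' :: rest, hB, h2 =>
      have h3 := h2.2 p p' rest rfl
      have h4 := (hB p (by simp)).1.low hw
      have h5 := (hB p' (by simp)).1.low hw
      linarith

end Pool.Agent.Lib.MP_c23e5f_co.G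
end

section

set_option autoImplicit false

namespace Pool.Agent.Lib.MP_c23e5f_co.G

open Pool.Agent.Lib.MP_c23e5f_co

private lemma sb_append_drop {w : Wd} {i j : ℕ} (hij : i ≤ j) (hj : j ≤ w.length) :
    sb w i j ++ w.drop j = w.drop i := by
  unfold sb
  conv_rhs => rw [← List.take_append_drop j w]
  rw [List.drop_append_of_le_length]
  rw [List.length_take]; omega

private lemma map_fl_fl (x : Wd) : (x.map fl).map fl = x := by
  rw [List.map_map]
  conv_rhs => rw [← List.map_id x]
  apply List.map_congr_left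
  intro v _
  ext <;> simp

private lemma sum_map_fl (x : Wd) : (x.map fl).sum.1 = - x.sum.1 := by
  have h : (x.map fl).sum = fl x.sum := (map_list_sum fl x).symm
  rw [h, fl_apply]

private lemma ne_nil_of_length_pos {x : Wd} (h : 0 < x.length) : x ≠ [] := by
  rintro rfl; simp at h

private lemma pieces_aux {w : Wd} (hw : Br w) (ch : List (ℕ × ℕ)) :
    ∀ s : ℕ, s < w.length → (∀ k, s < k → k ≤ w.length → (pos w s).1 < (pos w k).1) →
    (∀ p ∈ ch, SS w p.1 p.2) → (∀ p ∈ ch, s < p.1) →
    ch.Pairwise (fun p p' => p.2 < p'.1) →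
    ∃ ps : List Wd, (∀ p ∈ ps, Br p ∧ p ≠ []) ∧ fold false ps = w.drop s ∧
      ps.length = 2 * ch.length + 1 ∧
      ps.flatten.sum.1 = (w.sum.1 - (pos w s).1) + 2 * (ch.map (fun p => scal w p.1 p.2)).sum := by
  induction ch with
  | nil =>
    intro s hs hm _ _ _
    refine ⟨[w.drop s], ?_, ?_, ?_, ?_⟩
    · intro p hp
      rw [List.mem_singleton] at hp
      subst hp
      refine ⟨Br.drop hw hs.le hm, ne_nil_of_length_pos ?_⟩
      rw [List.length_drop]; omega
    · simp [fold]
    · simp
    · simp [sum_drop]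
  | cons c ch ih =>
    intro s hs hm hss hsi hp
    obtain ⟨i, j⟩ := c
    have hS : SS w i j := hss (i, j) (by simp)
    have hi : s < i := hsi (i, j) (by simp)
    have hij := hS.ij
    have hjl : j < w.length := hS.j_lt hw
    rw [List.pairwise_cons] at hp
    obtain ⟨ps, h1, h2, h3, h4⟩ := ih j hjl hS.d (fun p hp' => hss p (List.mem_cons_of_mem _ hp'))
      (fun p hp' => hp.1 p hp') hp.2
    have hb1 : Br (sb w s i) := br_sb hw.saw hi.le (by omega) (fun k hk hk' => hm k hk (by omega))
      (fun k _ hk' => hS.a k (by omega))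
    have hb2 : Br ((sb w i j).map fl) := hS.br_mid hw
    refine ⟨sb w s i :: (sb w i j).map fl :: ps, ?_, ?_, ?_, ?_⟩
    · intro p hp'
      rw [List.mem_cons, List.mem_cons] at hp'
      rcases hp' with rfl | rfl | hp'
      · refine ⟨hb1, ne_nil_of_length_pos ?_⟩
        rw [length_sb (by omega)]; omega
      · refine ⟨hb2, ne_nil_of_length_pos ?_⟩
        rw [List.length_map, length_sb (by omega)]; omega
      · exact h1 p hp'
    · simp only [fold, Bool.not_false, Bool.not_true, if_true, Bool.false_eq_true, if_false]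
      rw [map_fl_fl, h2, sb_append_drop hij.le hjl.le, sb_append_drop hi.le (by omega)]
    · simp only [List.length_cons, h3]; ring
    · rw [List.flatten_cons, List.flatten_cons, List.sum_append, List.sum_append, Prod.fst_add,
        Prod.fst_add, h4, sum_map_fl, sum_sb w hi.le, sum_sb w hij.le, List.map_cons, List.sum_cons]
      simp only [Prod.fst_sub, scal]
      ring

/-- (3.1), the pieces of a chain of S-shapes -/
theorem pieces_of_chain {w : Wd} (hw : Br w) (hne : w ≠ []) (ch : List (ℕ × ℕ))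
    (hss : ∀ p ∈ ch, SS w p.1 p.2) (hp : ch.Pairwise (fun p p' => p.2 < p'.1)) :
    ∃ ps : List Wd, (∀ p ∈ ps, Br p ∧ p ≠ []) ∧ fold false ps = w ∧
      ps.length = 2 * ch.length + 1 ∧
      ps.flatten.sum.1 = w.sum.1 + 2 * (ch.map (fun p => scal w p.1 p.2)).sum := by
  obtain ⟨ps, h1, h2, h3, h4⟩ := pieces_aux hw ch 0 (List.length_pos_iff.2 hne)
    (fun k hk hk' => by
      rw [pos_zero]
      exact hw.gt k (by omega) hk')
    hss (fun p hp' => by have := (hss p hp').pos_i hw; omega) hp
  refine ⟨ps, h1, by simpa using h2, h3, ?_⟩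
  rw [h4, pos_zero]
  simp

end Pool.Agent.Lib.MP_c23e5f_co.G
end

section

set_option autoImplicit false

namespace Pool.Agent.Lib.MP_c23e5f_co.G

open Pool.Agent.Lib.MP_c23e5f_co

private lemma flatten_index_aux (L : List Wd) (hL : L ≠ []) :
    ∀ i, i ≤ L.flatten.length →
    ∃ X a Y, ∃ k, L = X ++ a :: Y ∧ k ≤ a.length ∧ i = X.flatten.length + k := by
  induction L with
  | nil => exact absurd rfl hL
  | cons a M ih =>
    intro i hi
    rw [List.flatten_cons, List.length_append] at hi
    rcases le_or_gt i a.length with h | h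
    · exact ⟨[], a, M, i, rfl, h, by simp⟩
    · have hM : M ≠ [] := by
        rintro rfl
        simp at hi
        omega
      obtain ⟨X, b, Y, k, h1, h2, h3⟩ := ih hM (i - a.length) (by omega)
      refine ⟨a :: X, b, Y, k, by rw [h1]; rfl, h2, ?_⟩
      rw [List.flatten_cons, List.length_append]
      omega

/-- an index of a concatenation lies in one of the words -/
theorem flatten_index {L : List Wd} (hL : L ≠ []) {i : ℕ} (hi : i ≤ L.flatten.length) :
    ∃ X a Y, ∃ k, L = X ++ a :: Y ∧ k ≤ a.length ∧ i = X.flatten.length + k ∧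
      pos L.flatten i = X.flatten.sum + pos a k := by
  obtain ⟨X, a, Y, k, h1, h2, h3⟩ := flatten_index_aux L hL i hi
  refine ⟨X, a, Y, k, h1, h2, h3, ?_⟩
  rw [h1, List.flatten_append, List.flatten_cons, h3, pos_append_right, pos_append_left h2]

theorem le_mx (a : Wd) {i : ℕ} (hi : i ≤ a.length) : (pos a i).2 ≤ mx a :=
  Finset.le_sup' (fun i => (pos a i).2) (Finset.mem_range.2 (by omega))

theorem exists_mx (a : Wd) : ∃ i ≤ a.length, (pos a i).2 = mx a := by
  obtain ⟨i, hi, h⟩ := Finset.exists_mem_eq_sup' (s := Finset.range (a.length + 1))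
    ⟨0, by simp⟩ (fun i => (pos a i).2)
  exact ⟨i, by rw [Finset.mem_range] at hi; omega, h.symm⟩

end Pool.Agent.Lib.MP_c23e5f_co.G
end

section

set_option autoImplicit false

namespace Pool.Agent.Lib.MP_c23e5f_co.G

open Pool.Agent.Lib.MP_c23e5f_co

theorem length_fold (b : Bool) (ps : List Wd) : (fold b ps).length = ps.flatten.length := by
  induction ps generalizing b with
  | nil => rfl
  | cons p ps ih =>
    rw [fold, List.length_append, ih, List.flatten_cons, List.length_append]
    cases b <;> simp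

/-- the last entry gets the mark `c`, the other ones the mark `false` -/
private def tag (c : Bool) : List Wd → List (Wd × Bool)
  | [] => []
  | [a] => [(a, c)]
  | a :: b :: L => (a, false) :: tag c (b :: L)

private def dec : Bool → List (Wd × Bool) → Wd
  | _, [] => []
  | b, (a, c) :: M => (if b then a.map fl else a) ++ dec (b ^^ c) M

private noncomputable def encp : List Wd → List (Wd × Bool)
  | [] => []
  | [p] => tag false (fac p)
  | p :: p' :: ps => tag true (fac p) ++ encp (p' :: ps)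

private noncomputable def Wt (β t m y : ℝ) (z : Wd × Bool) : ℝ :=
  E β t m z.1 * (if z.2 then y else 1)

private theorem length_tag (c : Bool) (L : List Wd) : (tag c L).length = L.length := by
  induction L with
  | nil => rfl
  | cons a L ih =>
    cases L with
    | nil => rfl
    | cons b L => rw [tag, List.length_cons, ih, List.length_cons]; rfl

private theorem mem_tag (c : Bool) (L : List Wd) : ∀ z ∈ tag c L, z.1 ∈ L := by
  induction L with
  | nil => intro z hz; simp [tag] at hz
  | cons a L ih =>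
    cases L with
    | nil => intro z hz; simp [tag] at hz; simp [hz]
    | cons b L =>
      intro z hz
      rw [tag, List.mem_cons] at hz
      rcases hz with rfl | hz
      · exact List.mem_cons_self
      · exact List.mem_cons_of_mem _ (ih z hz)

private theorem prod_tag (β t m y : ℝ) (c : Bool) (L : List Wd) (hL : L ≠ []) :
    ((tag c L).map (Wt β t m y)).prod = (L.map (E β t m)).prod * (if c then y else 1) := by
  induction L with
  | nil => exact absurd rfl hL
  | cons a L ih =>
    cases L with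
    | nil => simp [tag, Wt]
    | cons b L =>
      rw [tag, List.map_cons, List.prod_cons, ih (by simp)]
      simp only [List.map_cons, List.prod_cons, Wt, Bool.false_eq_true, if_false, mul_one]
      ring

private theorem dec_tag (c : Bool) (L : List Wd) (hL : L ≠ []) (b : Bool) (M : List (Wd × Bool)) :
    dec b (tag c L ++ M) = (if b then L.flatten.map fl else L.flatten) ++ dec (b ^^ c) M := by
  induction L generalizing b with
  | nil => exact absurd rfl hL
  | cons a L ih =>
    cases L with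
    | nil => simp [tag, dec]
    | cons a' L =>
      rw [tag, List.cons_append, dec, ih (by simp)]
      rw [Bool.xor_false, ← List.append_assoc]
      congr 1
      cases b
      · simp
      · simp

private theorem fac_ne_nil {p : Wd} (h : Br p) (hne : p ≠ []) : fac p ≠ [] := by
  intro h0
  have := flatten_fac h
  rw [h0] at this
  exact hne (by simpa using this.symm)

private theorem dec_encp (P : List Wd) (hP : ∀ p ∈ P, Br p ∧ p ≠ []) (hne : P ≠ []) (b : Bool)
    (M : List (Wd × Bool)) :
    dec b (encp P ++ M) = fold b P ++ dec (not^[P.length - 1] b) M := by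
  induction P generalizing b with
  | nil => exact absurd rfl hne
  | cons p P ih =>
    have hp := hP p List.mem_cons_self
    cases P with
    | nil =>
      rw [encp, dec_tag _ _ (fac_ne_nil hp.1 hp.2), flatten_fac hp.1]
      simp [fold]
    | cons p' P =>
      rw [encp, List.append_assoc, dec_tag _ _ (fac_ne_nil hp.1 hp.2), flatten_fac hp.1,
        ih (fun z hz => hP z (List.mem_cons_of_mem _ hz)) (by simp)]
      change _ = ((if b then p.map fl else p) ++ fold (!b) (p' :: P)) ++ _
      rw [Bool.xor_true, List.append_assoc]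
      simp only [List.length_cons, Nat.add_sub_cancel, Function.iterate_succ, Function.comp]

private theorem prod_encp (β t m y : ℝ) (P : List Wd) (hP : ∀ p ∈ P, Br p ∧ p ≠ [])
    (hne : P ≠ []) :
    ((encp P).map (Wt β t m y)).prod = E β t m P.flatten * y ^ (P.length - 1) := by
  induction P with
  | nil => exact absurd rfl hne
  | cons p P ih =>
    have hp := hP p List.mem_cons_self
    cases P with
    | nil =>
      rw [encp, prod_tag _ _ _ _ _ _ (fac_ne_nil hp.1 hp.2), ← E_flatten, flatten_fac hp.1]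
      simp
    | cons p' P =>
      rw [encp, List.map_append, List.prod_append, prod_tag _ _ _ _ _ _ (fac_ne_nil hp.1 hp.2),
        ← E_flatten, flatten_fac hp.1, ih (fun z hz => hP z (List.mem_cons_of_mem _ hz)) (by simp),
        List.flatten_cons (l := p), E_append]
      simp only [if_true, List.length_cons, Nat.add_sub_cancel, pow_succ]
      ring

private theorem mem_encp (H : ℕ) (P : List Wd) (hP : ∀ p ∈ P, Br p ∧ p ≠ [])
    (hH : P.flatten.length ≤ H) : ∀ z ∈ encp P, z.1 ∈ irrs H := by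
  have hfac : ∀ p, Br p → p.length ≤ H → ∀ a ∈ fac p, a ∈ irrs H := by
    intro p hp hl a ha
    rw [mem_irrs]
    exact ⟨fac_irr p a ha, (length_le_of_mem_fac hp ha).trans hl⟩
  induction P with
  | nil => intro z hz; simp [encp] at hz
  | cons p P ih =>
    have hp := hP p List.mem_cons_self
    rw [List.flatten_cons, List.length_append] at hH
    cases P with
    | nil =>
      intro z hz
      rw [encp] at hz
      exact hfac p hp.1 (by omega) _ (mem_tag _ _ z hz)
    | cons p' P =>
      intro z hz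
      rw [encp, List.mem_append] at hz
      rcases hz with hz | hz
      · exact hfac p hp.1 (by omega) _ (mem_tag _ _ z hz)
      · exact ih (fun z hz => hP z (List.mem_cons_of_mem _ hz)) (by omega) z hz

private theorem length_encp (P : List Wd) (hP : ∀ p ∈ P, Br p ∧ p ≠ []) :
    (encp P).length ≤ P.flatten.length := by
  induction P with
  | nil => simp [encp]
  | cons p P ih =>
    have hp := hP p List.mem_cons_self
    have h1 : (fac p).length ≤ p.length := nf_le_length hp.1
    rw [List.flatten_cons, List.length_append]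
    cases P with
    | nil => rw [encp, length_tag]; omega
    | cons p' P =>
      rw [encp, List.length_append, length_tag]
      have := ih (fun z hz => hP z (List.mem_cons_of_mem _ hz))
      omega

private theorem iter_not (q : ℕ) (b : Bool) : not^[2 * q] b = b := by
  rw [Function.iterate_mul]
  have : (not^[2]) = id := by
    funext c; simp
  rw [this, Function.iterate_id]; rfl

/-- (3.2), the entropy of the marks -/
theorem marked {β t m y : ℝ} {H : ℕ} (hy : 0 < y) (hθ : Z β H t m * (1 + y) < 1)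
    (ps : Wd → List Wd) (q : Wd → ℕ)
    (hps : ∀ w ∈ irrs H, (∀ p ∈ ps w, Br p ∧ p ≠ []) ∧ fold false (ps w) = w ∧
      (ps w).length = 2 * q w + 1) :
    ∑ w ∈ irrs H, E β t m (ps w).flatten * y ^ (2 * q w) ≤ 1 := by
  classical
  set c : Wd → ℝ := fun w => E β t m (ps w).flatten * y ^ (2 * q w) with hc
  set T : Finset (Wd × Bool) := irrs H ×ˢ Finset.univ with hT
  have hne : ∀ w ∈ irrs H, ps w ≠ [] := by
    intro w hw h0
    have := (hps w hw).2.2
    rw [h0] at this
    simp at this
  have hWT : ∑ z ∈ T, Wt β t m y z = Z β H t m * (1 + y) := by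
    rw [hT, Finset.sum_product, Z, Finset.sum_mul]
    apply Finset.sum_congr rfl
    intro a _
    rw [Fintype.sum_bool]
    simp [Wt]
    ring
  have hW0 : ∀ z, 0 ≤ Wt β t m y z := by
    intro z
    unfold Wt
    refine mul_nonneg (E_pos _ _ _ _).le ?_
    split_ifs <;> linarith
  have hθ0 : 0 ≤ Z β H t m * (1 + y) := by
    rw [← hWT]; exact Finset.sum_nonneg fun z _ => hW0 z
  set enc : List Wd → List (Wd × Bool) := fun L => (L.map fun w => encp (ps w)).flatten with henc
  have hdec : ∀ L : List Wd, (∀ w ∈ L, w ∈ irrs H) → dec false (enc L) = L.flatten := by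
    intro L
    induction L with
    | nil => intro _; simp [enc, dec]
    | cons w L ih =>
      intro hL
      have hw := hL w List.mem_cons_self
      have e : enc (w :: L) = encp (ps w) ++ enc L := by simp [enc]
      rw [e, dec_encp (ps w) (hps w hw).1 (hne w hw), (hps w hw).2.2, Nat.add_sub_cancel, iter_not,
        (hps w hw).2.1, ih (fun z hz => hL z (List.mem_cons_of_mem _ hz)), List.flatten_cons]
  have hprod : ∀ L : List Wd, (∀ w ∈ L, w ∈ irrs H) →
      ((enc L).map (Wt β t m y)).prod = (L.map c).prod := by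
    intro L
    induction L with
    | nil => intro _; simp [enc]
    | cons w L ih =>
      intro hL
      have hw := hL w List.mem_cons_self
      have e : enc (w :: L) = encp (ps w) ++ enc L := by simp [enc]
      rw [e, List.map_append, List.prod_append, prod_encp β t m y (ps w) (hps w hw).1 (hne w hw),
        (hps w hw).2.2, Nat.add_sub_cancel, ih (fun z hz => hL z (List.mem_cons_of_mem _ hz)),
        List.map_cons, List.prod_cons]
  have hmem : ∀ L : List Wd, (∀ w ∈ L, w ∈ irrs H) → ∀ z ∈ enc L, z ∈ T := by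
    intro L
    induction L with
    | nil => intro _ z hz; simp [enc] at hz
    | cons w L ih =>
      intro hL z hz
      have hw := hL w List.mem_cons_self
      have e : enc (w :: L) = encp (ps w) ++ enc L := by simp [enc]
      rw [e, List.mem_append] at hz
      rcases hz with hz | hz
      · rw [hT, Finset.mem_product]
        refine ⟨mem_encp H (ps w) (hps w hw).1 ?_ z hz, Finset.mem_univ _⟩
        rw [← length_fold false, (hps w hw).2.1]
        exact (mem_irrs.mp hw).2
      · exact ih (fun z hz => hL z (List.mem_cons_of_mem _ hz)) z hz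
  have hlen : ∀ L : List Wd, (∀ w ∈ L, w ∈ irrs H) → (enc L).length ≤ L.length * H := by
    intro L
    induction L with
    | nil => intro _; simp [enc]
    | cons w L ih =>
      intro hL
      have hw := hL w List.mem_cons_self
      have e : enc (w :: L) = encp (ps w) ++ enc L := by simp [enc]
      rw [e, List.length_append, List.length_cons, Nat.succ_mul]
      have h1 := length_encp (ps w) (hps w hw).1
      rw [← length_fold false, (hps w hw).2.1] at h1
      have h2 := (mem_irrs.mp hw).2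
      have h3 := ih (fun z hz => hL z (List.mem_cons_of_mem _ hz))
      omega
  have hinj : ∀ N, Set.InjOn enc (lsts (irrs H) N : Set (List Wd)) := by
    intro N L hL L' hL' e
    rw [Finset.mem_coe, mem_lsts] at hL hL'
    have h1 := hdec L hL.2
    have h2 := hdec L' hL'.2
    rw [e, h2] at h1
    exact fac_unique (fun a ha => (mem_irrs.mp (hL.2 a ha)).1)
      (fun a ha => (mem_irrs.mp (hL'.2 a ha)).1) h1.symm
  have hbound : ∀ N : ℕ, (∑ w ∈ irrs H, c w) ^ N ≤ 1 / (1 - Z β H t m * (1 + y)) := by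
    intro N
    rw [← sum_lsts_prod]
    have h1 : ∑ L ∈ lsts (irrs H) N, (L.map c).prod
        = ∑ M ∈ (lsts (irrs H) N).image enc, (M.map (Wt β t m y)).prod := by
      rw [Finset.sum_image (hinj N)]
      apply Finset.sum_congr rfl
      intro L hL
      rw [hprod L (mem_lsts.mp hL).2]
    rw [h1]
    have h2 : (lsts (irrs H) N).image enc
        ⊆ (Finset.range (N * H + 1)).biUnion (fun k => lsts T k) := by
      intro M hM
      rw [Finset.mem_image] at hM
      obtain ⟨L, hL, rfl⟩ := hM
      rw [mem_lsts] at hL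
      rw [Finset.mem_biUnion]
      refine ⟨(enc L).length, ?_, mem_lsts.mpr ⟨rfl, hmem L hL.2⟩⟩
      rw [Finset.mem_range, Nat.lt_succ_iff]
      have := hlen L hL.2
      rwa [hL.1] at this
    have hnn : ∀ M : List (Wd × Bool), 0 ≤ (M.map (Wt β t m y)).prod := by
      intro M
      apply List.prod_nonneg
      intro x hx
      obtain ⟨z, -, rfl⟩ := List.mem_map.mp hx
      exact hW0 z
    calc ∑ M ∈ (lsts (irrs H) N).image enc, (M.map (Wt β t m y)).prod
        ≤ ∑ M ∈ (Finset.range (N * H + 1)).biUnion (fun k => lsts T k),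
            (M.map (Wt β t m y)).prod :=
          Finset.sum_le_sum_of_subset_of_nonneg h2 fun M _ _ => hnn M
      _ = ∑ k ∈ Finset.range (N * H + 1), ∑ M ∈ lsts T k, (M.map (Wt β t m y)).prod := by
          apply Finset.sum_biUnion
          intro k _ k' _ hkk
          rw [Function.onFun, Finset.disjoint_left]
          intro M hM hM'
          exact hkk ((mem_lsts.mp hM).1.symm.trans (mem_lsts.mp hM').1)
      _ = ∑ k ∈ Finset.range (N * H + 1), (Z β H t m * (1 + y)) ^ k := by
          apply Finset.sum_congr rfl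
          intro k _
          rw [sum_lsts_prod, hWT]
      _ ≤ 1 / (1 - Z β H t m * (1 + y)) := by
          rw [le_div_iff₀ (by linarith), mul_comm, mul_neg_geom_sum]
          have := pow_nonneg hθ0 (N * H + 1)
          linarith
  by_contra hcon
  push Not at hcon
  obtain ⟨N, hN⟩ := pow_unbounded_of_one_lt (1 / (1 - Z β H t m * (1 + y))) hcon
  exact absurd (hbound N) (not_le.mpr hN)

end Pool.Agent.Lib.MP_c23e5f_co.G
end

section

set_option autoImplicit false

namespace Pool.Agent.Lib.MP_c23e5f_co.G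

open Pool.Agent.Lib.MP_c23e5f_co

private lemma gl_split {S : Wd} {X Y : List Wd} {a : Wd} {k : ℕ}
    (hs : S.sum = X.flatten.sum + (a.sum + Y.flatten.sum)) {i : ℕ}
    (hp : pos S i = X.flatten.sum + pos a k) :
    pos S i - S.sum = pos a k - a.sum - Y.flatten.sum := by
  rw [hs, hp]
  abel

private lemma gl_end {a : Wd} (ha : Br a) (k : ℕ) :
    |(pos a k).2 - a.sum.2| ≤ (a.length : ℤ) := by
  have h1 := (abs_sum_le (w := a.drop k) (fun v hv => ha.saw.step v (List.mem_of_mem_drop hv))).2
  rw [sum_drop, Prod.snd_sub, List.length_drop] at h1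
  rw [abs_sub_comm]
  refine h1.trans ?_
  exact_mod_cast Nat.sub_le a.length k

private lemma flatten_sum_split (X Y : List Wd) (a : Wd) :
    (X ++ a :: Y).flatten.sum = X.flatten.sum + (a.sum + Y.flatten.sum) := by
  rw [List.flatten_append, List.flatten_cons, List.sum_append, List.sum_append]

private lemma gl_case1 {Wm X0 : List Wd} {a0 : Wd} {L : ℕ}
    (brWm : ∀ a ∈ Wm, Br a)
    (ml : ∀ a ∈ Wm, 100 * a.length ≤ L)
    (mx' : ∀ X Y, Wm = X ++ Y → 8 * |X.flatten.sum.2| ≤ (L : ℤ))
    (h0 : Wm = X0 ++ [a0])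
    (mm : ∀ X a Y, Wm = X ++ a :: Y → X.flatten.sum.2 + mx a ≤ X0.flatten.sum.2 + mx a0)
    {X' Y : List Wd} {a : Wd} (hW : Wm = X' ++ a :: Y) {k : ℕ} (hk : k ≤ a.length)
    {q : ℤ × ℤ} (hq : q = pos a k - a.sum - Y.flatten.sum) :
    q.1 ≤ 0 ∧ 8 * |q.2| ≤ -q.1 + 12 * L ∧ (-(50 * (L : ℤ)) < q.1 → q.2 ≤ mx a0 - a0.sum.2) := by
  have haB : Br a := brWm a (by rw [hW]; simp)
  have hYB : Br Y.flatten := Br.flatten fun b hb => brWm b (by rw [hW]; simp [hb])
  have h1 := haB.pos_le k
  have h2 := hYB.ht_nonneg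
  have h3 := gl_end haB k
  have h4 := ml a (by rw [hW]; simp)
  have h5 := mx' (X' ++ [a]) Y (by rw [hW]; simp)
  have h6 := mx' Wm [] (by simp)
  have h7 : (X' ++ [a]).flatten.sum = X'.flatten.sum + a.sum := by
    simp [List.flatten_append]
  have h8 : Wm.flatten.sum = X'.flatten.sum + (a.sum + Y.flatten.sum) := by
    rw [hW, flatten_sum_split]
  have h9 : Wm.flatten.sum = X0.flatten.sum + a0.sum := by
    rw [h0]; simp [List.flatten_append]
  have h10 := mm X' a Y hW
  have h11 := le_mx a hk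
  rw [h7] at h5
  have h8' := congrArg Prod.snd h8
  have h9' := congrArg Prod.snd h9
  simp only [Prod.snd_add] at h8' h9' h5
  have hq1 : q.1 = (pos a k).1 - a.sum.1 - Y.flatten.sum.1 := by
    rw [hq]; simp
  have hq2 : q.2 = (pos a k).2 - a.sum.2 - Y.flatten.sum.2 := by
    rw [hq]; simp
  have h4' : 100 * (a.length : ℤ) ≤ L := by exact_mod_cast h4
  have e3 := abs_le.1 h3
  have e5a := le_abs_self (X'.flatten.sum.2 + a.sum.2)
  have e5b := neg_abs_le (X'.flatten.sum.2 + a.sum.2)
  have e6a := le_abs_self (Wm.flatten.sum.2)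
  have e6b := neg_abs_le (Wm.flatten.sum.2)
  refine ⟨by omega, ?_, ?_⟩
  · rcases abs_cases q.2 with ⟨h, -⟩ | ⟨h, -⟩ <;> rw [h] <;> omega
  · intro _
    omega

private lemma gl_case2 {A Wm : List Wd} {L : ℕ} (brA : ∀ a ∈ A, Br a)
    (fcA : ∀ X a Y, A = X ++ a :: Y →
      8 * |Y.flatten.sum.2| + 8 * (a.length : ℤ) ≤ Y.flatten.sum.1 + 8 * L)
    (mx' : ∀ X Y, Wm = X ++ Y → 8 * |X.flatten.sum.2| ≤ (L : ℤ))
    (mh : 50 * (L : ℤ) ≤ Wm.flatten.sum.1)
    {X Y' : List Wd} {a : Wd} (hA : A = X ++ a :: Y') {k : ℕ}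
    {q : ℤ × ℤ} (hq : q = pos a k - a.sum - (Y' ++ Wm).flatten.sum) (z : ℤ) :
    q.1 ≤ 0 ∧ 8 * |q.2| ≤ -q.1 + 12 * L ∧ (-(50 * (L : ℤ)) < q.1 → q.2 ≤ z) := by
  have haB : Br a := brA a (by rw [hA]; simp)
  have hYB : Br Y'.flatten := Br.flatten fun b hb => brA b (by rw [hA]; simp [hb])
  have h1 := haB.pos_le k
  have h2 := hYB.ht_nonneg
  have h3 := gl_end haB k
  have h5 := fcA X a Y' hA
  have h6 := mx' Wm [] (by simp)
  have h7 : (Y' ++ Wm).flatten.sum = Y'.flatten.sum + Wm.flatten.sum := by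
    rw [List.flatten_append, List.sum_append]
  have hq1 : q.1 = (pos a k).1 - a.sum.1 - (Y'.flatten.sum.1 + Wm.flatten.sum.1) := by
    rw [hq, h7]; simp
  have hq2 : q.2 = (pos a k).2 - a.sum.2 - (Y'.flatten.sum.2 + Wm.flatten.sum.2) := by
    rw [hq, h7]; simp
  have e3 := abs_le.1 h3
  have e5a := le_abs_self (Y'.flatten.sum.2)
  have e5b := neg_abs_le (Y'.flatten.sum.2)
  have e6a := le_abs_self (Wm.flatten.sum.2)
  have e6b := neg_abs_le (Wm.flatten.sum.2)
  have hL : (0 : ℤ) ≤ L := Int.natCast_nonneg L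
  refine ⟨by omega, ?_, ?_⟩
  · rcases abs_cases q.2 with ⟨h, -⟩ | ⟨h, -⟩ <;> rw [h] <;> omega
  · intro h
    omega

/-- the part before the origin -/
theorem left_side {A Wm X0 : List Wd} {a0 : Wd} {L : ℕ} (brA : ∀ a ∈ A, Br a)
    (brWm : ∀ a ∈ Wm, Br a)
    (fcA : ∀ X a Y, A = X ++ a :: Y →
      8 * |Y.flatten.sum.2| + 8 * (a.length : ℤ) ≤ Y.flatten.sum.1 + 8 * L)
    (ml : ∀ a ∈ Wm, 100 * a.length ≤ L)
    (mx' : ∀ X Y, Wm = X ++ Y → 8 * |X.flatten.sum.2| ≤ (L : ℤ))
    (mh : 50 * (L : ℤ) ≤ Wm.flatten.sum.1) (h0 : Wm = X0 ++ [a0])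
    (mm : ∀ X a Y, Wm = X ++ a :: Y → X.flatten.sum.2 + mx a ≤ X0.flatten.sum.2 + mx a0)
    {i : ℕ} (hi : i ≤ (A ++ Wm).flatten.length) :
    (pos (A ++ Wm).flatten i - (A ++ Wm).flatten.sum).1 ≤ 0 ∧
    8 * |(pos (A ++ Wm).flatten i - (A ++ Wm).flatten.sum).2| ≤
      -(pos (A ++ Wm).flatten i - (A ++ Wm).flatten.sum).1 + 12 * L ∧
    (-(50 * (L : ℤ)) < (pos (A ++ Wm).flatten i - (A ++ Wm).flatten.sum).1 →
      (pos (A ++ Wm).flatten i - (A ++ Wm).flatten.sum).2 ≤ mx a0 - a0.sum.2) := by
  have hne : A ++ Wm ≠ [] := by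
    rw [h0]; simp
  obtain ⟨X, a, Y, k, hL, hk, -, hp⟩ := flatten_index hne hi
  have hs : (A ++ Wm).flatten.sum = X.flatten.sum + (a.sum + Y.flatten.sum) := by
    rw [hL, flatten_sum_split]
  have hq := gl_split hs hp
  rcases List.append_eq_append_iff.1 hL with ⟨X', hX, hW⟩ | ⟨c', hA, hc⟩
  · exact gl_case1 brWm ml mx' h0 mm hW hk hq
  · cases c' with
    | nil =>
      rw [List.nil_append] at hc
      exact gl_case1 brWm ml mx' h0 mm (X' := []) (by rw [List.nil_append]; exact hc.symm)
        hk hq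
    | cons b Y' =>
      rw [List.cons_append] at hc
      obtain ⟨rfl, rfl⟩ := List.cons.inj hc
      exact gl_case2 brA fcA mx' mh hA hq _

end Pool.Agent.Lib.MP_c23e5f_co.G
end

section

set_option autoImplicit false

namespace Pool.Agent.Lib.MP_c23e5f_co.G

open Pool.Agent.Lib.MP_c23e5f_co

private lemma right_pos_snd {a : Wd} (ha : Br a) {k : ℕ} (hk : k ≤ a.length) :
    |(pos a k).2| ≤ (a.length : ℤ) := by
  have h1 := (abs_pos_le ha.saw.step k).2
  have h2 : (k : ℤ) ≤ a.length := by exact_mod_cast hk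
  exact h1.trans h2

private lemma right_ht {X : List Wd} (h : ∀ a ∈ X, Br a) : 0 ≤ X.flatten.sum.1 :=
  (Br.flatten h).ht_nonneg

/-- the origin, second case -/
private lemma right_case2 {Wp B : List Wd} {L : ℕ}
    (brB : ∀ a ∈ B, Br a)
    (fcB : ∀ X a Y, B = X ++ a :: Y →
      8 * |X.flatten.sum.2| + 8 * (a.length : ℤ) ≤ X.flatten.sum.1 + 8 * L)
    (px : ∀ X Y, Wp = X ++ Y → 8 * |X.flatten.sum.2| ≤ (L : ℤ))
    (ph : 50 * (L : ℤ) ≤ Wp.flatten.sum.1) {X' Y : List Wd} {a : Wd} (hB : B = X' ++ a :: Y)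
    {k : ℕ} (hk : k ≤ a.length) :
    50 * (L : ℤ) ≤ ((Wp ++ X').flatten.sum + pos a k).1 ∧
    8 * |((Wp ++ X').flatten.sum + pos a k).2| ≤
      ((Wp ++ X').flatten.sum + pos a k).1 + 12 * L := by
  have hbr : Br a := brB a (by rw [hB]; simp)
  have h1 : 0 ≤ X'.flatten.sum.1 := right_ht fun b hb => brB b (by rw [hB]; simp [hb])
  have h2 := hbr.pos_nonneg k
  have h3 := right_pos_snd hbr hk
  have h4 := px Wp [] (by simp)
  have h5 := fcB X' a Y hB
  have e1 : ((Wp ++ X').flatten.sum + pos a k).1 =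
      Wp.flatten.sum.1 + X'.flatten.sum.1 + (pos a k).1 := by
    rw [List.flatten_append, List.sum_append, Prod.fst_add, Prod.fst_add]
  have e2 : ((Wp ++ X').flatten.sum + pos a k).2 =
      Wp.flatten.sum.2 + X'.flatten.sum.2 + (pos a k).2 := by
    rw [List.flatten_append, List.sum_append, Prod.snd_add, Prod.snd_add]
  rw [e1, e2]
  have h6 := abs_add_le (Wp.flatten.sum.2 + X'.flatten.sum.2) (pos a k).2
  have h7 := abs_add_le Wp.flatten.sum.2 X'.flatten.sum.2
  constructor
  · linarith
  · linarith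

/-- the part after the origin -/
theorem right_side {Wp B X0 : List Wd} {a0 : Wd} {L : ℕ} (brWp : ∀ a ∈ Wp, Br a)
    (brB : ∀ a ∈ B, Br a)
    (fcB : ∀ X a Y, B = X ++ a :: Y →
      8 * |X.flatten.sum.2| + 8 * (a.length : ℤ) ≤ X.flatten.sum.1 + 8 * L)
    (pl : ∀ a ∈ Wp, 100 * a.length ≤ L)
    (px : ∀ X Y, Wp = X ++ Y → 8 * |X.flatten.sum.2| ≤ (L : ℤ))
    (ph : 50 * (L : ℤ) ≤ Wp.flatten.sum.1) (h0 : Wp = a0 :: X0)
    (pm : ∀ X a Y, Wp = X ++ a :: Y → X.flatten.sum.2 + mx a ≤ mx a0)
    {i : ℕ} (hi : i ≤ (Wp ++ B).flatten.length) :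
    0 ≤ (pos (Wp ++ B).flatten i).1 ∧
    8 * |(pos (Wp ++ B).flatten i).2| ≤ (pos (Wp ++ B).flatten i).1 + 12 * L ∧
    ((pos (Wp ++ B).flatten i).1 < 50 * L → (pos (Wp ++ B).flatten i).2 ≤ mx a0) := by
  have hne : Wp ++ B ≠ [] := by
    rw [h0]
    simp
  obtain ⟨X, a, Y, k, hX, hk, -, hp⟩ := flatten_index hne hi
  rw [hp]
  have key : ∀ X' : List Wd, X = Wp ++ X' → B = X' ++ a :: Y →
      0 ≤ (X.flatten.sum + pos a k).1 ∧
      8 * |(X.flatten.sum + pos a k).2| ≤ (X.flatten.sum + pos a k).1 + 12 * L ∧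
      ((X.flatten.sum + pos a k).1 < 50 * L → (X.flatten.sum + pos a k).2 ≤ mx a0) := by
    intro X' hX' hB
    rw [hX']
    obtain ⟨h1, h2⟩ := right_case2 brB fcB px ph hB hk
    have hL : (0 : ℤ) ≤ L := Int.natCast_nonneg L
    exact ⟨by linarith, h2, fun h3 => absurd h3 (not_lt.2 h1)⟩
  rcases List.append_eq_append_iff.1 hX with ⟨X', h1, h2⟩ | ⟨Z, h1, h2⟩
  · exact key X' h1 h2
  · cases Z with
    | nil =>
      refine key [] ?_ ?_
      · rw [h1]; simp
      · rw [List.nil_append] at h2 ⊢
        exact h2.symm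
    | cons z Z =>
      rw [List.cons_append, List.cons.injEq] at h2
      obtain ⟨h3, h4⟩ := h2
      subst h3
      have hbr : Br a := brWp a (by rw [h1]; simp)
      have g1 : 0 ≤ X.flatten.sum.1 := right_ht fun b hb => brWp b (by rw [h1]; simp [hb])
      have g2 := hbr.pos_nonneg k
      have g3 := right_pos_snd hbr hk
      have g4 := px X (a :: Z) h1
      have g5 : 100 * (a.length : ℤ) ≤ L := by
        have := pl a (by rw [h1]; simp)
        exact_mod_cast this
      have g6 := pm X a Z h1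
      have g7 := le_mx a hk
      have g8 := abs_add_le X.flatten.sum.2 (pos a k).2
      have hL : (0 : ℤ) ≤ L := Int.natCast_nonneg L
      rw [Prod.fst_add, Prod.snd_add]
      refine ⟨by linarith, by linarith, fun _ => by linarith⟩

end Pool.Agent.Lib.MP_c23e5f_co.G
end

section

set_option autoImplicit false

namespace Pool.Agent.Lib.MP_c23e5f_co.G

open Pool.Agent.Lib.MP_c23e5f_co

private theorem gdrop_Z {β t m : ℝ} {H : ℕ} (hz : Z β H t m = 1) {y : ℝ} (hy : 0 < y) :
    Z β H t (m - y) * (1 + y) < 1 := by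
  have h1 : Z β H t (m - y) ≤ Real.exp (-y) := by
    have h2 : ∀ w ∈ irrs H, E β t (m - y) w ≤ E β t m w * Real.exp (-y) := by
      intro w hw
      have hI := (mem_irrs.1 hw).1
      have hY : (1 : ℝ) ≤ (w.sum.1 : ℝ) := by exact_mod_cast hI.br.ht_pos hI.ne
      unfold E
      rw [← Real.exp_add]
      apply Real.exp_le_exp.2
      nlinarith
    calc Z β H t (m - y) ≤ ∑ w ∈ irrs H, E β t m w * Real.exp (-y) := Finset.sum_le_sum h2
      _ = Z β H t m * Real.exp (-y) := by rw [← Finset.sum_mul]; rfl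
      _ = Real.exp (-y) := by rw [hz, one_mul]
  have h3 : y + 1 < Real.exp y := Real.add_one_lt_exp hy.ne'
  have h4 : Real.exp (-y) * Real.exp y = 1 := by rw [← Real.exp_add]; simp
  have h5 := Real.exp_pos (-y)
  calc Z β H t (m - y) * (1 + y) ≤ Real.exp (-y) * (1 + y) := by
        apply mul_le_mul_of_nonneg_right h1
        linarith
    _ < Real.exp (-y) * Real.exp y := by
        apply mul_lt_mul_of_pos_left _ h5
        linarith
    _ = 1 := h4

/-- (3.2) -/
theorem drop_aux {β t m t' m' : ℝ} {H : ℕ} (h : Mass β H t m) (h' : Mass β H t' m')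
    {a : ℕ} (ha : 1 ≤ a) (hm' : 1 / (a : ℝ) ≤ m')
    (hb : Ex β H t m hR / 4 ≤ Ex β H t m (fun w => (Cb a w : ℝ))) :
    3 / 2 * (m' - 1 / a) * Ex β H t m hR ≤ m * Ex β H t m hR +
      (t' - t) * Ex β H t m (fun w => (w.length : ℝ)) +
      4 / ((a : ℝ) + 1) * Real.log a * Ex β H t m hR := by
  have ha1 : (1 : ℝ) ≤ a := by exact_mod_cast ha
  have ha0 : (0 : ℝ) < a := by linarith
  have hlog : 0 ≤ Real.log a := Real.log_nonneg ha1
  have hchoose : ∀ w ∈ irrs H, ∃ (L : List Wd) (k : ℕ), (∀ p ∈ L, Br p ∧ p ≠ []) ∧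
      fold false L = w ∧ L.length = 2 * k + 1 ∧
      w.sum.1 + 2 * (Cb a w : ℤ) ≤ L.flatten.sum.1 ∧ (k : ℤ) * (a + 1) ≤ 2 * w.sum.1 := by
    intro w hw
    have hI := (mem_irrs.1 hw).1
    obtain ⟨ch, hch1, hch2, hch3, hch4⟩ := exists_chain hI.br a
    obtain ⟨L, hL1, hL2, hL3, hL4⟩ := pieces_of_chain hI.br hI.ne ch (fun p hp => (hch1 p hp).1) hch2
    refine ⟨L, ch.length, hL1, hL2, hL3, ?_, hch4⟩
    rw [hL4]
    linarith
  choose! ps q hpq using hchoose
  obtain ⟨y, hy⟩ : ∃ y : ℝ, y = 1 / a := ⟨_, rfl⟩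
  have hy0 : 0 < y := by rw [hy]; positivity
  obtain ⟨m2, hm2⟩ : ∃ x : ℝ, x = m' - y := ⟨_, rfl⟩
  have hm20 : 0 ≤ m2 := by rw [hm2, hy]; linarith
  have hmark := marked (β := β) (t := t') (m := m2) (y := y) (H := H) hy0
    (by rw [hm2]; exact gdrop_Z h'.z hy0) ps q
    (fun w hw => ⟨(hpq w hw).1, (hpq w hw).2.1, (hpq w hw).2.2.1⟩)
  -- the exponent
  have hX : ∀ w ∈ irrs H, E β t m w * (1 + (-(t' - t) * w.length + m2 * (hR w + 2 * (Cb a w : ℝ))
      - m * hR w - 4 / ((a : ℝ) + 1) * Real.log a * hR w)) ≤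
      E β t' m2 (ps w).flatten * y ^ (2 * q w) := by
    intro w hw
    obtain ⟨-, h2, -, h4, h5⟩ := hpq w hw
    have hlen : (ps w).flatten.length = w.length := by rw [← length_fold false (ps w), h2]
    have h4' : hR w + 2 * (Cb a w : ℝ) ≤ ((ps w).flatten.sum.1 : ℝ) := by
      unfold hR
      exact_mod_cast h4
    have h5' : (q w : ℝ) * (a + 1) ≤ 2 * hR w := by
      unfold hR
      exact_mod_cast h5
    have hpow : y ^ (2 * q w) = Real.exp (-(2 * (q w : ℝ) * Real.log a)) := by
      have e1 : y = Real.exp (-Real.log a) := by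
        rw [Real.exp_neg, Real.exp_log ha0, hy, one_div]
      rw [e1, ← Real.exp_nat_mul]
      congr 1
      push_cast
      ring
    have hq : 2 * (q w : ℝ) * Real.log a ≤ 4 / ((a : ℝ) + 1) * Real.log a * hR w := by
      have e1 : (q w : ℝ) ≤ 2 * hR w / (a + 1) := by
        rw [le_div_iff₀ (by linarith)]
        exact h5'
      calc 2 * (q w : ℝ) * Real.log a ≤ 2 * (2 * hR w / (a + 1)) * Real.log a := by
            apply mul_le_mul_of_nonneg_right _ hlog
            linarith
        _ = 4 / ((a : ℝ) + 1) * Real.log a * hR w := by ring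
    have hm : m2 * (hR w + 2 * (Cb a w : ℝ)) ≤ m2 * ((ps w).flatten.sum.1 : ℝ) :=
      mul_le_mul_of_nonneg_left h4' hm20
    obtain ⟨X, hXd⟩ : ∃ X : ℝ, X = -(t' - t) * w.length + m2 * ((ps w).flatten.sum.1 : ℝ)
        - m * hR w - 2 * (q w : ℝ) * Real.log a := ⟨_, rfl⟩
    have e1 : E β t' m2 (ps w).flatten * y ^ (2 * q w) = E β t m w * Real.exp X := by
      rw [hpow]
      unfold E
      rw [← Real.exp_add, ← Real.exp_add, hlen, hXd]
      congr 1
      unfold hR
      ring
    rw [e1]
    apply mul_le_mul_of_nonneg_left _ (E_pos β t m w).le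
    have e2 := Real.add_one_le_exp X
    linarith
  have hsum := (Finset.sum_le_sum hX).trans hmark
  have hexp : ∑ w ∈ irrs H, E β t m w * (1 + (-(t' - t) * w.length
      + m2 * (hR w + 2 * (Cb a w : ℝ)) - m * hR w - 4 / ((a : ℝ) + 1) * Real.log a * hR w)) =
      Z β H t m - (t' - t) * Ex β H t m (fun w => (w.length : ℝ)) +
        m2 * (Ex β H t m hR + 2 * Ex β H t m (fun w => (Cb a w : ℝ))) - m * Ex β H t m hR
        - 4 / ((a : ℝ) + 1) * Real.log a * Ex β H t m hR := by
    unfold Z Ex
    simp only [Finset.mul_sum, ← Finset.sum_sub_distrib, ← Finset.sum_add_distrib]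
    refine Finset.sum_congr rfl fun w _ => ?_
    ring
  rw [hexp, h.z] at hsum
  have hfin : m2 * (3 / 2 * Ex β H t m hR) ≤
      m2 * (Ex β H t m hR + 2 * Ex β H t m (fun w => (Cb a w : ℝ))) := by
    apply mul_le_mul_of_nonneg_left _ hm20
    linarith
  have hm2' : m' - 1 / (a : ℝ) = m2 := by rw [hm2, hy]
  rw [hm2']
  linarith

/-- (3.3) -/
theorem drop_phi {β t m t' m' : ℝ} {H : ℕ} (hβ : CR β) (hH : 1 ≤ H) (ht : 0 < t) (htt : t ≤ t')
    (h : Mass β H t m) (h' : Mass β H t' m') {a : ℕ} (ha : 1 ≤ a)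
    (hta : (12 + 32 * Real.log a) / a ≤ t')
    (hb : Ex β H t m hR / 4 ≤ Ex β H t m (fun w => (Cb a w : ℝ))) :
    m' * t ≤ 3 / 4 * (m * t') := by
  have ha1 : (1 : ℝ) ≤ a := by exact_mod_cast ha
  have ha0 : (0 : ℝ) < a := by linarith
  have hlog : 0 ≤ Real.log a := Real.log_nonneg ha1
  have hg : 1 ≤ Ex β H t m hR := one_le_g h
  have hk := kappa_le hβ hH h
  have hta' : 12 + 32 * Real.log a ≤ t' * a := by
    rwa [div_le_iff₀ ha0] at hta
  have ht' : 0 < t' := by linarith
  have hm1 : 1 / (a : ℝ) ≤ m' := by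
    rw [div_le_iff₀ ha0]
    have := h'.tm
    nlinarith
  have haux := drop_aux h h' ha hm1 hb
  obtain ⟨g, hgd⟩ : ∃ g, g = Ex β H t m hR := ⟨_, rfl⟩
  obtain ⟨Λ, hΛ⟩ : ∃ Λ, Λ = Ex β H t m (fun w => (w.length : ℝ)) := ⟨_, rfl⟩
  obtain ⟨l, hl⟩ : ∃ l, l = Real.log (a : ℝ) := ⟨_, rfl⟩
  rw [← hgd, ← hΛ] at haux hk
  rw [← hgd] at hg
  rw [← hl] at haux hlog hta'
  have hg0 : 0 < g := by linarith
  -- multiply by `t`
  have h1 : (t' - t) * (t * Λ) ≤ (t' - t) * (m * g) :=
    mul_le_mul_of_nonneg_left hk (by linarith)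
  have h2 : t * (3 / 2 * (m' - 1 / a) * g) ≤
      t * (m * g) + (t' - t) * (m * g) + t * (4 / ((a : ℝ) + 1) * l * g) := by
    have := mul_le_mul_of_nonneg_left haux ht.le
    nlinarith
  have h3 : t * (3 / 2 * (m' - 1 / a)) ≤ t' * m + t * (4 / ((a : ℝ) + 1) * l) := by
    by_contra hcon
    push Not at hcon
    have := mul_lt_mul_of_pos_right hcon hg0
    nlinarith
  have h4 : 4 / ((a : ℝ) + 1) * l ≤ 4 * l / a := by
    rw [div_mul_eq_mul_div]
    apply div_le_div_of_nonneg_left (by linarith) ha0 (by linarith)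
  have h5 : t * (4 / ((a : ℝ) + 1) * l) ≤ t * (4 * l / a) := mul_le_mul_of_nonneg_left h4 ht.le
  have h6 : 3 / 2 * (1 / (a : ℝ)) + 4 * l / a ≤ t' / 8 := by
    have e1 : 3 / 2 * (1 / (a : ℝ)) + 4 * l / a = (3 / 2 + 4 * l) / a := by ring
    rw [e1, div_le_iff₀ ha0]
    linarith
  have h7 : t * (3 / 2 * (1 / (a : ℝ)) + 4 * l / a) ≤ t * (t' / 8) :=
    mul_le_mul_of_nonneg_left h6 ht.le
  have h8 : t * t' ≤ m * t' := mul_le_mul_of_nonneg_right h.tm ht'.le
  nlinarith

end Pool.Agent.Lib.MP_c23e5f_co.G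
end

section

set_option autoImplicit false

namespace Pool.Agent.Lib.MP_c23e5f_co.G

open Pool.Agent.Lib.MP_c23e5f_co

private lemma glue_drop {a : Wd} (ha : Br a) (k : ℕ) :
    |a.sum.2 - (pos a k).2| ≤ (a.length : ℤ) := by
  have h1 := (abs_sum_le (w := a.drop k) fun v hv => ha.saw.step v (List.mem_of_mem_drop hv)).2
  rw [sum_drop, Prod.snd_sub, List.length_drop] at h1
  refine h1.trans ?_
  push_cast
  omega

private lemma glue_pos {a : Wd} (ha : Br a) {k : ℕ} (hk : k ≤ a.length) :
    |(pos a k).2| ≤ (a.length : ℤ) := by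
  have h1 := (abs_pos_le (w := a) ha.saw.step k).2
  refine h1.trans ?_
  exact_mod_cast hk

private lemma glue_pos1 {a : Wd} (ha : Br a) {k : ℕ} (hk : k ≤ a.length) :
    (pos a k).1 ≤ (a.length : ℤ) := by
  have h1 := (abs_pos_le (w := a) ha.saw.step k).1
  refine (le_abs_self _).trans (h1.trans ?_)
  exact_mod_cast hk

private lemma glue_rf {R : List Wd} {L : ℕ} (brR : ∀ a ∈ R, Br a)
    (r1 : ∀ X a Y, R = X ++ a :: Y →
      8 * |X.flatten.sum.2| + 8 * (a.length : ℤ) ≤ X.flatten.sum.1 + 8 * L)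
    (hne : R ≠ []) {j : ℕ} (hj : j ≤ R.flatten.length) :
    8 * |(pos R.flatten j).2| ≤ (pos R.flatten j).1 + 8 * L := by
  obtain ⟨X, a, Y, k, hR, hk, -, hpos⟩ := flatten_index hne hj
  have ha : Br a := brR a (by rw [hR]; simp)
  have h1 := r1 X a Y hR
  have h2 := glue_pos ha hk
  have h3 := ha.pos_nonneg k
  rw [hpos, Prod.fst_add, Prod.snd_add]
  have h4 := abs_add_le X.flatten.sum.2 (pos a k).2
  linarith

private lemma glue_rb {R : List Wd} {L : ℕ} (brR : ∀ a ∈ R, Br a)
    (r2 : ∀ X a Y, R = X ++ a :: Y →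
      8 * |Y.flatten.sum.2| + 8 * (a.length : ℤ) ≤ Y.flatten.sum.1 + 8 * L)
    (hne : R ≠ []) {j : ℕ} (hj : j ≤ R.flatten.length) :
    8 * |(pos R.flatten j).2 - R.flatten.sum.2| ≤
      R.flatten.sum.1 - (pos R.flatten j).1 + 8 * L := by
  obtain ⟨X, a, Y, k, hR, hk, -, hpos⟩ := flatten_index hne hj
  have ha : Br a := brR a (by rw [hR]; simp)
  have h1 := r2 X a Y hR
  have h2 := glue_drop ha k
  have h3 := ha.pos_le k
  have hsum : R.flatten.sum = X.flatten.sum + a.sum + Y.flatten.sum := by
    rw [hR, List.flatten_append, List.flatten_cons, List.sum_append, List.sum_append]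
    abel
  rw [hpos, hsum]
  simp only [Prod.fst_add, Prod.snd_add]
  have e : X.flatten.sum.2 + (pos a k).2 - (X.flatten.sum.2 + a.sum.2 + Y.flatten.sum.2) =
      -((a.sum.2 - (pos a k).2) + Y.flatten.sum.2) := by ring
  rw [e, abs_neg]
  have h4 := abs_add_le (a.sum.2 - (pos a k).2) Y.flatten.sum.2
  linarith

/-- the glueing lemma -/
theorem glue {A Wm Wp B R : List Wd} {L : ℕ} (h : GlHyp A Wm Wp B R L) :
    ∃ s, (A ++ Wm.dropLast).flatten.length ≤ s ∧ s ≤ (A ++ Wm ++ Wp.take 1).flatten.length ∧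
      InsHyp (A ++ Wm ++ Wp ++ B).flatten R.flatten L (A ++ Wm).flatten.length s := by
  obtain ⟨X0, am, hWm, hmm⟩ := h.mm
  obtain ⟨ap, X1, hWp, hpm⟩ := h.pm
  have hL1 := h.L1
  have hL0 : (1 : ℤ) ≤ L := by exact_mod_cast hL1
  have bram : Br am := h.brWm am (by rw [hWm]; simp)
  have brap : Br ap := h.brWp ap (by rw [hWp]; simp)
  have lam : 100 * (am.length : ℤ) ≤ L := by exact_mod_cast h.ml am (by rw [hWm]; simp)
  have lap : 100 * (ap.length : ℤ) ≤ L := by exact_mod_cast h.pl ap (by rw [hWp]; simp)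
  -- the two halves
  set U : Wd := (A ++ Wm).flatten with hU
  set V : Wd := (Wp ++ B).flatten with hV
  have hΓ : (A ++ Wm ++ Wp ++ B).flatten = U ++ V := by
    rw [hU, hV, List.append_assoc (A ++ Wm), List.flatten_append]
  rw [hΓ]
  have hUX : U = (A ++ X0).flatten ++ am := by
    rw [hU, hWm, ← List.append_assoc, List.flatten_append]
    simp
  have hVX : V = ap ++ (X1 ++ B).flatten := by
    rw [hV, hWp]
    simp
  set P : Wd := (A ++ X0).flatten with hP
  have hUl : U.length = P.length + am.length := by rw [hUX, List.length_append]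
  have hVl : ap.length ≤ V.length := by rw [hVX, List.length_append]; omega
  have hlo : (A ++ Wm.dropLast).flatten.length = P.length := by
    rw [hWm, List.dropLast_concat]
  have hup : (A ++ Wm ++ Wp.take 1).flatten.length = U.length + ap.length := by
    rw [hWp, List.flatten_append, List.length_append, ← hU]
    simp
  rw [hlo, hup]
  have hUs : U.sum = P.sum + am.sum := by rw [hUX, List.sum_append]
  have hpo : pos (U ++ V) U.length = U.sum := by
    rw [pos_append_left le_rfl, pos_length]
  have hleft : ∀ i, i ≤ U.length → ry (U ++ V) U.length i = (pos U i - U.sum).1 ∧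
      rx (U ++ V) U.length i = (pos U i - U.sum).2 := by
    intro i hi
    rw [ry, rx, hpo, pos_append_left hi]
    exact ⟨rfl, rfl⟩
  have hright : ∀ i, U.length ≤ i → ry (U ++ V) U.length i = (pos V (i - U.length)).1 ∧
      rx (U ++ V) U.length i = (pos V (i - U.length)).2 := by
    intro i hi
    rw [ry, rx, hpo, pos_append_right' hi, Prod.fst_add, Prod.snd_add]
    constructor <;> ring
  have hLe : ∀ i, i ≤ U.length → ry (U ++ V) U.length i ≤ 0 ∧
      8 * |rx (U ++ V) U.length i| ≤ - ry (U ++ V) U.length i + 12 * L ∧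
      (-(50 * (L : ℤ)) < ry (U ++ V) U.length i →
        rx (U ++ V) U.length i ≤ mx am - am.sum.2) := by
    intro i hi
    obtain ⟨e1, e2⟩ := hleft i hi
    rw [e1, e2]
    exact left_side h.brA h.brWm h.fcA h.ml h.mx h.mh hWm hmm hi
  have hRi : ∀ i, U.length ≤ i → i ≤ (U ++ V).length → 0 ≤ ry (U ++ V) U.length i ∧
      8 * |rx (U ++ V) U.length i| ≤ ry (U ++ V) U.length i + 12 * L ∧
      (ry (U ++ V) U.length i < 50 * (L : ℤ) → rx (U ++ V) U.length i ≤ mx ap) := by
    intro i hi hi2
    obtain ⟨e1, e2⟩ := hright i hi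
    rw [e1, e2]
    rw [List.length_append] at hi2
    exact right_side h.brWp h.brB h.fcB h.pl h.px h.ph hWp hpm (i := i - U.length)
      (by rw [← hV]; omega)
  have hM1 : 0 ≤ mx am - am.sum.2 := by
    have := le_mx am (i := am.length) le_rfl
    rw [pos_length] at this
    linarith
  have hM2 : 0 ≤ mx ap := by
    have := le_mx ap (i := 0) (Nat.zero_le _)
    rw [pos_zero] at this
    exact this
  -- the choice of the index
  have hs : ∃ s, P.length ≤ s ∧ s ≤ U.length + ap.length ∧
      mx am - am.sum.2 ≤ rx (U ++ V) U.length s ∧ mx ap ≤ rx (U ++ V) U.length s ∧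
      2 * rx (U ++ V) U.length s ≤ L ∧ 100 * |ry (U ++ V) U.length s| ≤ L ∧
      (∀ i, i ≤ s → 100 * ry (U ++ V) U.length i ≤ L) ∧
      (∀ i, s ≤ i → i ≤ (U ++ V).length → -(L : ℤ) ≤ 100 * ry (U ++ V) U.length i) := by
    rcases le_total (mx am - am.sum.2) (mx ap) with hc | hc
    · obtain ⟨i0, hi0, hi0e⟩ := exists_mx ap
      refine ⟨U.length + i0, by omega, by omega, ?_⟩
      have e := hright (U.length + i0) (by omega)
      rw [Nat.add_sub_cancel_left] at e
      have e3 : pos V i0 = pos ap i0 := by rw [hVX, pos_append_left hi0]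
      rw [e3] at e
      obtain ⟨e1, e2⟩ := e
      rw [e1, e2]
      have g1 := glue_pos brap hi0
      have g2 := glue_pos1 brap hi0
      have g3 := brap.pos_nonneg i0
      have g4 := le_abs_self (pos ap i0).2
      refine ⟨by rw [hi0e]; exact hc, by rw [hi0e], by linarith, ?_, ?_, ?_⟩
      · rw [abs_of_nonneg g3]
        linarith
      · intro i hi
        rcases le_or_gt i U.length with h1 | h1
        · have := (hLe i h1).1
          linarith
        · obtain ⟨f1, -⟩ := hright i h1.le
          have f3 : pos V (i - U.length) = pos ap (i - U.length) := by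
            rw [hVX, pos_append_left (by omega)]
          rw [f1, f3]
          have := glue_pos1 brap (k := i - U.length) (by omega)
          linarith
      · intro i hi hi2
        have := (hRi i (by omega) hi2).1
        linarith
    · obtain ⟨i0, hi0, hi0e⟩ := exists_mx am
      refine ⟨P.length + i0, by omega, by omega, ?_⟩
      have hgen : ∀ k, k ≤ am.length → ry (U ++ V) U.length (P.length + k) =
          (pos am k).1 - am.sum.1 ∧
          rx (U ++ V) U.length (P.length + k) = (pos am k).2 - am.sum.2 := by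
        intro k hk
        have e := hleft (P.length + k) (by omega)
        have e3 : pos U (P.length + k) = P.sum + pos am k := by
          rw [hUX, pos_append_right]
        rw [e3, hUs] at e
        rw [e.1, e.2]
        simp only [Prod.fst_sub, Prod.snd_sub, Prod.fst_add, Prod.snd_add]
        constructor <;> ring
      obtain ⟨e1, e2⟩ := hgen i0 hi0
      rw [e1, e2]
      have g1 := glue_pos bram hi0
      have g3 := bram.pos_nonneg i0
      have g4 := le_abs_self (pos am i0).2
      have g5 := bram.pos_le i0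
      have g6 := (abs_sum_le bram.saw.step).1
      have g7 := (abs_sum_le bram.saw.step).2
      have g8 := le_abs_self am.sum.1
      have g9 := neg_abs_le am.sum.2
      refine ⟨by rw [hi0e], by rw [hi0e]; exact hc, by linarith, ?_, ?_, ?_⟩
      · rw [abs_of_nonpos (by linarith)]
        linarith
      · intro i hi
        have := (hLe i (by omega)).1
        linarith
      · intro i hi hi2
        rcases le_or_gt U.length i with h1 | h1
        · have := (hRi i h1 hi2).1
          linarith
        · obtain ⟨k, rfl⟩ : ∃ k, i = P.length + k := ⟨i - P.length, by omega⟩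
          rw [(hgen k (by omega)).1]
          have := bram.pos_nonneg k
          linarith
  obtain ⟨s, hs1, hs2, hs3, hs4, hs5, hs6, hs7, hs8⟩ := hs
  refine ⟨s, hs1, hs2, ?_⟩
  have hsl : s ≤ (U ++ V).length := by rw [List.length_append]; omega
  have hne : R ≠ [] := by
    intro h0
    have := h.big
    rw [h0] at this
    simp at this
    omega
  refine ⟨?_, Br.flatten h.brR, hL1, by rw [List.length_append]; omega, hsl, ?_, ?_, hs7, hs8, by linarith,
    hs5, hs6, fun j hj => glue_rf h.brR h.r1 hne hj, fun j hj => glue_rb h.brR h.r2 hne hj, h.big,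
    ?_, ?_⟩
  · rw [← hΓ]
    apply Br.flatten
    intro a ha
    simp only [List.mem_append] at ha
    rcases ha with ((ha | ha) | ha) | ha
    · exact h.brA a ha
    · exact h.brWm a ha
    · exact h.brWp a ha
    · exact h.brB a ha
  · intro i hi
    rcases le_or_gt i U.length with h1 | h1
    · obtain ⟨f1, f2, -⟩ := hLe i h1
      rw [abs_of_nonpos f1]
      exact f2
    · obtain ⟨f1, f2, -⟩ := hRi i h1.le hi
      rw [abs_of_nonneg f1]
      exact f2
  · intro i hi hi2
    rw [abs_lt] at hi2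
    rcases le_or_gt i U.length with h1 | h1
    · obtain ⟨f1, -, f2⟩ := hLe i h1
      exact (f2 hi2.1).trans hs3
    · obtain ⟨f1, -, f2⟩ := hRi i h1.le hi
      exact (f2 hi2.2).trans hs4
  · rw [hpo]
    have := h.hA
    rw [hU, List.flatten_append, List.sum_append, Prod.fst_add]
    exact this
  · rw [hpo]
    have := h.hB
    rw [List.sum_append, Prod.fst_add, hV, List.flatten_append, List.sum_append, Prod.fst_add]
    linarith

end Pool.Agent.Lib.MP_c23e5f_co.G
end
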