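import Pool.Agent.Lib.MP_c23e5f_co.G.GDefs
import Pool.Agent.Lib.MP_c23e5f_co.G.PInv
import Pool.Agent.Lib.MP_c23e5f_co.G.FCrit
import Pool.Agent.Lib.MP_c23e5f_co.G.PCone
import Pool.Agent.Lib.MP_c23e5f_co.LoopLower
import Pool.Agent.Lib.MP_c23e5f_co.G.GSmall
import Pool.Agent.Lib.MP_c23e5f_co.G.GlGlue
import Pool.Agent.Lib.MP_c23e5f_co.G.GMass2

section

section

set_option autoImplicit false

namespace Pool.Agent.Lib.MP_c23e5f_co.G

variable {ι : Type*} {s : Finset ι} {w h l ξ : ι → ℝ} {σ : ι → ι} {g K D L : ℝ}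

theorem w1_rotate {h l ξ : ι → ℝ} {L C : ℝ} {x : List ι} (hx : W0 h l ξ L C x) (k : ℕ) :
    W1 h l ξ L C (x.rotate k) := by
  obtain ⟨h1, h2, h3, h4⟩ := hx
  have hperm : (x.rotate k).Perm x := List.rotate_perm x k
  refine ⟨fun a ha => h1 a (hperm.mem_iff.mp ha), ?_, ?_, ?_⟩
  · intro A B hAB
    rw [List.rotate_eq_drop_append_take_mod] at hAB
    set P := x.take (k % x.length) with hP
    set Q := x.drop (k % x.length) with hQ
    have hx : x = P ++ Q := (List.take_append_drop _ _).symm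
    have hP1 := h2 P Q hx
    have hx1 := h2 x [] (by simp)
    have hs : (x.map ξ).sum = (P.map ξ).sum + (Q.map ξ).sum := by
      conv_lhs => rw [hx]
      simp
    have hL : 0 ≤ L := by linarith [abs_nonneg ((P.map ξ).sum)]
    rw [hs] at hx1
    rcases List.append_eq_append_iff.mp hAB with ⟨A', hA, hB⟩ | ⟨C', hA, hB⟩
    · have h5 := h2 A' (B ++ Q) (by rw [hx, hB]; simp)
      rw [hA, List.map_append, List.sum_append]
      rw [abs_le] at *
      constructor <;> linarith [hP1.1, hP1.2, hx1.1, hx1.2, h5.1, h5.2]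
    · have h5 := h2 (P ++ A) C' (by rw [hx, hA]; simp)
      rw [List.map_append, List.sum_append] at h5
      rw [abs_le] at *
      constructor <;> linarith [hP1.1, hP1.2, h5.1, h5.2]
  · rw [(hperm.map h).sum_eq]
    exact h3
  · rw [(hperm.map l).sum_eq]
    exact h4

private theorem exists_max_split (ξ e : ι → ℝ) : ∀ {x : List ι}, x ≠ [] →
    ∃ P a0 Q, x = P ++ a0 :: Q ∧ ∀ A a B, x = A ++ a :: B →
      (A.map ξ).sum + e a ≤ (P.map ξ).sum + e a0
  | [], hx => absurd rfl hx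
  | [c], _ => by
      refine ⟨[], c, [], rfl, fun A a B hAB => ?_⟩
      rcases A with _ | ⟨b, A⟩
      · simp only [List.nil_append, List.cons.injEq] at hAB
        rw [hAB.1]
      · simp at hAB
  | c :: d :: x, _ => by
      obtain ⟨P, a0, Q, h1, h2⟩ := exists_max_split ξ e (x := d :: x) (by simp)
      by_cases hc : ξ c + ((P.map ξ).sum + e a0) ≤ e c
      · refine ⟨[], c, d :: x, rfl, fun A a B hAB => ?_⟩
        rcases A with _ | ⟨b, A⟩
        · simp only [List.nil_append, List.cons.injEq] at hAB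
          rw [hAB.1]
        · rw [List.cons_append, List.cons.injEq] at hAB
          have := h2 A a B hAB.2
          rw [← hAB.1]
          simp only [List.map_cons, List.sum_cons, List.map_nil, List.sum_nil]
          linarith
      · refine ⟨c :: P, a0, Q, by rw [h1]; rfl, fun A a B hAB => ?_⟩
        rcases A with _ | ⟨b, A⟩
        · simp only [List.nil_append, List.cons.injEq] at hAB
          rw [← hAB.1]
          simp only [List.map_cons, List.sum_cons, List.map_nil, List.sum_nil]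
          linarith
        · rw [List.cons_append, List.cons.injEq] at hAB
          have := h2 A a B hAB.2
          rw [← hAB.1]
          simp only [List.map_cons, List.sum_cons]
          linarith

theorem exists_rotate_mf (ξ e : ι → ℝ) {x : List ι} (hx : x ≠ []) (hs : (x.map ξ).sum ≤ 0) :
    ∃ k < x.length, MF ξ e (x.rotate k) := by
  obtain ⟨P, a0, Q, h1, h2⟩ := exists_max_split ξ e hx
  refine ⟨P.length, by rw [h1]; simp, ?_⟩
  have hr : x.rotate P.length = a0 :: (Q ++ P) := by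
    rw [h1, List.rotate_append_length_eq]
    rfl
  have hsum : (P.map ξ).sum + ((a0 :: Q).map ξ).sum ≤ 0 := by
    rw [h1] at hs
    simpa using hs
  refine ⟨a0, Q ++ P, hr, fun A a B hAB => ?_⟩
  rw [hr, ← List.cons_append] at hAB
  rcases List.append_eq_append_iff.mp hAB with ⟨A', hA, hB⟩ | ⟨C', hA, hB⟩
  · have := h2 A' a (B ++ a0 :: Q) (by rw [h1, hB]; simp)
    rw [hA, List.map_append, List.sum_append]
    linarith
  · rcases C' with _ | ⟨c, C'⟩
    · rw [List.append_nil] at hA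
      rw [List.nil_append] at hB
      have := h2 [] a (B ++ a0 :: Q) (by rw [h1, ← hB]; simp)
      rw [← hA]
      simp only [List.map_nil, List.sum_nil] at this
      linarith
    · rw [List.cons_append, List.cons.injEq] at hB
      rw [← hB.1] at hA
      have := h2 (P ++ A) a C' (by rw [h1, hA]; simp)
      rw [List.map_append, List.sum_append] at this
      linarith

theorem exists_rotate_ml (ξ e : ι → ℝ) {x : List ι} (hx : x ≠ []) (hs : 0 ≤ (x.map ξ).sum) :
    ∃ k < x.length, ML ξ e (x.rotate k) := by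
  obtain ⟨P, a0, Q, h1, h2⟩ := exists_max_split ξ e hx
  have hsum : 0 ≤ (P.map ξ).sum + ξ a0 + (Q.map ξ).sum := by
    rw [h1] at hs
    simp only [List.map_append, List.map_cons, List.sum_append, List.sum_cons] at hs
    linarith
  have key : ML ξ e (Q ++ (P ++ [a0])) := by
    refine ⟨Q ++ P, a0, by simp, fun A a B hAB => ?_⟩
    rw [List.map_append, List.sum_append]
    rcases List.append_eq_append_iff.mp hAB with ⟨A', hA, hB⟩ | ⟨C', hA, hB⟩
    · have := h2 A' a (B ++ Q) (by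
        rw [h1]
        have : P ++ a0 :: Q = (P ++ [a0]) ++ Q := by simp
        rw [this, hB]
        simp)
      rw [hA, List.map_append, List.sum_append]
      linarith
    · rcases C' with _ | ⟨c, C'⟩
      · rw [List.append_nil] at hA
        rw [List.nil_append] at hB
        have := h2 [] a (B ++ Q) (by
          rw [h1]
          have : P ++ a0 :: Q = (P ++ [a0]) ++ Q := by simp
          rw [this, ← hB]
          simp)
        rw [← hA]
        simp only [List.map_nil, List.sum_nil] at this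
        linarith
      · rw [List.cons_append, List.cons.injEq] at hB
        rw [← hB.1] at hA
        have := h2 (P ++ a0 :: A) a C' (by rw [h1, hA]; simp)
        simp only [List.map_append, List.map_cons, List.sum_append, List.sum_cons] at this
        linarith
  rcases Q with _ | ⟨q, Q⟩
  · refine ⟨0, by rw [h1]; simp, ?_⟩
    rw [List.rotate_zero, h1]
    simpa using key
  · refine ⟨(P ++ [a0]).length, by rw [h1]; simp, ?_⟩
    have : x = (P ++ [a0]) ++ (q :: Q) := by rw [h1]; simp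
    rw [this, List.rotate_append_length_eq]
    exact key

end Pool.Agent.Lib.MP_c23e5f_co.G
end

section

set_option autoImplicit false

namespace Pool.Agent.Lib.MP_c23e5f_co.G

variable {ι : Type*} {s : Finset ι} {w h l ξ : ι → ℝ} {σ : ι → ι} {g K D L : ℝ}

private lemma win_ind_nonneg (p : Prop) : 0 ≤ ind p := by
  unfold ind; split_ifs <;> norm_num

private lemma win_ind_pos {p : Prop} (hp : p) : ind p = 1 := by
  unfold ind; rw [if_pos hp]

private lemma win_exp_le {p : ℝ} (hp : 1 / 2 ≤ p) (hp1 : p ≤ 1) :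
    Real.exp (-(2 * (1 - p))) ≤ p := by
  have h1 : 1 + 2 * (1 - p) ≤ Real.exp (2 * (1 - p)) := by
    have := Real.add_one_le_exp (2 * (1 - p)); linarith
  have h2 : 0 < 1 + 2 * (1 - p) := by linarith
  rw [Real.exp_neg]
  have h3 : (Real.exp (2 * (1 - p)))⁻¹ ≤ (1 + 2 * (1 - p))⁻¹ := inv_anti₀ h2 h1
  refine h3.trans ?_
  rw [inv_eq_one_div, div_le_iff₀ h2]
  nlinarith

private lemma win_sum_nonneg (b : ι → ℝ) (x : List ι) (hb : ∀ a ∈ x, 0 ≤ b a) :
    0 ≤ (x.map b).sum := by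
  apply List.sum_nonneg
  intro y hy
  obtain ⟨a, ha, rfl⟩ := List.mem_map.1 hy
  exact hb a ha

private lemma win_one_le_sum (b : ι → ℝ) (x : List ι) (hb : ∀ a ∈ x, 0 ≤ b a) {a : ι}
    (ha : a ∈ x) (h1 : b a = 1) : 1 ≤ (x.map b).sum := by
  rw [← h1]
  apply List.single_le_sum
  · intro y hy
    obtain ⟨c, hc, rfl⟩ := List.mem_map.1 hy
    exact hb c hc
  · exact List.mem_map_of_mem ha

/-- (4.5), before the cyclic shift -/
theorem PD.window0 (pd : PD s w h l ξ σ g K D L) (J : ℕ) (hJ : 200 * L ≤ J * g)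
    (hJ' : J * g ≤ 201 * L) :
    Real.exp (-(2 ^ 32 * K ^ 2)) ≤
      ES s (fun _ => w) J (fun x => ind (W0 h l ξ L (16 * K * g * J) x)) := by
  classical
  have hK := pd.K1
  have hD := pd.D1
  have hg := pd.one_le_g
  have hKK : 1 ≤ K ^ 2 := one_le_pow₀ hK
  have hLD : 2 ^ 25 * D ≤ L := by
    refine le_trans ?_ pd.hL
    have : 0 ≤ 2 ^ 25 * D * (K ^ 2 - 1) := by
      apply mul_nonneg (by positivity) (by linarith)
    nlinarith
  have hL0 : 0 < L := by nlinarith
  obtain ⟨τ, hτdef⟩ : ∃ τ, τ = L / (2 ^ 22 * K) := ⟨_, rfl⟩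
  have hτmul : τ * (2 ^ 22 * K) = L := by
    rw [hτdef]; field_simp
  have hτ : 8 * D * K ≤ τ := by
    rw [hτdef, le_div_iff₀ (by positivity)]
    have := pd.hL
    nlinarith
  have hτ0 : 0 < τ := by rw [hτdef]; positivity
  have hτL : τ ≤ L / 100 := by
    rw [hτdef, div_le_div_iff₀ (by positivity) (by norm_num)]
    nlinarith
  have hJ0 : (0 : ℝ) < J := by
    by_contra hc
    have : (J : ℝ) = 0 := le_antisymm (not_lt.1 hc) (Nat.cast_nonneg J)
    rw [this] at hJ
    nlinarith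
  -- the conditioned law
  obtain ⟨v, hv⟩ : ∃ v, v = cw s w l τ := ⟨_, rfl⟩
  have v0 : ∀ a ∈ s, 0 ≤ v a := by rw [hv]; exact pd.cw_nonneg hτ
  have v1 : ∑ a ∈ s, v a = 1 := by rw [hv]; exact pd.cw_sum hτ
  -- bad event 1
  have b1 : ES s (fun _ => v) J (fun x => ind (∃ A B, x = A ++ B ∧
      1 ≤ (fun _ : ℕ => 32 / L) A.length * |0 + sX (fun _ => ξ) A|)) ≤ 1 / 10 := by
    refine (hajek s (fun _ => v) (fun _ => v0) (fun _ => v1) (fun _ => ξ) (fun _ => by
      rw [hv]; exact pd.cw_xi τ) (fun _ => 32 / L) antitone_const (fun _ => by positivity)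
      J 0).trans ?_
    have e1 : ∑ a ∈ s, v a * ξ a ^ 2 ≤ 2 * (τ * (K * g)) := by
      rw [hv]
      refine (pd.cw_xi_sq hτ).trans ?_
      apply mul_le_mul_of_nonneg_left _ (by norm_num)
      refine le_trans ?_ (mul_le_mul_of_nonneg_left pd.lK hτ0.le)
      rw [Finset.mul_sum]
      apply Finset.sum_le_sum
      intro a ha
      have hw := pd.w0 a ha
      have hl : 0 ≤ l a := le_trans (by linarith [pd.h1 a ha]) (pd.hl a ha)
      split_ifs with hc
      · have : l a ^ 2 ≤ τ * l a := by nlinarith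
        nlinarith
      · have : 0 ≤ τ * (w a * l a) := by positivity
        linarith
    rw [Finset.sum_const, Finset.card_range, nsmul_eq_mul]
    have e2 : (J : ℝ) * ((32 / L) ^ 2 * ∑ a ∈ s, v a * ξ a ^ 2) ≤
        J * ((32 / L) ^ 2 * (2 * (τ * (K * g)))) := by
      apply mul_le_mul_of_nonneg_left _ hJ0.le
      exact mul_le_mul_of_nonneg_left e1 (by positivity)
    have e3 : (J : ℝ) * ((32 / L) ^ 2 * (2 * (τ * (K * g)))) = 2048 * (J * g) / (2 ^ 22 * L) := by
      rw [hτdef]; field_simp; ring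
    have e4 : 2048 * (J * g) / (2 ^ 22 * L) ≤ 1 / 10 := by
      rw [div_le_div_iff₀ (by positivity) (by norm_num)]
      nlinarith
    simp only [ne_eq, OfNat.ofNat_ne_zero, not_false_eq_true, zero_pow, mul_zero, zero_add]
    linarith
  -- bad event 2
  obtain ⟨μ, hμ⟩ : ∃ μ, μ = ∑ a ∈ s, v a * min (h a) D := ⟨_, rfl⟩
  have hμ1 : 13 / 24 * g ≤ μ := by rw [hμ, hv]; exact pd.cw_h hτ
  have b2 : ES s (fun _ => v) J (fun x => ind (∃ A B, x = A ++ B ∧
      1 ≤ (fun _ : ℕ => 1 / (58 * L)) A.length *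
        |0 + sX (fun _ a => min (h a) D - μ) A|)) ≤ 1 / 100 := by
    refine (hajek s (fun _ => v) (fun _ => v0) (fun _ => v1) (fun _ a => min (h a) D - μ)
      (fun _ => by
        have : ∑ a ∈ s, v a * (min (h a) D - μ) = ∑ a ∈ s, v a * min (h a) D - μ * ∑ a ∈ s, v a := by
          rw [Finset.mul_sum, ← Finset.sum_sub_distrib]
          apply Finset.sum_congr rfl
          intro a _; ring
        rw [this, v1, ← hμ]; ring)
      (fun _ => 1 / (58 * L)) antitone_const (fun _ => by positivity) J 0).trans ?_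
    have e1 : ∑ a ∈ s, v a * (min (h a) D - μ) ^ 2 ≤ 2 * D * g := by
      rw [hμ, hv]; exact pd.cw_h_var hτ
    rw [Finset.sum_const, Finset.card_range, nsmul_eq_mul]
    have e2 : (J : ℝ) * ((1 / (58 * L)) ^ 2 * ∑ a ∈ s, v a * (min (h a) D - μ) ^ 2) ≤
        J * ((1 / (58 * L)) ^ 2 * (2 * D * g)) := by
      apply mul_le_mul_of_nonneg_left _ hJ0.le
      exact mul_le_mul_of_nonneg_left e1 (by positivity)
    have e3 : (J : ℝ) * ((1 / (58 * L)) ^ 2 * (2 * D * g)) = 2 * D * (J * g) / (3364 * L ^ 2) := by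
      field_simp; ring
    have e4 : 2 * D * (J * g) / (3364 * L ^ 2) ≤ 1 / 100 := by
      rw [div_le_div_iff₀ (by positivity) (by norm_num)]
      have h1 : 2 * D * (J * g) ≤ 2 * D * (201 * L) :=
        mul_le_mul_of_nonneg_left hJ' (by positivity)
      have h2 : 0 ≤ (L - 2 ^ 25 * D) * L := mul_nonneg (by linarith) hL0.le
      have h3 : 0 ≤ L * D := by positivity
      nlinarith
    simp only [ne_eq, OfNat.ofNat_ne_zero, not_false_eq_true, zero_pow, mul_zero, zero_add]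
    linarith
  -- bad event 3
  have b3 : ES s (fun _ => v) J (fun x => ind (¬ (x.map l).sum ≤ 16 * K * g * J)) ≤ 1 / 8 := by
    have hc : 0 < 16 * K * g * J := by positivity
    refine (ES_markov s (fun _ => v) (fun _ => v0) J (fun x => (x.map l).sum) ?_ hc).trans ?_
    · intro x _ hx
      apply win_sum_nonneg
      intro a ha
      exact le_trans (by linarith [pd.h1 a (hx a ha)]) (pd.hl a (hx a ha))
    · rw [ES_sum s (fun _ => v) (fun _ => v1), Finset.sum_const, Finset.card_range, nsmul_eq_mul,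
        div_le_div_iff₀ hc (by norm_num)]
      have : ∑ a ∈ s, v a * l a ≤ 2 * K * g := by rw [hv]; exact pd.cw_l hτ
      have h2 : (J : ℝ) * ∑ a ∈ s, v a * l a ≤ J * (2 * K * g) :=
        mul_le_mul_of_nonneg_left this hJ0.le
      nlinarith
  -- bad event 4
  have b4 : ES s (fun _ => v) J (fun x => (x.map (fun a => if l a ≤ τ then (0 : ℝ) else 1)).sum)
      = 0 := by
    rw [ES_sum s (fun _ => v) (fun _ => v1)]
    apply Finset.sum_eq_zero
    intro j _
    apply Finset.sum_eq_zero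
    intro a _
    rw [hv]
    unfold cw
    split_ifs <;> ring
  -- combination
  have hv2 : 1 / 2 ≤ ES s (fun _ => v) J (fun x => ind (W0 h l ξ L (16 * K * g * J) x)) := by
    have h1 : ES s (fun _ => v) J (fun _ => 1) ≤ ES s (fun _ => v) J (fun x =>
        ind (W0 h l ξ L (16 * K * g * J) x) +
        (ind (∃ A B, x = A ++ B ∧
          1 ≤ (fun _ : ℕ => 32 / L) A.length * |0 + sX (fun _ => ξ) A|) +
        (ind (∃ A B, x = A ++ B ∧
          1 ≤ (fun _ : ℕ => 1 / (58 * L)) A.length *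
            |0 + sX (fun _ a => min (h a) D - μ) A|) +
        (ind (¬ (x.map l).sum ≤ 16 * K * g * J) +
          (x.map (fun a => if l a ≤ τ then (0 : ℝ) else 1)).sum)))) := by
      apply ES_mono s _ (fun _ => v0)
      intro x hxJ hxs
      have n0 := win_ind_nonneg (W0 h l ξ L (16 * K * g * J) x)
      have n1 := win_ind_nonneg (∃ A B, x = A ++ B ∧
          1 ≤ (fun _ : ℕ => 32 / L) A.length * |0 + sX (fun _ => ξ) A|)
      have n2 := win_ind_nonneg (∃ A B, x = A ++ B ∧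
          1 ≤ (fun _ : ℕ => 1 / (58 * L)) A.length *
            |0 + sX (fun _ a => min (h a) D - μ) A|)
      have n3 := win_ind_nonneg (¬ (x.map l).sum ≤ 16 * K * g * J)
      have n4b : ∀ a ∈ x, 0 ≤ (fun a => if l a ≤ τ then (0 : ℝ) else 1) a := by
        intro a _
        simp only
        split_ifs <;> norm_num
      have n4 := win_sum_nonneg (fun a => if l a ≤ τ then (0 : ℝ) else 1) x n4b
      by_cases c1 : ∃ A B, x = A ++ B ∧
          1 ≤ (fun _ : ℕ => 32 / L) A.length * |0 + sX (fun _ => ξ) A|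
      · rw [win_ind_pos c1]; linarith
      by_cases c2 : ∃ A B, x = A ++ B ∧
          1 ≤ (fun _ : ℕ => 1 / (58 * L)) A.length *
            |0 + sX (fun _ a => min (h a) D - μ) A|
      · rw [win_ind_pos c2]; linarith
      by_cases c3 : ¬ (x.map l).sum ≤ 16 * K * g * J
      · rw [win_ind_pos c3]; linarith
      by_cases c4 : ∃ a ∈ x, ¬ l a ≤ τ
      · obtain ⟨a, ha, hla⟩ := c4
        have := win_one_le_sum (fun a => if l a ≤ τ then (0 : ℝ) else 1) x n4b ha (by
          simp [hla])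
        linarith
      have hW : W0 h l ξ L (16 * K * g * J) x := by
        refine ⟨?_, ?_, ?_, ?_⟩
        · intro a ha
          by_contra hc
          exact c4 ⟨a, ha, fun hc' => hc (hc'.trans hτL)⟩
        · intro A B hAB
          by_contra hc
          apply c1
          refine ⟨A, B, hAB, ?_⟩
          rw [zero_add, sX_const]
          show 1 ≤ 32 / L * |(A.map ξ).sum|
          rw [not_le] at hc
          rw [div_mul_eq_mul_div, le_div_iff₀ hL0]
          linarith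
        · by_contra hc
          apply c2
          refine ⟨x, [], by simp, ?_⟩
          rw [zero_add, sX_sub (fun a => min (h a) D) (fun _ => μ)]
          show 1 ≤ 1 / (58 * L) * |(x.map (fun a => min (h a) D)).sum
            - ∑ j ∈ Finset.range x.length, μ|
          rw [Finset.sum_const, Finset.card_range, nsmul_eq_mul, hxJ]
          have h1 : (x.map (fun a => min (h a) D)).sum ≤ (x.map h).sum :=
            List.sum_le_sum (fun a _ => min_le_left _ _)
          rw [not_le] at hc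
          have h2 : (J : ℝ) * (13 / 24 * g) ≤ J * μ := mul_le_mul_of_nonneg_left hμ1 hJ0.le
          have h3 : 58 * L ≤ -((x.map (fun a => min (h a) D)).sum - J * μ) := by nlinarith
          have h4 : 58 * L ≤ |(x.map (fun a => min (h a) D)).sum - J * μ| :=
            h3.trans (neg_le_abs _)
          rw [one_div, inv_mul_eq_div, le_div_iff₀ (by positivity)]
          linarith
        · exact not_not.1 c3
      rw [win_ind_pos hW]; linarith
    rw [ES_one s (fun _ => v) (fun _ => v1), ES_add, ES_add, ES_add, ES_add, b4] at h1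
    linarith
  -- change of law
  obtain ⟨p, hp⟩ : ∃ p, p = pr s w l τ := ⟨_, rfl⟩
  have hp1 : p ≤ 1 := by rw [hp]; exact pd.pr_le τ
  have hp2 : 1 / 2 ≤ p := by rw [hp]; exact pd.half_le_pr hτ
  have hp3 : 1 - p ≤ K * g / τ := by rw [hp]; exact pd.one_sub_pr hτ0
  have hch := ES_change s (fun _ => w) (fun _ => v) (fun _ => p) (fun _ => by linarith)
    (fun _ => v0) (fun _ => by rw [hp, hv]; exact pd.pr_mul_cw hτ) J
    (fun x => ind (W0 h l ξ L (16 * K * g * J) x)) (fun x => win_ind_nonneg _)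
  rw [Finset.prod_const, Finset.card_range] at hch
  refine le_trans ?_ hch
  have hpow : Real.exp (-(2 ^ 23 * 201 * K ^ 2)) ≤ p ^ J := by
    have h1 := win_exp_le hp2 hp1
    have h2 : Real.exp (-(2 * (1 - p))) ^ J ≤ p ^ J :=
      pow_le_pow_left₀ (Real.exp_pos _).le h1 J
    refine le_trans ?_ h2
    rw [← Real.exp_nat_mul]
    apply Real.exp_le_exp.2
    have h3 : (J : ℝ) * (1 - p) ≤ J * (K * g / τ) := mul_le_mul_of_nonneg_left hp3 hJ0.le
    have h4 : (J : ℝ) * (K * g / τ) ≤ 2 ^ 22 * 201 * K ^ 2 := by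
      rw [hτdef]
      have : (J : ℝ) * (K * g / (L / (2 ^ 22 * K))) = 2 ^ 22 * K ^ 2 * (J * g) / L := by
        field_simp
      rw [this, div_le_iff₀ hL0]
      have : 2 ^ 22 * K ^ 2 * (J * g) ≤ 2 ^ 22 * K ^ 2 * (201 * L) :=
        mul_le_mul_of_nonneg_left hJ' (by positivity)
      linarith
    linarith
  have hexp1 : Real.exp (-1) ≤ 1 / 2 := by
    rw [Real.exp_neg, inv_eq_one_div]
    apply one_div_le_one_div_of_le (by norm_num)
    have := Real.add_one_le_exp (1 : ℝ)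
    linarith
  calc Real.exp (-(2 ^ 32 * K ^ 2)) ≤ Real.exp (-(2 ^ 23 * 201 * K ^ 2) + -1) := by
        apply Real.exp_le_exp.2
        nlinarith
    _ = Real.exp (-(2 ^ 23 * 201 * K ^ 2)) * Real.exp (-1) := Real.exp_add _ _
    _ ≤ Real.exp (-(2 ^ 23 * 201 * K ^ 2)) * (1 / 2) :=
        mul_le_mul_of_nonneg_left hexp1 (Real.exp_pos _).le
    _ ≤ p ^ J * (1 / 2) := mul_le_mul_of_nonneg_right hpow (by norm_num)
    _ ≤ p ^ J * ES s (fun _ => v) J (fun x => ind (W0 h l ξ L (16 * K * g * J) x)) :=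
        mul_le_mul_of_nonneg_left hv2 (pow_nonneg (by linarith) _)

end Pool.Agent.Lib.MP_c23e5f_co.G
end

section

set_option autoImplicit false

namespace Pool.Agent.Lib.MP_c23e5f_co.G

variable {ι : Type*} {s : Finset ι} {w h l ξ : ι → ℝ} {σ : ι → ι} {g K D L : ℝ}

private theorem ind_nonneg' (p : Prop) : 0 ≤ ind p := by
  unfold ind
  split_ifs <;> norm_num

private theorem ind_of {p : Prop} (hp : p) : ind p = 1 := by
  unfold ind
  rw [if_pos hp]

private theorem ind_not {p : Prop} (hp : ¬ p) : ind p = 0 := by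
  unfold ind
  rw [if_neg hp]

private theorem ES_zero' (s : Finset ι) (w : ℕ → ι → ℝ) (N : ℕ) :
    ES s w N (fun _ => 0) = 0 := by
  have := ES_smul s w N 0 (fun _ => (0 : ℝ))
  simpa using this

private theorem ES_sum_range (s : Finset ι) (w : ℕ → ι → ℝ) (N J : ℕ) (F : ℕ → List ι → ℝ) :
    ES s w N (fun x => ∑ k ∈ Finset.range J, F k x) =
      ∑ k ∈ Finset.range J, ES s w N (F k) := by
  induction J with
  | zero => simpa using ES_zero' s w N
  | succ J ih =>
    rw [Finset.sum_range_succ, ← ih, ← ES_add]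
    congr 1
    funext x
    rw [Finset.sum_range_succ]

private theorem map_map_sigma (pd : PD s w h l ξ σ g K D L) :
    ∀ x : List ι, (∀ a ∈ x, a ∈ s) → (x.map σ).map σ = x
  | [], _ => rfl
  | a :: x, hx => by
    rw [List.map_cons, List.map_cons, pd.σσ a (hx a (by simp)),
      map_map_sigma pd x fun b hb => hx b (by simp [hb])]

private theorem sum_map_xi (pd : PD s w h l ξ σ g K D L) :
    ∀ x : List ι, (∀ a ∈ x, a ∈ s) → ((x.map σ).map ξ).sum = -(x.map ξ).sum
  | [], _ => by simp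
  | a :: x, hx => by
    simp only [List.map_cons, List.sum_cons]
    rw [pd.σx a (hx a (by simp)), sum_map_xi pd x fun b hb => hx b (by simp [hb])]
    ring

private theorem sum_map_h (pd : PD s w h l ξ σ g K D L) :
    ∀ x : List ι, (∀ a ∈ x, a ∈ s) → ((x.map σ).map h).sum = (x.map h).sum
  | [], _ => by simp
  | a :: x, hx => by
    simp only [List.map_cons, List.sum_cons]
    rw [pd.σh a (hx a (by simp)), sum_map_h pd x fun b hb => hx b (by simp [hb])]

private theorem sum_map_l (pd : PD s w h l ξ σ g K D L) :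
    ∀ x : List ι, (∀ a ∈ x, a ∈ s) → ((x.map σ).map l).sum = (x.map l).sum
  | [], _ => by simp
  | a :: x, hx => by
    simp only [List.map_cons, List.sum_cons]
    rw [pd.σl a (hx a (by simp)), sum_map_l pd x fun b hb => hx b (by simp [hb])]

private theorem W0_map (pd : PD s w h l ξ σ g K D L) {C : ℝ} {x : List ι}
    (hx : ∀ a ∈ x, a ∈ s) (hw : W0 h l ξ L C x) : W0 h l ξ L C (x.map σ) := by
  obtain ⟨h1, h2, h3, h4⟩ := hw
  refine ⟨?_, ?_, ?_, ?_⟩
  · intro a ha
    obtain ⟨b, hb, rfl⟩ := List.mem_map.mp ha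
    rw [pd.σl b (hx b hb)]
    exact h1 b hb
  · intro A B hAB
    obtain ⟨A', B', hx', rfl, rfl⟩ := List.map_eq_append_iff.mp hAB
    have hA : ∀ a ∈ A', a ∈ s := fun a ha => hx a (by rw [hx']; simp [ha])
    rw [sum_map_xi pd A' hA, abs_neg]
    exact h2 A' B' hx'
  · rw [sum_map_h pd x hx]
    exact h3
  · rw [sum_map_l pd x hx]
    exact h4

private theorem W0_map_iff (pd : PD s w h l ξ σ g K D L) {C : ℝ} {x : List ι}
    (hx : ∀ a ∈ x, a ∈ s) : W0 h l ξ L C (x.map σ) ↔ W0 h l ξ L C x := by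
  refine ⟨fun hw => ?_, W0_map pd hx⟩
  have hx' : ∀ a ∈ x.map σ, a ∈ s := by
    intro a ha
    obtain ⟨b, hb, rfl⟩ := List.mem_map.mp ha
    exact pd.σs b (hx b hb)
  have := W0_map pd hx' hw
  rwa [map_map_sigma pd x hx] at this

/-- the two half events have the same probability -/
private theorem half_eq (pd : PD s w h l ξ σ g K D L) (C : ℝ) (J : ℕ) :
    ES s (fun _ => w) J (fun x => ind (W0 h l ξ L C x ∧ (x.map ξ).sum ≤ 0)) =
      ES s (fun _ => w) J (fun x => ind (W0 h l ξ L C x ∧ 0 ≤ (x.map ξ).sum)) := by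
  have h1 := ES_map s w σ pd.σs pd.σσ pd.σw J
    (fun x => ind (W0 h l ξ L C x ∧ (x.map ξ).sum ≤ 0))
  rw [← h1]
  have key : ∀ x : List ι, x.length = J → (∀ a ∈ x, a ∈ s) →
      ind (W0 h l ξ L C (x.map σ) ∧ ((x.map σ).map ξ).sum ≤ 0) =
        ind (W0 h l ξ L C x ∧ 0 ≤ (x.map ξ).sum) := by
    intro x _ hx
    have : (W0 h l ξ L C (x.map σ) ∧ ((x.map σ).map ξ).sum ≤ 0) ↔
        (W0 h l ξ L C x ∧ 0 ≤ (x.map ξ).sum) := by
      rw [W0_map_iff pd hx, sum_map_xi pd x hx, neg_nonpos]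
    rw [propext this]
  exact le_antisymm
    (ES_mono s _ (fun _ => pd.w0) J _ _ fun x h1 h2 => (key x h1 h2).le)
    (ES_mono s _ (fun _ => pd.w0) J _ _ fun x h1 h2 => (key x h1 h2).ge)

private theorem half_le (pd : PD s w h l ξ σ g K D L) (C : ℝ) (J : ℕ) :
    ES s (fun _ => w) J (fun x => ind (W0 h l ξ L C x)) / 2 ≤
      ES s (fun _ => w) J (fun x => ind (W0 h l ξ L C x ∧ (x.map ξ).sum ≤ 0)) := by
  have h1 : ES s (fun _ => w) J (fun x => ind (W0 h l ξ L C x)) ≤
      ES s (fun _ => w) J (fun x => ind (W0 h l ξ L C x ∧ (x.map ξ).sum ≤ 0) +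
        ind (W0 h l ξ L C x ∧ 0 ≤ (x.map ξ).sum)) := by
    refine ES_mono s _ (fun _ => pd.w0) J _ _ fun x _ _ => ?_
    by_cases hw : W0 h l ξ L C x
    · rcases le_total (x.map ξ).sum 0 with h0 | h0
      · rw [ind_of hw, ind_of ⟨hw, h0⟩]
        linarith [ind_nonneg' (W0 h l ξ L C x ∧ 0 ≤ (x.map ξ).sum)]
      · rw [ind_of hw, ind_of (p := W0 h l ξ L C x ∧ 0 ≤ (x.map ξ).sum) ⟨hw, h0⟩]
        linarith [ind_nonneg' (W0 h l ξ L C x ∧ (x.map ξ).sum ≤ 0)]
    · rw [ind_not hw]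
      exact add_nonneg (ind_nonneg' _) (ind_nonneg' _)
  rw [ES_add, ← half_eq pd] at h1
  linarith

private theorem rot_le (pd : PD s w h l ξ σ g K D L) (J : ℕ) (p q : List ι → Prop)
    (hpq : ∀ x : List ι, x.length = J → p x → ∃ k < x.length, q (x.rotate k)) :
    ES s (fun _ => w) J (fun x => ind (p x)) ≤ J * ES s (fun _ => w) J (fun x => ind (q x)) := by
  have h1 : ES s (fun _ => w) J (fun x => ind (p x)) ≤
      ES s (fun _ => w) J (fun x => ∑ k ∈ Finset.range J, ind (q (x.rotate k))) := by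
    refine ES_mono s _ (fun _ => pd.w0) J _ _ fun x hxl _ => ?_
    by_cases hp : p x
    · obtain ⟨k, hk, hq⟩ := hpq x hxl hp
      rw [ind_of hp, ← ind_of hq]
      exact Finset.single_le_sum (f := fun k => ind (q (x.rotate k)))
        (fun k _ => ind_nonneg' _) (Finset.mem_range.mpr (hxl ▸ hk))
    · rw [ind_not hp]
      exact Finset.sum_nonneg fun k _ => ind_nonneg' _
  refine h1.trans (le_of_eq ?_)
  rw [ES_sum_range s (fun _ => w) J J (fun k x => ind (q (x.rotate k)))]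
  have h2 : ∀ k ∈ Finset.range J, ES s (fun _ => w) J (fun x => ind (q (x.rotate k))) =
      ES s (fun _ => w) J (fun x => ind (q x)) :=
    fun k _ => ES_rotate s w J k (fun x => ind (q x))
  rw [Finset.sum_congr rfl h2, Finset.sum_const, Finset.card_range, nsmul_eq_mul]

private theorem J_pos (pd : PD s w h l ξ σ g K D L) {J : ℕ} (hJ : 200 * L ≤ J * g) : 0 < J := by
  rcases Nat.eq_zero_or_pos J with h0 | h0
  · subst h0
    have hK := pd.K1
    have hD := pd.D1
    have hL := pd.hL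
    have : (1 : ℝ) ≤ K ^ 2 * D := by nlinarith [mul_self_nonneg (K - 1)]
    simp only [Nat.cast_zero, zero_mul] at hJ
    nlinarith
  · exact h0

private theorem fin_le {q P : ℝ} {J : ℕ} (hJ : 0 < J) (h : q / 2 ≤ J * P) :
    q / (2 * J) ≤ P := by
  have hJ' : (0 : ℝ) < J := by exact_mod_cast hJ
  rw [div_le_iff₀ (by positivity)]
  nlinarith

/-- (4.5) window lemma, the maximum in the first entry -/
theorem PD.window_first (pd : PD s w h l ξ σ g K D L) (e : ι → ℝ) (J : ℕ)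
    (hJ : 200 * L ≤ J * g) (hJ' : J * g ≤ 201 * L) :
    Real.exp (-(2 ^ 32 * K ^ 2)) / (2 * J) ≤
      ES s (fun _ => w) J (fun x => ind (W1 h l ξ L (16 * K * g * J) x ∧ MF ξ e x)) := by
  have hJ0 := J_pos pd hJ
  refine fin_le hJ0 ?_
  have h1 := pd.window0 J hJ hJ'
  have h2 := half_le pd (16 * K * g * J) J
  have h3 := rot_le pd J (fun x => W0 h l ξ L (16 * K * g * J) x ∧ (x.map ξ).sum ≤ 0)
    (fun x => W1 h l ξ L (16 * K * g * J) x ∧ MF ξ e x) (by
      rintro x hx ⟨hw, hs⟩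
      have hne : x ≠ [] := by
        rintro rfl
        simp at hx
        omega
      obtain ⟨k, hk, hq⟩ := exists_rotate_mf ξ e hne hs
      exact ⟨k, hk, w1_rotate hw k, hq⟩)
  exact (div_le_div_of_nonneg_right h1 (by norm_num)).trans (h2.trans h3)

/-- (4.5) window lemma, the maximum in the last entry -/
theorem PD.window_last (pd : PD s w h l ξ σ g K D L) (e : ι → ℝ) (J : ℕ)
    (hJ : 200 * L ≤ J * g) (hJ' : J * g ≤ 201 * L) :
    Real.exp (-(2 ^ 32 * K ^ 2)) / (2 * J) ≤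
      ES s (fun _ => w) J (fun x => ind (W1 h l ξ L (16 * K * g * J) x ∧ ML ξ e x)) := by
  have hJ0 := J_pos pd hJ
  refine fin_le hJ0 ?_
  have h1 := pd.window0 J hJ hJ'
  have h2 := half_le pd (16 * K * g * J) J
  rw [half_eq pd] at h2
  have h3 := rot_le pd J (fun x => W0 h l ξ L (16 * K * g * J) x ∧ 0 ≤ (x.map ξ).sum)
    (fun x => W1 h l ξ L (16 * K * g * J) x ∧ ML ξ e x) (by
      rintro x hx ⟨hw, hs⟩
      have hne : x ≠ [] := by
        rintro rfl
        simp at hx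
        omega
      obtain ⟨k, hk, hq⟩ := exists_rotate_ml ξ e hne hs
      exact ⟨k, hk, w1_rotate hw k, hq⟩)
  exact (div_le_div_of_nonneg_right h1 (by norm_num)).trans (h2.trans h3)

end Pool.Agent.Lib.MP_c23e5f_co.G
end
end

section

section

set_option autoImplicit false

namespace Pool.Agent.Lib.MP_c23e5f_co.G

open Pool.Agent.Lib.MP_c23e5f_co

/-- the price of the insertion -/
theorem weight_ins {β t m : ℝ} (hβ : CR β) (ht0 : 0 ≤ t) (ht : t ≤ 1) (hm : 0 ≤ m) {Γ ρ : Wd}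
    {s : ℕ} (hs : s ≤ Γ.length) (hρ : ∀ v ∈ ρ, IsStep v) (hm1 : 2 * m * ρ.length ≤ 1) :
    E β t m Γ * E β t m ρ ≤ 30 * E β t m (ins Γ ρ s) := by
  obtain ⟨a1, a2⟩ := abs_sum_le hρ
  have b1 : (ρ.sum.1 : ℝ) ≤ ρ.length := by
    have : ρ.sum.1 ≤ (ρ.length : ℤ) := (le_abs_self _).trans a1
    exact_mod_cast this
  have b2 : -(ρ.length : ℝ) ≤ ρ.sum.2 := by
    have : -(ρ.length : ℤ) ≤ ρ.sum.2 := (abs_le.1 a2).1
    exact_mod_cast this
  have e30 : Real.exp (Real.log 4 + 2) ≤ 30 := by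
    rw [Real.exp_add, Real.exp_log (by norm_num), show (2 : ℝ) = 1 + 1 by norm_num, Real.exp_add]
    have h1 := Real.exp_one_lt_d9
    have h0 := Real.exp_pos 1
    have h2 : Real.exp 1 * Real.exp 1 ≤ 2.7182818286 * 2.7182818286 :=
      mul_le_mul h1.le h1.le h0.le (by norm_num)
    calc (4 : ℝ) * (Real.exp 1 * Real.exp 1) ≤ 4 * (2.7182818286 * 2.7182818286) := by linarith
      _ ≤ 30 := by norm_num
  have hx : m * ((ρ.sum.1 : ℝ) - ρ.sum.2) ≤ 1 := by
    have h1 : (ρ.sum.1 : ℝ) - ρ.sum.2 ≤ 2 * ρ.length := by linarith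
    calc m * ((ρ.sum.1 : ℝ) - ρ.sum.2) ≤ m * (2 * ρ.length) := mul_le_mul_of_nonneg_left h1 hm
      _ = 2 * m * ρ.length := by ring
      _ ≤ 1 := hm1
  have hle := hβ.le
  unfold E
  rw [length_ins Γ ρ hs, sum_ins_fst]
  push_cast
  calc Real.exp (-(β + t) * Γ.length + m * Γ.sum.1) * Real.exp (-(β + t) * ρ.length + m * ρ.sum.1)
      = Real.exp ((β + t) + m * ((ρ.sum.1 : ℝ) - ρ.sum.2)) *
        Real.exp (-(β + t) * (Γ.length + ρ.length + 1) + m * (Γ.sum.1 + ρ.sum.2)) := by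
        rw [← Real.exp_add, ← Real.exp_add]
        congr 1
        ring
    _ ≤ Real.exp (Real.log 4 + 2) *
        Real.exp (-(β + t) * (Γ.length + ρ.length + 1) + m * (Γ.sum.1 + ρ.sum.2)) := by
        apply mul_le_mul_of_nonneg_right _ (Real.exp_pos _).le
        apply Real.exp_le_exp.2
        linarith
    _ ≤ 30 * Real.exp (-(β + t) * (Γ.length + ρ.length + 1) + m * (Γ.sum.1 + ρ.sum.2)) :=
        mul_le_mul_of_nonneg_right e30 (Real.exp_pos _).le

end Pool.Agent.Lib.MP_c23e5f_co.G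
end

section

set_option autoImplicit false

namespace Pool.Agent.Lib.MP_c23e5f_co.G

open Pool.Agent.Lib.MP_c23e5f_co

open scoped ENNReal

theorem loops_lower : ∃ C0 : ℝ, 0 < C0 ∧ ∀ x : ℝ≥0∞, IsCrit x → ∀ n : ℕ, 2 ≤ n →
    Real.exp (-(C0 * √(2 * n) * Real.log (2 * n))) ≤
      ((Loops n).ncard : ℕ) * Real.exp (Real.log x.toReal * (2 * n)) := by
  obtain ⟨C0, hC0, h⟩ := loop_lower
  refine ⟨C0, hC0, fun x hx n hn => ?_⟩
  have h1 := h x hx (2 * n) ⟨n, by ring⟩ (by omega)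
  have hN : 1 ≤ 2 * n := by omega
  have hset : {w | IsLoopWord (2 * n) w} = {w | ∃ f ∈ Loops n, w = seg f 0 (2 * n)} := by
    ext w
    rw [Set.mem_ofPred_eq, Set.mem_ofPred_eq, isLoopWord_iff hN]
    constructor
    · rintro ⟨f, hf, rfl⟩
      exact ⟨f, (mem_loops_iff f).2 hf, rfl⟩
    · rintro ⟨f, hf, rfl⟩
      exact ⟨f, (mem_loops_iff f).1 hf, rfl⟩
  rw [hset, wt_loops hN x (Loops n) (fun f hf => (mem_loops_iff f).1 hf)] at h1
  have hxtop : x ≠ ⊤ := ne_top_of_le_ne_top ENNReal.one_ne_top hx.le_one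
  have hx0 : 0 < x.toReal := by
    apply ENNReal.toReal_pos _ hxtop
    intro h0
    have h2 := hx.quarter_le
    rw [h0] at h2
    simp at h2
  have hfin : ((Loops n).ncard : ℝ≥0∞) * x ^ (2 * n) ≠ ⊤ :=
    ENNReal.mul_ne_top (ENNReal.natCast_ne_top _) (ENNReal.pow_ne_top hxtop)
  have h3 := ENNReal.toReal_mono hfin h1
  rw [ENNReal.toReal_ofReal (Real.exp_pos _).le, ENNReal.toReal_mul, ENNReal.toReal_pow,
    ENNReal.toReal_natCast] at h3
  have h4 : Real.exp (Real.log x.toReal * (2 * n)) = x.toReal ^ (2 * n) := by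
    rw [show Real.log x.toReal * (2 * (n : ℝ)) = ((2 * n : ℕ) : ℝ) * Real.log x.toReal by
      push_cast; ring, Real.exp_nat_mul, Real.exp_log hx0]
  rw [h4]
  push_cast at h3
  exact h3

theorem finite_Loops {n : ℕ} (hn : 1 ≤ n) : (Loops n).Finite :=
  (finite_loops (N := 2 * n) (by omega)).subset (fun f hf => (mem_loops_iff f).1 hf)

end Pool.Agent.Lib.MP_c23e5f_co.G
end

section

set_option autoImplicit false

namespace Pool.Agent.Lib.MP_c23e5f_co.G

open Pool.Agent.Lib.MP_c23e5f_co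

private lemma kp_sum (w : Wd) : (w.map refl2).sum = refl2 w.sum := (map_list_sum refl2 w).symm

/-- the law of the irreducible bridges has the properties of Section 4 -/
theorem pd_of_mass {β t m : ℝ} {H : ℕ} (hβ : CR β) (hH : 1 ≤ H) (ht : 0 < t)
    (h : Mass β H t m) {a K : ℕ} (ha : 1 ≤ a) (hK : 1 ≤ K) (hmK : m ≤ K * t)
    (hb : Ex β H t m (fun w => (Cb a w : ℝ)) ≤ Ex β H t m hR / 4) :
    PD (irrs H) (E β t m) hR lR xR (fun w => w.map refl2) (Ex β H t m hR) K
      (2 ^ 16 * (a : ℝ) ^ 7) ((2 ^ 41 * K ^ 2 * a ^ 7 : ℕ) : ℝ) := by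
  have ha1 : (1 : ℝ) ≤ a := by exact_mod_cast ha
  have hK1 : (1 : ℝ) ≤ K := by exact_mod_cast hK
  have hg : 1 ≤ Ex β H t m hR := one_le_g h
  refine
    { w0 := fun w _ => (E_pos β t m w).le
      w1 := h.z
      h1 := fun w hw => ?_
      hl := fun w hw => ?_
      xl := fun w hw => ?_
      σs := fun w hw => ?_
      σσ := fun w _ => ?_
      σw := fun w _ => ?_
      σh := fun w _ => ?_
      σl := fun w _ => ?_
      σx := fun w _ => ?_
      gE := rfl
      K1 := hK1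
      lK := ?_
      D1 := ?_
      hD := ?_
      hL := ?_ }
  · have h1 := (mem_irrs.1 hw).1
    have h2 := h1.br.ht_pos h1.ne
    unfold hR
    exact_mod_cast h2
  · have h1 := (mem_irrs.1 hw).1
    have h2 := (abs_sum_le h1.br.saw.step).1
    have h3 : w.sum.1 ≤ (w.length : ℤ) := (le_abs_self _).trans h2
    unfold hR lR
    exact_mod_cast h3
  · have h1 := (mem_irrs.1 hw).1
    have h2 := (abs_sum_le h1.br.saw.step).2
    unfold xR lR
    exact_mod_cast h2
  · have h1 := mem_irrs.1 hw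
    rw [mem_irrs]
    exact ⟨h1.1.map_refl2, by rw [List.length_map]; exact h1.2⟩
  · simp only [List.map_map]
    conv_rhs => rw [← List.map_id w]
    refine List.map_congr_left fun v _ => ?_
    ext <;> simp
  · simp only [E, List.length_map, kp_sum, refl2_apply]
  · simp only [hR, kp_sum, refl2_apply]
  · simp only [lR, List.length_map]
  · simp only [xR, kp_sum, refl2_apply, Int.cast_neg]
  · have h1 := kappa_le hβ hH h
    have h2 : t * Ex β H t m (fun w => (w.length : ℝ)) ≤ t * (K * Ex β H t m hR) := by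
      refine h1.trans ?_
      have : m * Ex β H t m hR ≤ (K * t) * Ex β H t m hR :=
        mul_le_mul_of_nonneg_right hmK (by linarith)
      linarith
    exact le_of_mul_le_mul_left h2 ht
  · have : (1 : ℝ) ≤ (a : ℝ) ^ 7 := one_le_pow₀ ha1
    linarith
  · exact small_tail h ha hb
  · push_cast
    apply le_of_eq
    ring

end Pool.Agent.Lib.MP_c23e5f_co.G
end

section

set_option autoImplicit false

namespace Pool.Agent.Lib.MP_c23e5f_co.G

open Pool.Agent.Lib.MP_c23e5f_co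

/-- the data of the insertion: (factors before, window, window, factors after, inserted factors) -/
abbrev Dt := List Wd × List Wd × List Wd × List Wd × List Wd

/-- the word made of the first four lists -/
def gam (d : Dt) : Wd := (d.1 ++ d.2.1 ++ d.2.2.1 ++ d.2.2.2.1).flatten

/-- the inserted bridge -/
def rh (d : Dt) : Wd := d.2.2.2.2.flatten

/-- the double counting -/
theorem sum_data_le {β t m : ℝ} {H L M J n : ℕ} (hβ : CR β) (ht0 : 0 ≤ t) (ht : t ≤ 1)
    (hm : 0 ≤ m) (hZ : Z β H t m = 1) (hM : 1 ≤ M) (hJ : 1 ≤ J) (hnH : n ≤ H)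
    (𝒟 : Finset Dt)
    (h : ∀ d ∈ 𝒟, GlHyp d.1 d.2.1 d.2.2.1 d.2.2.2.1 d.2.2.2.2 L ∧
      (∀ a ∈ d.1 ++ d.2.1 ++ d.2.2.1 ++ d.2.2.2.1, Irr a) ∧ (∀ a ∈ d.2.2.2.2, Irr a) ∧
      d.2.1.length = J ∧ d.2.2.1.length = J ∧ M ≤ (rh d).length ∧
      2 * m * (rh d).length ≤ 1 ∧ (gam d).length + (rh d).length + 1 ≤ n) :
    ∑ d ∈ 𝒟, E β t m (gam d) * E β t m (rh d) ≤
      90 * (((n / M + 1) * (100 * L ^ 2) ^ 2 * n : ℕ) : ℝ) := by
  classical
  have hglue : ∀ d ∈ 𝒟, ∃ s, (d.1 ++ d.2.1.dropLast).flatten.length ≤ s ∧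
      s ≤ (d.1 ++ d.2.1 ++ d.2.2.1.take 1).flatten.length ∧
      InsHyp (gam d) (rh d) L (d.1 ++ d.2.1).flatten.length s := fun d hd => glue (h d hd).1
  choose! s hs1 hs2 hs3 using hglue
  obtain ⟨V, hV⟩ : ∃ V : Dt → Wd, V = fun d => ins (gam d) (rh d) (s d) := ⟨_, rfl⟩
  have hlen : ∀ d ∈ 𝒟, (V d).length = (gam d).length + (rh d).length + 1 := by
    intro d hd
    rw [hV]
    exact length_ins _ _ (hs3 d hd).hs
  -- the weight
  have hw : ∑ d ∈ 𝒟, E β t m (gam d) * E β t m (rh d) ≤ 30 * ∑ d ∈ 𝒟, E β t m (V d) := by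
    rw [Finset.mul_sum]
    refine Finset.sum_le_sum fun d hd => ?_
    rw [hV]
    exact weight_ins hβ ht0 ht hm (hs3 d hd).hs (hs3 d hd).brρ.saw.step (h d hd).2.2.2.2.2.2.1
  -- the words that occur
  have hVprop : ∀ W ∈ 𝒟.image V, Br W ∧ W ≠ [] ∧ nf W ≤ n ∧ W.length ≤ H := by
    intro W hW
    obtain ⟨d, hd, rfl⟩ := Finset.mem_image.1 hW
    have hbr : Br (V d) := by
      rw [hV]
      exact br_ins (hs3 d hd)
    have hl := hlen d hd
    have hn := (h d hd).2.2.2.2.2.2.2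
    refine ⟨hbr, ?_, ?_, ?_⟩
    · intro h0
      rw [h0] at hl
      simp at hl
    · have := nf_le_length hbr
      omega
    · omega
  have hsum := sum_nf_le hZ n (𝒟.image V) hVprop
  -- the fibres
  have hfib : ∀ W ∈ 𝒟.image V, ((𝒟.filter (fun d => V d = W)).card : ℕ) ≤
      3 * ((n / M + 1) * (100 * L ^ 2) ^ 2) := by
    intro W hW
    obtain ⟨d₀, hd₀, hd₀W⟩ := Finset.mem_image.1 hW
    have hL1 : 1 ≤ L := (hs3 d₀ hd₀).L1
    have hWn : W.length ≤ n := by
      have h1 := hlen d₀ hd₀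
      have h2 := (h d₀ hd₀).2.2.2.2.2.2.2
      rw [hd₀W] at h1
      omega
    have hcard := card_adm_le (hVprop W hW).1.saw hL1 hM
    have hinj : (𝒟.filter (fun d => V d = W)).card ≤
        ((((Finset.range (W.length + 1)) ×ˢ (Finset.range (W.length + 1))).filter
          (fun p : ℕ × ℕ => Adm W L p.1 p.2 ∧ p.1 + M ≤ p.2)) ×ˢ (Finset.range 3)).card := by
      refine Finset.card_le_card_of_injOn
        (fun d => ((s d, s d + (rh d).length), d.1.length % 3)) ?_ ?_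
      · intro d hd
        obtain ⟨hd1, hd2⟩ := Finset.mem_filter.1 (Finset.mem_coe.1 hd)
        have hl := hlen d hd1
        have h3 := hs3 d hd1
        have hM' := (h d hd1).2.2.2.2.2.1
        have hadm : Adm W L (s d) (s d + (rh d).length) := by
          rw [← hd2, hV]
          exact adm_ins h3
        have hsl := h3.hs
        rw [hd2] at hl
        refine Finset.mem_coe.2 (Finset.mem_product.2 ⟨Finset.mem_filter.2
          ⟨Finset.mem_product.2 ⟨?_, ?_⟩, hadm, ?_⟩, ?_⟩)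
        · exact Finset.mem_range.2 (by simp only; omega)
        · exact Finset.mem_range.2 (by simp only; omega)
        · simp only
          omega
        · exact Finset.mem_range.2 (Nat.mod_lt _ (by norm_num))
      · intro d hd d' hd' heq
        obtain ⟨hd1, hd2⟩ := Finset.mem_filter.1 (Finset.mem_coe.1 hd)
        obtain ⟨hd1', hd2'⟩ := Finset.mem_filter.1 (Finset.mem_coe.1 hd')
        simp only [Prod.mk.injEq] at heq
        obtain ⟨⟨he1, he2⟩, he3⟩ := heq
        have h1 := h d hd1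
        have h1' := h d' hd1'
        have hVV : ins (gam d) (rh d) (s d) = ins (gam d') (rh d') (s d) := by
          have h2 : V d = V d' := hd2.trans hd2'.symm
          rw [hV] at h2
          simp only at h2
          rw [h2, he1]
        obtain ⟨e1, e2, e3, e4, e5⟩ := data_inj (s := s d) (s2 := s d + (rh d).length) hJ
          h1.2.1 h1'.2.1 h1.2.2.1 h1'.2.2.1 h1.2.2.2.1 h1'.2.2.2.1 h1.2.2.2.2.1 h1'.2.2.2.2.1
          (hs1 d hd1) (hs2 d hd1) (by rw [he1]; exact hs1 d' hd1')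
          (by rw [he1]; exact hs2 d' hd1') rfl (by rw [he2, he1]; rfl) he3 hVV
        exact Prod.ext e1 (Prod.ext e2 (Prod.ext e3 (Prod.ext e4 e5)))
    rw [Finset.card_product, Finset.card_range] at hinj
    have hdiv : W.length / M ≤ n / M := Nat.div_le_div_right hWn
    calc (𝒟.filter (fun d => V d = W)).card
        ≤ (((Finset.range (W.length + 1)) ×ˢ (Finset.range (W.length + 1))).filter
          (fun p : ℕ × ℕ => Adm W L p.1 p.2 ∧ p.1 + M ≤ p.2)).card * 3 := hinj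
      _ ≤ ((W.length / M + 1) * (100 * L ^ 2) ^ 2) * 3 := Nat.mul_le_mul_right 3 hcard
      _ ≤ ((n / M + 1) * (100 * L ^ 2) ^ 2) * 3 := by gcongr
      _ = 3 * ((n / M + 1) * (100 * L ^ 2) ^ 2) := Nat.mul_comm _ _
  have hfs : ∑ d ∈ 𝒟, E β t m (V d) ≤
      ((3 * ((n / M + 1) * (100 * L ^ 2) ^ 2) : ℕ) : ℝ) * ∑ W ∈ 𝒟.image V, E β t m W := by
    rw [← Finset.sum_fiberwise_of_maps_to (g := V) (t := 𝒟.image V)
      (fun d hd => Finset.mem_image_of_mem V hd), Finset.mul_sum]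
    refine Finset.sum_le_sum fun W hW => ?_
    have h1 : ∑ d ∈ 𝒟.filter (fun d => V d = W), E β t m (V d) =
        ((𝒟.filter (fun d => V d = W)).card : ℝ) * E β t m W := by
      rw [Finset.sum_congr rfl (fun d hd => by rw [(Finset.mem_filter.1 hd).2]),
        Finset.sum_const, nsmul_eq_mul]
    rw [h1]
    exact mul_le_mul_of_nonneg_right (by exact_mod_cast hfib W hW) (E_pos _ _ _ _).le
  have hK : (0 : ℝ) ≤ ((3 * ((n / M + 1) * (100 * L ^ 2) ^ 2) : ℕ) : ℝ) := Nat.cast_nonneg _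
  calc ∑ d ∈ 𝒟, E β t m (gam d) * E β t m (rh d)
      ≤ 30 * ∑ d ∈ 𝒟, E β t m (V d) := hw
    _ ≤ 30 * (((3 * ((n / M + 1) * (100 * L ^ 2) ^ 2) : ℕ) : ℝ) *
        ∑ W ∈ 𝒟.image V, E β t m W) := by linarith
    _ ≤ 30 * (((3 * ((n / M + 1) * (100 * L ^ 2) ^ 2) : ℕ) : ℝ) * n) := by
        have := mul_le_mul_of_nonneg_left hsum hK
        linarith
    _ = 90 * (((n / M + 1) * (100 * L ^ 2) ^ 2 * n : ℕ) : ℝ) := by
        rw [Nat.cast_mul, Nat.cast_mul ((n / M + 1) * (100 * L ^ 2) ^ 2) n]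
        push_cast
        ring

end Pool.Agent.Lib.MP_c23e5f_co.G
end

section

set_option autoImplicit false

namespace Pool.Agent.Lib.MP_c23e5f_co.G

open Pool.Agent.Lib.MP_c23e5f_co

open Classical in
/-- lists with a property -/
private noncomputable def fls (H N : ℕ) (p : List Wd → Prop) : Finset (List Wd) :=
  (lsts (irrs H) N).filter (fun x => p x)

private lemma mem_fls {H N : ℕ} {p : List Wd → Prop} {x : List Wd} :
    x ∈ fls H N p ↔ (x.length = N ∧ ∀ a ∈ x, a ∈ irrs H) ∧ p x := by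
  classical
  simp only [fls, Finset.mem_filter, mem_lsts]

private lemma sum_fls (β t m : ℝ) (H N : ℕ) (p : List Wd → Prop) :
    ∑ x ∈ fls H N p, (x.map (E β t m)).prod =
      ES (irrs H) (fun _ => E β t m) N (fun x => ind (p x)) := by
  classical
  simp only [ES_eq_sum, fls, Finset.sum_filter]
  apply Finset.sum_congr rfl
  intro x _
  rw [ind]
  by_cases h : p x
  · rw [if_pos h, if_pos h, mul_one]
  · rw [if_neg h, if_neg h, mul_zero]

private lemma evB_mono {g C C' : ℝ} {L : ℕ} {x : List Wd} (h : evB g C L x) (hC : C ≤ C') :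
    evB g C' L x := ⟨h.1, h.2.1, h.2.2.trans hC⟩

private lemma evA_mono {g C C' : ℝ} {L : ℕ} {x : List Wd} (h : evA g C L x) (hC : C ≤ C') :
    evA g C' L x := evB_mono h hC

private lemma evM_mono {C C' : ℝ} {L : ℕ} {x : List Wd} (h : evM C L x) (hC : C ≤ C') :
    evM C' L x := ⟨⟨h.1.1, h.1.2.1, h.1.2.2.1, h.1.2.2.2.trans hC⟩, h.2⟩

private lemma evP_mono {C C' : ℝ} {L : ℕ} {x : List Wd} (h : evP C L x) (hC : C ≤ C') :
    evP C' L x := ⟨⟨h.1.1, h.1.2.1, h.1.2.2.1, h.1.2.2.2.trans hC⟩, h.2⟩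

/-- the data with given numbers of factors -/
private noncomputable def dat (H J L : ℕ) (g : ℝ) (K M : ℕ) (p : ℕ × ℕ) : Finset Dt :=
  (fls H (128 * K * M + p.1) (evA g (16 * K * g * ((128 * K * M + p.1 : ℕ) : ℝ)) L)) ×ˢ
  ((fls H J (evM (16 * K * g * J) L)) ×ˢ ((fls H J (evP (16 * K * g * J) L)) ×ˢ
  ((fls H (J + 256 * K * M - p.1) (evB g (16 * K * g * ((J + 256 * K * M - p.1 : ℕ) : ℝ)) L)) ×ˢ
  (fls H (M + p.2) (evR (16 * K * g * ((M + p.2 : ℕ) : ℝ)) L)))))

private lemma sum_prod5 {α : Type*} (w : α → ℝ) (A B C D F : Finset α) :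
    ∑ d ∈ A ×ˢ (B ×ˢ (C ×ˢ (D ×ˢ F))), w d.1 * w d.2.1 * w d.2.2.1 * w d.2.2.2.1 * w d.2.2.2.2 =
      (∑ x ∈ A, w x) * ((∑ x ∈ B, w x) * ((∑ x ∈ C, w x) * ((∑ x ∈ D, w x) * (∑ x ∈ F, w x)))) := by
  simp only [Finset.sum_product, Finset.sum_mul_sum]
  simp only [Finset.mul_sum, mul_assoc]

private lemma two_pow_le_exp (n : ℕ) : (2 : ℝ) ^ n ≤ Real.exp n := by
  have h1 : (2 : ℝ) ≤ Real.exp 1 := by
    have := Real.add_one_le_exp (1 : ℝ)
    linarith
  calc (2 : ℝ) ^ n ≤ (Real.exp 1) ^ n := pow_le_pow_left₀ (by norm_num) h1 n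
    _ = Real.exp n := by rw [← Real.exp_nat_mul, mul_one]

/-- `2 ^ 60 * K ^ 2 ≤ exp (2 ^ 35 * K ^ 2)` -/
private lemma exp_big {K : ℝ} (hK : 1 ≤ K) :
    2 ^ 60 * K ^ 2 ≤ Real.exp (2 ^ 35 * K ^ 2) := by
  have hK2 : 1 ≤ K ^ 2 := one_le_pow₀ hK
  have h1 : (2 : ℝ) ^ 60 ≤ Real.exp (60 : ℕ) := two_pow_le_exp 60
  have h2 : K ^ 2 ≤ Real.exp (K ^ 2) := by
    have := Real.add_one_le_exp (K ^ 2)
    linarith
  calc 2 ^ 60 * K ^ 2 ≤ Real.exp (60 : ℕ) * Real.exp (K ^ 2) := by gcongr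
    _ = Real.exp ((60 : ℕ) + K ^ 2) := by rw [Real.exp_add]
    _ ≤ _ := by
      apply Real.exp_le_exp.2
      push_cast
      nlinarith

private lemma mass_mul (β t m : ℝ) (d : Dt) :
    E β t m (gam d) * E β t m (rh d) =
      (d.1.map (E β t m)).prod * (d.2.1.map (E β t m)).prod * (d.2.2.1.map (E β t m)).prod *
        (d.2.2.2.1.map (E β t m)).prod * (d.2.2.2.2.map (E β t m)).prod := by
  rw [gam, rh, E_flatten, E_flatten]
  simp only [List.map_append, List.prod_append]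

/-- (6.1) -/
theorem key {β t m : ℝ} {H K a : ℕ} (hβ : CR β) (hK : 1 ≤ K) (ha : 1 ≤ a) (ht : 0 < t)
    (hta : t * (a : ℝ) ^ 46 * Real.exp (2 ^ 36 * (K : ℝ) ^ 2) ≤ 1) (hH : 1 ≤ t * H)
    (h : Mass β H t m) (hmK : m ≤ K * t) :
    Ex β H t m hR / 4 < Ex β H t m (fun w => (Cb a w : ℝ)) := by
  classical
  by_contra hcon
  push Not at hcon
  have hg1 : 1 ≤ Ex β H t m hR := one_le_g h
  have hg4 : Ex β H t m hR ≤ 4 * (a:ℝ)^4 := small_g h ha hcon
  have hK1 : (1:ℝ) ≤ K := by exact_mod_cast hK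
  have ha1 : (1:ℝ) ≤ a := by exact_mod_cast ha
  have hexp : 1 ≤ Real.exp (2^36*(K:ℝ)^2) := Real.one_le_exp (by positivity)
  have ha46 : 1 ≤ (a:ℝ)^46 := one_le_pow₀ ha1
  have ht1 : t ≤ 1 := by
    calc t = t * 1 * 1 := by ring
      _ ≤ t * (a:ℝ)^46 * Real.exp (2^36*(K:ℝ)^2) := by gcongr
      _ ≤ 1 := hta
  have hH1 : 1 ≤ H := by
    rcases Nat.eq_zero_or_pos H with h0 | h0
    · rw [h0] at hH; norm_num at hH
    · exact h0
  have hm0 : 0 ≤ m := h.t0.trans h.tm
  obtain ⟨L, hL⟩ : ∃ L : ℕ, L = 2^41*K^2*a^7 := ⟨_, rfl⟩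
  have pd := pd_of_mass hβ hH1 ht h ha hK hmK hcon
  rw [← hL] at pd
  generalize hgdef : Ex β H t m hR = g at pd hg1 hg4
  have hLR : (L:ℝ) = 2^41*(K:ℝ)^2*(a:ℝ)^7 := by rw [hL]; push_cast; ring
  have hK2 : (1:ℝ) ≤ (K:ℝ)^2 := one_le_pow₀ hK1
  have ha7 : (a:ℝ)^4 ≤ (a:ℝ)^7 := pow_le_pow_right₀ ha1 (by norm_num)
  have ha7' : (1:ℝ) ≤ (a:ℝ)^7 := one_le_pow₀ ha1
  have hKa : (a:ℝ)^7 ≤ (K:ℝ)^2*(a:ℝ)^7 := le_mul_of_one_le_left (by positivity) hK2
  have hL1R : (1:ℝ) ≤ L := by rw [hLR]; nlinarith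
  have hL1 : 1 ≤ L := by exact_mod_cast hL1R
  have hLg : g ≤ L := by rw [hLR]; nlinarith
  have hg0 : 0 < g := by linarith
  -- the window length
  obtain ⟨J, hJ⟩ : ∃ J : ℕ, J = ⌈200*(L:ℝ)/g⌉₊ := ⟨_, rfl⟩
  have hJ1 : 200 * (L:ℝ) ≤ J*g := by
    have : 200*(L:ℝ)/g ≤ J := by rw [hJ]; exact Nat.le_ceil _
    rwa [div_le_iff₀ hg0] at this
  have hJ2 : J*g ≤ 201 * (L:ℝ) := by
    have h1 : (J:ℝ) < 200*(L:ℝ)/g + 1 := by
      rw [hJ]; exact Nat.ceil_lt_add_one (by positivity)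
    have h2 : (J:ℝ) * g ≤ (200*(L:ℝ)/g + 1) * g := mul_le_mul_of_nonneg_right h1.le hg0.le
    have h3 : (200*(L:ℝ)/g + 1) * g = 200 * L + g := by field_simp
    linarith
  have hJpos : 1 ≤ J := by
    rcases Nat.eq_zero_or_pos J with h0 | h0
    · rw [h0] at hJ1; norm_num at hJ1; linarith
    · exact h0
  have hJ1R : (1:ℝ) ≤ J := by exact_mod_cast hJpos
  have hJL : (J:ℝ) ≤ 201 * L := by
    calc (J:ℝ) = J * 1 := by ring
      _ ≤ J * g := by gcongr
      _ ≤ _ := hJ2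
  -- the length of the inserted bridge
  have hexp35 : 2 ^ 60 * (K:ℝ) ^ 2 ≤ Real.exp (2 ^ 35 * (K:ℝ) ^ 2) := exp_big hK1
  have ha42 : (a:ℝ)^7 ≤ (a:ℝ)^42 := pow_le_pow_right₀ ha1 (by norm_num)
  obtain ⟨M, hM⟩ : ∃ M : ℕ, M = ⌈(a:ℝ)^42 * Real.exp (2^35*(K:ℝ)^2)⌉₊ := ⟨_, rfl⟩
  have hM1 : (a:ℝ)^42 * Real.exp (2^35*(K:ℝ)^2) ≤ M := by rw [hM]; exact Nat.le_ceil _
  have hM0 : 1 ≤ (a:ℝ)^42 * Real.exp (2^35*(K:ℝ)^2) :=
    one_le_mul_of_one_le_of_one_le (one_le_pow₀ ha1) (Real.one_le_exp (by positivity))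
  have hM2 : (M:ℝ) ≤ 2 * ((a:ℝ)^42 * Real.exp (2^35*(K:ℝ)^2)) := by
    have h1 : (M:ℝ) < (a:ℝ)^42 * Real.exp (2^35*(K:ℝ)^2) + 1 := by
      rw [hM]; exact Nat.ceil_lt_add_one (by positivity)
    linarith
  have hLM : 201 * (L:ℝ) ≤ M := by
    calc 201 * (L:ℝ) = (a:ℝ)^7 * (201 * 2^41 * (K:ℝ)^2) := by rw [hLR]; ring
      _ ≤ (a:ℝ)^42 * (2 ^ 60 * (K:ℝ) ^ 2) := by
        apply mul_le_mul ha42 _ (by positivity) (by positivity)
        nlinarith
      _ ≤ (a:ℝ)^42 * Real.exp (2 ^ 35 * (K:ℝ) ^ 2) := by gcongr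
      _ ≤ M := hM1
  have hML : 10 * L ≤ M := by
    have : (10:ℝ) * L ≤ M := by linarith
    exact_mod_cast this
  have hMpos : 1 ≤ M := by omega
  have hM1R : (1:ℝ) ≤ M := by exact_mod_cast hMpos
  have hJM : (J:ℝ) ≤ M := hJL.trans hLM
  -- the bound for the lengths
  have hnt : t * (20000 * (K:ℝ)^2 * g * M) ≤ 1 := by
    have e1 : Real.exp (2^36*(K:ℝ)^2) = Real.exp (2^35*(K:ℝ)^2) * Real.exp (2^35*(K:ℝ)^2) := by
      rw [← Real.exp_add]; congr 1; ring
    have e2 : 160000 * (K:ℝ)^2 ≤ Real.exp (2^35*(K:ℝ)^2) := by nlinarith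
    calc t * (20000 * (K:ℝ)^2 * g * M)
        ≤ t * (20000 * (K:ℝ)^2 * (4 * (a:ℝ)^4) * (2 * ((a:ℝ)^42 * Real.exp (2^35*(K:ℝ)^2)))) := by
          gcongr
      _ = t * (a:ℝ)^46 * (Real.exp (2^35*(K:ℝ)^2) * (160000 * (K:ℝ)^2)) := by ring
      _ ≤ t * (a:ℝ)^46 * (Real.exp (2^35*(K:ℝ)^2) * Real.exp (2^35*(K:ℝ)^2)) := by gcongr
      _ = t * (a:ℝ)^46 * Real.exp (2^36*(K:ℝ)^2) := by rw [e1]
      _ ≤ 1 := hta
  obtain ⟨n, hn⟩ : ∃ n : ℕ, n = ⌊20000 * (K:ℝ)^2 * g * M⌋₊ := ⟨_, rfl⟩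
  have hnR : (n:ℝ) ≤ 20000 * (K:ℝ)^2 * g * M := by
    rw [hn]; exact Nat.floor_le (by positivity)
  have hnH : n ≤ H := by
    have h1 : 20000 * (K:ℝ)^2 * g * M ≤ H := by
      have h2 : t * (20000 * (K:ℝ)^2 * g * M) ≤ t * H := hnt.trans hH
      exact le_of_mul_le_mul_left h2 ht
    exact_mod_cast hnR.trans h1
  -- the data
  set PP : Finset (ℕ × ℕ) := (Finset.range (128 * K * M)) ×ˢ (Finset.range M) with hPP
  have hdisj : ∀ p ∈ PP, ∀ p' ∈ PP, p ≠ p' →
      Disjoint (dat H J L g K M p) (dat H J L g K M p') := by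
    intro p _ p' _ hne
    rw [Finset.disjoint_left]
    intro d hd hd'
    simp only [dat, Finset.mem_product, mem_fls] at hd hd'
    apply hne
    have h1 := hd.1.1.1
    have h2 := hd'.1.1.1
    have h3 := hd.2.2.2.2.1.1
    have h4 := hd'.2.2.2.2.1.1
    ext
    · omega
    · omega
  -- lower bound
  have hlow : (128 * K * M * M : ℝ) * (Real.exp (-(2 ^ 19 * (K : ℝ) ^ 2)) *
      (Real.exp (-(2 ^ 32 * (K : ℝ) ^ 2)) / (2 * J)) *
      (Real.exp (-(2 ^ 32 * (K : ℝ) ^ 2)) / (2 * J)) *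
      Real.exp (-(2 ^ 19 * (K : ℝ) ^ 2)) * Real.exp (-(2 ^ 20 * (K : ℝ) ^ 2))) ≤
      ∑ d ∈ PP.biUnion (dat H J L g K M), E β t m (gam d) * E β t m (rh d) := by
    rw [Finset.sum_biUnion (fun p hp p' hp' hne => hdisj p hp p' hp' hne)]
    have hcard : (PP.card : ℝ) = 128 * K * M * M := by
      rw [hPP, Finset.card_product, Finset.card_range, Finset.card_range]
      push_cast; ring
    rw [← hcard, ← nsmul_eq_mul]
    apply Finset.card_nsmul_le_sum
    intro p _
    simp only [mass_mul, dat]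
    rw [sum_prod5 (fun x : List Wd => (x.map (E β t m)).prod)]
    rw [sum_fls, sum_fls, sum_fls, sum_fls, sum_fls]
    have hA := pd.cone (128 * K * M + p.1)
    rw [← ES_reverse] at hA
    have hMm := pd.window_last mR J hJ1 hJ2
    have hP := pd.window_first mR J hJ1 hJ2
    have hB := pd.cone (J + 256 * K * M - p.1)
    have hR' := pd.two_cone (M + p.2)
    have e1 : 0 ≤ Real.exp (-(2 ^ 19 * (K : ℝ) ^ 2)) := (Real.exp_pos _).le
    have e2 : 0 ≤ Real.exp (-(2 ^ 32 * (K : ℝ) ^ 2)) / (2 * J) := by positivity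
    have e3 : 0 ≤ Real.exp (-(2 ^ 20 * (K : ℝ) ^ 2)) := (Real.exp_pos _).le
    calc _ = Real.exp (-(2 ^ 19 * (K : ℝ) ^ 2)) *
        ((Real.exp (-(2 ^ 32 * (K : ℝ) ^ 2)) / (2 * J)) *
        ((Real.exp (-(2 ^ 32 * (K : ℝ) ^ 2)) / (2 * J)) *
        (Real.exp (-(2 ^ 19 * (K : ℝ) ^ 2)) * Real.exp (-(2 ^ 20 * (K : ℝ) ^ 2))))) := by ring
      _ ≤ _ := by
        refine mul_le_mul hA ?_ (by positivity) (e1.trans hA)
        refine mul_le_mul hMm ?_ (by positivity) (e2.trans hMm)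
        refine mul_le_mul hP ?_ (by positivity) (e2.trans hP)
        exact mul_le_mul hB hR' e3 (e1.trans hB)
  -- upper bound
  have hup : ∑ d ∈ PP.biUnion (dat H J L g K M), E β t m (gam d) * E β t m (rh d) ≤
      90 * (((n / M + 1) * (100 * L ^ 2) ^ 2 * n : ℕ) : ℝ) := by
    apply sum_data_le hβ ht.le ht1 hm0 h.z hMpos hJpos hnH
    intro d hd
    rw [Finset.mem_biUnion] at hd
    obtain ⟨p, hp, hd⟩ := hd
    rw [hPP, Finset.mem_product, Finset.mem_range, Finset.mem_range] at hp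
    obtain ⟨hp1, hp2⟩ := hp
    simp only [dat, Finset.mem_product, mem_fls] at hd
    obtain ⟨⟨⟨lA, sA⟩, eA⟩, ⟨⟨lM, sM⟩, eM⟩, ⟨⟨lP, sP⟩, eP⟩, ⟨⟨lB, sB⟩, eB⟩, ⟨⟨lRR, sR⟩, eR⟩⟩ := hd
    have iA : ∀ x ∈ d.1, Irr x := fun x hx => (mem_irrs.1 (sA x hx)).1
    have iM : ∀ x ∈ d.2.1, Irr x := fun x hx => (mem_irrs.1 (sM x hx)).1
    have iP : ∀ x ∈ d.2.2.1, Irr x := fun x hx => (mem_irrs.1 (sP x hx)).1
    have iB : ∀ x ∈ d.2.2.2.1, Irr x := fun x hx => (mem_irrs.1 (sB x hx)).1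
    have iR : ∀ x ∈ d.2.2.2.2, Irr x := fun x hx => (mem_irrs.1 (sR x hx)).1
    -- the numbers
    have hKM : (p.1 : ℝ) ≤ 128 * K * M := by
      have : p.1 ≤ 128 * K * M := hp1.le
      exact_mod_cast this
    have hp2R : (p.2 : ℝ) ≤ M := by exact_mod_cast hp2.le
    have hKM0 : p.1 ≤ J + 256 * K * M := by
      have : 128 * K * M ≤ 256 * K * M := by gcongr; norm_num
      omega
    have hBcast : ((J + 256 * K * M - p.1 : ℕ) : ℝ) = J + 256 * K * M - p.1 := by
      rw [Nat.cast_sub hKM0]; push_cast; ring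
    have hMK : (M:ℝ) ≤ K * M := le_mul_of_one_le_left (by positivity) hK1
    have hKg : 0 < 16 * (K:ℝ) * g := by positivity
    set C : ℝ := 16 * K * g * (J + 384 * K * M) with hC
    have c1 : 16 * (K:ℝ) * g * ((128 * K * M + p.1 : ℕ) : ℝ) ≤ C := by
      rw [hC]; push_cast
      apply mul_le_mul_of_nonneg_left _ hKg.le
      nlinarith
    have c2 : 16 * (K:ℝ) * g * (J:ℝ) ≤ C := by
      rw [hC]
      apply mul_le_mul_of_nonneg_left _ hKg.le
      have : (0:ℝ) ≤ 384 * K * M := by positivity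
      linarith
    have c3 : 16 * (K:ℝ) * g * ((J + 256 * K * M - p.1 : ℕ) : ℝ) ≤ C := by
      rw [hC, hBcast]
      apply mul_le_mul_of_nonneg_left _ hKg.le
      have : (0:ℝ) ≤ K * M := by positivity
      have : (0:ℝ) ≤ p.1 := Nat.cast_nonneg _
      nlinarith
    have c4 : 16 * (K:ℝ) * g * ((M + p.2 : ℕ) : ℝ) ≤ 32 * K * g * M := by
      push_cast
      calc 16 * (K:ℝ) * g * (M + p.2) ≤ 16 * K * g * (M + M) := by gcongr
        _ = _ := by ring
    -- the lengths
    have gA : (d.1.flatten.length : ℝ) ≤ 16 * K * g * ((128 * K * M + p.1 : ℕ) : ℝ) := by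
      have h1 := eA.2.2
      rw [List.map_reverse, List.sum_reverse, sum_map_lR] at h1
      exact h1
    have gM : (d.2.1.flatten.length : ℝ) ≤ 16 * K * g * J := by
      have h1 := eM.1.2.2.2
      rw [sum_map_lR] at h1
      exact h1
    have gP : (d.2.2.1.flatten.length : ℝ) ≤ 16 * K * g * J := by
      have h1 := eP.1.2.2.2
      rw [sum_map_lR] at h1
      exact h1
    have gB : (d.2.2.2.1.flatten.length : ℝ) ≤ 16 * K * g * (J + 256 * K * M - p.1) := by
      have h1 := eB.2.2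
      rw [sum_map_lR, hBcast] at h1
      exact h1
    have gR : (d.2.2.2.2.flatten.length : ℝ) ≤ 32 * K * g * M := by
      have h1 := eR.2.2
      rw [sum_map_lR] at h1
      exact h1.trans c4
    have glen : ((gam d).length : ℝ) = d.1.flatten.length + d.2.1.flatten.length +
        d.2.2.1.flatten.length + d.2.2.2.1.flatten.length := by
      rw [gam]
      simp only [List.flatten_append, List.length_append]
      push_cast
      ring
    refine ⟨?_, ?_, iR, lM, lP, ?_, ?_, ?_⟩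
    · refine glHyp_of_ev (g := g) (C := C) (C' := 16 * K * g * ((M + p.2 : ℕ) : ℝ)) (K := K)
        (M := M) hL1 hK hg1 hML iA iM iP iB iR (evA_mono eA c1) (evM_mono eM c2)
        (evP_mono eP c2) (evB_mono eB c3) eR c4 ?_ ?_ ?_
      · rw [lA]; omega
      · rw [lB]
        have : 256 * K * M = 2 * (128 * K * M) := by ring
        omega
      · rw [lRR]; omega
    · intro x hx
      simp only [List.mem_append] at hx
      rcases hx with ((hx | hx) | hx) | hx
      · exact iA x hx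
      · exact iM x hx
      · exact iP x hx
      · exact iB x hx
    · -- M ≤ length of rh
      have h1 : ∀ x ∈ d.2.2.2.2, 1 ≤ x.length := by
        intro x hx
        exact List.length_pos_iff.2 (iR x hx).ne
      have h2 : d.2.2.2.2.length ≤ (rh d).length := by
        rw [rh, List.length_flatten]
        calc d.2.2.2.2.length = (d.2.2.2.2.map (fun _ => 1)).sum := by simp
          _ ≤ (d.2.2.2.2.map List.length).sum := List.sum_le_sum h1
      omega
    · -- 2 m |rh| ≤ 1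
      have h1 : ((rh d).length : ℝ) ≤ 32 * K * g * M := gR
      calc 2 * m * ((rh d).length : ℝ) ≤ 2 * (K * t) * (32 * K * g * M) := by gcongr
        _ = t * (64 * (K:ℝ)^2 * g * M) := by ring
        _ ≤ t * (20000 * (K:ℝ)^2 * g * M) := by gcongr; norm_num
        _ ≤ 1 := hnt
    · -- total length
      rw [hn]
      apply Nat.le_floor
      push_cast
      rw [glen]
      have h1 : ((rh d).length : ℝ) ≤ 32 * K * g * M := gR
      have h2 : (1:ℝ) ≤ (K:ℝ)^2 * g * M := by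
        have : 1 ≤ (K:ℝ)^2 * g := one_le_mul_of_one_le_of_one_le hK2 hg1
        exact one_le_mul_of_one_le_of_one_le this hM1R
      have h3 : (K:ℝ) * g * M ≤ (K:ℝ)^2 * g * M := by
        have : (K:ℝ) ≤ (K:ℝ)^2 := by nlinarith
        gcongr
      have h4 : (K:ℝ) * g * J ≤ (K:ℝ) * g * M := by gcongr
      have h5 : (d.1.flatten.length : ℝ) ≤ 16 * K * g * (128 * K * M + p.1) := by
        have := gA
        push_cast at this
        exact this
      calc _ ≤ 16 * K * g * (128 * K * M + p.1) + 16 * K * g * J + 16 * K * g * J +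
            16 * K * g * (J + 256 * K * M - p.1) + 32 * K * g * M + 1 := by linarith
        _ = 48 * (K * g * J) + 6144 * ((K:ℝ)^2 * g * M) + 32 * (K * g * M) + 1 := by ring
        _ ≤ 48 * ((K:ℝ)^2 * g * M) + 6144 * ((K:ℝ)^2 * g * M) + 32 * ((K:ℝ)^2 * g * M) +
            ((K:ℝ)^2 * g * M) := by linarith
        _ ≤ _ := by nlinarith
  -- conclusion
  have hnum := key_num (K := K) (a := a) (M := M) (J := J) (g := g) hK ha hg1 hg4 hM1 hJpos
    (by rw [← hLR]; exact hJ2)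
  rw [← hLR] at hnum
  have hfin : 90 * (((n / M + 1) * (100 * L ^ 2) ^ 2 * n : ℕ) : ℝ) ≤
      90 * ((20000 * (K : ℝ) ^ 2 * g + 1) * (100 * (L:ℝ) ^ 2) ^ 2 *
      (20000 * (K : ℝ) ^ 2 * g * M)) := by
    have h1 : ((n / M : ℕ) : ℝ) ≤ 20000 * (K : ℝ) ^ 2 * g := by
      calc ((n / M : ℕ) : ℝ) ≤ (n:ℝ) / M := Nat.cast_div_le
        _ ≤ (20000 * (K:ℝ)^2 * g * M) / M := by gcongr
        _ = _ := by field_simp
    push_cast
    gcongr
  linarith [hlow.trans (hup.trans hfin)]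

end Pool.Agent.Lib.MP_c23e5f_co.G
end

section

set_option autoImplicit false

namespace Pool.Agent.Lib.MP_c23e5f_co.G

open Pool.Agent.Lib.MP_c23e5f_co

private theorem iter_step {β t m : ℝ} {H K : ℕ} (hβ : CR β) (hK : 1 ≤ K) (ht : 0 < t)
    (hL : 2 ^ 38 * (K : ℝ) ^ 2 ≤ Real.log (1 / t)) (hH : 1 ≤ t * H) (h : Mass β H t m)
    (hmK : m ≤ K * t) :
    ∃ t' m' : ℝ, t ≤ t' ∧ t' < 1 ∧ Mass β H t' m' ∧ Real.log (1 / t) / 200 ≤ Real.log (1 / t') ∧
      m' * t ≤ 3 / 4 * (m * t') := by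
  have hK1 : (1 : ℝ) ≤ K := by exact_mod_cast hK
  have hK2 : (1 : ℝ) ≤ (K : ℝ) ^ 2 := one_le_pow₀ hK1
  have hH1 : 1 ≤ H := by
    rcases Nat.eq_zero_or_pos H with h0 | h0
    · rw [h0] at hH
      norm_num at hH
    · exact h0
  obtain ⟨Λ, hΛ⟩ : ∃ Λ, Λ = Real.log (1 / t) := ⟨_, rfl⟩
  obtain ⟨κ, hκ⟩ : ∃ κ : ℝ, κ = 2 ^ 36 * (K : ℝ) ^ 2 := ⟨_, rfl⟩
  rw [← hΛ] at hL
  have hκ4 : 4 * κ ≤ Λ := by
    rw [hκ]
    calc 4 * (2 ^ 36 * (K : ℝ) ^ 2) = 2 ^ 38 * (K : ℝ) ^ 2 := by ring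
      _ ≤ Λ := hL
  have hκ1 : (2 : ℝ) ^ 36 ≤ κ := by
    rw [hκ]
    nlinarith
  obtain ⟨s, hs⟩ : ∃ s, s = (Λ - κ) / 46 := ⟨_, rfl⟩
  have hs1 : 1 ≤ s := by
    rw [hs, le_div_iff₀ (by norm_num)]
    norm_num at hκ1
    linarith
  have hE2 : (2 : ℝ) ≤ Real.exp s := by
    have := Real.add_one_le_exp s
    linarith
  obtain ⟨a, ha⟩ : ∃ a : ℕ, a = ⌊Real.exp s⌋₊ := ⟨_, rfl⟩
  have ha1 : 1 ≤ a := by
    rw [ha, Nat.one_le_floor_iff]
    linarith
  have haR : (1 : ℝ) ≤ a := by exact_mod_cast ha1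
  have ha0 : (0 : ℝ) < a := by linarith
  have hle : (a : ℝ) ≤ Real.exp s := by
    rw [ha]
    exact Nat.floor_le (Real.exp_pos s).le
  have hge : Real.exp s / 2 ≤ (a : ℝ) := by
    have := Nat.lt_floor_add_one (Real.exp s)
    rw [← ha] at this
    linarith
  obtain ⟨l, hl⟩ : ∃ l, l = Real.log (a : ℝ) := ⟨_, rfl⟩
  have hlge : s - 1 ≤ l := by
    rw [hl, Real.le_log_iff_exp_le ha0]
    refine le_trans ?_ hge
    rw [Real.exp_sub]
    have h1 : (2 : ℝ) ≤ Real.exp 1 := by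
      have := Real.add_one_le_exp (1 : ℝ)
      linarith
    exact div_le_div_of_nonneg_left (Real.exp_pos s).le (by norm_num) h1
  have hl1 : Λ / 100 ≤ l := by
    refine le_trans ?_ hlge
    rw [hs]
    norm_num at hκ1
    linarith
  have hl2 : (300 : ℝ) ≤ l := by
    refine le_trans ?_ hl1
    norm_num at hκ1
    linarith
  have hexpl : Real.exp l = a := by rw [hl, Real.exp_log ha0]
  have htexp : t = Real.exp (-Λ) := by
    rw [hΛ, one_div, Real.log_inv, neg_neg, Real.exp_log ht]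
  -- the scale is admissible
  have hta : t * (a : ℝ) ^ 46 * Real.exp (2 ^ 36 * (K : ℝ) ^ 2) ≤ 1 := by
    rw [← hκ]
    have h1 : (a : ℝ) ^ 46 ≤ Real.exp (Λ - κ) := by
      calc (a : ℝ) ^ 46 ≤ Real.exp s ^ 46 := pow_le_pow_left₀ ha0.le hle 46
        _ = Real.exp (Λ - κ) := by
          rw [← Real.exp_nat_mul, hs]
          congr 1
          push_cast
          ring
    calc t * (a : ℝ) ^ 46 * Real.exp κ ≤ t * Real.exp (Λ - κ) * Real.exp κ := by
          apply mul_le_mul_of_nonneg_right _ (Real.exp_pos κ).le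
          exact mul_le_mul_of_nonneg_left h1 ht.le
      _ = 1 := by
          rw [htexp, ← Real.exp_add, ← Real.exp_add]
          have : -Λ + (Λ - κ) + κ = 0 := by ring
          rw [this, Real.exp_zero]
  have hkey := key hβ hK ha1 ht hta hH h hmK
  -- the new parameter
  obtain ⟨t', ht'⟩ : ∃ t' : ℝ, t' = (12 + 32 * Real.log a) / a := ⟨_, rfl⟩
  have hnum : 12 + 32 * l ≤ Real.exp (l / 2) := by
    have h1 := Real.quadratic_le_exp_of_nonneg (show 0 ≤ l / 2 by linarith)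
    nlinarith
  have ht'le : t' ≤ Real.exp (-(l / 2)) := by
    rw [ht', ← hl, div_le_iff₀ ha0, ← hexpl, ← Real.exp_add]
    have : -(l / 2) + l = l / 2 := by ring
    rw [this]
    exact hnum
  have ht'pos : 0 < t' := by
    rw [ht', ← hl]
    apply div_pos _ ha0
    linarith
  have ht'lt : t' < 1 := by
    refine lt_of_le_of_lt ht'le ?_
    rw [Real.exp_lt_one_iff]
    linarith
  have htt' : t ≤ t' := by
    have h1 : t * (a : ℝ) ≤ 1 := by
      have e1 : (a : ℝ) ≤ (a : ℝ) ^ 46 := le_self_pow₀ haR (by norm_num)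
      have e2 : (1 : ℝ) ≤ Real.exp (2 ^ 36 * (K : ℝ) ^ 2) := by
        apply Real.one_le_exp
        positivity
      calc t * (a : ℝ) ≤ t * (a : ℝ) ^ 46 := mul_le_mul_of_nonneg_left e1 ht.le
        _ ≤ t * (a : ℝ) ^ 46 * Real.exp (2 ^ 36 * (K : ℝ) ^ 2) :=
          le_mul_of_one_le_right (by positivity) e2
        _ ≤ 1 := hta
    rw [ht', ← hl, le_div_iff₀ ha0]
    linarith
  have hlog' : Λ / 200 ≤ Real.log (1 / t') := by
    rw [one_div, Real.log_inv]
    have h1 : Real.log t' ≤ -(l / 2) := by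
      rw [Real.log_le_iff_le_exp ht'pos]
      exact ht'le
    linarith
  obtain ⟨m', hm'⟩ := exists_mass hβ ht'pos.le hH1
  refine ⟨t', m', htt', ht'lt, hm', ?_, ?_⟩
  · rw [← hΛ]
    exact hlog'
  · exact drop_phi hβ hH1 ht htt' h hm' ha1 ht'.ge hkey.le

/-- (7.1) -/
theorem mass_lower {β t m : ℝ} {H K : ℕ} (hβ : CR β) (hK : 1 ≤ K) (ht : 0 < t)
    (hlog : 2 ^ 46 * (K : ℝ) ^ 21 ≤ Real.log (1 / t)) (hH : 1 ≤ t * H) (h : Mass β H t m) :
    K * t < m := by
  by_contra hcon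
  push Not at hcon
  have hK1 : (1 : ℝ) ≤ K := by exact_mod_cast hK
  have hK0 : (0 : ℝ) < K := by linarith
  have hex : ∃ i : ℕ, (3 / 4 : ℝ) ^ i * K < 1 := by
    obtain ⟨i, hi⟩ := exists_pow_lt_of_lt_one (show (0 : ℝ) < 1 / K by positivity)
      (show (3 / 4 : ℝ) < 1 by norm_num)
    refine ⟨i, ?_⟩
    rwa [lt_div_iff₀ hK0] at hi
  classical
  obtain ⟨J, hJ⟩ : ∃ J, J = Nat.find hex := ⟨_, rfl⟩
  have hJ1 : (3 / 4 : ℝ) ^ J * K < 1 := by
    rw [hJ]
    exact Nat.find_spec hex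
  have hJ2 : ∀ i < J, 1 ≤ (3 / 4 : ℝ) ^ i * K := by
    intro i hi
    rw [hJ] at hi
    have := Nat.find_min hex hi
    push Not at this
    exact this
  have hlog0 : 0 ≤ Real.log (1 / t) := le_trans (by positivity) hlog
  have hP : ∀ i ≤ J, ∃ ti mi : ℝ, t ≤ ti ∧ Mass β H ti mi ∧ mi ≤ (3 / 4 : ℝ) ^ i * K * ti ∧
      Real.log (1 / t) / 200 ^ i ≤ Real.log (1 / ti) := by
    intro i
    induction i with
    | zero =>
      intro _
      refine ⟨t, m, le_rfl, h, ?_, ?_⟩
      · rw [pow_zero, one_mul]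
        exact hcon
      · rw [pow_zero, div_one]
    | succ i ih =>
      intro hi
      obtain ⟨ti, mi, h1, h2, h3, h4⟩ := ih (by omega)
      have hti : 0 < ti := by linarith
      have h5 := hJ2 i (by omega)
      have h6 : (3 / 4 : ℝ) ^ i ≤ 1 := pow_le_one₀ (by norm_num) (by norm_num)
      -- the power of 200
      have h7 : (200 : ℝ) ^ i ≤ (K : ℝ) ^ 19 := by
        have e1 : (4 / 3 : ℝ) ^ i ≤ K := by
          have e2 : (4 / 3 : ℝ) ^ i * (3 / 4 : ℝ) ^ i = 1 := by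
            rw [← mul_pow]
            norm_num
          have e3 : 0 < (4 / 3 : ℝ) ^ i := by positivity
          calc (4 / 3 : ℝ) ^ i = (4 / 3 : ℝ) ^ i * 1 := by ring
            _ ≤ (4 / 3 : ℝ) ^ i * ((3 / 4 : ℝ) ^ i * K) := mul_le_mul_of_nonneg_left h5 e3.le
            _ = K := by rw [← mul_assoc, e2, one_mul]
        calc (200 : ℝ) ^ i ≤ ((4 / 3 : ℝ) ^ 19) ^ i :=
              pow_le_pow_left₀ (by norm_num) (by norm_num) i
          _ = ((4 / 3 : ℝ) ^ i) ^ 19 := by rw [← pow_mul, ← pow_mul, mul_comm]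
          _ ≤ (K : ℝ) ^ 19 := pow_le_pow_left₀ (by positivity) e1 19
      have h8 : 2 ^ 38 * (K : ℝ) ^ 2 ≤ Real.log (1 / ti) := by
        refine le_trans ?_ h4
        rw [le_div_iff₀ (by positivity)]
        calc 2 ^ 38 * (K : ℝ) ^ 2 * 200 ^ i ≤ 2 ^ 38 * (K : ℝ) ^ 2 * (K : ℝ) ^ 19 :=
              mul_le_mul_of_nonneg_left h7 (by positivity)
          _ = 2 ^ 38 * (K : ℝ) ^ 21 := by ring
          _ ≤ 2 ^ 46 * (K : ℝ) ^ 21 := by
              apply mul_le_mul_of_nonneg_right _ (by positivity)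
              norm_num
          _ ≤ Real.log (1 / t) := hlog
      have h9 : 1 ≤ ti * H := by
        refine hH.trans ?_
        exact mul_le_mul_of_nonneg_right h1 (Nat.cast_nonneg H)
      have h10 : mi ≤ K * ti := by
        refine h3.trans ?_
        apply mul_le_mul_of_nonneg_right _ hti.le
        exact mul_le_of_le_one_left hK0.le h6
      obtain ⟨t', m', g1, g2, g3, g4, g5⟩ := iter_step hβ hK hti h8 h9 h2 h10
      refine ⟨t', m', h1.trans g1, g3, ?_, ?_⟩
      · have ht' : 0 < t' := by linarith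
        have e1 : m' * ti ≤ (3 / 4 : ℝ) ^ (i + 1) * K * t' * ti := by
          calc m' * ti ≤ 3 / 4 * (mi * t') := g5
            _ ≤ 3 / 4 * ((3 / 4 : ℝ) ^ i * K * ti * t') := by
              apply mul_le_mul_of_nonneg_left _ (by norm_num)
              exact mul_le_mul_of_nonneg_right h3 ht'.le
            _ = (3 / 4 : ℝ) ^ (i + 1) * K * t' * ti := by ring
        exact le_of_mul_le_mul_right e1 hti
      · refine le_trans ?_ g4
        rw [pow_succ, ← div_div]
        exact div_le_div_of_nonneg_right h4 (by norm_num)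
  obtain ⟨tJ, mJ, h1, h2, h3, h4⟩ := hP J le_rfl
  have h5 : 0 < tJ := by linarith
  have h6 := h2.tm
  have h7 : (3 / 4 : ℝ) ^ J * K * tJ < 1 * tJ := mul_lt_mul_of_pos_right hJ1 h5
  linarith

end Pool.Agent.Lib.MP_c23e5f_co.G
end

section

set_option autoImplicit false

namespace Pool.Agent.Lib.MP_c23e5f_co.G

open Pool.Agent.Lib.MP_c23e5f_co

open scoped ENNReal
open Filter

/-- the numerical heart: everything in terms of `u = n^(1/4)` -/
private lemma ftail_num {β C0 u L : ℝ} (hβ0 : 0 ≤ β) (hβ : β ≤ 2) (hC0 : 0 < C0) (hu : 8 ≤ u)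
    (hL : L ≤ (1 / (8 * (C0 + 1))) * u) (hL0 : 0 ≤ L) :
    4 * L + (2 * β + 2 * u⁻¹) + 4 * C0 * (u ^ 2 * L) ≤ u ^ 3 := by
  have hu0 : 0 < u := by linarith
  have h1 : u⁻¹ ≤ 1 := by
    rw [inv_le_one₀ hu0]; linarith
  have h2 : 8 * (C0 + 1) * L ≤ u := by
    calc 8 * (C0 + 1) * L ≤ 8 * (C0 + 1) * ((1 / (8 * (C0 + 1))) * u) := by gcongr
      _ = u := by field_simp
  have h3 : 4 * C0 * L ≤ u / 2 := by nlinarith
  have h4 : 4 * L ≤ u / 2 := by nlinarith
  have h5 : 4 * C0 * (u ^ 2 * L) ≤ u ^ 3 / 2 := by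
    calc 4 * C0 * (u ^ 2 * L) = u ^ 2 * (4 * C0 * L) := by ring
      _ ≤ u ^ 2 * (u / 2) := by gcongr
      _ = u ^ 3 / 2 := by ring
  have h6 : u / 2 + 6 ≤ u ^ 3 / 2 := by nlinarith [mul_pos hu0 hu0, sq_nonneg (u - 8)]
  linarith

/-- the tail for large perimeters -/
theorem tail_large : ∃ n0 : ℕ, ∀ n : ℕ, n0 ≤ n →
    ((({f ∈ Loops n | 20 * n / (Real.log n) ^ ((1 : ℝ) / 21) ≤ (width n f : ℝ)}).ncard : ℕ) : ℝ)
        ≤ Real.exp (-((n : ℝ) ^ ((3 : ℝ) / 4))) * ((Loops n).ncard : ℕ) := by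
  obtain ⟨x, hx, hcr⟩ := exists_cr
  obtain ⟨C0, hC0, hlow⟩ := loops_lower
  set β : ℝ := -Real.log x.toReal with hβdef
  have hβ0 : 0 ≤ β := hcr.nonneg
  have hβ2 : β ≤ 2 := by
    refine hcr.le.trans ?_
    have h2 : (2 : ℝ) ≤ Real.exp 1 := by
      have := Real.add_one_le_exp (1 : ℝ); linarith
    rw [Real.log_le_iff_le_exp (by norm_num)]
    calc (4 : ℝ) = 2 ^ 2 := by norm_num
      _ ≤ (Real.exp 1) ^ 2 := by gcongr
      _ = Real.exp 2 := by rw [← Real.exp_nat_mul]; norm_num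
  -- the requirements
  have ev1 : ∀ᶠ y : ℝ in atTop, Real.log y ≤ (1 / (8 * (C0 + 1))) * y ^ ((1 : ℝ) / 4) := by
    have h := (isLittleO_log_rpow_atTop (show (0 : ℝ) < 1 / 4 by norm_num)).bound
      (show 0 < 1 / (8 * (C0 + 1)) by positivity)
    filter_upwards [h, eventually_ge_atTop (1 : ℝ)] with y hy hy1
    have h1 : 0 ≤ Real.log y := Real.log_nonneg hy1
    have h2 : 0 ≤ y ^ ((1 : ℝ) / 4) := by positivity
    rwa [Real.norm_of_nonneg h1, Real.norm_of_nonneg h2] at hy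
  have ev2 : ∀ᶠ y : ℝ in atTop, 10 ≤ (Real.log y) ^ ((1 : ℝ) / 21) :=
    ((tendsto_rpow_atTop (show (0 : ℝ) < 1 / 21 by norm_num)).comp
      Real.tendsto_log_atTop).eventually_ge_atTop 10
  have ev : ∀ᶠ n : ℕ in atTop, (Real.log (n : ℝ) ≤ (1 / (8 * (C0 + 1))) * (n : ℝ) ^ ((1 : ℝ) / 4)) ∧
      10 ≤ (Real.log (n : ℝ)) ^ ((1 : ℝ) / 21) ∧ 4096 ≤ n :=
    ((tendsto_natCast_atTop_atTop.eventually ev1).and
      ((tendsto_natCast_atTop_atTop.eventually ev2).and (eventually_ge_atTop 4096)))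
  obtain ⟨n0, hn0⟩ := eventually_atTop.1 ev
  refine ⟨n0, fun n hn => ?_⟩
  obtain ⟨hlog, hlam, hn4⟩ := hn0 n hn
  have hn1 : 1 ≤ n := by omega
  have hnR : (4096 : ℝ) ≤ n := by exact_mod_cast hn4
  have hnpos : (0 : ℝ) < n := by linarith
  set L : ℝ := Real.log (n : ℝ) with hL
  have hL0 : 0 < L := Real.log_pos (by linarith)
  set lam : ℝ := L ^ ((1 : ℝ) / 21) with hlamdef
  have hlam21 : lam ^ 21 = L := by
    rw [hlamdef, ← Real.rpow_natCast, ← Real.rpow_mul hL0.le]; norm_num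
  set u : ℝ := (n : ℝ) ^ ((1 : ℝ) / 4) with hu
  have hu0 : 0 < u := by positivity
  have hu4 : u ^ 4 = n := by
    rw [hu, ← Real.rpow_natCast, ← Real.rpow_mul hnpos.le]; norm_num
  have hu8 : 8 ≤ u := by
    by_contra hcon
    push Not at hcon
    have : u ^ 4 < 8 ^ 4 := by gcongr
    rw [hu4] at this
    norm_num at this
    linarith
  have hu3 : (n : ℝ) ^ ((3 : ℝ) / 4) = u ^ 3 := by
    rw [hu, ← Real.rpow_natCast, ← Real.rpow_mul hnpos.le]; norm_num
  have hsq : √(n : ℝ) = u ^ 2 := by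
    rw [← hu4, show u ^ 4 = (u ^ 2) ^ 2 by ring, Real.sqrt_sq (by positivity)]
  -- K
  set K : ℕ := ⌊lam / 5⌋₊ with hKdef
  have hK5 : (K : ℝ) ≤ lam / 5 := Nat.floor_le (by positivity)
  have hK10 : lam / 10 ≤ K := by
    have h1 : lam / 5 < K + 1 := Nat.lt_floor_add_one _
    linarith
  have hK1 : 1 ≤ K := by
    have h1 : (0 : ℝ) < K := by linarith
    exact_mod_cast h1
  -- t
  set t : ℝ := u⁻¹ with ht
  have ht0 : 0 < t := inv_pos.2 hu0
  have hH : (1 : ℝ) ≤ t * ((2 * n + 2 : ℕ) : ℝ) := by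
    rw [ht, inv_mul_eq_div, le_div_iff₀ hu0]
    push_cast
    have : u ≤ u ^ 4 := by
      calc u = u * 1 := by ring
        _ ≤ u * u ^ 3 := by
          gcongr
          nlinarith [mul_pos hu0 hu0]
        _ = u ^ 4 := by ring
    linarith
  have hlt : Real.log (1 / t) = L / 4 := by
    rw [ht, one_div, inv_inv, hu, Real.log_rpow hnpos]; ring
  have hlogt : 2 ^ 46 * (K : ℝ) ^ 21 ≤ Real.log (1 / t) := by
    rw [hlt, ← hlam21]
    have h1 : (5 * (K : ℝ)) ^ 21 ≤ lam ^ 21 := by gcongr; linarith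
    have h2 : (4 : ℝ) * (2 ^ 46 * (K : ℝ) ^ 21) ≤ (5 * (K : ℝ)) ^ 21 := by
      rw [mul_pow]
      have : (0 : ℝ) ≤ (K : ℝ) ^ 21 := by positivity
      nlinarith
    linarith
  obtain ⟨m, hm⟩ := exists_mass hcr ht0.le (H := 2 * n + 2) (by omega)
  have hml := mass_lower hcr hK1 ht0 hlogt hH hm
  set ω : ℝ := 20 * n / lam with hω
  have hlam0 : 0 < lam := by linarith
  have hω0 : 0 < ω := by positivity
  have hcount := wide_count hn1 hm le_rfl ω
  refine hcount.trans ?_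
  have hmω : 4 * n * t ≤ 2 * m * ω := by
    have h1 : lam / 10 * t ≤ m := by
      calc lam / 10 * t ≤ K * t := by gcongr
        _ ≤ m := hml.le
    calc 4 * (n : ℝ) * t = 2 * (lam / 10 * t) * ω := by
          rw [hω]; field_simp; ring
      _ ≤ 2 * m * ω := by gcongr
  -- the lower bound for the number of loops
  have hlo := hlow x hx n (by omega)
  have hlo2 : Real.exp (β * (2 * n) - C0 * √(2 * n) * Real.log (2 * n)) ≤
      ((Loops n).ncard : ℕ) := by
    have e1 : Real.exp (β * (2 * n) - C0 * √(2 * n) * Real.log (2 * n)) =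
        Real.exp (-(C0 * √(2 * n) * Real.log (2 * n))) * Real.exp (β * (2 * n)) := by
      rw [← Real.exp_add]; congr 1; ring
    rw [e1]
    calc Real.exp (-(C0 * √(2 * n) * Real.log (2 * n))) * Real.exp (β * (2 * n))
        ≤ (((Loops n).ncard : ℕ) * Real.exp (Real.log x.toReal * (2 * n))) *
          Real.exp (β * (2 * n)) := by gcongr
      _ = ((Loops n).ncard : ℕ) := by
          rw [mul_assoc, ← Real.exp_add, hβdef]
          simp
  have hsqrt : C0 * √(2 * n) * Real.log (2 * n) ≤ 4 * C0 * (u ^ 2 * L) := by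
    have h1 : √(2 * (n : ℝ)) ≤ 2 * u ^ 2 := by
      rw [← hsq]
      rw [Real.sqrt_le_left (by positivity)]
      rw [mul_pow, Real.sq_sqrt hnpos.le]
      linarith
    have h2 : Real.log (2 * n) ≤ 2 * L := by
      rw [Real.log_mul (by norm_num) hnpos.ne']
      have : Real.log 2 ≤ L := Real.log_le_log (by norm_num) (by linarith)
      linarith
    have h3 : 0 ≤ Real.log (2 * (n : ℝ)) := Real.log_nonneg (by linarith)
    calc C0 * √(2 * n) * Real.log (2 * n) ≤ C0 * (2 * u ^ 2) * (2 * L) := by gcongr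
      _ = 4 * C0 * (u ^ 2 * L) := by ring
  have hpoly : (2 : ℝ) * n * (2 * n + 2) ^ 2 ≤ Real.exp (4 * L) := by
    have h1 : Real.exp (4 * L) = (n : ℝ) ^ 4 := by
      rw [show (4 : ℝ) * L = ((4 : ℕ) : ℝ) * L by norm_num, Real.exp_nat_mul, hL,
        Real.exp_log hnpos]
    rw [h1]
    calc (2 : ℝ) * n * (2 * n + 2) ^ 2 ≤ 2 * n * (4 * n) ^ 2 := by gcongr; linarith
      _ = 32 * (n : ℝ) ^ 3 := by ring
      _ ≤ n * (n : ℝ) ^ 3 := by gcongr; linarith
      _ = (n : ℝ) ^ 4 := by ring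
  have hnt : (n : ℝ) * t = u ^ 3 := by
    rw [ht, ← hu4]; field_simp
  have hnum := ftail_num hβ0 hβ2 hC0 hu8 hlog hL0.le
  rw [hu3]
  calc (2 : ℝ) * n * (2 * n + 2) ^ 2 * Real.exp ((β + t) * (2 * n + 2) - 2 * m * ω)
      ≤ Real.exp (4 * L) * Real.exp ((β + t) * (2 * n + 2) - 4 * n * t) := by
        gcongr
    _ = Real.exp (4 * L + ((β + t) * (2 * n + 2) - 4 * n * t)) := by rw [Real.exp_add]
    _ ≤ Real.exp (-u ^ 3 + (β * (2 * n) - C0 * √(2 * n) * Real.log (2 * n))) := by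
        apply Real.exp_le_exp.2
        have e1 : (β + t) * (2 * n + 2) - 4 * n * t = β * (2 * n) + 2 * β + 2 * t - 2 * (n * t) := by
          ring
        rw [e1, hnt]
        have : 4 * L + (2 * β + 2 * t) + 4 * C0 * (u ^ 2 * L) ≤ u ^ 3 := hnum
        linarith
    _ = Real.exp (-u ^ 3) * Real.exp (β * (2 * n) - C0 * √(2 * n) * Real.log (2 * n)) := by
        rw [Real.exp_add]
    _ ≤ Real.exp (-u ^ 3) * ((Loops n).ncard : ℕ) := by gcongr

end Pool.Agent.Lib.MP_c23e5f_co.G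
end

section

set_option autoImplicit false

namespace Pool.Agent.Lib.MP_c23e5f_co.G

open Pool.Agent.Lib.MP_c23e5f_co

private lemma fl_loops (n : ℕ) : Loops n = {f | IsLoop (2 * n) f ∧ f 0 = 0} := by
  ext f
  constructor
  · rintro ⟨h0, h1, h2, h3⟩
    refine ⟨⟨fun i => ?_, h1, h2⟩, h0⟩
    have := h3 i
    simp only [IsStep, Prod.fst_sub, Prod.snd_sub]
    omega
  · rintro ⟨⟨h3, h1, h2⟩, h0⟩
    refine ⟨h0, h1, h2, fun i => ?_⟩
    have := h3 i
    simp only [IsStep, Prod.fst_sub, Prod.snd_sub] at this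
    omega

private lemma fl_dist {n : ℕ} {f : ℕ → ℤ × ℤ} (hf : f ∈ Loops n) (i d : ℕ) :
    ((f (i + d)).1 - (f i).1).natAbs ≤ d := by
  induction d with
  | zero => simp
  | succ d ih =>
    have h1 := hf.2.2.2 (i + d)
    rw [← add_assoc]
    omega

theorem width_le {n : ℕ} (hn : 1 ≤ n) {f : ℕ → ℤ × ℤ} (hf : f ∈ Loops n) : width n f ≤ n := by
  have key : ∀ i j, i ≤ j → j < 2 * n → ((f i).1 - (f j).1).natAbs ≤ n := by
    intro i j hij hj
    have h1 := fl_dist hf i (j - i)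
    rw [Nat.add_sub_cancel' hij] at h1
    have h2 := fl_dist hf j (i + 2 * n - j)
    rw [Nat.add_sub_cancel' (by omega : j ≤ i + 2 * n), hf.2.1 i] at h2
    omega
  unfold width
  apply Finset.sup_le
  rintro ⟨i, j⟩ hp
  rw [Finset.mem_product, Finset.mem_range, Finset.mem_range] at hp
  obtain ⟨hi, hj⟩ := hp
  simp only at hi hj ⊢
  rcases le_total i j with h | h
  · exact key i j h hj
  · have := key j i h hi
    omega

private lemma fl_y_pos {n : ℕ} (hn : 2 ≤ n) : 0 < (Real.log n) ^ ((1 : ℝ) / 21) := by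
  apply Real.rpow_pos_of_pos
  apply Real.log_pos
  exact_mod_cast (by omega : 1 < n)

private lemma fl_y_le {n : ℕ} (hn : 2 ≤ n) :
    (Real.log n) ^ ((1 : ℝ) / 21) ≤ Real.exp ((n : ℝ) ^ ((3 : ℝ) / 4)) := by
  have h1 : (2 : ℝ) ≤ n := by exact_mod_cast hn
  have h0 : (0 : ℝ) < n := by linarith
  have hlog : 0 < Real.log n := Real.log_pos (by linarith)
  set x : ℝ := (n : ℝ) ^ ((3 : ℝ) / 4) with hx
  have hx0 : 0 < x := Real.rpow_pos_of_pos h0 _
  have hlx : Real.log x = 3 / 4 * Real.log n := Real.log_rpow h0 _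
  have h2 := Real.log_le_sub_one_of_pos hx0
  have h3 : (1 + x / 2) ^ 2 ≤ Real.exp x := by
    have h4 := Real.add_one_le_exp (x / 2)
    have h5 : Real.exp x = Real.exp (x / 2) ^ 2 := by
      rw [sq, ← Real.exp_add]
      congr 1
      ring
    rw [h5]
    have h6 : 0 ≤ 1 + x / 2 := by linarith
    gcongr
    linarith
  rcases le_total (Real.log n) 1 with h | h
  · calc (Real.log n) ^ ((1 : ℝ) / 21) ≤ 1 :=
          Real.rpow_le_one hlog.le h (by norm_num)
      _ ≤ Real.exp x := Real.one_le_exp hx0.le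
  · calc (Real.log n) ^ ((1 : ℝ) / 21) ≤ (Real.log n) ^ (1 : ℝ) :=
          Real.rpow_le_rpow_of_exponent_le h (by norm_num)
      _ = Real.log n := Real.rpow_one _
      _ ≤ Real.exp x := by nlinarith [sq_nonneg (x - 1)]

private lemma fl_avg {n : ℕ} (hfin : (Loops n).Finite) {B : ℝ} (hB : 0 ≤ B)
    (h : ∑ f ∈ hfin.toFinset, (width n f : ℝ) ≤ ((Loops n).ncard : ℕ) * B) :
    (∑ᶠ f ∈ Loops n, (width n f : ℝ)) / ((Loops n).ncard : ℕ) ≤ B := by
  rw [finsum_mem_eq_finite_toFinset_sum _ hfin]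
  rcases Nat.eq_zero_or_pos (Loops n).ncard with h0 | h0
  · rw [h0]
    simpa using hB
  · rw [div_le_iff₀ (by exact_mod_cast h0)]
    linarith

theorem final_log : ∃ C : ℝ, 0 < C ∧ ∀ n : ℕ, 2 ≤ n →
    (∑ᶠ f ∈ Loops n, (width n f : ℝ)) / ((Loops n).ncard : ℕ) ≤
        C * n / (Real.log n) ^ ((1 : ℝ) / 21) ∧
      ((({f ∈ Loops n | C * n / (Real.log n) ^ ((1 : ℝ) / 21) ≤ (width n f : ℝ)}).ncard : ℕ) : ℝ)
        ≤ Real.exp (-((n : ℝ) ^ ((3 : ℝ) / 4))) * ((Loops n).ncard : ℕ) := by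
  classical
  obtain ⟨n0, hn0⟩ := tail_large
  set y : ℕ → ℝ := fun n => (Real.log n) ^ ((1 : ℝ) / 21) with hy
  set C : ℝ := 21 + ∑ m ∈ Finset.range n0, |y m| with hC
  have hsum0 : 0 ≤ ∑ m ∈ Finset.range n0, |y m| := Finset.sum_nonneg fun _ _ => abs_nonneg _
  have hC0 : 0 < C := by linarith
  refine ⟨C, hC0, fun n hn => ?_⟩
  have hyn : 0 < y n := fl_y_pos hn
  have hn' : (2 : ℝ) ≤ n := by exact_mod_cast hn
  have hnpos : (0 : ℝ) < n := by linarith
  have hfin : (Loops n).Finite := by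
    rw [fl_loops]
    exact finite_loops (by omega)
  have hcard : (Loops n).ncard = hfin.toFinset.card := Set.ncard_eq_toFinset_card _ hfin
  have hmemL : ∀ f, f ∈ hfin.toFinset ↔ f ∈ Loops n := fun f => Set.Finite.mem_toFinset hfin
  have hw : ∀ f ∈ Loops n, (width n f : ℝ) ≤ n := by
    intro f hf
    exact_mod_cast width_le (by omega) hf
  show (∑ᶠ f ∈ Loops n, (width n f : ℝ)) / ((Loops n).ncard : ℕ) ≤ C * n / y n ∧
    ((({f ∈ Loops n | C * n / y n ≤ (width n f : ℝ)}).ncard : ℕ) : ℝ)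
        ≤ Real.exp (-((n : ℝ) ^ ((3 : ℝ) / 4))) * ((Loops n).ncard : ℕ)
  rcases lt_or_ge n n0 with hlt | hge
  · -- small n
    have h1 : y n < C := by
      have h2 : |y n| ≤ ∑ m ∈ Finset.range n0, |y m| :=
        Finset.single_le_sum (f := fun m => |y m|) (fun _ _ => abs_nonneg _)
          (Finset.mem_range.2 hlt)
      have h3 := le_abs_self (y n)
      rw [hC]
      linarith
    have h2 : (n : ℝ) < C * n / y n := by
      rw [lt_div_iff₀ hyn]
      nlinarith
    constructor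
    · apply fl_avg hfin (by positivity)
      rw [hcard]
      calc ∑ f ∈ hfin.toFinset, (width n f : ℝ) ≤ ∑ f ∈ hfin.toFinset, (C * n / y n) := by
            refine Finset.sum_le_sum fun f hf => ?_
            have := hw f ((hmemL f).1 hf)
            linarith
        _ = _ := by rw [Finset.sum_const, nsmul_eq_mul]
    · have h3 : {f ∈ Loops n | C * n / y n ≤ (width n f : ℝ)} = ∅ := by
        rw [Set.eq_empty_iff_forall_notMem]
        rintro f ⟨hf, hf2⟩
        have := hw f hf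
        linarith
      rw [h3, Set.ncard_empty]
      push_cast
      positivity
  · -- large n
    have hwide := hn0 n hge
    set Wd := {f ∈ Loops n | 20 * n / y n ≤ (width n f : ℝ)} with hWd
    have hwide' : (Wd.ncard : ℝ) ≤
      Real.exp (-((n : ℝ) ^ ((3 : ℝ) / 4))) * ((Loops n).ncard : ℕ) := hwide
    constructor
    · apply fl_avg hfin (by positivity)
      have hWfin : Wd.Finite := hfin.subset fun f hf => hf.1
      have hsplit : ∀ f ∈ hfin.toFinset, (width n f : ℝ) ≤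
          20 * n / y n + (if f ∈ Wd then (n : ℝ) else 0) := by
        intro f hf
        have hfL := (hmemL f).1 hf
        by_cases hfW : f ∈ Wd
        · rw [if_pos hfW]
          have h1 := hw f hfL
          have h2 : 0 ≤ 20 * n / y n := by positivity
          linarith
        · rw [if_neg hfW, add_zero]
          by_contra hcon
          push Not at hcon
          exact hfW ⟨hfL, hcon.le⟩
      calc ∑ f ∈ hfin.toFinset, (width n f : ℝ)
          ≤ ∑ f ∈ hfin.toFinset, (20 * n / y n + (if f ∈ Wd then (n : ℝ) else 0)) :=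
            Finset.sum_le_sum hsplit
        _ = (Loops n).ncard * (20 * n / y n) + Wd.ncard * n := by
            rw [Finset.sum_add_distrib, Finset.sum_const, nsmul_eq_mul, hcard,
              ← Finset.sum_filter, Finset.sum_const, nsmul_eq_mul]
            congr 2
            have h1 : hfin.toFinset.filter (fun f => f ∈ Wd) = hWfin.toFinset := by
              ext f
              rw [Finset.mem_filter, hmemL, Set.Finite.mem_toFinset]
              exact ⟨fun h => h.2, fun h => ⟨h.1, h⟩⟩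
            rw [h1, Set.ncard_eq_toFinset_card _ hWfin]
        _ ≤ (Loops n).ncard * (20 * n / y n) +
            (Real.exp (-((n : ℝ) ^ ((3 : ℝ) / 4))) * ((Loops n).ncard : ℕ)) * n := by
            gcongr
        _ = (Loops n).ncard * (20 * n / y n + n * Real.exp (-((n : ℝ) ^ ((3 : ℝ) / 4)))) := by
            ring
        _ ≤ (Loops n).ncard * (C * n / y n) := by
            have h1 : Real.exp (-((n : ℝ) ^ ((3 : ℝ) / 4))) ≤ 1 / y n := by
              rw [Real.exp_neg, ← one_div]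
              exact one_div_le_one_div_of_le hyn (fl_y_le hn)
            have h2 : 20 * n / y n + n * Real.exp (-((n : ℝ) ^ ((3 : ℝ) / 4))) ≤
                C * n / y n := by
              calc 20 * n / y n + n * Real.exp (-((n : ℝ) ^ ((3 : ℝ) / 4)))
                  ≤ 20 * n / y n + n * (1 / y n) := by gcongr
                _ = 21 * n / y n := by ring
                _ ≤ C * n / y n := by
                    have : 21 ≤ C := by linarith
                    gcongr
            gcongr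
    · refine le_trans ?_ hwide'
      have hsub : {f ∈ Loops n | C * n / y n ≤ (width n f : ℝ)} ⊆ Wd := by
        rintro f ⟨hf, hf2⟩
        refine ⟨hf, ?_⟩
        refine le_trans ?_ hf2
        have : 20 ≤ C := by linarith
        gcongr
      exact_mod_cast Set.ncard_le_ncard hsub (hfin.subset fun f hf => hf.1)

end Pool.Agent.Lib.MP_c23e5f_co.G
end
end
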