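import Pool.Agent.Lib.MP_c23e5f_co.G.GLists
import Pool.Agent.Lib.MP_c23e5f_co.Basic

section

/-!
# finite probability: definitions
-/

set_option autoImplicit false

namespace Pool.Agent.Lib.MP_c23e5f_co.G

variable {ι : Type*}

/-- iterated sums: `w j` is the law of the entry `j` -/
noncomputable def ES (s : Finset ι) : (ℕ → ι → ℝ) → ℕ → (List ι → ℝ) → ℝ
  | _, 0, F => F []
  | w, N + 1, F => ∑ a ∈ s, w 0 a * ES s (fun j => w (j + 1)) N (fun L => F (a :: L))

open Classical in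
/-- indicator -/
noncomputable def ind (p : Prop) : ℝ := if p then 1 else 0

/-- sum of position dependent variables -/
noncomputable def sX : (ℕ → ι → ℝ) → List ι → ℝ
  | _, [] => 0
  | X, a :: L => X 0 a + sX (fun j => X (j + 1)) L

/-- the setting of the renewal estimates -/
structure PD (s : Finset ι) (w h l ξ : ι → ℝ) (σ : ι → ι) (g K D L : ℝ) : Prop where
  w0 : ∀ a ∈ s, 0 ≤ w a
  w1 : ∑ a ∈ s, w a = 1
  h1 : ∀ a ∈ s, 1 ≤ h a
  hl : ∀ a ∈ s, h a ≤ l a
  xl : ∀ a ∈ s, |ξ a| ≤ l a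
  σs : ∀ a ∈ s, σ a ∈ s
  σσ : ∀ a ∈ s, σ (σ a) = a
  σw : ∀ a ∈ s, w (σ a) = w a
  σh : ∀ a ∈ s, h (σ a) = h a
  σl : ∀ a ∈ s, l (σ a) = l a
  σx : ∀ a ∈ s, ξ (σ a) = - ξ a
  gE : ∑ a ∈ s, w a * h a = g
  K1 : 1 ≤ K
  lK : ∑ a ∈ s, w a * l a ≤ K * g
  D1 : 1 ≤ D
  hD : ∑ a ∈ s, w a * (if D ≤ h a then h a else 0) ≤ g / 3
  hL : 2 ^ 25 * K ^ 2 * D ≤ L

open Classical in
/-- probability that `l ≤ τ` -/
noncomputable def pr (s : Finset ι) (w l : ι → ℝ) (τ : ℝ) : ℝ := ∑ a ∈ s, if l a ≤ τ then w a else 0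

open Classical in
/-- the law conditioned on `l ≤ τ` -/
noncomputable def cw (s : Finset ι) (w l : ι → ℝ) (τ : ℝ) (a : ι) : ℝ :=
  if l a ≤ τ then w a / pr s w l τ else 0

/-- strong cone event -/
def SC (h l ξ : ι → ℝ) (g ε L : ℝ) (x : List ι) : Prop :=
  (∀ A B, x = A ++ B → |(A.map ξ).sum| ≤ (A.length * g + L) / 64 ∧
    A.length * g / 2 - L / 8 ≤ (A.map h).sum) ∧
  (∀ A a B, x = A ++ a :: B → l a ≤ ε * (A.length * g + L))

/-- front cone event -/
def FC (h l ξ : ι → ℝ) (L : ℝ) (x : List ι) : Prop :=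
  ∀ A a B, x = A ++ a :: B → |(A.map ξ).sum| + l a ≤ (A.map h).sum / 8 + L

/-- preliminary window event -/
def W0 (h l ξ : ι → ℝ) (L C : ℝ) (x : List ι) : Prop :=
  (∀ a ∈ x, l a ≤ L / 100) ∧ (∀ A B, x = A ++ B → |(A.map ξ).sum| ≤ L / 32) ∧
  50 * L ≤ (x.map h).sum ∧ (x.map l).sum ≤ C

/-- window event without maximality -/
def W1 (h l ξ : ι → ℝ) (L C : ℝ) (x : List ι) : Prop :=
  (∀ a ∈ x, l a ≤ L / 100) ∧ (∀ A B, x = A ++ B → |(A.map ξ).sum| ≤ L / 8) ∧
  50 * L ≤ (x.map h).sum ∧ (x.map l).sum ≤ C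

/-- the maximum is reached in the first entry -/
def MF (ξ e : ι → ℝ) (x : List ι) : Prop :=
  ∃ a0 x', x = a0 :: x' ∧ ∀ A a B, x = A ++ a :: B → (A.map ξ).sum + e a ≤ e a0

/-- the maximum is reached in the last entry -/
def ML (ξ e : ι → ℝ) (x : List ι) : Prop :=
  ∃ x' a0, x = x' ++ [a0] ∧ ∀ A a B, x = A ++ a :: B → (A.map ξ).sum + e a ≤ (x'.map ξ).sum + e a0

end Pool.Agent.Lib.MP_c23e5f_co.G
end

section

/-!
# MP_c23e5f_co, logarithmic bound: definitions

The height of a word is the first coordinate of its sum.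
-/

set_option autoImplicit false

namespace Pool.Agent.Lib.MP_c23e5f_co.G

open Pool.Agent.Lib.MP_c23e5f_co

/-- words of steps -/
abbrev Wd := List (ℤ × ℤ)

/-- bridges (the first coordinate is the height); the empty word is a bridge -/
structure Br (w : Wd) : Prop where
  saw : IsSaw w
  gt : ∀ i, 1 ≤ i → i ≤ w.length → 0 < (pos w i).1
  le : ∀ i, i ≤ w.length → (pos w i).1 ≤ w.sum.1

/-- irreducible bridges -/
structure Irr (w : Wd) : Prop where
  br : Br w
  ne : w ≠ []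
  irr : ∀ u v, Br u → Br v → u ++ v = w → u = [] ∨ v = []

lemma finite_irr (H : ℕ) : {w : Wd | Irr w ∧ w.length ≤ H}.Finite :=
  (finite_words_le H).subset fun _ hw => ⟨hw.1.br.saw.step, hw.2⟩

/-- irreducible bridges of length at most `H` -/
noncomputable def irrs (H : ℕ) : Finset Wd := (finite_irr H).toFinset

lemma mem_irrs {H : ℕ} {w : Wd} : w ∈ irrs H ↔ Irr w ∧ w.length ≤ H := by
  rw [irrs, Set.Finite.mem_toFinset]; rfl

open Classical in
/-- the list of the irreducible factors of a bridge -/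
noncomputable def fac (w : Wd) : List Wd :=
  if h : ∃ L : List Wd, (∀ a ∈ L, Irr a) ∧ L.flatten = w then h.choose else []

/-- the number of irreducible factors -/
noncomputable def nf (w : Wd) : ℕ := (fac w).length

/-- the reflection changing the sign of the height -/
def fl : ℤ × ℤ →+ ℤ × ℤ where
  toFun v := (-v.1, v.2)
  map_zero' := by simp
  map_add' u v := by ext <;> simp; ring

@[simp] lemma fl_apply (v : ℤ × ℤ) : fl v = (-v.1, v.2) := rfl

/-- the subword of the letters `i, ..., j - 1` -/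
def sb (w : Wd) (i j : ℕ) : Wd := (w.take j).drop i

/-- the weight of a word -/
noncomputable def E (β t m : ℝ) (w : Wd) : ℝ :=
  Real.exp (-(β + t) * w.length + m * (w.sum.1 : ℝ))

/-- `exp β` is the connective constant: all we need -/
structure CR (β : ℝ) : Prop where
  nonneg : 0 ≤ β
  le : β ≤ Real.log 4
  sum_le : ∀ (T : ℤ) (s : Finset Wd), (∀ w ∈ s, Br w ∧ w.sum.1 = T) →
    ∑ w ∈ s, Real.exp (-β * w.length) ≤ 1

/-- partition function of irreducible bridges of length at most `H` -/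
noncomputable def Z (β : ℝ) (H : ℕ) (t m : ℝ) : ℝ := ∑ w ∈ irrs H, E β t m w

/-- expectation -/
noncomputable def Ex (β : ℝ) (H : ℕ) (t m : ℝ) (F : Wd → ℝ) : ℝ :=
  ∑ w ∈ irrs H, E β t m w * F w

/-- `m` is the mass at `t` -/
structure Mass (β : ℝ) (H : ℕ) (t m : ℝ) : Prop where
  t0 : 0 ≤ t
  tm : t ≤ m
  z : Z β H t m = 1

/-- S-shapes -/
structure SS (w : Wd) (i j : ℕ) : Prop where
  ij : i < j
  jn : j ≤ w.length
  a : ∀ k, k ≤ j → (pos w k).1 ≤ (pos w i).1
  b : ∀ k, i < k → k ≤ j → (pos w k).1 < (pos w i).1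
  c : ∀ k, i ≤ k → k ≤ w.length → (pos w j).1 ≤ (pos w k).1
  d : ∀ k, j < k → k ≤ w.length → (pos w j).1 < (pos w k).1

/-- the scale of an S-shape -/
def scal (w : Wd) (i j : ℕ) : ℤ := (pos w i).1 - (pos w j).1

open Classical in
/-- number of S-shapes of scale at most `a` -/
noncomputable def Q (a : ℕ) (w : Wd) : ℕ :=
  (((Finset.range (w.length + 1)) ×ˢ (Finset.range (w.length + 1))).filter
    (fun p : ℕ × ℕ => SS w p.1 p.2 ∧ scal w p.1 p.2 ≤ a)).card

open Classical in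
/-- number of pairs of S-shapes of scale at most `a`, the second one above the first one -/
noncomputable def P (a : ℕ) (w : Wd) : ℕ :=
  ((((Finset.range (w.length + 1)) ×ˢ (Finset.range (w.length + 1))) ×ˢ
    ((Finset.range (w.length + 1)) ×ˢ (Finset.range (w.length + 1)))).filter
    (fun p : (ℕ × ℕ) × (ℕ × ℕ) => SS w p.1.1 p.1.2 ∧ scal w p.1.1 p.1.2 ≤ a ∧
      SS w p.2.1 p.2.2 ∧ scal w p.2.1 p.2.2 ≤ a ∧
      (pos w p.1.1).1 ≤ (pos w p.2.2).1)).card

/-- the S-shape `(i,j)` covers the level `r` -/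
def Cov (w : Wd) (i j : ℕ) (r : ℤ) : Prop := (pos w j).1 ≤ r ∧ r < (pos w i).1

open Classical in
/-- number of the levels covered by an S-shape of scale at most `a` -/
noncomputable def Cs (a : ℕ) (w : Wd) : ℕ :=
  ((Finset.Ico (1 : ℤ) w.sum.1).filter
    (fun r => ∃ i j, SS w i j ∧ scal w i j ≤ a ∧ Cov w i j r)).card

open Classical in
/-- number of the levels covered by an S-shape of scale larger than `a` -/
noncomputable def Cb (a : ℕ) (w : Wd) : ℕ :=
  ((Finset.Ico (1 : ℤ) w.sum.1).filter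
    (fun r => ∃ i j, SS w i j ∧ (a : ℤ) < scal w i j ∧ Cov w i j r)).card

/-- the height as a real number -/
def hR (w : Wd) : ℝ := (w.sum.1 : ℝ)

/-- alternating concatenation: every second piece is reflected -/
def fold : Bool → List Wd → Wd
  | _, [] => []
  | b, p :: ps => (if b then p.map fl else p) ++ fold (!b) ps

end Pool.Agent.Lib.MP_c23e5f_co.G
end
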